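import Pool.Agent.CMX.StA

/-!
# CMX [Arith]: choosing groups of routes
-/

set_option autoImplicit false

namespace Pool.CMK

open Finset
open scoped Classical

/-- a small multiple of `σ`, starting at `h`, comes back to the interval -/
private theorem Arith_step (ε : ℝ) (hε : 0 < ε) (hε4 : ε ≤ 1 / 4) (k h σ : ℝ) (hk : 1 ≤ ε * k)
    (hh : 2 * h = k + 1) (h1 : -k < 2 * σ) (h2 : 2 * σ ≤ k) (L : ℝ) (hL : 1 / ε + 3 ≤ L) :
    ∃ m : ℕ, 1 ≤ m ∧ (m : ℝ) ≤ L ∧ ∃ r : ℤ, ε * k / 4 ≤ h + m * σ + k * r ∧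
      h + m * σ + k * r ≤ (1 / 2 + ε) * k := by
  have hk0 : 0 < k := by
    by_contra hcon
    have h3 : ε * k ≤ 0 := mul_nonpos_of_nonneg_of_nonpos hε.le (not_lt.1 hcon)
    linarith
  have hεk : ε * k ≤ k / 4 := by nlinarith
  have h1ε : 0 < 1 / ε := by positivity
  by_cases c1 : (1 / 2 + ε) * k < h + σ
  · -- large
    have hσ : ε * k / 2 ≤ σ := by nlinarith
    have hσ0 : 0 < σ := by linarith
    let z : ℝ := (k + ε * k / 4 - h) / σ
    have hz0 : 0 < z := by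
      apply div_pos _ hσ0
      linarith
    have hzσ : z * σ = k + ε * k / 4 - h := div_mul_cancel₀ _ hσ0.ne'
    refine ⟨⌈z⌉₊, Nat.one_le_iff_ne_zero.2 (Nat.ceil_pos.2 hz0).ne', ?_, -1, ?_, ?_⟩
    · have h3 : (⌈z⌉₊ : ℝ) < z + 1 := Nat.ceil_lt_add_one hz0.le
      have h4 : z ≤ 1 / ε + 1 / 2 := by
        have h5 : (1 / ε + 1 / 2) * (ε * k / 2) = k / 2 + ε * k / 4 := by
          field_simp
          ring
        have h6 : k + ε * k / 4 - h ≤ (1 / ε + 1 / 2) * (ε * k / 2) := by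
          rw [h5]
          linarith
        have h7 : (1 / ε + 1 / 2) * (ε * k / 2) ≤ (1 / ε + 1 / 2) * σ :=
          mul_le_mul_of_nonneg_left hσ (by positivity)
        have h8 : z * σ ≤ (1 / ε + 1 / 2) * σ := by
          rw [hzσ]
          linarith
        exact le_of_mul_le_mul_right h8 hσ0
      linarith
    · have h3 : z ≤ (⌈z⌉₊ : ℝ) := Nat.le_ceil z
      have h4 : z * σ ≤ (⌈z⌉₊ : ℝ) * σ := mul_le_mul_of_nonneg_right h3 hσ0.le
      push_cast
      linarith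
    · have h3 : (⌈z⌉₊ : ℝ) < z + 1 := Nat.ceil_lt_add_one hz0.le
      have h4 : (⌈z⌉₊ : ℝ) * σ ≤ (z + 1) * σ := mul_le_mul_of_nonneg_right h3.le hσ0.le
      push_cast
      nlinarith
  · by_cases c2 : h + σ < ε * k / 4
    · refine ⟨2, by norm_num, ?_, 1, ?_, ?_⟩
      · push_cast
        linarith
      · push_cast
        linarith
      · push_cast
        nlinarith
    · refine ⟨1, le_rfl, ?_, 0, ?_, ?_⟩
      · push_cast
        linarith
      · push_cast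
        linarith
      · push_cast
        linarith

/-- many residues are close to each other -/
private theorem Arith_pig (L q k : ℕ) (hq : 1 ≤ q) (y : Fin (L * q) → ℕ) (hL : 1 ≤ L)
    (hy : ∀ a, y a < k) : ∃ (F : Finset (Fin (L * q))) (a₀ : Fin (L * q)), a₀ ∈ F ∧ L ≤ F.card ∧
      ∀ a ∈ F, y a₀ ≤ y a ∧ q * (y a - y a₀) < k := by
  obtain ⟨c, _, hc⟩ := Finset.exists_le_card_fiber_of_mul_le_card_of_maps_to
    (s := (univ : Finset (Fin (L * q)))) (t := Finset.range q) (f := fun a => q * y a / k) (n := L)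
    (fun a _ => by
      rw [Finset.mem_range]
      have h1 : 0 < k := lt_of_le_of_lt (Nat.zero_le _) (hy a)
      rw [Nat.div_lt_iff_lt_mul h1]
      exact Nat.mul_lt_mul_of_pos_left (hy a) hq)
    (Finset.nonempty_range_iff.2 (by omega))
    (by rw [Finset.card_range, Finset.card_univ, Fintype.card_fin, mul_comm])
  let F : Finset (Fin (L * q)) := univ.filter fun a => q * y a / k = c
  have hne : F.Nonempty := by
    rw [← Finset.card_pos]
    exact lt_of_lt_of_le (by omega) hc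
  obtain ⟨a₀, ha₀, hmin⟩ := F.exists_min_image y hne
  refine ⟨F, a₀, ha₀, hc, fun a ha => ⟨hmin a ha, ?_⟩⟩
  have h1 : q * y a / k = c := (Finset.mem_filter.1 ha).2
  have h2 : q * y a₀ / k = c := (Finset.mem_filter.1 ha₀).2
  have hk : 0 < k := lt_of_le_of_lt (Nat.zero_le _) (hy a)
  have h3 : q * y a < (c + 1) * k := by
    rw [← Nat.div_lt_iff_lt_mul hk, h1]
    exact Nat.lt_succ_self c
  have h4 : c * k ≤ q * y a₀ := by
    rw [← h2]
    exact Nat.div_mul_le_self _ _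
  rw [Nat.mul_sub]
  have h5 : (c + 1) * k = c * k + k := by ring
  omega

/-- [Arith] Choosing groups of routes. -/
theorem thm_Arith : St_Arith := by
  intro ε₀ hε₀
  let ε : ℝ := min ε₀ (1 / 4)
  have hε : 0 < ε := lt_min hε₀ (by norm_num)
  have hε4 : ε ≤ 1 / 4 := min_le_right _ _
  have hεε : ε ≤ ε₀ := min_le_left _ _
  let L : ℕ := ⌈1 / ε⌉₊ + 3
  let q : ℕ := ⌈8 * L / ε⌉₊
  have hL1 : 1 ≤ L := by
    simp only [L]
    omega
  have hLε : 1 / ε + 3 ≤ (L : ℝ) := by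
    simp only [L]
    push_cast
    have := Nat.le_ceil (1 / ε)
    linarith
  have hqL : 8 * (L : ℝ) / ε ≤ q := Nat.le_ceil _
  have hL0 : (0 : ℝ) < L := by
    have : (1 : ℝ) ≤ L := by exact_mod_cast hL1
    linarith
  have hq0 : (0 : ℝ) < q := lt_of_lt_of_le (by positivity) hqL
  have hq1 : 1 ≤ q := by
    have : 0 < q := by exact_mod_cast hq0
    omega
  have hqL' : 8 * (L : ℝ) ≤ q * ε := by
    rwa [div_le_iff₀ hε] at hqL
  refine ⟨L * q, Nat.one_le_iff_ne_zero.2 (Nat.mul_ne_zero (by omega) (by omega)), fun E₀ => ?_⟩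
  refine ⟨⌈4 * E₀ / ε⌉₊ + ⌈1 / ε⌉₊ + 2, fun k hk hodd w => ?_⟩
  obtain ⟨h, hkh⟩ := hodd
  have hk2 : 2 ≤ k := by omega
  have hkE : 4 * (E₀ : ℝ) ≤ ε * k := by
    have h1 : 4 * (E₀ : ℝ) / ε ≤ ⌈4 * (E₀ : ℝ) / ε⌉₊ := Nat.le_ceil _
    have h2 : ((⌈4 * (E₀ : ℝ) / ε⌉₊ : ℕ) : ℝ) ≤ k := by
      have : ⌈4 * (E₀ : ℝ) / ε⌉₊ ≤ k := by omega
      exact_mod_cast this
    have h3 : 4 * (E₀ : ℝ) / ε ≤ k := le_trans h1 h2
    rw [div_le_iff₀ hε] at h3
    linarith
  have hk1 : 1 ≤ ε * (k : ℝ) := by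
    have h1 : 1 / ε ≤ ⌈1 / ε⌉₊ := Nat.le_ceil _
    have h2 : ((⌈1 / ε⌉₊ : ℕ) : ℝ) ≤ k := by
      have : ⌈1 / ε⌉₊ ≤ k := by omega
      exact_mod_cast this
    have h3 : 1 / ε ≤ k := le_trans h1 h2
    rw [div_le_iff₀ hε] at h3
    linarith
  have hk0 : 0 < k := by omega
  have hkR : (0 : ℝ) < k := by exact_mod_cast hk0
  let y : Fin (L * q) → ℕ := fun a => ((h + 1) * w a) % k
  obtain ⟨F₀, a₀, ha₀, hF₀, hclose⟩ := Arith_pig L q k hq1 y hL1 fun a => Nat.mod_lt _ hk0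
  -- the representative `σ` of `- y a₀`
  obtain ⟨s, hs1, hs2⟩ : ∃ s : ℤ, -(k : ℤ) < 2 * (-(y a₀ : ℤ) + k * s) ∧
      2 * (-(y a₀ : ℤ) + k * s) ≤ k := by
    have hlt : y a₀ < k := Nat.mod_lt _ hk0
    by_cases h1 : 2 * y a₀ < k
    · exact ⟨0, by omega, by omega⟩
    · refine ⟨1, ?_, ?_⟩
      · rw [mul_one]
        omega
      · rw [mul_one]
        omega
  have hs1' : -(k : ℝ) < 2 * (-(y a₀ : ℝ) + k * s) := by exact_mod_cast hs1
  have hs2' : 2 * (-(y a₀ : ℝ) + k * s) ≤ (k : ℝ) := by exact_mod_cast hs2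
  have hkh' : 2 * ((h : ℝ) + 1) = (k : ℝ) + 1 := by
    rw [hkh]
    push_cast
    ring
  obtain ⟨m, hm1, hmL, r, hr1, hr2⟩ := Arith_step ε hε hε4 k (h + 1) (-(y a₀ : ℝ) + k * s) hk1
    hkh' hs1' hs2' L hLε
  have hmL' : m ≤ L := by exact_mod_cast hmL
  obtain ⟨F, hFF, hFc⟩ := Finset.exists_subset_card_eq (le_trans hmL' hF₀)
  have hFne : F.Nonempty := by
    rw [← Finset.card_pos]
    omega
  refine ⟨F, hFne, fun e he heE => ?_⟩
  obtain ⟨e', he'⟩ := he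
  -- the defect `θ`
  let θ : ℕ := ∑ a ∈ F, (y a - y a₀)
  have hθ : ∑ a ∈ F, y a = m * y a₀ + θ := by
    have h1 : ∀ a ∈ F, y a = y a₀ + (y a - y a₀) := fun a ha => by
      have := (hclose a (hFF ha)).1
      omega
    rw [Finset.sum_congr rfl h1, Finset.sum_add_distrib, Finset.sum_const, hFc, smul_eq_mul]
  have hθ2 : (θ : ℝ) ≤ ε * k / 8 := by
    have h1 : q * θ ≤ m * k := by
      simp only [θ]
      rw [Finset.mul_sum, ← hFc, ← smul_eq_mul (#F), ← Finset.sum_const]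
      exact Finset.sum_le_sum fun a ha => (hclose a (hFF ha)).2.le
    have h2 : (q : ℝ) * θ ≤ m * k := by exact_mod_cast h1
    have h3 : (m : ℝ) * k ≤ L * k := mul_le_mul_of_nonneg_right hmL hkR.le
    have h4 : (q : ℝ) * θ ≤ q * (ε * k / 8) := by
      have h5 : (L : ℝ) * k ≤ (q * ε / 8) * k :=
        mul_le_mul_of_nonneg_right (by linarith) hkR.le
      calc (q : ℝ) * θ ≤ (q * ε / 8) * k := by linarith
        _ = q * (ε * k / 8) := by ring
    exact le_of_mul_le_mul_left h4 hq0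
  let j : ℤ := ((h : ℤ) + 1) + m * (-(y a₀ : ℤ) + k * s) + k * r
  have hj1 : ε * k / 4 ≤ (j : ℝ) := by
    simp only [j]
    push_cast
    exact hr1
  have hj2 : (j : ℝ) ≤ (1 / 2 + ε) * k := by
    simp only [j]
    push_cast
    exact hr2
  have heR : (e' : ℝ) ≤ E₀ / 2 := by
    have h1 : 2 * e' ≤ E₀ := by omega
    have h2 : 2 * (e' : ℝ) ≤ E₀ := by exact_mod_cast h1
    linarith
  have ht0 : 0 ≤ j - θ - e' := by
    have h1 : (0 : ℝ) ≤ ((j - θ - e' : ℤ) : ℝ) := by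
      push_cast
      linarith
    exact_mod_cast h1
  obtain ⟨t, ht⟩ := Int.eq_ofNat_of_zero_le ht0
  refine ⟨t, ?_, ?_⟩
  · have h1 : (t : ℝ) = (j : ℝ) - θ - e' := by
      have h2 : ((t : ℤ) : ℝ) = ((j - θ - e' : ℤ) : ℝ) := by rw [ht]
      push_cast at h2
      exact h2
    have h3 : (0 : ℝ) ≤ θ := Nat.cast_nonneg _
    have h4 : (0 : ℝ) ≤ e' := Nat.cast_nonneg _
    have h5 : ε * k ≤ ε₀ * k := mul_le_mul_of_nonneg_right hεε hkR.le
    rw [h1]
    nlinarith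
  · -- the congruence
    have hdiv : ∀ a, (k : ℤ) ∣ 2 * (y a : ℤ) - w a := by
      intro a
      have h1 := Nat.div_add_mod ((h + 1) * w a) k
      have h2 : (k : ℤ) * (((h + 1) * w a / k : ℕ) : ℤ) + (y a : ℤ) = ((h : ℤ) + 1) * w a := by
        have h3 : k * ((h + 1) * w a / k) + y a = (h + 1) * w a := h1
        exact_mod_cast h3
      refine ⟨(w a : ℤ) - 2 * (((h + 1) * w a / k : ℕ) : ℤ), ?_⟩
      have h4 : (k : ℤ) = 2 * h + 1 := by exact_mod_cast hkh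
      have h5 : (y a : ℤ) = ((h : ℤ) + 1) * w a - (k : ℤ) * (((h + 1) * w a / k : ℕ) : ℤ) := by
        linarith
      rw [h5]
      generalize (((h + 1) * w a / k : ℕ) : ℤ) = c
      rw [h4]
      ring
    have hdiv2 : (k : ℤ) ∣ ∑ a ∈ F, (2 * (y a : ℤ) - w a) := Finset.dvd_sum fun a _ => hdiv a
    have hsum : ∑ a ∈ F, (2 * (y a : ℤ) - w a) = 2 * (m * (y a₀ : ℤ) + θ) - ∑ a ∈ F, (w a : ℤ) := by
      rw [Finset.sum_sub_distrib, ← Finset.mul_sum]
      have h1 : ∑ a ∈ F, (y a : ℤ) = m * (y a₀ : ℤ) + θ := by exact_mod_cast hθ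
      rw [h1]
    rw [hsum] at hdiv2
    obtain ⟨c, hc⟩ := hdiv2
    have hmain : ((∑ a ∈ F, w a + e + 2 * t : ℕ) : ℤ) = 1 + k * (1 + 2 * m * s + 2 * r - c) := by
      push_cast
      have h1 : (t : ℤ) = j - θ - e' := ht.symm
      have h2 : (e : ℤ) = e' + e' := by exact_mod_cast he'
      have h4 : (k : ℤ) = 2 * h + 1 := by exact_mod_cast hkh
      have h5 : ∑ a ∈ F, (w a : ℤ) = 2 * (m * (y a₀ : ℤ) + θ) - k * c := by linarith
      rw [h1, h2, h5]
      simp only [j]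
      linear_combination (-1 : ℤ) * h4
    have h6 : ((∑ a ∈ F, w a + e + 2 * t : ℕ) : ℤ) % k = 1 := by
      rw [hmain, Int.add_mul_emod_self_left]
      exact Int.emod_eq_of_lt (by norm_num) (by exact_mod_cast hk2)
    exact_mod_cast h6

end Pool.CMK
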