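import Pool.Agent.CMX.Top
import Pool.Agent.CMK.Lib

/-!
# CMX: the theorem for graphs without small cuts (`St_Big`)
-/

set_option autoImplicit false

namespace Pool.CMK

open Finset
open scoped Classical

variable {V : Type}

theorem big_ad_bdr [Fintype V] (G : SimpleGraph V) (A : Finset V) :
    ad G A Aᶜ ≤ A.card * (bdr G A).card := by
  refine le_trans ?_ (lib_ad_le G A (bdr G A))
  unfold ad
  apply Finset.card_le_card
  intro p hp
  rw [mem_filter, mem_product, mem_compl] at hp
  rw [mem_filter, mem_product]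
  refine ⟨⟨hp.1.1, ?_⟩, hp.2⟩
  unfold bdr
  rw [mem_filter]
  exact ⟨mem_univ _, hp.1.2, p.1, hp.1.1, hp.2⟩

/-- The module BIG. -/
theorem thm_Big (hEndL : St_EndL) (hLarge : St_Large) (hMid : St_Mid) (hSmallV : St_SmallV)
    (hSmallT : St_SmallT) : St_Big := by
  obtain ⟨C, M₁, hL⟩ := hLarge
  obtain ⟨e₁, he₁, kV, hV⟩ := hSmallV
  obtain ⟨e₂, he₂, hT⟩ := hSmallT
  have he : 0 < min e₁ e₂ := lt_min he₁ he₂
  obtain ⟨M₂, hMd⟩ := hMid C (min e₁ e₂) he
  set M : ℕ := max M₁ M₂ + 1 with hMdef
  obtain ⟨kL, hL⟩ := hL M (by omega)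
  obtain ⟨kM, hMd⟩ := hMd M (by omega)
  obtain ⟨kT, hT⟩ := hT M
  refine ⟨max (max kL kM) (max kV kT) + 2, ?_⟩
  intro k hk hodd V _ G hSC hcard hdens hcut
  have hkL : k ≥ kL := by omega
  have hkM : k ≥ kM := by omega
  have hkV : k ≥ kV := by omega
  have hkT : k ≥ kT := by omega
  have hk2 : 2 ≤ k := by omega
  -- the degrees
  have hdeg : ∀ v : V, k < 2 * (nbs G v univ).card := by
    intro v
    have hne : ({v} : Finset V) ≠ univ := by
      intro h
      have := congrArg Finset.card h
      rw [card_singleton, Finset.card_univ] at this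
      omega
    have h1 := hcut {v} (singleton_nonempty v) hne
    have h2 : ad G {v} {v} = 0 := by
      rw [lib_ad_eq_sum, sum_singleton, Finset.card_eq_zero]
      unfold nbs
      rw [Finset.filter_eq_empty_iff]
      intro w hw
      rw [mem_singleton] at hw
      rw [hw]
      exact G.loopless.irrefl v
    have h3 : ad G {v} {v}ᶜ ≤ (nbs G v univ).card := by
      rw [lib_ad_eq_sum, sum_singleton]
      exact Finset.card_le_card (Finset.filter_subset_filter _ (subset_univ _))
    rw [card_singleton, mul_one, h2, zero_add] at h1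
    obtain ⟨j, hj⟩ := hodd
    omega
  -- the dichotomy for one region
  have hone : ∀ A : Finset V, Rgn G k M A → (∃ l, CycL G l ∧ l.length % k = 1) ∨
      (A.card : ℝ) ≤ (1 + min e₁ e₂) * k := by
    intro A hA
    by_cases h1 : C * k ≤ A.card
    · exact Or.inl (hL k hkL hodd V G A hA h1)
    by_cases h2 : (1 + min e₁ e₂) * k ≤ (A.card : ℝ)
    · exact Or.inl (hMd k hkM hodd V G A hA h2 (by omega))
    · exact Or.inr (by linarith [not_le.1 h2])
  have hk0 : (0 : ℝ) ≤ k := Nat.cast_nonneg k
  rcases hEndL V G M (by omega) with hI | ⟨A₁, A₂, hn1, hn2, hdis, hno, hb1, hb2, hI1, hI2⟩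
  · -- the whole graph
    have hreg : Rgn G k M (univ : Finset V) := by
      refine ⟨?_, ?_, hI, fun v _ => hdeg v, ?_⟩
      · rw [← Finset.card_pos, Finset.card_univ]
        omega
      · have : bdr G (univ : Finset V) = ∅ := by
          unfold bdr
          rw [Finset.filter_eq_empty_iff]
          intro v _ h
          exact h.1 (mem_univ v)
        rw [this, Finset.card_empty]
        omega
      · rw [Finset.card_univ]
        have h1 : k * Fintype.card V = k * (Fintype.card V - 1) + k := by
          obtain ⟨m, hm⟩ : ∃ m, Fintype.card V = m + 1 := ⟨Fintype.card V - 1, by omega⟩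
          rw [hm, Nat.add_sub_cancel]
          ring
        have h2 : k ≤ 4 * M * Fintype.card V := by
          have h3 : 1 * Fintype.card V ≤ 4 * M * Fintype.card V :=
            Nat.mul_le_mul_right _ (by omega)
          omega
        omega
    rcases hone univ hreg with h | h
    · exact h
    · rw [Finset.card_univ] at h
      obtain ⟨l, hl, hll⟩ := hV k hkV hodd V G hcard (le_trans h (by
        apply mul_le_mul_of_nonneg_right _ hk0
        linarith [min_le_left e₁ e₂])) hdens hdeg
      refine ⟨l, hl, ?_⟩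
      rw [hll, Nat.add_mod_left]
      exact Nat.mod_eq_of_lt (by omega)
  · -- two ends
    have hreg : ∀ A B : Finset V, A.Nonempty → B.Nonempty → Disjoint A B →
        (bdr G A).card < 2 * M → Ins G A M → Rgn G k M A := by
      intro A B hA hB hAB hb hI
      refine ⟨hA, hb, hI, fun v _ => hdeg v, ?_⟩
      have hne : A ≠ univ := by
        rintro rfl
        obtain ⟨b, hb⟩ := hB
        exact (Finset.disjoint_left.1 hAB) (mem_univ b) hb
      have h1 := hcut A hA hne
      have h2 := big_ad_bdr G A
      have h3 : A.card * (bdr G A).card ≤ A.card * (2 * M) := Nat.mul_le_mul_left _ (by omega)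
      have h4 : 4 * M * A.card = 2 * (A.card * (2 * M)) := by ring
      omega
    have hr1 := hreg A₁ A₂ hn1 hn2 hdis hb1 hI1
    have hr2 := hreg A₂ A₁ hn2 hn1 hdis.symm hb2 hI2
    rcases hone A₁ hr1 with h | h1
    · exact h
    rcases hone A₂ hr2 with h | h2
    · exact h
    have hle : (1 + min e₁ e₂) * (k : ℝ) ≤ (1 + e₂) * k := by
      apply mul_le_mul_of_nonneg_right _ hk0
      linarith [min_le_right e₁ e₂]
    exact hT k hkT hodd V G A₁ A₂ hSC hr1 hr2 hdis hno (h1.trans hle) (h2.trans hle)

end Pool.CMK
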