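import Pool.Agent.CMX.StA

/-!
# CMX: cycles from a closed sequence of paths between the pairs
-/

set_option autoImplicit false

namespace Pool.CMK

open Finset
open scoped Classical

/-- a sum of bounded natural numbers takes all values up to the sum of the bounds -/
private theorem CycB_sum {r : ℕ} (T : Fin r → ℕ) (s : ℕ) (hs : s ≤ ∑ i, T i) :
    ∃ t : Fin r → ℕ, (∀ i, t i ≤ T i) ∧ ∑ i, t i = s := by
  induction s with
  | zero => exact ⟨fun _ => 0, fun i => Nat.zero_le _, by simp⟩
  | succ s ih =>
    obtain ⟨t, ht, hts⟩ := ih (by omega)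
    have hlt : ∑ i, t i < ∑ i, T i := by omega
    obtain ⟨i, -, hi⟩ := Finset.exists_lt_of_sum_lt hlt
    refine ⟨Function.update t i (t i + 1), ?_, ?_⟩
    · intro j
      by_cases h : j = i
      · subst h
        simpa using hi
      · rw [Function.update_of_ne h]
        exact ht j
    · rw [Finset.sum_update_of_mem (Finset.mem_univ i)]
      have := Finset.add_sum_erase Finset.univ t (Finset.mem_univ i)
      rw [Finset.sdiff_singleton_eq_erase]
      omega

/-- the vertices of the lists with indices in `I` -/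
private noncomputable def CycB_W {V : Type} {N : ℕ} (q : Fin N → List V) (I : Finset (Fin N)) :
    Finset V := I.biUnion fun i => (q i).toFinset

private theorem CycB_W_card {V : Type} {N : ℕ} (q : Fin N → List V) (I : Finset (Fin N))
    (h : ∀ i ∈ I, (q i).length ≤ 4) : (CycB_W q I).card ≤ 4 * N := by
  unfold CycB_W
  refine Finset.card_biUnion_le.trans ?_
  calc ∑ i ∈ I, ((q i).toFinset).card ≤ ∑ i ∈ I, 4 :=
        Finset.sum_le_sum fun i hi => (List.toFinset_card_le _).trans (h i hi)
    _ = 4 * I.card := by rw [Finset.sum_const, smul_eq_mul, mul_comm]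
    _ ≤ 4 * N := by
        have := Finset.card_le_univ I
        rw [Fintype.card_fin] at this
        omega

private theorem CycB_sel {r N : ℕ} (τ : Fin N → Fin r) (sel : Fin r → Fin N)
    (hsel : ∀ j, τ (sel j) = j) (f : Fin r → ℕ) :
    ∑ i, (if i = sel (τ i) then f (τ i) else 0) = ∑ j, f j := by
  have h1 : ∀ i, (if i = sel (τ i) then f (τ i) else 0) = ∑ j, if i = sel j then f j else 0 := by
    intro i
    by_cases h : i = sel (τ i)
    · rw [if_pos h, Finset.sum_eq_single (τ i)]
      · rw [if_pos h]
      · intro j _ hj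
        rw [if_neg]
        intro hij
        apply hj
        rw [hij, hsel]
      · intro h'
        exact absurd (Finset.mem_univ _) h'
    · rw [if_neg h]
      symm
      refine Finset.sum_eq_zero fun j _ => ?_
      rw [if_neg]
      intro hij
      apply h
      rw [hij, hsel]
  rw [Finset.sum_congr rfl fun i _ => h1 i, Finset.sum_comm]
  refine Finset.sum_congr rfl fun j _ => ?_
  rw [Finset.sum_ite_eq']
  simp

theorem thm_CycB (hPP : St_PP) (hCycJ : St_CycJ) : St_CycB := by
  intro V _ G r N u A B m g w τ p hN hτ hpair hdisD hLp hLd hends hfew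
  -- the ends
  choose x hxD hxl using fun i => (hends i).1
  choose y hyD hyh using fun i => (hends i).2
  set U : Finset V := Finset.univ.filter (fun v => ∃ i, v ∈ p i) with hU
  have hymem : ∀ i, y i ∈ p (finRotate N i) := fun i => List.mem_of_mem_head? (hyh i)
  have hxmem : ∀ i, x i ∈ p i := fun i => List.mem_of_mem_getLast? (hxl i)
  have hUmem : ∀ i v, v ∈ p i → v ∈ U := by
    intro i v hv
    rw [hU, Finset.mem_filter]
    exact ⟨Finset.mem_univ _, i, hv⟩
  have hxy : ∀ i, x i ≠ y i := by
    intro i
    by_cases h : finRotate N i = i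
    · intro hxy
      obtain ⟨⟨h1, h2, h3⟩, h4⟩ := hLp i
      have ha := hyh i
      rw [h] at ha
      have hb := hxl i
      rw [List.head?_eq_getElem?, List.getElem?_eq_getElem (by omega)] at ha
      rw [List.getLast?_eq_getElem?, List.getElem?_eq_getElem (by omega)] at hb
      have ha' := Option.some.inj ha
      have hb' := Option.some.inj hb
      rw [← ha', ← hb'] at hxy
      have := (List.Nodup.getElem_inj_iff h2).1 hxy
      omega
    · intro hxy
      exact hLd i (finRotate N i) (fun h' => h h'.symm) (x i) (hxmem i) (hxy ▸ hymem _)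
  -- the connecting lists
  let a : Fin N → ℕ := fun i =>
    if (decide (x i ∈ A (τ i))) = (decide (y i ∈ A (τ i))) then 3 else 4
  have ha3 : ∀ i, 3 ≤ a i ∧ a i ≤ 4 := by
    intro i
    simp only [a]
    split_ifs <;> omega
  have key : ∀ i : Fin N, ∀ (t : ℕ) (W : Finset V),
      t + (u + 4 * N + 6 * g (τ i) + 2) ≤ m (τ i) → (W ∩ (A (τ i) ∪ B (τ i))).card ≤ u + 4 * N →
      ∃ q : List V, q.length = a i + 2 * t ∧ 3 ≤ q.length ∧ q.Nodup ∧ q.IsChain G.Adj ∧
        (∀ v ∈ q, v ∈ A (τ i) ∪ B (τ i) ∧ v ∉ W) ∧
        (∃ a, q.head? = some a ∧ G.Adj (x i) a) ∧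
        (∃ b, q.getLast? = some b ∧ G.Adj b (y i)) := by
    intro i t W ht hW
    set j := τ i with hj
    obtain ⟨h1, h2, h3, h4, h5, h6, h7, h8, h9⟩ := hpair j
    set sx : Bool := decide (x i ∈ A j) with hsx
    set sy : Bool := decide (y i ∈ A j) with hsy
    have hside : ∀ v : V, v ∈ A j ∪ B j →
        u + 4 * N + 2 * g j + 2 ≤ (nbs G v (if !decide (v ∈ A j) then A j else B j)).card := by
      intro v hv
      by_cases h : v ∈ A j
      · simp only [h, decide_true, Bool.not_true, Bool.false_eq_true, if_false]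
        exact h8.trans (h6 v h)
      · have hB : v ∈ B j := by
          rcases Finset.mem_union.1 hv with h' | h'
          · exact absurd h' h
          · exact h'
        simp only [h, decide_false, Bool.not_false, if_true]
        exact h8.trans (h7 v hB)
    have hae : a i = if (!sx) = (!sy) then 3 else 4 := by
      simp only [a, ← hj, ← hsx, ← hsy]
      cases sx <;> cases sy <;> rfl
    obtain ⟨q, q1, q2, q3, q4, q5, q6⟩ := hPP V G (A j) (B j) (m j) (g j) (u + 4 * N) W (x i)
      (y i) (!sx) (!sy) ((if (!sx) = (!sy) then 3 else 4) + 2 * t) h1 h2 h3 h4 h5 hW (hxy i)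
      (hside (x i) (hxD i)) (hside (y i) (hyD i))
      (by split_ifs <;> omega)
      (by
        split_ifs
        · exact ⟨t + 1, by ring⟩
        · exact ⟨t + 2, by ring⟩)
      (by split_ifs <;> omega)
    refine ⟨q, by rw [q1, hae], ?_, q2, q3, fun v hv => ⟨(q4 v hv).1, (q4 v hv).2.1⟩, q5, q6⟩
    rw [q1]
    split_ifs <;> omega
  have hUW : ∀ (j : Fin r) (W : Finset V), W.card ≤ 4 * N →
      ((U ∪ W) ∩ (A j ∪ B j)).card ≤ u + 4 * N := by
    intro j W hW
    rw [Finset.union_inter_distrib_right]
    refine (Finset.card_union_le _ _).trans (Nat.add_le_add ?_ ?_)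
    · refine le_trans (Finset.card_le_card ?_) (hfew j)
      intro v hv
      rw [Finset.mem_inter, hU, Finset.mem_filter] at hv
      rw [Finset.mem_filter]
      exact ⟨hv.2, hv.1.2⟩
    · exact (Finset.card_le_card Finset.inter_subset_left).trans hW
  -- the short lists
  have short : ∀ I : Finset (Fin N), ∃ q : Fin N → List V,
      (∀ i ∈ I, (q i).length = a i ∧ 3 ≤ (q i).length ∧ (q i).Nodup ∧ (q i).IsChain G.Adj ∧
        (∀ v ∈ q i, v ∈ A (τ i) ∪ B (τ i) ∧ v ∉ U) ∧
        (∃ a, (q i).head? = some a ∧ G.Adj (x i) a) ∧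
        (∃ b, (q i).getLast? = some b ∧ G.Adj b (y i))) ∧
      ∀ i ∈ I, ∀ i' ∈ I, i ≠ i' → ∀ v ∈ q i, v ∉ q i' := by
    intro I
    induction I using Finset.induction_on with
    | empty => exact ⟨fun _ => [], by simp, by simp⟩
    | insert i₀ I hi₀ ih =>
      obtain ⟨q, hq, hqd⟩ := ih
      have hW : (CycB_W q I).card ≤ 4 * N :=
        CycB_W_card q I fun i hi => by
          rw [(hq i hi).1]
          exact (ha3 i).2
      obtain ⟨q₀, c1, c2, c3, c4, c5, c6, c7⟩ := key i₀ 0 (U ∪ CycB_W q I)
        (by
          have := (hpair (τ i₀)).2.2.2.2.2.2.2.2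
          omega)
        (hUW _ _ hW)
      have hq0d : ∀ i ∈ I, ∀ v ∈ q₀, v ∉ q i := by
        intro i hi v hv hv'
        apply (c5 v hv).2
        rw [Finset.mem_union]
        right
        unfold CycB_W
        rw [Finset.mem_biUnion]
        exact ⟨i, hi, List.mem_toFinset.2 hv'⟩
      have hne : ∀ i ∈ I, i ≠ i₀ := fun i hi h => hi₀ (h ▸ hi)
      refine ⟨Function.update q i₀ q₀, ?_, ?_⟩
      · intro i hi
        rcases Finset.mem_insert.1 hi with rfl | hi
        · rw [Function.update_self]
          refine ⟨by rw [c1, mul_zero, add_zero], c2, c3, c4, fun v hv => ⟨(c5 v hv).1, fun h => ?_⟩,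
            c6, c7⟩
          exact (c5 v hv).2 (Finset.mem_union_left _ h)
        · rw [Function.update_of_ne (hne i hi)]
          exact hq i hi
      · intro i hi i' hi' hii v hv hv'
        rcases Finset.mem_insert.1 hi with hi1 | hi1
        · rcases Finset.mem_insert.1 hi' with hi2 | hi2
          · exact hii (hi1.trans hi2.symm)
          · rw [hi1, Function.update_self] at hv
            rw [Function.update_of_ne (hne i' hi2)] at hv'
            exact hq0d i' hi2 v hv hv'
        · rw [Function.update_of_ne (hne i hi1)] at hv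
          rcases Finset.mem_insert.1 hi' with hi2 | hi2
          · rw [hi2, Function.update_self] at hv'
            exact hq0d i hi1 v hv' hv
          · rw [Function.update_of_ne (hne i' hi2)] at hv'
            exact hqd i hi1 i' hi2 hii v hv hv'
  -- one long list for every pair
  choose sel hsel using hτ
  refine ⟨∑ i, ((p i).length + a i), ?_, ?_, ?_, ?_⟩
  · rw [Finset.sum_add_distrib]
    have : ∑ i : Fin N, 3 ≤ ∑ i, a i := Finset.sum_le_sum fun i _ => (ha3 i).1
    rw [Finset.sum_const, Finset.card_univ, Fintype.card_fin, smul_eq_mul] at this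
    omega
  · rw [Finset.sum_add_distrib]
    have : ∑ i, a i ≤ ∑ i : Fin N, 4 := Finset.sum_le_sum fun i _ => (ha3 i).2
    rw [Finset.sum_const, Finset.card_univ, Fintype.card_fin, smul_eq_mul] at this
    omega
  · -- parity
    have hAj : ∀ (i : Fin N) (v : V), v ∈ A (τ i) ∪ B (τ i) →
        ∀ l : Option V, l = some v → ((∃ j, ∃ z ∈ A j, l = some z) ↔ v ∈ A (τ i)) := by
      intro i v hv l hl
      constructor
      · rintro ⟨j, z, hz, hlz⟩
        rw [hl] at hlz
        have hvz : v = z := Option.some.inj hlz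
        subst hvz
        by_cases h : j = τ i
        · rw [← h]
          exact hz
        · exact absurd hv (Finset.disjoint_left.1 (hdisD j (τ i) h) (Finset.mem_union_left _ hz))
      · intro h
        exact ⟨τ i, v, h, hl⟩
    let hd : Fin N → ℕ := fun i => if ∃ j, ∃ z ∈ A j, (p i).head? = some z then 1 else 0
    let la : Fin N → ℕ := fun i => if ∃ j, ∃ z ∈ A j, (p i).getLast? = some z then 1 else 0
    have hsd : ∀ i, sdE A (p i) = hd i + la i := fun i => rfl
    have hla : ∀ i, la i = if x i ∈ A (τ i) then 1 else 0 := by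
      intro i
      simp only [la]
      rw [if_congr (hAj i (x i) (hxD i) _ (hxl i)) rfl rfl]
    have hhd : ∀ i, hd (finRotate N i) = if y i ∈ A (τ i) then 1 else 0 := by
      intro i
      simp only [hd]
      rw [if_congr (hAj i (y i) (hyD i) _ (hyh i)) rfl rfl]
    have hrot : ∑ i, hd i = ∑ i, hd (finRotate N i) := (Equiv.sum_comp (finRotate N) hd).symm
    have hai : ∀ i, ∃ s : ℕ, a i + 1 + (hd (finRotate N i) + la i) = 2 * s := by
      intro i
      rw [hhd, hla]
      by_cases h1 : x i ∈ A (τ i) <;> by_cases h2 : y i ∈ A (τ i)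
      · exact ⟨3, by simp [a, h1, h2]⟩
      · exact ⟨3, by simp [a, h1, h2]⟩
      · exact ⟨3, by simp [a, h1, h2]⟩
      · exact ⟨2, by simp [a, h1, h2]⟩
    choose s hs using hai
    have hN' : ∑ i : Fin N, 1 = N := by
      rw [Finset.sum_const, Finset.card_univ, Fintype.card_fin, smul_eq_mul, mul_one]
    have htot : ∑ i, ((p i).length + a i) + N + ∑ i, ((p i).length + sdE A (p i)) =
        2 * (∑ i, (p i).length + ∑ i, s i) := by
      have h1 : ∑ i, sdE A (p i) = ∑ i, (hd (finRotate N i) + la i) := by
        rw [Finset.sum_congr rfl fun i _ => hsd i, Finset.sum_add_distrib, hrot,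
          ← Finset.sum_add_distrib]
      have h2 : ∑ i, (a i + 1 + (hd (finRotate N i) + la i)) = ∑ i, 2 * s i :=
        Finset.sum_congr rfl fun i _ => hs i
      rw [Finset.sum_add_distrib, Finset.sum_add_distrib, ← h1, hN', ← Finset.mul_sum] at h2
      rw [Finset.sum_add_distrib, Finset.sum_add_distrib]
      omega
    rw [htot]
    omega
  · intro t ht
    have hT : t ≤ ∑ j, (m j - (u + 4 * N + 6 * g j + 2)) := by
      have e2 : ∑ j, (m j - (u + 4 * N + 6 * g j + 2)) + ∑ j, (u + 4 * N + 6 * g j + 2) =
          ∑ j, m j := by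
        rw [← Finset.sum_add_distrib]
        refine Finset.sum_congr rfl (fun j _ => ?_)
        exact Nat.sub_add_cancel (hpair j).2.2.2.2.2.2.2.2
      omega
    obtain ⟨tt, htt, htts⟩ := CycB_sum _ t hT
    set I : Finset (Fin N) := Finset.univ.filter (fun i => i ≠ sel (τ i)) with hI
    obtain ⟨q, hq, hqd⟩ := short I
    have hW : (CycB_W q I).card ≤ 4 * N :=
      CycB_W_card q I fun i hi => by
        rw [(hq i hi).1]
        exact (ha3 i).2
    have hlong : ∀ j : Fin r, ∃ q' : List V, q'.length = a (sel j) + 2 * tt j ∧ 3 ≤ q'.length ∧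
        q'.Nodup ∧ q'.IsChain G.Adj ∧
        (∀ v ∈ q', v ∈ A (τ (sel j)) ∪ B (τ (sel j)) ∧ v ∉ U ∪ CycB_W q I) ∧
        (∃ a, q'.head? = some a ∧ G.Adj (x (sel j)) a) ∧
        (∃ b, q'.getLast? = some b ∧ G.Adj b (y (sel j))) := by
      intro j
      apply key (sel j) (tt j) _ _ (hUW _ _ hW)
      rw [hsel]
      have h1 := htt j
      have h2 := (hpair j).2.2.2.2.2.2.2.2
      omega
    choose q' hq' using hlong
    let Q : Fin N → List V := fun i => if i = sel (τ i) then q' (τ i) else q i
    have hQ : ∀ i, (Q i).length = a i + (if i = sel (τ i) then 2 * tt (τ i) else 0) ∧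
        3 ≤ (Q i).length ∧ (Q i).Nodup ∧ (Q i).IsChain G.Adj ∧
        (∀ v ∈ Q i, v ∈ A (τ i) ∪ B (τ i) ∧ v ∉ U) ∧
        (∃ a, (Q i).head? = some a ∧ G.Adj (x i) a) ∧
        (∃ b, (Q i).getLast? = some b ∧ G.Adj b (y i)) := by
      intro i
      by_cases h : i = sel (τ i)
      · obtain ⟨c1, c2, c3, c4, c5, c6, c7⟩ := hq' (τ i)
        rw [← h] at c1 c5 c6 c7
        simp only [Q, if_pos h]
        exact ⟨c1, c2, c3, c4, fun v hv => ⟨(c5 v hv).1, fun hv' =>
          (c5 v hv).2 (Finset.mem_union_left _ hv')⟩, c6, c7⟩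
      · have hiI : i ∈ I := by
          rw [hI, Finset.mem_filter]
          exact ⟨Finset.mem_univ _, h⟩
        simp only [Q, if_neg h]
        rw [add_zero]
        exact hq i hiI
    have hQd : ∀ i i', i ≠ i' → ∀ v ∈ Q i, v ∉ Q i' := by
      have hmix : ∀ i i', i = sel (τ i) → i' ≠ sel (τ i') → ∀ v ∈ Q i, v ∉ Q i' := by
        intro i i' h h' v hv hv'
        simp only [Q, if_pos h] at hv
        simp only [Q, if_neg h'] at hv'
        apply ((hq' (τ i)).2.2.2.2.1 v hv).2
        rw [Finset.mem_union]
        right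
        unfold CycB_W
        rw [Finset.mem_biUnion]
        refine ⟨i', ?_, List.mem_toFinset.2 hv'⟩
        rw [hI, Finset.mem_filter]
        exact ⟨Finset.mem_univ _, h'⟩
      intro i i' hii v hv hv'
      by_cases h : i = sel (τ i)
      · by_cases h' : i' = sel (τ i')
        · have hne : τ i ≠ τ i' := by
            intro h''
            apply hii
            rw [h, h', h'']
          exact (Finset.disjoint_left.1 (hdisD _ _ hne)) ((hQ i).2.2.2.2.1 v hv).1
            ((hQ i').2.2.2.2.1 v hv').1
        · exact hmix i i' h h' v hv hv'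
      · by_cases h' : i' = sel (τ i')
        · exact hmix i' i h' h v hv' hv
        · simp only [Q, if_neg h] at hv
          simp only [Q, if_neg h'] at hv'
          exact hqd i (by rw [hI, Finset.mem_filter]; exact ⟨Finset.mem_univ _, h⟩) i'
            (by rw [hI, Finset.mem_filter]; exact ⟨Finset.mem_univ _, h'⟩) hii v hv hv'
    -- the long paths
    have hP : ∀ i, PathL G (p i ++ Q i) := by
      intro i
      obtain ⟨⟨h1, h2, h3⟩, h4⟩ := hLp i
      obtain ⟨-, -, c3, c4, c5, ⟨a0, c6, c6'⟩, -⟩ := hQ i
      refine ⟨by simp [h1], ?_, ?_⟩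
      · rw [List.nodup_append]
        refine ⟨h2, c3, ?_⟩
        intro v hv v' hv' hvv
        subst hvv
        exact (c5 v hv').2 (hUmem i v hv)
      · rw [List.isChain_append]
        refine ⟨h3, c4, ?_⟩
        intro z hz v hv
        rw [hxl i] at hz
        rw [c6] at hv
        cases hz
        cases hv
        exact c6'
    have hPd : ∀ i j, i ≠ j → ∀ v ∈ p i ++ Q i, v ∉ p j ++ Q j := by
      intro i j hij v hv hv'
      rw [List.mem_append] at hv hv'
      rcases hv with hv | hv
      · rcases hv' with hv' | hv'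
        · exact hLd i j hij v hv hv'
        · exact ((hQ j).2.2.2.2.1 v hv').2 (hUmem i v hv)
      · rcases hv' with hv' | hv'
        · exact ((hQ i).2.2.2.2.1 v hv).2 (hUmem j v hv')
        · exact hQd i j hij v hv hv'
    have hsumlen : ∑ i, (p i ++ Q i).length = ∑ i, ((p i).length + a i) + 2 * t := by
      have h1 : ∀ i, (p i ++ Q i).length =
          ((p i).length + a i) + (if i = sel (τ i) then 2 * tt (τ i) else 0) := by
        intro i
        rw [List.length_append, (hQ i).1]
        omega
      rw [Finset.sum_congr rfl fun i _ => h1 i, Finset.sum_add_distrib,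
        CycB_sel τ sel hsel (fun j => 2 * tt j), ← Finset.mul_sum, htts]
    obtain ⟨l, hl, hll, -⟩ := hCycJ V G N (fun i => p i ++ Q i) hN hP hPd
      (by
        intro i
        obtain ⟨-, -, -, -, -, -, b0, c7, c7'⟩ := hQ i
        refine ⟨b0, y i, ?_, ?_, c7'⟩
        · show (p i ++ Q i).getLast? = some b0
          rw [List.getLast?_append, c7]
          rfl
        · show (p (finRotate N i) ++ Q (finRotate N i)).head? = some (y i)
          rw [List.head?_append, hyh i]
          rfl)
      (by
        have h1 : (p ⟨0, hN⟩ ++ Q ⟨0, hN⟩).length ≤ ∑ i, (p i ++ Q i).length :=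
          Finset.single_le_sum (f := fun i => (p i ++ Q i).length) (fun i _ => Nat.zero_le _)
            (Finset.mem_univ (⟨0, hN⟩ : Fin N))
        have h2 := (hQ ⟨0, hN⟩).2.1
        rw [List.length_append] at h1
        show 3 ≤ ∑ i, (p i ++ Q i).length
        omega)
    refine ⟨l, hl, ?_⟩
    rw [hll]
    exact hsumlen

end Pool.CMK
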