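import Pool.Agent.CMX.StB

/-!
# CMX DICH: overlapping almost complete neighbourhoods give a cycle of length `k + 1`

`hZLem` with `c = (k + 1) / 2` for the codegree graph `H`, then `hReal`.
-/

set_option autoImplicit false

namespace Pool.CMK

open Finset
open scoped Classical

theorem thm_Dich (hZLem : St_ZLem) (hReal : St_Real) : St_Dich := by
  intro V G H Q R' Z₁ Z₂ b k hk h5 hQR h1 h2 hH hb1 hb2 hZ1 hZ12 hZu
  obtain ⟨m, hm⟩ := hk
  have hc : (k + 1) / 2 = m + 1 := by omega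
  have hc3 : 3 ≤ (k + 1) / 2 := by omega
  obtain ⟨l, hl, hlen, hsub⟩ := hZLem V H Z₁ Z₂ b ((k + 1) / 2) hc3 hb1 hb2 hZ1 hZ12 hZu
  have hlk : l.length ≤ k := by omega
  obtain ⟨l', hl', hlen'⟩ := hReal V G H Q R' l hQR
    (fun v hv => (union_subset h1 h2) (hsub v hv)) hl
    (fun z z' hz => le_trans hlk (hH z z' hz))
  exact ⟨l', hl', by omega⟩

end Pool.CMK
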