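import Pool.Agent.CMX.StA
import Pool.Agent.CMK.Lib

/-!
# CMX: cycles from ears at one pair (`St_Ears`)
-/

set_option autoImplicit false

namespace Pool.CMK

open Finset
open scoped Classical

private theorem Ears_rot (N : ℕ) (i : Fin N) : ((finRotate N i : Fin N) : ℕ) = (i + 1) % N := by
  rcases N with _ | N
  · exact i.elim0
  · rw [coe_finRotate]
    split_ifs with h
    · rw [h, Fin.val_last, Nat.mod_self]
    · have h1 : (i : ℕ) ≠ N := fun h2 => h (Fin.ext h2)
      have h2 := i.isLt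
      rw [Nat.mod_eq_of_lt (by omega)]

private theorem Ears_sum {n : ℕ} (f : Fin n × Fin 2 → ℕ) :
    ∑ i : Fin (n * 2), f (finProdFinEquiv.symm i) = ∑ l, (f (l, 0) + f (l, 1)) := by
  rw [Equiv.sum_comp finProdFinEquiv.symm f, Fintype.sum_prod_type]
  exact Finset.sum_congr rfl fun l _ => Fin.sum_univ_two _

private theorem Ears_sdE {V : Type} {r : ℕ} (A : Fin r → Finset V) (l : List V) :
    sdE A l.reverse = sdE A l := by
  unfold sdE
  rw [List.head?_reverse, List.getLast?_reverse, add_comm]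

private theorem Ears_two {V : Type} {l : List V} {x y : V} (h1 : l.head? = some x)
    (h2 : l.getLast? = some y) (h : x ≠ y) : 2 ≤ l.length := by
  rcases l with _ | ⟨a, _ | ⟨b, l⟩⟩
  · simp at h1
  · exfalso
    apply h
    simp at h1 h2
    rw [← h1, ← h2]
  · simp

/-- The module EARS. -/
theorem thm_Ears (hCycB : St_CycB) : St_Ears := by
  intro V _ G r n u A B m g w j₀ jj P P' hn hjj hsur hpair hdis hP hPd hPP hcard
  obtain ⟨q, hq⟩ : ∃ q : Fin n × Fin 2 → List V, ∀ x, q x =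
      if x.2 = 0 then P x.1 else (P' x.1).reverse := ⟨_, fun _ => rfl⟩
  have hq0 : ∀ l, q (l, 0) = P l := fun l => by rw [hq, if_pos rfl]
  have hq1 : ∀ l, q (l, 1) = (P' l).reverse := fun l => by
    rw [hq, if_neg (by norm_num)]
  obtain ⟨σ, hσ⟩ : ∃ σ : Fin n × Fin 2 → Fin r, ∀ x, σ x = if x.2 = 0 then jj x.1 else j₀ :=
    ⟨_, fun _ => rfl⟩
  have hσ0 : ∀ l, σ (l, 0) = jj l := fun l => by rw [hσ, if_pos rfl]
  have hσ1 : ∀ l, σ (l, 1) = j₀ := fun l => by rw [hσ, if_neg (by norm_num)]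
  have hcase : ∀ x : Fin n × Fin 2, (∃ l, x = (l, 0)) ∨ ∃ l, x = (l, 1) := by
    rintro ⟨l, e⟩
    rcases Fin.exists_fin_two.mp ⟨e, rfl⟩ with h | h
    · exact Or.inl ⟨l, by rw [h]⟩
    · exact Or.inr ⟨l, by rw [h]⟩
  -- the ends of the paths
  have hne : ∀ l x y, x ∈ A j₀ ∪ B j₀ → y ∈ A (jj l) ∪ B (jj l) → x ≠ y := by
    intro l x y hx hy hxy
    rw [← hxy] at hy
    exact Finset.disjoint_left.mp (hdis j₀ (jj l) (hjj l).symm) hx hy
  have hpath : ∀ x, PathL G (q x) ∧ 2 ≤ (q x).length := by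
    intro x
    rcases hcase x with ⟨l, rfl⟩ | ⟨l, rfl⟩
    · rw [hq0]
      obtain ⟨⟨h1, ⟨a, ha, ha'⟩, ⟨b, hb, hb'⟩⟩, -⟩ := hP l
      exact ⟨h1, Ears_two ha' hb' (hne l a b ha hb)⟩
    · rw [hq1, List.length_reverse]
      obtain ⟨-, ⟨h1, ⟨a, ha, ha'⟩, ⟨b, hb, hb'⟩⟩⟩ := hP l
      exact ⟨lib_path_reverse h1, Ears_two ha' hb' (hne l a b ha hb)⟩
  have hdq : ∀ x y, x ≠ y → ∀ v ∈ q x, v ∉ q y := by
    intro x y hxy v hv hv'
    rcases hcase x with ⟨l, rfl⟩ | ⟨l, rfl⟩ <;> rcases hcase y with ⟨l', rfl⟩ | ⟨l', rfl⟩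
    · rw [hq0] at hv hv'
      exact (hPd l l' fun h => hxy (by rw [h])).1 v hv hv'
    · rw [hq0] at hv
      rw [hq1, List.mem_reverse] at hv'
      exact hPP l l' v hv hv'
    · rw [hq1, List.mem_reverse] at hv
      rw [hq0] at hv'
      exact hPP l' l v hv' hv
    · rw [hq1, List.mem_reverse] at hv hv'
      exact (hPd l l' fun h => hxy (by rw [h])).2 v hv hv'
  have hlast : ∀ x, ∃ v ∈ A (σ x) ∪ B (σ x), (q x).getLast? = some v := by
    intro x
    rcases hcase x with ⟨l, rfl⟩ | ⟨l, rfl⟩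
    · rw [hq0, hσ0]
      exact (hP l).1.2.2
    · rw [hq1, hσ1, List.getLast?_reverse]
      exact (hP l).2.2.1
  have hrot : ∀ i : Fin (n * 2), ∃ v ∈ A (σ (finProdFinEquiv.symm i)) ∪
      B (σ (finProdFinEquiv.symm i)),
      (q (finProdFinEquiv.symm (finRotate (n * 2) i))).head? = some v := by
    intro i
    obtain ⟨i', hi'⟩ : ∃ i', i' = finRotate (n * 2) i := ⟨_, rfl⟩
    have h1 : (i' : ℕ) = (i + 1) % (n * 2) := by rw [hi', Ears_rot]
    rw [← hi']
    have hx : ∀ k : Fin (n * 2), ((finProdFinEquiv.symm k).1 : ℕ) = k / 2 ∧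
        ((finProdFinEquiv.symm k).2 : ℕ) = k % 2 := fun k => ⟨rfl, rfl⟩
    obtain ⟨x, hx1⟩ : ∃ x, x = finProdFinEquiv.symm i := ⟨_, rfl⟩
    obtain ⟨x', hx2⟩ : ∃ x, x = finProdFinEquiv.symm i' := ⟨_, rfl⟩
    obtain ⟨a1, a2⟩ := hx i
    obtain ⟨a3, a4⟩ := hx i'
    rw [← hx1] at a1 a2 ⊢
    rw [← hx2] at a3 a4 ⊢
    have hlt := i.isLt
    rcases hcase x with ⟨l, rfl⟩ | ⟨l, rfl⟩
    · -- the next path is the reversed second path of the same ear
      have b1 : (i : ℕ) % 2 = 0 := a2.symm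
      have b2 : (l : ℕ) = i / 2 := a1
      have b3 : (i' : ℕ) = i + 1 := by
        rw [h1]
        apply Nat.mod_eq_of_lt
        omega
      rcases hcase x' with ⟨l', rfl⟩ | ⟨l', rfl⟩
      · exfalso
        have b4 : (i' : ℕ) % 2 = 0 := a4.symm
        omega
      · have b5 : (l' : ℕ) = i' / 2 := a3
        have b6 : l' = l := Fin.ext (by omega)
        rw [b6, hq1, hσ0, List.head?_reverse]
        exact (hP l).2.2.2
    · -- the next path is the first path of the next ear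
      have b1 : (i : ℕ) % 2 = 1 := a2.symm
      have b3 : (i' : ℕ) % 2 = 0 := by
        rw [h1, Nat.mod_mul_left_mod]
        omega
      rcases hcase x' with ⟨l', rfl⟩ | ⟨l', rfl⟩
      · rw [hq0, hσ1]
        exact (hP l').1.2.1
      · exfalso
        have b4 : (i' : ℕ) % 2 = 1 := a4.symm
        omega
  obtain ⟨b, hb1, hb2, hb3, hb4⟩ := hCycB V G r (n * 2) u A B m g w
    (fun i => σ (finProdFinEquiv.symm i)) (fun i => q (finProdFinEquiv.symm i)) (by omega)
    (by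
      intro j
      by_cases hj : j = j₀
      · refine ⟨finProdFinEquiv (⟨0, hn⟩, 1), ?_⟩
        simp only [Equiv.symm_apply_apply]
        rw [hσ1, hj]
      · obtain ⟨l, hl⟩ := hsur j hj
        refine ⟨finProdFinEquiv (l, 0), ?_⟩
        simp only [Equiv.symm_apply_apply]
        rw [hσ0, hl])
    (by
      intro j
      obtain ⟨h1, h2, h3, h4, h5, h6, h7, h8, h9⟩ := hpair j
      exact ⟨h1, h2, h3, h4, h5, h6, h7, by omega, by omega⟩)
    hdis (fun i => hpath _)
    (fun i j hij => hdq _ _ fun h => hij (finProdFinEquiv.symm.injective h))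
    (fun i => ⟨hlast _, hrot i⟩)
    (by
      intro j
      refine le_trans (Finset.card_le_card fun v hv => ?_) (hcard j)
      rw [mem_filter] at hv ⊢
      obtain ⟨h1, i, hi⟩ := hv
      refine ⟨h1, ?_⟩
      obtain ⟨x, hx⟩ : ∃ x, x = finProdFinEquiv.symm i := ⟨_, rfl⟩
      rw [← hx] at hi
      rcases hcase x with ⟨l, rfl⟩ | ⟨l, rfl⟩
      · rw [hq0] at hi
        exact ⟨l, Or.inl hi⟩
      · rw [hq1, List.mem_reverse] at hi
        exact ⟨l, Or.inr hi⟩)
  have s1 : ∑ i : Fin (n * 2), (q (finProdFinEquiv.symm i)).length =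
      ∑ l, ((P l).length + (P' l).length) := by
    rw [Ears_sum fun x => (q x).length]
    exact Finset.sum_congr rfl fun l _ => by rw [hq0, hq1, List.length_reverse]
  have s2 : ∑ i : Fin (n * 2), ((q (finProdFinEquiv.symm i)).length +
      sdE A (q (finProdFinEquiv.symm i))) =
      ∑ l, ((P l).length + sdE A (P l) + ((P' l).length + sdE A (P' l))) := by
    rw [Ears_sum fun x => (q x).length + sdE A (q x)]
    exact Finset.sum_congr rfl fun l _ => by rw [hq0, hq1, List.length_reverse, Ears_sdE]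
  rw [s1] at hb1 hb2
  rw [s2] at hb3
  refine ⟨b, by omega, by omega, by omega, fun t ht => hb4 t ?_⟩
  have s3 : ∑ j, (u + 4 * (n * 2) + 6 * g j + 2) = ∑ j, (u + 8 * n + 6 * g j + 2) :=
    Finset.sum_congr rfl fun j _ => by ring
  rw [s3]
  exact ht

end Pool.CMK
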