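import Pool.Agent.CMX.Top

/-!
# CMX: two ends, or no small separation (`St_EndL`)
-/

set_option autoImplicit false

namespace Pool.CMK

open Finset
open scoped Classical

variable {V : Type}

/-- sets with a small boundary, with something outside -/
def EndF [Fintype V] (G : SimpleGraph V) (M : ℕ) (A : Finset V) : Prop :=
  A.Nonempty ∧ (bdr G A).card < 2 * M ∧ A ∪ bdr G A ≠ univ

theorem endL_mem_bdr [Fintype V] {G : SimpleGraph V} {A : Finset V} {v : V} :
    v ∈ bdr G A ↔ v ∉ A ∧ ∃ a ∈ A, G.Adj a v := by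
  simp [bdr]

/-- one side of the separation gives a smaller set -/
theorem endL_step [Fintype V] {G : SimpleGraph V} {M : ℕ} {A P Q : Finset V} (hM : 1 ≤ M)
    (hF : EndF G M A) (hPQ : Disjoint P Q) (hno : ∀ p ∈ P, ∀ q ∈ Q, ¬ G.Adj p q)
    (hc : ((P ∪ Q)ᶜ).card < M) (hP : ¬ Disjoint A P) (hQ : ¬ Disjoint A Q)
    (hs : (bdr G A ∩ P).card ≤ M - 1) : ∃ A' : Finset V, A' ⊂ A ∧ EndF G M A' := by
  refine ⟨A ∩ P, ?_, ?_, ?_, ?_⟩
  · refine ⟨inter_subset_left, fun h => ?_⟩
    rw [Finset.not_disjoint_iff] at hQ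
    obtain ⟨x, hxA, hxQ⟩ := hQ
    exact (Finset.disjoint_left.1 hPQ) (mem_inter.1 (h hxA)).2 hxQ
  · rw [Finset.not_disjoint_iff] at hP
    obtain ⟨x, hxA, hxP⟩ := hP
    exact ⟨x, mem_inter.2 ⟨hxA, hxP⟩⟩
  · have h1 : bdr G (A ∩ P) ⊆ (bdr G A ∩ P) ∪ (P ∪ Q)ᶜ := by
      intro v hv
      rw [endL_mem_bdr] at hv
      obtain ⟨hv1, a, ha, hav⟩ := hv
      rw [mem_inter] at ha
      by_cases hvP : v ∈ P
      · refine mem_union_left _ (mem_inter.2 ⟨?_, hvP⟩)
        rw [endL_mem_bdr]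
        exact ⟨fun h => hv1 (mem_inter.2 ⟨h, hvP⟩), a, ha.1, hav⟩
      · refine mem_union_right _ ?_
        rw [mem_compl, mem_union]
        rintro (h | h)
        · exact hvP h
        · exact hno a ha.2 v h hav
    have h2 := Finset.card_le_card h1
    have h3 := Finset.card_union_le (bdr G A ∩ P) (P ∪ Q)ᶜ
    omega
  · intro h
    apply hF.2.2
    apply eq_univ_of_forall
    intro v
    have hv : v ∈ A ∩ P ∪ bdr G (A ∩ P) := by rw [h]; exact mem_univ v
    rw [mem_union] at hv ⊢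
    rcases hv with hv | hv
    · exact Or.inl (mem_inter.1 hv).1
    · rw [endL_mem_bdr] at hv
      obtain ⟨hv1, a, ha, hav⟩ := hv
      by_cases hvA : v ∈ A
      · exact Or.inl hvA
      · right
        rw [endL_mem_bdr]
        exact ⟨hvA, a, (mem_inter.1 ha).1, hav⟩

/-- a set with a small boundary contains an end -/
theorem endL_min [Fintype V] {G : SimpleGraph V} {M : ℕ} (hM : 1 ≤ M) :
    ∀ A : Finset V, EndF G M A → ∃ B ⊆ A, EndF G M B ∧ Ins G B M := by
  intro A
  induction A using Finset.strongInduction with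
  | H A ih =>
    intro hF
    by_cases hI : Ins G A M
    · exact ⟨A, Subset.rfl, hF, hI⟩
    unfold Ins at hI
    push Not at hI
    obtain ⟨P, Q, hPQ, hno, hc, hP, hQ⟩ := hI
    have hsum : (bdr G A ∩ P).card + (bdr G A ∩ Q).card ≤ (bdr G A).card := by
      rw [← Finset.card_union_of_disjoint]
      · exact Finset.card_le_card (union_subset inter_subset_left inter_subset_left)
      · exact hPQ.mono inter_subset_right inter_subset_right
    have h2 := hF.2.1
    obtain ⟨A', hA', hFA'⟩ : ∃ A' : Finset V, A' ⊂ A ∧ EndF G M A' := by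
      by_cases h : (bdr G A ∩ P).card ≤ M - 1
      · exact endL_step hM hF hPQ hno hc hP hQ h
      · refine endL_step hM hF hPQ.symm (fun q hq p hp hh => hno p hp q hq hh.symm) ?_ hQ hP ?_
        · rwa [union_comm]
        · omega
    obtain ⟨B, hB, hB2⟩ := ih A' hA' hFA'
    exact ⟨B, hB.trans hA'.1, hB2⟩

/-- The module ENDL. -/
theorem thm_EndL : St_EndL := by
  intro V _ G M hM
  by_cases hI : Ins G univ M
  · exact Or.inl hI
  right
  unfold Ins at hI
  push Not at hI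
  obtain ⟨P, Q, hPQ, hno, hc, hP, hQ⟩ := hI
  have key : ∀ P Q : Finset V, Disjoint P Q → (∀ p ∈ P, ∀ q ∈ Q, ¬ G.Adj p q) →
      ((P ∪ Q)ᶜ).card < M → ¬ Disjoint univ P → ¬ Disjoint univ Q → EndF G M P := by
    intro P Q hPQ hno hc hP hQ
    rw [Finset.not_disjoint_iff] at hP hQ
    obtain ⟨p, -, hp⟩ := hP
    obtain ⟨q, -, hq⟩ := hQ
    refine ⟨⟨p, hp⟩, ?_, ?_⟩
    · have h1 : bdr G P ⊆ (P ∪ Q)ᶜ := by
        intro v hv
        rw [endL_mem_bdr] at hv
        obtain ⟨hv1, a, ha, hav⟩ := hv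
        rw [mem_compl, mem_union]
        rintro (h | h)
        · exact hv1 h
        · exact hno a ha v h hav
      have := Finset.card_le_card h1
      omega
    · intro h
      have hv : q ∈ P ∪ bdr G P := by rw [h]; exact mem_univ q
      rw [mem_union, endL_mem_bdr] at hv
      rcases hv with hv | ⟨-, a, ha, haq⟩
      · exact (Finset.disjoint_left.1 hPQ) hv hq
      · exact hno a ha q hq haq
  obtain ⟨A₁, h1, hF1, hI1⟩ := endL_min hM P (key P Q hPQ hno hc hP hQ)
  obtain ⟨A₂, h2, hF2, hI2⟩ := endL_min hM Q (key Q P hPQ.symm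
    (fun q hq p hp hh => hno p hp q hq hh.symm) (by rwa [union_comm]) hQ hP)
  exact ⟨A₁, A₂, hF1.1, hF2.1, hPQ.mono h1 h2, fun a ha b hb => hno a (h1 ha) b (h2 hb),
    hF1.2.1, hF2.2.1, hI1, hI2⟩

end Pool.CMK
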