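import Pool.Agent.CMX.F_Base

/-!
# CMX, part F: the windmill
-/

set_option autoImplicit false

namespace Pool.CMK

open Finset
open scoped Classical

/-- the windmill with petals of `q + 1` vertices -/
def FX_mill (n q : ℕ) : SimpleGraph (Fin n) where
  Adj i j := i ≠ j ∧ (i.val = 0 ∨ j.val = 0 ∨ (i.val - 1) / q = (j.val - 1) / q)
  symm := ⟨by
    rintro i j ⟨h1, h2⟩
    exact ⟨h1.symm, by tauto⟩⟩
  loopless := ⟨fun i h => h.1 rfl⟩

theorem FX_mill_adj (n q : ℕ) (i j : Fin n) : (FX_mill n q).Adj i j ↔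
    i ≠ j ∧ (i.val = 0 ∨ j.val = 0 ∨ (i.val - 1) / q = (j.val - 1) / q) := Iff.rfl

/-- a petal -/
def FX_pet (n q m : ℕ) : Finset (Fin n) :=
  univ.filter fun i => i.val = 0 ∨ (m * q < i.val ∧ i.val ≤ (m + 1) * q)

theorem FX_pet_card {n q m : ℕ} (hq : 1 ≤ q) (h : (m + 1) * q + 1 ≤ n) :
    (FX_pet n q m).card = q + 1 := by
  have h1 : (FX_pet n q m).map Fin.valEmbedding = insert 0 (Finset.Ioc (m * q) ((m + 1) * q)) := by
    ext i
    simp only [FX_pet, mem_map, mem_filter, mem_univ, true_and, Fin.valEmbedding_apply, mem_insert,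
      mem_Ioc]
    constructor
    · rintro ⟨x, hx, rfl⟩
      exact hx
    · intro hi
      have hin : i < n := by
        rcases hi with h0 | h0
        · omega
        · omega
      exact ⟨⟨i, hin⟩, hi, rfl⟩
  have h2 := congrArg Finset.card h1
  rw [card_map, card_insert_of_notMem (by simp), Nat.card_Ioc] at h2
  rw [h2, add_mul, one_mul]
  omega

theorem FX_pet_div {q m i : ℕ} (hq : 1 ≤ q) (h1 : m * q < i) (h2 : i ≤ (m + 1) * q) :
    (i - 1) / q = m := by
  rw [Nat.div_eq_iff (by omega)]
  rw [add_mul, one_mul] at h2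
  constructor
  · rw [mul_comm] at h1 ⊢
    omega
  · rw [mul_comm] at h1 h2 ⊢
    omega

theorem FX_pet_St {n q m : ℕ} (hq : 1 ≤ q) (h : (m + 1) * q + 1 ≤ n) :
    FX_St (FX_mill n q) (q + 1) (FX_pet n q m) := by
  refine FX_St_clique (by omega) ⟨FX_pet_card hq h, fun a ha b hb hab => ?_⟩
  rw [FX_mill_adj]
  refine ⟨hab, ?_⟩
  simp only [FX_pet, mem_filter, mem_univ, true_and] at ha hb
  rcases ha with ha | ha
  · exact Or.inl ha
  · rcases hb with hb | hb
    · exact Or.inr (Or.inl hb)
    · exact Or.inr (Or.inr (by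
        rw [FX_pet_div hq ha.1 ha.2, FX_pet_div hq hb.1 hb.2]))

theorem FX_mill_St {n q : ℕ} (hq : 1 ≤ q) : ∀ m : ℕ, (m + 1) * q + 1 ≤ n →
    FX_St (FX_mill n q) (q + 1) (univ.filter fun i : Fin n => i.val ≤ (m + 1) * q) := by
  intro m
  induction m with
  | zero =>
    intro h
    have h1 : (univ.filter fun i : Fin n => i.val ≤ (0 + 1) * q) = FX_pet n q 0 := by
      ext i
      simp only [FX_pet, mem_filter, mem_univ, true_and]
      omega
    rw [h1]
    exact FX_pet_St hq h
  | succ m ih =>
    intro h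
    have h0 : (m + 1 + 1) * q = (m + 1) * q + q := by ring
    have h1 := ih (by omega)
    have h2 := FX_pet_St hq h
    have hn : 0 < n := by omega
    have hG : FX_Gl (FX_mill n q) (univ.filter fun i : Fin n => i.val ≤ (m + 1) * q)
        (FX_pet n q (m + 1)) ⟨0, hn⟩ := by
      constructor
      · ext i
        simp only [FX_pet, mem_inter, mem_filter, mem_univ, true_and, mem_singleton, Fin.ext_iff]
        omega
      · intro a ha b hb hav hbv hadj
        rw [FX_mill_adj] at hadj
        simp only [FX_pet, mem_filter, mem_univ, true_and] at ha hb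
        have ha0 : a.val ≠ 0 := fun h => hav (Fin.ext h)
        have hb0 : b.val ≠ 0 := fun h => hbv (Fin.ext h)
        have hb' := hb.resolve_left hb0
        have e1 := FX_pet_div hq hb'.1 hb'.2
        have e2 : (a.val - 1) / q < m + 1 := by
          rw [Nat.div_lt_iff_lt_mul (by omega)]
          omega
        rcases hadj.2 with h | h | h
        · exact ha0 h
        · exact hb0 h
        · omega
    refine FX_glue' hG h1 h2 fun i => ?_
    simp only [FX_pet, mem_filter, mem_univ, true_and]
    omega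

/-- the windmill has the extremal structure -/
theorem FX_exists {n k : ℕ} (hk : 2 ≤ k) (hn : k ≤ n) (hd : (k - 1) ∣ (n - 1)) :
    ∃ G : SimpleGraph (Fin n), FX_St G k univ := by
  obtain ⟨m, hm⟩ := hd
  have hm1 : 1 ≤ m := by
    by_contra h
    have : m = 0 := by omega
    rw [this] at hm
    omega
  obtain ⟨m', rfl⟩ : ∃ m', m = m' + 1 := ⟨m - 1, by omega⟩
  have h1 : (m' + 1) * (k - 1) + 1 = n := by
    rw [mul_comm]
    omega
  have h := FX_mill_St (n := n) (q := k - 1) (by omega) m' (by omega)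
  have h2 : k - 1 + 1 = k := by omega
  rw [h2] at h
  have h3 : (univ.filter fun i : Fin n => i.val ≤ (m' + 1) * (k - 1)) = univ := by
    ext i
    simp only [mem_filter, mem_univ, true_and, iff_true]
    have := i.isLt
    omega
  rw [h3] at h
  exact ⟨_, h⟩

end Pool.CMK
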