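import Pool.Agent.CMX.F_Up
import Pool.Agent.CMX.F_Mill

/-!
# CMX, part F: the final theorem
-/

set_option autoImplicit false

namespace Pool.CMK

open Finset
open scoped Classical

/-- connectedness by cuts -/
theorem FX_pre {X : Type} (H : SimpleGraph X) : H.Preconnected ↔
    ∀ S : Set X, S.Nonempty → Sᶜ.Nonempty → ∃ a ∈ S, ∃ b, b ∉ S ∧ H.Adj a b := by
  constructor
  · rintro h S ⟨a, ha⟩ ⟨b, hb⟩
    obtain ⟨p⟩ := h a b
    obtain ⟨d, -, hd1, hd2⟩ := p.exists_boundary_dart S ha hb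
    exact ⟨d.fst, hd1, d.snd, hd2, d.adj⟩
  · intro h x y
    by_contra hcon
    obtain ⟨a, ha, b, hb, hab⟩ := h {w | H.Reachable x w} ⟨x, SimpleGraph.Reachable.refl x⟩
      ⟨y, hcon⟩
    exact hb (SimpleGraph.Reachable.trans ha hab.reachable)

theorem FX_Cf_iff {V : Type} (G : SimpleGraph V) (U : Finset V) :
    FX_Cf G U ↔ (G.induce (U : Set V)).Preconnected := by
  rw [FX_pre]
  constructor
  · rintro h S ⟨a, ha⟩ ⟨b, hb⟩
    obtain ⟨x, hx, y, hy, hxy⟩ := h (U.filter fun w => ∃ hw : w ∈ U, (⟨w, hw⟩ : (U : Set V)) ∈ S)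
      (U.filter fun w => ¬ ∃ hw : w ∈ U, (⟨w, hw⟩ : (U : Set V)) ∈ S)
      ⟨a.1, mem_filter.mpr ⟨a.2, a.2, ha⟩⟩
      ⟨b.1, mem_filter.mpr ⟨b.2, fun ⟨_, hw⟩ => hb hw⟩⟩
      (disjoint_filter_filter_not _ _ _) (filter_union_filter_not_eq _ _)
    rw [mem_filter] at hx hy
    obtain ⟨hxU, hx'⟩ := hx.2
    exact ⟨⟨x, hxU⟩, hx', ⟨y, hy.1⟩, fun h => hy.2 ⟨hy.1, h⟩, hxy⟩
  · intro h A B hA hB hd hAB
    obtain ⟨a, ha⟩ := hA
    obtain ⟨b, hb⟩ := hB
    have haU : a ∈ U := by rw [← hAB]; exact mem_union_left _ ha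
    have hbU : b ∈ U := by rw [← hAB]; exact mem_union_right _ hb
    obtain ⟨x, hx, y, hy, hxy⟩ := h {w | w.1 ∈ A} ⟨⟨a, haU⟩, ha⟩
      ⟨⟨b, hbU⟩, fun h => disjoint_left.mp hd h hb⟩
    refine ⟨x.1, hx, y.1, ?_, hxy⟩
    have hyU : y.1 ∈ A ∪ B := by rw [hAB]; exact y.2
    exact (mem_union.mp hyU).resolve_left hy

theorem FX_Cf_univ {V : Type} [Fintype V] (G : SimpleGraph V) :
    FX_Cf G univ ↔ G.Preconnected := by
  rw [FX_pre]
  constructor
  · rintro h S ⟨a, ha⟩ ⟨b, hb⟩
    obtain ⟨x, hx, y, hy, hxy⟩ := h (univ.filter fun w => w ∈ S) (univ.filter fun w => ¬ w ∈ S)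
      ⟨a, mem_filter.mpr ⟨mem_univ _, ha⟩⟩ ⟨b, mem_filter.mpr ⟨mem_univ _, hb⟩⟩
      (disjoint_filter_filter_not _ _ _) (filter_union_filter_not_eq _ _)
    rw [mem_filter] at hx hy
    exact ⟨x, hx.2, y, hy.2, hxy⟩
  · intro h A B hA hB hd hAB
    obtain ⟨a, ha⟩ := hA
    obtain ⟨b, hb⟩ := hB
    obtain ⟨x, hx, y, hy, hxy⟩ := h {w | w ∈ A} ⟨a, ha⟩ ⟨b, fun h => disjoint_left.mp hd h hb⟩
    refine ⟨x, hx, y, ?_, hxy⟩
    have hyU : y ∈ A ∪ B := by rw [hAB]; exact mem_univ _
    exact (mem_union.mp hyU).resolve_left hy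

theorem FX_NC_iff {V : Type} (G : SimpleGraph V) (U : Finset V) : FX_NC G U ↔
    ((G.induce (U : Set V)).Connected ∧
      ∀ v ∈ (U : Set V), (G.induce ((U : Set V) \ {v})).Preconnected) := by
  unfold FX_NC
  rw [SimpleGraph.connected_iff, ← FX_Cf_iff]
  have h1 : Nonempty ((U : Set V) : Type) ↔ U.Nonempty := by
    rw [Set.nonempty_coe_sort, Finset.coe_nonempty]
  have h2 : ∀ v ∈ (U : Set V), ((G.induce ((U : Set V) \ {v})).Preconnected ↔
      FX_Cf G (U.erase v)) := by
    intro v _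
    rw [FX_Cf_iff, Finset.coe_erase]
  constructor
  · rintro ⟨a, b, c⟩
    exact ⟨⟨b, h1.mpr a⟩, fun v hv => (h2 v hv).mpr (c v hv)⟩
  · rintro ⟨⟨b, a⟩, c⟩
    exact ⟨h1.mp a, b, fun v hv => (h2 v hv).mp (c v hv)⟩

theorem FX_blk {V : Type} [Fintype V] (G : SimpleGraph V) (U : Finset V) :
    IsBlk G (U : Set V) ↔ FX_Bf G univ U := by
  unfold IsBlk FX_Bf Maximal
  simp only
  rw [← FX_NC_iff]
  constructor
  · rintro ⟨h1, h2⟩
    refine ⟨subset_univ _, h1, fun U' _ h3 h4 => ?_⟩
    have h5 := @h2 (U' : Set V) ((FX_NC_iff G U').mp h3) (by exact_mod_cast h4)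
    exact Subset.antisymm (by exact_mod_cast h5) h4
  · rintro ⟨-, h1, h2⟩
    refine ⟨h1, fun U' h3 h4 => ?_⟩
    have h5 : ((U'.toFinset : Finset V) : Set V) = U' := Set.coe_toFinset U'
    rw [← h5] at h3 h4 ⊢
    have h6 := h2 U'.toFinset (subset_univ _) ((FX_NC_iff G _).mpr h3) (by exact_mod_cast h4)
    rw [h6]

theorem FX_iso {V : Type} (G : SimpleGraph V) (k : ℕ) (U : Finset V) :
    Nonempty (G.induce (U : Set V) ≃g (⊤ : SimpleGraph (Fin k))) ↔ FX_Kq G k U := by
  constructor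
  · rintro ⟨e⟩
    constructor
    · have h := Fintype.card_congr e.toEquiv
      rw [Fintype.card_fin] at h
      rw [← h]
      exact (Fintype.card_coe U).symm
    · intro a ha b hb hab
      have h : (G.induce (U : Set V)).Adj ⟨a, ha⟩ ⟨b, hb⟩ := by
        rw [← e.map_adj_iff, SimpleGraph.top_adj]
        intro h
        exact hab (congrArg Subtype.val (e.injective h))
      exact h
  · rintro ⟨h1, h2⟩
    have hc : Fintype.card ((U : Set V) : Type) = k := by
      rw [← h1]
      exact Fintype.card_coe U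
    refine ⟨⟨Fintype.equivFinOfCardEq hc, ?_⟩⟩
    intro a b
    rw [SimpleGraph.top_adj]
    constructor
    · intro h
      exact h2 a.1 a.2 b.1 b.2 fun hab => h (congrArg _ (Subtype.ext hab))
    · intro h hab
      have : a = b := (Fintype.equivFinOfCardEq hc).injective hab
      rw [this] at h
      exact h.ne rfl

theorem FX_St_iff {V : Type} [Fintype V] [Nonempty V] (G : SimpleGraph V) (k : ℕ) :
    FX_St G k univ ↔
      (G.Connected ∧ ∀ W, IsBlk G W → Nonempty (G.induce W ≃g (⊤ : SimpleGraph (Fin k)))) := by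
  unfold FX_St
  rw [SimpleGraph.connected_iff, ← FX_Cf_univ]
  constructor
  · rintro ⟨-, h1, h2⟩
    refine ⟨⟨h1, inferInstance⟩, fun W hW => ?_⟩
    have h5 : ((W.toFinset : Finset V) : Set V) = W := Set.coe_toFinset W
    rw [← h5] at hW ⊢
    rw [FX_blk] at hW
    exact (FX_iso G k _).mpr (h2 _ hW)
  · rintro ⟨⟨h1, -⟩, h2⟩
    exact ⟨univ_nonempty, h1, fun U hU => (FX_iso G k U).mp (h2 _ ((FX_blk G U).mpr hU))⟩

/-- a cycle given by a list is a closed walk which is a cycle -/
theorem FX_walk {V : Type} (G : SimpleGraph V) (l : List V) (h : CycL G l) :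
    ∃ (v : V) (c : G.Walk v v), c.IsCycle ∧ c.length = l.length := by
  obtain ⟨h3, hn, hc, a, b, ha, hb, hab⟩ := h
  have hne : l ≠ [] := by
    intro h0
    rw [h0] at h3
    simp at h3
  have ha' : l.head hne = a := by
    have := List.head?_eq_some_head hne
    rw [this] at ha
    exact Option.some.inj ha
  have hb' : l.getLast hne = b := by
    have := List.getLast?_eq_some_getLast hne
    rw [this] at hb
    exact Option.some.inj hb
  have hadj : G.Adj (l.getLast hne) (l.head hne) := by rw [ha', hb']; exact hab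
  refine ⟨l.getLast hne, SimpleGraph.Walk.cons hadj (SimpleGraph.Walk.ofSupport l hne hc), ?_, ?_⟩
  · rw [SimpleGraph.Walk.cons_isCycle_iff]
    have hp : (SimpleGraph.Walk.ofSupport l hne hc).IsPath := by
      apply SimpleGraph.Walk.IsPath.mk'
      rw [SimpleGraph.Walk.support_ofSupport]
      exact hn
    refine ⟨hp, fun hm => ?_⟩
    rw [Sym2.eq_swap] at hm
    have h1 := hp.length_eq_one_of_mem_edges hm
    rw [SimpleGraph.Walk.length_ofSupport] at h1
    omega
  · rw [SimpleGraph.Walk.length_cons, SimpleGraph.Walk.length_ofSupport]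
    omega

/-- the converse -/
theorem FX_list {V : Type} (G : SimpleGraph V) (v : V) (c : G.Walk v v) (hc : c.IsCycle) :
    ∃ l, CycL G l ∧ l.length = c.length := by
  have h3 := hc.three_le_length
  have hlen : c.support.length = c.length + 1 := c.length_support
  have hs : c.support = v :: c.support.tail := c.cons_tail_support.symm
  have hch := c.isChain_adj_support
  have htl : c.support.tail.length = c.length := by
    rw [List.length_tail, hlen]
    omega
  have hne : c.support.tail ≠ [] := by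
    intro h0
    rw [h0] at htl
    simp only [List.length_nil] at htl
    omega
  refine ⟨c.support.tail, ⟨by omega, hc.support_nodup, hch.tail, c.support.tail.head hne, v,
    List.head?_eq_some_head hne, ?_, ?_⟩, htl⟩
  · rw [List.getLast?_eq_some_getLast hne, List.getLast_tail]
    simp
  · rw [hs] at hch
    have h4 : c.support.tail = c.support.tail.head hne :: c.support.tail.tail :=
      (List.cons_head_tail hne).symm
    rw [h4, List.isChain_cons_cons] at hch
    exact hch.1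

/-- `ad G univ univ` is twice the number of edges -/
theorem FX_ad {n : ℕ} (G : SimpleGraph (Fin n)) :
    ad G univ univ = 2 * G.edgeSet.ncard := by
  have h1 : G.edgeSet.ncard = G.edgeFinset.card := by
    rw [← SimpleGraph.coe_edgeFinset, Set.ncard_coe_finset]
  have h2 : ad G univ univ = ∑ v, G.degree v := by
    unfold ad
    rw [Finset.card_filter, Finset.sum_product]
    refine Finset.sum_congr rfl fun x _ => ?_
    rw [← SimpleGraph.card_neighborFinset_eq_degree, ← Finset.card_filter]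
    congr 1
    ext w
    simp
  rw [h2, h1, SimpleGraph.sum_degrees_eq_twice_card_edges]

theorem FX_free {n k : ℕ} (G : SimpleGraph (Fin n)) (hG : FX_St G k univ) :
    FreeM k G ∧ 2 * G.edgeSet.ncard = k * (n - 1) := by
  constructor
  · intro v c hc hmod
    obtain ⟨l, hl, hlen⟩ := FX_list G v c hc
    have h1 := FX_cyc_le hG hl fun _ _ => mem_univ _
    have h3 := hl.1
    rw [← hlen] at hmod
    rcases Nat.lt_or_ge l.length k with h | h
    · rw [Nat.mod_eq_of_lt h] at hmod
      omega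
    · have : l.length = k := by omega
      rw [this, Nat.mod_self] at hmod
      omega
  · rw [← FX_ad, FX_count _ univ rfl hG, card_univ, Fintype.card_fin]

theorem thm_FinX (hBig : St_Big) : St_FinX := by
  obtain ⟨k₁, hk₁⟩ := hBig
  refine ⟨max k₁ 3, fun k hk hodd n hn => ?_⟩
  have hk1 : k₁ ≤ k := le_trans (le_max_left _ _) hk
  have hk3 : 3 ≤ k := le_trans (le_max_right _ _) hk
  have : Nonempty (Fin n) := ⟨⟨0, by omega⟩⟩
  have hup : ∀ G : SimpleGraph (Fin n), FreeM k G → 2 * G.edgeSet.ncard ≤ k * (n - 1) ∧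
      (2 * G.edgeSet.ncard = k * (n - 1) → FX_St G k univ) := by
    intro G hG
    have h := FX_up G k (by omega) (hk₁ k hk1 hodd) n univ
      (by rw [card_univ, Fintype.card_fin]) univ_nonempty (fun l hl _ hmod => by
        obtain ⟨v, c, hc, hlen⟩ := FX_walk G l hl
        exact hG v c hc (by rw [hlen]; exact hmod))
    rw [FX_ad, card_univ, Fintype.card_fin] at h
    exact ⟨h.1, fun h' => (h.2 h').resolve_left (by omega)⟩
  refine ⟨fun G hG => (hup G hG).1, fun hd G => ?_⟩
  rw [← FX_St_iff]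
  constructor
  · rintro ⟨hfree, hmax⟩
    obtain ⟨G', hG'⟩ := FX_exists (by omega) hn hd
    obtain ⟨h1, h2⟩ := FX_free G' hG'
    have h3 := hmax G' h1
    have h4 := hup G hfree
    exact h4.2 (by omega)
  · intro hS
    obtain ⟨h1, h2⟩ := FX_free G hS
    refine ⟨h1, fun G' hG' => ?_⟩
    have h3 := (hup G' hG').1
    omega

end Pool.CMK
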