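import Pool.Agent.CMX.StB
import Pool.Agent.CMK.Lib

/-!
# CMX, module Grp: paths in a nearly complete graph
-/

set_option autoImplicit false

namespace Pool.CMK

open Finset
open scoped Classical

private theorem Grp_cons {T : Type} {H : SimpleGraph T} {z x w : T} {l : List T}
    (h : PathFT H z x l) (hw : w ∉ l) (hadj : H.Adj w z) : PathFT H w x (w :: l) := by
  obtain ⟨⟨hne, hnd, hch⟩, hhd, hlast⟩ := h
  cases l with
  | nil => exact absurd rfl hne
  | cons a t =>
    have ha : a = z := by simpa using hhd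
    subst ha
    refine ⟨⟨by simp, List.nodup_cons.2 ⟨hw, hnd⟩, List.isChain_cons_cons.2 ⟨hadj, hch⟩⟩, by simp, ?_⟩
    rw [List.getLast?_cons_cons]
    exact hlast

private theorem Grp_pick {T : Type} (N X : Finset T) (h : X.card < N.card) :
    ∃ w ∈ N, w ∉ X := by
  by_contra hcon
  push Not at hcon
  exact absurd (card_le_card hcon) (by omega)

private theorem Grp_len {T : Type} (l : List T) : l.toFinset.card ≤ l.length :=
  List.toFinset_card_le l

private theorem Grp_grow {T : Type} (H : SimpleGraph T) (N : Finset T) (b p : ℕ) (x y : T)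
    (hN : ∀ v ∈ N, (N.filter (fun w => w ≠ v ∧ ¬ H.Adj v w)).card ≤ b) (hx : x ∈ N)
    (hxy : x ≠ y) (hp : p + 2 * b ≤ N.card) : ∀ q : ℕ, q + 3 ≤ p →
    ∃ z l, PathFT H z x l ∧ l.length = q + 1 ∧ (∀ v ∈ l, v ∈ N) ∧ y ∉ l := by
  intro q
  induction q with
  | zero =>
    intro _
    refine ⟨x, [x], ⟨⟨by simp, by simp, by simp⟩, by simp, by simp⟩, by simp, ?_, ?_⟩
    · intro v hv
      rw [List.mem_singleton] at hv
      rw [hv]; exact hx
    · rw [List.mem_singleton]
      exact fun h => hxy h.symm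
  | succ q ih =>
    intro hq
    obtain ⟨z, l, hl, hlen, hlN, hy⟩ := ih (by omega)
    have hz : z ∈ l := List.mem_of_mem_head? (by rw [hl.2.1]; simp)
    have hzN : z ∈ N := hlN z hz
    obtain ⟨w, hwN, hw⟩ := Grp_pick N
      (N.filter (fun w => w ≠ z ∧ ¬ H.Adj z w) ∪ (l.toFinset ∪ {y})) (by
        have h1 := card_union_le (N.filter (fun w => w ≠ z ∧ ¬ H.Adj z w)) (l.toFinset ∪ {y})
        have h2 := card_union_le l.toFinset {y}
        have h3 := hN z hzN
        have h4 := Grp_len l
        rw [card_singleton] at h2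
        omega)
    rw [mem_union, mem_union, mem_filter, List.mem_toFinset, mem_singleton] at hw
    push Not at hw
    obtain ⟨h1, h2, h3⟩ := hw
    have hwz : w ≠ z := fun h => h2 (h ▸ hz)
    have hadj : H.Adj z w := h1 hwN hwz
    refine ⟨w, w :: l, Grp_cons hl h2 hadj.symm, by rw [List.length_cons, hlen], ?_, ?_⟩
    · intro v hv
      rcases List.mem_cons.1 hv with h | h
      · rw [h]; exact hwN
      · exact hlN v h
    · intro hv
      rcases List.mem_cons.1 hv with h | h
      · exact h3 h.symm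
      · exact hy h

theorem thm_Grp : St_Grp := by
  intro T H N b p x y hN hx hyN hxy hp hcard
  obtain ⟨z, l, hl, hlen, hlN, hy⟩ := Grp_grow H N b p x y hN hx hxy hcard (p - 3) (by omega)
  have hz : z ∈ l := List.mem_of_mem_head? (by rw [hl.2.1]; simp)
  have hzN : z ∈ N := hlN z hz
  obtain ⟨w, hwN, hw⟩ := Grp_pick N
    (N.filter (fun w => w ≠ z ∧ ¬ H.Adj z w) ∪ N.filter (fun w => w ≠ y ∧ ¬ H.Adj y w) ∪
      (l.toFinset ∪ {y})) (by
      have h1 := card_union_le (N.filter (fun w => w ≠ z ∧ ¬ H.Adj z w) ∪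
        N.filter (fun w => w ≠ y ∧ ¬ H.Adj y w)) (l.toFinset ∪ {y})
      have h1' := card_union_le (N.filter (fun w => w ≠ z ∧ ¬ H.Adj z w))
        (N.filter (fun w => w ≠ y ∧ ¬ H.Adj y w))
      have h2 := card_union_le l.toFinset {y}
      have h3 := hN z hzN
      have h3' := hN y hyN
      have h4 := Grp_len l
      rw [card_singleton] at h2
      omega)
  rw [mem_union, mem_union, mem_union, mem_filter, mem_filter, List.mem_toFinset,
    mem_singleton] at hw
  push Not at hw
  obtain ⟨⟨h1, h1'⟩, h2, h3⟩ := hw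
  have hwz : w ≠ z := fun h => h2 (h ▸ hz)
  have hadj : H.Adj z w := h1 hwN hwz
  have hadj' : H.Adj y w := h1' hwN h3
  have hp1 : PathFT H w x (w :: l) := Grp_cons hl h2 hadj.symm
  have hp2 : PathFT H y x (y :: w :: l) := Grp_cons hp1 (by
    intro h
    rcases List.mem_cons.1 h with h | h
    · exact h3 h.symm
    · exact hy h) hadj'
  refine ⟨(y :: w :: l).reverse, lib_pathFT_reverse hp2, ?_, ?_⟩
  · rw [List.length_reverse, List.length_cons, List.length_cons, hlen]
    omega
  · intro v hv
    rw [List.mem_reverse] at hv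
    rcases List.mem_cons.1 hv with h | h
    · rw [h]; exact hyN
    · rcases List.mem_cons.1 h with h | h
      · rw [h]; exact hwN
      · exact hlN v h

end Pool.CMK
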