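import Pool.Agent.CMX.StB
import Pool.Agent.CMK.Lib

/-!
# CMX, LEMB: segments through untypical vertices, and the extras (MP_3a51d2_co)
-/

set_option autoImplicit false

namespace Pool.CMK

open Finset
open scoped Classical

private lemma L_choose2 {V : Type} (S F : Finset V) (h : F.card < S.card) : ∃ r ∈ S, r ∉ F := by
  by_contra hcon
  push Not at hcon
  have := card_le_card (fun x hx => hcon x hx : S ⊆ F)
  omega

/-- every vertex of `Zl` gets two private neighbours in `R` -/
theorem L_trip {V : Type} (G : SimpleGraph V) (R F : Finset V) (K : ℕ) : ∀ Zl : List V, Zl.Nodup →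
    (∀ z ∈ Zl, z ∈ F ∧ K ≤ (nbs G z R).card) → F.card + 3 * Zl.length ≤ K →
    ∃ Es : List (List V), Es.length = Zl.length ∧ Es.flatten.Nodup ∧
      Es.flatten.length = 3 * Zl.length ∧ (∀ E ∈ Es, ∃ a b, a ∈ R ∧ b ∈ R ∧ PathFT G a b E) ∧
      ∀ v ∈ Es.flatten, v ∈ Zl ∨ (v ∈ R ∧ v ∉ F) := by
  intro Zl
  induction Zl with
  | nil =>
    intro _ _ _
    exact ⟨[], rfl, by simp, by simp, by simp, by simp⟩
  | cons z Zl ih =>
    intro hnd hz hK
    rw [List.length_cons] at hK
    rw [List.nodup_cons] at hnd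
    obtain ⟨Es, e1, e2, e3, e4, e5⟩ := ih hnd.2 (fun w hw => hz w (List.mem_cons_of_mem _ hw))
      (by omega)
    obtain ⟨hzF, hzK⟩ := hz z List.mem_cons_self
    have hc := card_union_le F Es.flatten.toFinset
    have hc2 := List.toFinset_card_le Es.flatten
    obtain ⟨r, hr, hrF⟩ := L_choose2 (nbs G z R) (F ∪ Es.flatten.toFinset) (by omega)
    obtain ⟨s, hs, hsF⟩ := L_choose2 (nbs G z R) (insert r (F ∪ Es.flatten.toFinset)) (by
      have := card_insert_le r (F ∪ Es.flatten.toFinset)
      omega)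
    rw [lib_mem_nbs] at hr hs
    rw [mem_union, List.mem_toFinset, not_or] at hrF
    rw [mem_insert, mem_union, List.mem_toFinset, not_or, not_or] at hsF
    have hrz : r ≠ z := fun h => hrF.1 (h ▸ hzF)
    have hsz : s ≠ z := fun h => hsF.2.1 (h ▸ hzF)
    have hzE : z ∉ Es.flatten := by
      intro h
      rcases e5 z h with h | h
      · exact hnd.1 h
      · exact h.2 hzF
    refine ⟨[r, z, s] :: Es, by simp [e1], ?_, ?_, ?_, ?_⟩
    · rw [List.flatten_cons, List.nodup_append]
      refine ⟨?_, e2, ?_⟩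
      · simp only [List.nodup_cons, List.mem_cons, List.not_mem_nil, or_false, not_or,
          not_false_eq_true, List.nodup_nil, and_true]
        exact ⟨⟨hrz, Ne.symm hsF.1⟩, Ne.symm hsz⟩
      · intro u hu w hw huw
        subst huw
        simp only [List.mem_cons, List.not_mem_nil, or_false] at hu
        rcases hu with rfl | rfl | rfl
        · exact hrF.2 hw
        · exact hzE hw
        · exact hsF.2.2 hw
    · rw [List.flatten_cons, List.length_append, e3]
      simp only [List.length_cons, List.length_nil]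
      omega
    · intro E hE
      rcases List.mem_cons.1 hE with rfl | hE
      · refine ⟨r, s, hr.1, hs.1, ⟨by simp, ?_, ?_⟩, by simp, by simp⟩
        · simp only [List.nodup_cons, List.mem_cons, List.not_mem_nil, or_false, not_or,
            not_false_eq_true, List.nodup_nil, and_true]
          exact ⟨⟨hrz, Ne.symm hsF.1⟩, Ne.symm hsz⟩
        · simp only [List.isChain_cons_cons, List.isChain_singleton, and_true]
          exact ⟨hr.2.symm, hs.2⟩
      · exact e4 E hE
    · intro v hv
      rw [List.flatten_cons, List.mem_append] at hv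
      simp only [List.mem_cons, List.not_mem_nil, or_false] at hv
      rw [List.mem_cons]
      rcases hv with (rfl | rfl | rfl) | hv
      · exact Or.inr ⟨hr.1, hrF.1⟩
      · exact Or.inl (Or.inl rfl)
      · exact Or.inr ⟨hs.1, hsF.2.1⟩
      · rcases e5 v hv with h | h
        · exact Or.inl (Or.inr h)
        · exact Or.inr h

/-- an extra: a path with 2 or 3 vertices outside of `X'` with both ends in `R` -/
def IsEx {V : Type} (G : SimpleGraph V) (R X' : Finset V) (c : ℕ) (E : List V) : Prop :=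
  (∃ a b, a ∈ R ∧ b ∈ R ∧ PathFT G a b E) ∧ E.length = c ∧ ∀ v ∈ E, v ∉ X'

private lemma L_flat_len {V : Type} (c : ℕ) : ∀ Ls : List (List V), (∀ E ∈ Ls, E.length = c) →
    Ls.flatten.length = c * Ls.length := by
  intro Ls
  induction Ls with
  | nil => intro _; simp
  | cons E Ls ih =>
    intro h
    rw [List.flatten_cons, List.length_append, ih (fun E' hE' => h E' (List.mem_cons_of_mem _ hE')),
      h E List.mem_cons_self, List.length_cons]
    ring

/-- extras with total excess exactly `2 J` -/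
theorem L_extras {V : Type} (G : SimpleGraph V) (R X' : Finset V) (J : ℕ)
    (hno : ∀ U : Finset V, U.card ≤ 4 * J →
      ∃ (c : ℕ) (E : List V), (c = 2 ∨ c = 3) ∧ IsEx G R X' c E ∧ ∀ v ∈ E, v ∉ U) :
    ∃ Es : List (List V), (∀ E ∈ Es, (∃ a b, a ∈ R ∧ b ∈ R ∧ PathFT G a b E) ∧ ∀ v ∈ E, v ∉ X') ∧
      Es.flatten.Nodup ∧ Es.flatten.length = Es.length + 2 * J ∧ Es.length ≤ 2 * J := by
  have key : ∀ s, s ≤ 2 * J → ∃ Ls Cs : List (List V), (∀ E ∈ Ls, IsEx G R X' 2 E) ∧
      (∀ E ∈ Cs, IsEx G R X' 3 E) ∧ (Ls ++ Cs).flatten.Nodup ∧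
      s ≤ Ls.length + 2 * Cs.length ∧ Ls.length + 2 * Cs.length ≤ s + 1 := by
    intro s
    induction s with
    | zero => intro _; exact ⟨[], [], by simp, by simp, by simp, by simp, by simp⟩
    | succ s ih =>
      intro hs
      obtain ⟨Ls, Cs, h1, h2, h3, h4, h5⟩ := ih (by omega)
      by_cases hc : s + 1 ≤ Ls.length + 2 * Cs.length
      · exact ⟨Ls, Cs, h1, h2, h3, hc, by omega⟩
      · have hlen : (Ls ++ Cs).flatten.length = 2 * Ls.length + 3 * Cs.length := by
          rw [List.flatten_append, List.length_append,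
            L_flat_len 2 Ls (fun E hE => (h1 E hE).2.1), L_flat_len 3 Cs (fun E hE => (h2 E hE).2.1)]
        obtain ⟨c, E, hc', hE, hEU⟩ := hno (Ls ++ Cs).flatten.toFinset (by
          have := List.toFinset_card_le (Ls ++ Cs).flatten
          omega)
        have hEU' : ∀ v ∈ E, v ∉ (Ls ++ Cs).flatten := fun v hv h =>
          hEU v hv (List.mem_toFinset.2 h)
        obtain ⟨a, b, _, _, hab⟩ := hE.1
        rcases hc' with rfl | rfl
        · refine ⟨E :: Ls, Cs, ?_, h2, ?_, ?_, ?_⟩
          · intro E' hE'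
            rcases List.mem_cons.1 hE' with rfl | hE'
            · exact hE
            · exact h1 E' hE'
          · rw [List.cons_append, List.flatten_cons, List.nodup_append]
            refine ⟨hab.1.2.1, h3, ?_⟩
            intro u hu w hw huw
            rw [huw] at hu
            exact hEU' w hu hw
          · rw [List.length_cons]; omega
          · rw [List.length_cons]; omega
        · refine ⟨Ls, E :: Cs, h1, ?_, ?_, ?_, ?_⟩
          · intro E' hE'
            rcases List.mem_cons.1 hE' with rfl | hE'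
            · exact hE
            · exact h2 E' hE'
          · have hperm : (Ls ++ E :: Cs).flatten.Perm (E :: (Ls ++ Cs)).flatten :=
              List.Perm.flatten List.perm_middle
            rw [hperm.nodup_iff, List.flatten_cons, List.nodup_append]
            refine ⟨hab.1.2.1, h3, ?_⟩
            intro u hu w hw huw
            rw [huw] at hu
            exact hEU' w hu hw
          · rw [List.length_cons]; omega
          · rw [List.length_cons]; omega
  obtain ⟨Ls, Cs, h1, h2, h3, h4, h5⟩ := key (2 * J) le_rfl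
  -- remove one edge if necessary
  have key2 : ∃ Ls : List (List V), (∀ E ∈ Ls, IsEx G R X' 2 E) ∧ (Ls ++ Cs).flatten.Nodup ∧
      Ls.length + 2 * Cs.length = 2 * J := by
    by_cases hc : Ls.length + 2 * Cs.length = 2 * J
    · exact ⟨Ls, h1, h3, hc⟩
    · rcases Ls with _ | ⟨E, Ls⟩
      · rw [List.length_nil] at h4 h5 hc
        omega
      · refine ⟨Ls, fun E' hE' => h1 E' (List.mem_cons_of_mem _ hE'), ?_, ?_⟩
        · rw [List.cons_append, List.flatten_cons, List.nodup_append] at h3
          exact h3.2.1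
        · rw [List.length_cons] at h4 h5 hc
          omega
  obtain ⟨Ls, h1, h3, h6⟩ := key2
  refine ⟨Ls ++ Cs, ?_, h3, ?_, ?_⟩
  · intro E hE
    rw [List.mem_append] at hE
    rcases hE with hE | hE
    · exact ⟨(h1 E hE).1, (h1 E hE).2.2⟩
    · exact ⟨(h2 E hE).1, (h2 E hE).2.2⟩
  · rw [List.flatten_append, List.length_append, List.length_append,
      L_flat_len 2 Ls (fun E hE => (h1 E hE).2.1), L_flat_len 3 Cs (fun E hE => (h2 E hE).2.1)]
    omega
  · rw [List.length_append]
    omega

/-- there is an extra outside of a small set `U` -/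
theorem L_pick {V : Type} [Fintype V] (G : SimpleGraph V) (A R X' U : Finset V) (h j M : ℕ)
    (hj : 1 ≤ j) (hX' : X'.card + j = h) (hdeg : ∀ v ∈ A, h ≤ (nbs G v univ).card)
    (hbdr : (bdr G A).card < 2 * M) (hRA : R ⊆ A) (hRX : Disjoint R X')
    (hout : ∀ u, u ∉ X' → 100 * (nbs G u R).card ≤ R.card) (hAR : 2 * A.card ≤ 3 * R.card)
    (hbig : 100 * (4 * j) + 200 * M ≤ 46 * R.card) (hU : U.card ≤ 4 * j) :
    ∃ (c : ℕ) (E : List V), (c = 2 ∨ c = 3) ∧ IsEx G R X' c E ∧ ∀ v ∈ E, v ∉ U := by
  by_contra hcon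
  push Not at hcon
  obtain ⟨U', hU'⟩ : ∃ U', U' = U \ X' := ⟨_, rfl⟩
  have hU'c : U'.card ≤ 4 * j := by
    rw [hU']
    exact (card_le_card sdiff_subset).trans hU
  -- no extra outside of `U'`
  have hcon' : ∀ (c : ℕ) (E : List V), (c = 2 ∨ c = 3) → IsEx G R X' c E → ∃ v ∈ E, v ∈ U' := by
    intro c E hc hE
    obtain ⟨v, hv, hvU⟩ := hcon c E hc hE
    refine ⟨v, hv, ?_⟩
    rw [hU', mem_sdiff]
    exact ⟨hvU, hE.2.2 v hv⟩
  have hRX' : ∀ v ∈ R, v ∉ X' := fun v hv hv' => (disjoint_left.1 hRX) hv hv'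
  obtain ⟨R1, hR1⟩ : ∃ R1, R1 = R \ U' := ⟨_, rfl⟩
  obtain ⟨Bd, hBd⟩ : ∃ Bd, Bd = R1.filter (fun v => nbs G v univ ⊆ X' ∪ U') := ⟨_, rfl⟩
  -- the bad vertices
  have hb : 100 * Bd.card ≤ 4 * R.card := by
    have h1 : Bd.card * j ≤ ad G Bd U' := by
      rw [lib_ad_eq_sum, ← smul_eq_mul, ← sum_const]
      apply sum_le_sum
      intro v hv
      rw [hBd, mem_filter, hR1, mem_sdiff] at hv
      have h2 : nbs G v univ ⊆ X' ∪ nbs G v U' := by
        intro w hw
        have h3 := hv.2 hw
        rw [mem_union] at h3 ⊢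
        rcases h3 with h3 | h3
        · exact Or.inl h3
        · exact Or.inr (lib_mem_nbs.2 ⟨h3, (lib_mem_nbs.1 hw).2⟩)
      have h3 := (card_le_card h2).trans (card_union_le _ _)
      have h4 := hdeg v (hRA hv.1.1)
      omega
    have h2 : ad G Bd U' ≤ ad G U' R := by
      rw [lib_ad_comm]
      apply lib_ad_mono G (Subset.refl _)
      intro v hv
      rw [hBd, mem_filter, hR1, mem_sdiff] at hv
      exact hv.1.1
    have h3 : 100 * ad G U' R ≤ U'.card * R.card := by
      rw [lib_ad_eq_sum, mul_sum, ← smul_eq_mul, ← sum_const]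
      apply sum_le_sum
      intro u hu
      rw [hU', mem_sdiff] at hu
      exact hout u hu.2
    have h4 : U'.card * R.card ≤ 4 * j * R.card := Nat.mul_le_mul_right _ hU'c
    have h5 : (100 * Bd.card) * j ≤ (4 * R.card) * j := by nlinarith
    exact Nat.le_of_mul_le_mul_right h5 (by omega)
  -- private neighbours
  have hpriv : ∀ v ∈ R1 \ Bd, ∃ w, w ∈ (A ∪ bdr G A) \ R ∧ G.Adj v w ∧ w ∉ X' ∧ w ∉ U' := by
    intro v hv
    rw [mem_sdiff] at hv
    have h1 : ¬ nbs G v univ ⊆ X' ∪ U' := fun h => hv.2 (by rw [hBd, mem_filter]; exact ⟨hv.1, h⟩)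
    rw [not_subset] at h1
    obtain ⟨w, hw, hw'⟩ := h1
    rw [mem_union, not_or] at hw'
    have hvw := (lib_mem_nbs.1 hw).2
    have hvR : v ∈ R ∧ v ∉ U' := by
      rw [hR1, mem_sdiff] at hv
      exact hv.1
    refine ⟨w, ?_, hvw, hw'.1, hw'.2⟩
    rw [mem_sdiff, mem_union]
    refine ⟨?_, ?_⟩
    · by_cases hwA : w ∈ A
      · exact Or.inl hwA
      · right
        unfold bdr
        rw [mem_filter]
        exact ⟨mem_univ _, hwA, v, hRA hvR.1, hvw⟩
    · intro hwR
      obtain ⟨u, hu, huU⟩ := hcon' 2 [v, w] (Or.inl rfl) ⟨⟨v, w, hvR.1, hwR, ⟨by simp, by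
        simp only [List.nodup_cons, List.mem_cons, List.not_mem_nil, or_false,
          not_false_eq_true, List.nodup_nil, and_true]
        exact hvw.ne, by
        simp only [List.isChain_cons_cons, List.isChain_singleton, and_true]
        exact hvw⟩, by simp, by simp⟩, rfl, by
        intro u hu
        simp only [List.mem_cons, List.not_mem_nil, or_false] at hu
        rcases hu with rfl | rfl
        · exact hRX' _ hvR.1
        · exact hw'.1⟩
      simp only [List.mem_cons, List.not_mem_nil, or_false] at hu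
      rcases hu with rfl | rfl
      · exact hvR.2 huU
      · exact hw'.2 huU
  choose! w hw using hpriv
  have hinj : Set.InjOn w (↑(R1 \ Bd) : Set V) := by
    intro v hv v' hv' hvv
    rw [mem_coe] at hv hv'
    by_contra hne
    obtain ⟨a1, a2, a3, a4⟩ := hw v hv
    obtain ⟨b1, b2, b3, b4⟩ := hw v' hv'
    rw [← hvv] at b2
    rw [mem_sdiff, hR1, mem_sdiff] at hv hv'
    have hwR : w v ∉ R := (mem_sdiff.1 a1).2
    have n1 : v ≠ w v := a2.ne
    have n2 : w v ≠ v' := b2.ne.symm
    obtain ⟨u, hu, huU⟩ := hcon' 3 [v, w v, v'] (Or.inr rfl) ⟨⟨v, v', hv.1.1, hv'.1.1, ⟨by simp, by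
        simp only [List.nodup_cons, List.mem_cons, List.not_mem_nil, or_false, not_or,
          not_false_eq_true, List.nodup_nil, and_true]
        exact ⟨⟨n1, hne⟩, n2⟩, by
        simp only [List.isChain_cons_cons, List.isChain_singleton, and_true]
        exact ⟨a2, b2.symm⟩⟩, by simp, by simp⟩, rfl, by
        intro u hu
        simp only [List.mem_cons, List.not_mem_nil, or_false] at hu
        rcases hu with rfl | rfl | rfl
        · exact hRX' _ hv.1.1
        · exact a3
        · exact hRX' _ hv'.1.1⟩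
    simp only [List.mem_cons, List.not_mem_nil, or_false] at hu
    rcases hu with rfl | rfl | rfl
    · exact hv.1.2 huU
    · exact a4 huU
    · exact hv'.1.2 huU
  have h1 : (R1 \ Bd).card ≤ ((A ∪ bdr G A) \ R).card :=
    card_le_card_of_injOn w (fun v hv => (hw v hv).1) hinj
  have h2 : ((A ∪ bdr G A) \ R).card + R.card = (A ∪ bdr G A).card :=
    card_sdiff_add_card_eq_card (hRA.trans subset_union_left)
  have h3 := card_union_le A (bdr G A)
  have h4 : R.card ≤ R1.card + U'.card := by
    have := card_le_card (fun v hv => by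
      rw [hR1, mem_union, mem_sdiff]
      by_cases h : v ∈ U'
      · exact Or.inr h
      · exact Or.inl ⟨hv, h⟩ : R ⊆ R1 ∪ U')
    exact this.trans (card_union_le _ _)
  have h5 : R1.card ≤ (R1 \ Bd).card + Bd.card := by
    have := card_le_card (fun v hv => by
      rw [mem_union, mem_sdiff]
      by_cases h : v ∈ Bd
      · exact Or.inr h
      · exact Or.inl ⟨hv, h⟩ : R1 ⊆ (R1 \ Bd) ∪ Bd)
    exact this.trans (card_union_le _ _)
  omega

end Pool.CMK
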