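import Pool.Agent.CMX.L_Cyc
import Pool.Agent.CMX.L_Ext

/-!
# CMX: module LEMB, an almost complete pair and the extras (MP_3a51d2_co)
-/

set_option autoImplicit false

namespace Pool.CMK

open Finset
open scoped Classical

/-- the final cycle -/
private lemma L_fin {V : Type} (G : SimpleGraph V) (R X₀ Z₁ : Finset V) (Exs : List (List V))
    (k h j D : ℕ) (hk : k + 1 = 2 * h) (h2 : 2 ≤ X₀.card) (hk20 : 20 ≤ k)
    (hco : ∀ x ∈ X₀, ∀ y ∈ X₀, 10 * k ≤ (R.filter (fun r => G.Adj x r ∧ G.Adj y r)).card)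
    (hD : ∀ v ∈ R, D ≤ (nbs G v X₀).card) (hZ : ∀ z ∈ Z₁, 10 * k ≤ (nbs G z R).card)
    (hXZ : Disjoint X₀ Z₁) (hRX : Disjoint R X₀)
    (hE : ∀ E ∈ Exs, (∃ a b, a ∈ R ∧ b ∈ R ∧ PathFT G a b E) ∧ ∀ v ∈ E, v ∉ X₀ ∪ Z₁)
    (hnd : Exs.flatten.Nodup) (hlen : Exs.flatten.length = Exs.length + 2 * j)
    (hlen2 : Exs.length ≤ 2 * j) (hsum : X₀.card + Z₁.card + j = h)
    (hDl : 2 * (Z₁.card + Exs.length) ≤ D) : ∃ l, CycL G l ∧ l.length = k + 1 := by
  have hEx : ∀ v ∈ Exs.flatten, v ∉ X₀ ∪ Z₁ := by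
    intro v hv
    rw [List.mem_flatten] at hv
    obtain ⟨E, hE1, hE2⟩ := hv
    exact (hE E hE1).2 v hE2
  obtain ⟨F, hF⟩ : ∃ F, F = (X₀ ∪ Z₁) ∪ Exs.flatten.toFinset := ⟨_, rfl⟩
  have hFc : F.card ≤ X₀.card + Z₁.card + 4 * j := by
    rw [hF]
    have a1 := card_union_le (X₀ ∪ Z₁) Exs.flatten.toFinset
    have a2 := card_union_le X₀ Z₁
    have a3 := List.toFinset_card_le Exs.flatten
    omega
  obtain ⟨Es, e1, e2, e3, e4, e5⟩ := L_trip G R F (10 * k) Z₁.toList (nodup_toList _)
    (by
      intro z hz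
      rw [mem_toList] at hz
      refine ⟨?_, hZ z hz⟩
      rw [hF, mem_union, mem_union]
      exact Or.inl (Or.inr hz)) (by
      rw [length_toList]
      omega)
  rw [length_toList] at e1 e3
  have hRF : ∀ v ∈ Es.flatten, v ∈ Z₁ ∨ (v ∈ R ∧ v ∉ F) := by
    intro v hv
    rcases e5 v hv with h | h
    · exact Or.inl (mem_toList.1 h)
    · exact Or.inr h
  obtain ⟨l, hl, hl'⟩ := L_cyc G R X₀ (10 * k) D (Es ++ Exs) hco
    (by
      intro E hE'
      rw [List.mem_append] at hE'
      rcases hE' with hE' | hE'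
      · obtain ⟨a, b, ha, hb, hab⟩ := e4 E hE'
        exact ⟨a, b, hab, hD a ha, hD b hb⟩
      · obtain ⟨a, b, ha, hb, hab⟩ := (hE E hE').1
        exact ⟨a, b, hab, hD a ha, hD b hb⟩)
    (by
      rw [List.flatten_append, List.nodup_append]
      refine ⟨e2, hnd, ?_⟩
      intro u hu v hv huv
      rw [← huv] at hv
      rcases hRF u hu with h | h
      · exact hEx u hv (mem_union_right _ h)
      · apply h.2
        rw [hF, mem_union, List.mem_toFinset]
        exact Or.inr hv)
    (by
      intro v hv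
      rw [List.flatten_append, List.mem_append] at hv
      rcases hv with hv | hv
      · rcases hRF v hv with h | h
        · exact fun h' => (disjoint_left.1 hXZ) h' h
        · exact fun h' => (disjoint_left.1 hRX) h.1 h'
      · exact fun h' => hEx v hv (mem_union_left _ h'))
    (by rw [List.length_append, e1]; exact hDl) h2
    (by
      rw [List.flatten_append, List.length_append, e3]
      omega)
  refine ⟨l, hl, ?_⟩
  rw [List.flatten_append, List.length_append, List.length_append, e1, e3] at hl'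
  omega

theorem thm_LemB : St_LemB := by
  refine ⟨1 / 1000000, 1000, by norm_num, by norm_num, ?_⟩
  intro M
  refine ⟨M + 100000, ?_⟩
  intro k hk hodd V _ G A R X hdeg hbdr hRA hRX hRk hAR hXk hRX2 hRR
  obtain ⟨h, hh⟩ : ∃ h, k + 1 = 2 * h := by
    obtain ⟨m, hm⟩ := hodd
    exact ⟨m + 1, by omega⟩
  have hkR : (100000 : ℝ) ≤ k := by exact_mod_cast (by omega : 100000 ≤ k)
  have hkM : M ≤ k := by omega
  have hRpos : 0 < R.card := by omega
  have hRposR : (0 : ℝ) < R.card := by exact_mod_cast hRpos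
  -- the typical vertices
  obtain ⟨X₀, hX₀⟩ : ∃ X₀, X₀ = X.filter (fun x => 200 * (R \ nbs G x R).card ≤ R.card) :=
    ⟨_, rfl⟩
  have hsplitR : ∀ x : V, (R \ nbs G x R).card + (nbs G x R).card = R.card := fun x =>
    card_sdiff_add_card_eq_card (filter_subset _ _)
  have hX₀X : X₀ ⊆ X := by rw [hX₀]; exact filter_subset _ _
  -- double counting of the missing pairs
  have hmiss : ((X \ X₀).card : ℝ) ≤ k / 5000 := by
    have h1 : (X \ X₀).card * R.card ≤ ∑ x ∈ X \ X₀, 200 * (R \ nbs G x R).card := by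
      rw [← smul_eq_mul, ← sum_const]
      apply sum_le_sum
      intro x hx
      rw [mem_sdiff, hX₀, mem_filter] at hx
      by_contra hc
      exact hx.2 ⟨hx.1, by omega⟩
    have h2 : ∑ x ∈ X \ X₀, (R \ nbs G x R).card ≤ ∑ v ∈ R, (X \ nbs G v X).card := by
      have h3 : ∑ x ∈ X \ X₀, (R \ nbs G x R).card ≤ ∑ x ∈ X, (R \ nbs G x R).card :=
        sum_le_sum_of_subset sdiff_subset
      have h4 : ∑ x ∈ X, (R \ nbs G x R).card = ∑ v ∈ R, (X \ nbs G v X).card := by
        have e1 : ∀ x, (R \ nbs G x R) = R.filter (fun v => ¬ G.Adj x v) := by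
          intro x
          ext v
          rw [mem_sdiff, lib_mem_nbs, mem_filter]
          tauto
        have e2 : ∀ v, (X \ nbs G v X) = X.filter (fun x => ¬ G.Adj x v) := by
          intro v
          ext x
          rw [mem_sdiff, lib_mem_nbs, mem_filter, G.adj_comm]
          tauto
        simp only [e1, e2, card_filter]
        rw [sum_comm]
      exact h3.trans h4.le
    have h5 : (∑ v ∈ R, ((X \ nbs G v X).card : ℝ)) ≤ R.card * (1 / 1000000 * k) := by
      have := sum_le_sum (fun v hv => hRX2 v hv)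
      rw [sum_const, nsmul_eq_mul] at this
      exact this
    rw [← mul_sum] at h1
    have h6 : ((X \ X₀).card : ℝ) * R.card ≤ 200 * (∑ v ∈ R, ((X \ nbs G v X).card : ℝ)) := by
      have h7 : (X \ X₀).card * R.card ≤ 200 * ∑ v ∈ R, (X \ nbs G v X).card :=
        h1.trans (Nat.mul_le_mul_left _ h2)
      exact_mod_cast h7
    have h8 : ((X \ X₀).card : ℝ) * R.card ≤ (k / 5000) * R.card := by linarith
    exact le_of_mul_le_mul_right h8 hRposR
  have hXs : ((X \ X₀).card : ℝ) + X₀.card = X.card := by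
    exact_mod_cast card_sdiff_add_card_eq_card hX₀X
  have hX₀k : (0.4997 : ℝ) * k ≤ X₀.card := by
    norm_num at hXk ⊢
    linarith
  have hX₀2 : 4997 * k ≤ 10000 * X₀.card := by
    have : (4997 * k : ℝ) ≤ 10000 * X₀.card := by norm_num at hX₀k ⊢; linarith
    exact_mod_cast this
  -- degrees from `R`
  have hDR : ∀ v ∈ R, X₀.card ≤ (nbs G v X₀).card + k / 1000000 := by
    intro v hv
    have h1 : X₀ ⊆ nbs G v X₀ ∪ (X \ nbs G v X) := by
      intro x hx
      rw [mem_union, mem_sdiff, lib_mem_nbs, lib_mem_nbs]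
      by_cases hvx : G.Adj v x
      · exact Or.inl ⟨hx, hvx⟩
      · exact Or.inr ⟨hX₀X hx, fun h => hvx h.2⟩
    have h2 := (card_le_card h1).trans (card_union_le _ _)
    have h3 : (X \ nbs G v X).card ≤ k / 1000000 := by
      rw [Nat.le_div_iff_mul_le (by norm_num)]
      have h4 := hRX2 v hv
      have h5 : ((X \ nbs G v X).card : ℝ) * 1000000 ≤ k := by linarith
      exact_mod_cast h5
    omega
  have hco : ∀ x ∈ X₀, ∀ y ∈ X₀, 10 * k ≤ (R.filter (fun r => G.Adj x r ∧ G.Adj y r)).card := by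
    intro x hx y hy
    rw [hX₀, mem_filter] at hx hy
    have h1 : R ⊆ R.filter (fun r => G.Adj x r ∧ G.Adj y r) ∪
        ((R \ nbs G x R) ∪ (R \ nbs G y R)) := by
      intro r hr
      rw [mem_union, mem_union, mem_filter, mem_sdiff, mem_sdiff, lib_mem_nbs, lib_mem_nbs]
      by_cases h1 : G.Adj x r
      · by_cases h2 : G.Adj y r
        · exact Or.inl ⟨hr, h1, h2⟩
        · exact Or.inr (Or.inr ⟨hr, fun h => h2 h.2⟩)
      · exact Or.inr (Or.inl ⟨hr, fun h => h1 h.2⟩)
    have h2 := (card_le_card h1).trans (card_union_le _ _)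
    have h3 := card_union_le (R \ nbs G x R) (R \ nbs G y R)
    omega
  have hRX₀ : Disjoint R X₀ := disjoint_of_subset_right hX₀X hRX
  -- the vertices with many neighbours in `R`
  obtain ⟨X', hX'⟩ : ∃ X' : Finset V, X' = univ.filter (fun z => R.card < 100 * (nbs G z R).card) :=
    ⟨_, rfl⟩
  have hX₀X' : X₀ ⊆ X' := by
    intro x hx
    rw [hX₀, mem_filter] at hx
    rw [hX', mem_filter]
    refine ⟨mem_univ _, ?_⟩
    have := hsplitR x
    omega
  have hRX' : Disjoint R X' := by
    rw [disjoint_left]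
    intro v hv hv'
    rw [hX', mem_filter] at hv'
    have := hRR v hv
    omega
  have hZ : ∀ z ∈ X', 10 * k ≤ (nbs G z R).card := by
    intro z hz
    rw [hX', mem_filter] at hz
    omega
  by_cases c1 : h ≤ X₀.card
  · -- enough typical vertices
    obtain ⟨Z, hZs, hZc⟩ := exists_subset_card_eq c1
    obtain ⟨l, hl, hl'⟩ := L_cyc G R Z (10 * k) 0 [] (fun x hx y hy => hco x (hZs hx) y (hZs hy))
      (by simp) (by simp) (by simp) (by simp) (by omega) (by
        simp only [List.flatten_nil, List.length_nil]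
        omega)
    refine ⟨l, hl, ?_⟩
    simp only [List.flatten_nil, List.length_nil] at hl'
    omega
  by_cases c2 : h ≤ X'.card
  · -- enough vertices with many neighbours
    have h1 : (X' \ X₀).card + X₀.card = X'.card := card_sdiff_add_card_eq_card hX₀X'
    obtain ⟨Z₁, hZs, hZc⟩ := exists_subset_card_eq (by omega : h - X₀.card ≤ (X' \ X₀).card)
    refine L_fin G R X₀ Z₁ [] k h 0 (X₀.card - k / 1000000) hh (by omega) (by omega) hco ?_ ?_ ?_
      hRX₀ (by simp) (by simp) (by simp) (by simp) (by omega) ?_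
    · intro v hv
      have := hDR v hv
      omega
    · intro z hz
      exact hZ z (mem_sdiff.1 (hZs hz)).1
    · rw [disjoint_left]
      intro x hx hx'
      exact (mem_sdiff.1 (hZs hx')).2 hx
    · rw [List.length_nil, hZc]
      omega
  · -- extras
    obtain ⟨j, hj⟩ : ∃ j, X'.card + j = h := ⟨h - X'.card, by omega⟩
    have h1 : (X' \ X₀).card + X₀.card = X'.card := card_sdiff_add_card_eq_card hX₀X'
    have hdeg' : ∀ v ∈ A, h ≤ (nbs G v univ).card := by
      intro v hv
      have := hdeg v hv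
      omega
    obtain ⟨Exs, x1, x2, x3, x4⟩ := L_extras G R X' j (by
      intro U hU
      refine L_pick G A R X' U h j M (by omega) hj hdeg' hbdr hRA hRX' ?_ hAR ?_ hU
      · intro u hu
        rw [hX', mem_filter, not_and] at hu
        have := hu (mem_univ _)
        omega
      · omega)
    have hun : X₀ ∪ (X' \ X₀) = X' := union_sdiff_of_subset hX₀X'
    refine L_fin G R X₀ (X' \ X₀) Exs k h j (X₀.card - k / 1000000) hh (by omega) (by omega) hco ?_
      ?_ disjoint_sdiff hRX₀ ?_ x2 x3 x4 (by omega) ?_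
    · intro v hv
      have := hDR v hv
      omega
    · intro z hz
      exact hZ z (mem_sdiff.1 hz).1
    · intro E hE
      rw [hun]
      exact x1 E hE
    · omega

end Pool.CMK
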