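import Pool.Agent.CMX.C_Count

/-!
# CMX, part C: a region of middle size (MP_3a51d2_co)
-/

set_option autoImplicit false

namespace Pool.CMK

open Finset
open scoped Classical

/-- the vertices of different edges of a matching are different -/
private lemma mid_ne {T : Type} [Fintype T] {Γ : SimpleGraph T} {M : List (T × T)}
    (h : MatL Γ univ M) (i j : Fin M.length) (hij : i ≠ j) :
    (M.get i).1 ≠ (M.get j).1 ∧ (M.get i).1 ≠ (M.get j).2 ∧ (M.get i).2 ≠ (M.get j).1 ∧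
      (M.get i).2 ≠ (M.get j).2 := by
  have key : ∀ N : List (T × T), (N.flatMap (fun e => [e.1, e.2])).Nodup →
      N.Pairwise (fun a b => a.1 ≠ b.1 ∧ a.1 ≠ b.2 ∧ a.2 ≠ b.1 ∧ a.2 ≠ b.2) := by
    intro N
    induction N with
    | nil => intro _; exact List.Pairwise.nil
    | cons e N ih =>
      intro hN
      rw [List.flatMap_cons] at hN
      simp only [List.cons_append, List.nil_append, List.nodup_cons, List.mem_cons, not_or,
        List.mem_flatMap, List.not_mem_nil, or_false, not_exists, not_and] at hN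
      obtain ⟨⟨_, h1⟩, h2, h3⟩ := hN
      refine List.Pairwise.cons ?_ (ih h3)
      intro f hf
      exact ⟨(h1 f hf).1, (h1 f hf).2, (h2 f hf).1, (h2 f hf).2⟩
  have h1 := key M h.nod
  rw [List.pairwise_iff_get] at h1
  rcases lt_or_gt_of_ne hij with h2 | h2
  · exact h1 i j h2
  · obtain ⟨a, b, c, d⟩ := h1 j i h2
    exact ⟨Ne.symm a, Ne.symm c, Ne.symm b, Ne.symm d⟩

private lemma mid_num (u d k x S s a r : ℝ) (hu : 0 < u) (hu1 : u ≤ 1 / 64) (hd : 0 < d)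
    (hdu : d ≤ u / 30) (hk : 0 < k) (hS : S = s + 1) (hs : 0 ≤ s) (hx : (1 + u) * k ≤ x)
    (hxr : x = 2 * r * S) (hdS : 1 ≤ d * S) (ha : r * ((1 - 3 * d ^ 2) * s) ≤ a) :
    (1 / 2 + u / 4) * k ≤ a := by
  have hS0 : 0 < S := by rw [hS]; linarith
  have hx0 : 0 < x := lt_of_lt_of_le (by positivity) hx
  have hr0 : 0 < r := by
    by_contra hc
    push Not at hc
    have : 2 * r * S ≤ 0 := mul_nonpos_of_nonpos_of_nonneg (by linarith) hS0.le
    linarith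
  have h1 : (1 - d) * S ≤ s := by rw [hS]; rw [hS] at hdS; linarith
  have hd2 : 3 * d ^ 2 ≤ d := by nlinarith
  have h2 : (1 - d) * ((1 - d) * S) ≤ (1 - 3 * d ^ 2) * s :=
    mul_le_mul (by linarith) h1 (mul_nonneg (by linarith) hS0.le) (by nlinarith)
  have h3 := mul_le_mul_of_nonneg_left h2 hr0.le
  have h4 : r * ((1 - d) * ((1 - d) * S)) = (1 - d) ^ 2 * (x / 2) := by rw [hxr]; ring
  have h5 : (1 - 2 * d) * (x / 2) ≤ (1 - d) ^ 2 * (x / 2) :=
    mul_le_mul_of_nonneg_right (by nlinarith) (by linarith)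
  have h6 : (1 - 2 * d) * ((1 + u) * k / 2) ≤ (1 - 2 * d) * (x / 2) :=
    mul_le_mul_of_nonneg_left (by linarith) (by linarith)
  have h7 : (1 / 2 + u / 4) * k ≤ (1 - 2 * d) * ((1 + u) * k / 2) := by
    have : (1 / 2 + u / 4) ≤ (1 - 2 * d) * ((1 + u) / 2) := by nlinarith
    nlinarith
  linarith

theorem thm_Mid (hTFour : St_TFour) (hRegU : St_RegU) : St_Mid := by
  have hRegS := thm_RegS hRegU
  intro C₁ e₁ he₁
  -- the constants
  obtain ⟨e, he⟩ : ∃ e : ℝ, e = min e₁ (1 / 2) := ⟨_, rfl⟩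
  have he0 : 0 < e := by rw [he]; exact lt_min he₁ (by norm_num)
  have he1 : e ≤ 1 / 2 := by rw [he]; exact min_le_right _ _
  have hee : e ≤ e₁ := by rw [he]; exact min_le_left _ _
  obtain ⟨C, hC⟩ : ∃ C : ℝ, C = C₁ + 1 := ⟨_, rfl⟩
  have hC1 : 1 ≤ C := by rw [hC]; have : (0 : ℝ) ≤ C₁ := Nat.cast_nonneg _; linarith
  have hC0 : 0 < C := by linarith
  obtain ⟨u, hu⟩ : ∃ u : ℝ, u = e / (32 * C) := ⟨_, rfl⟩
  obtain ⟨d, hd⟩ : ∃ d : ℝ, d = u / (30 * C) := ⟨_, rfl⟩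
  have hu0 : 0 < u := by rw [hu]; positivity
  have hd0 : 0 < d := by rw [hd]; positivity
  have hCu : C * u = e / 32 := by
    rw [hu]
    field_simp
  have hue : u ≤ e / 32 := by
    rw [← hCu]
    exact le_mul_of_one_le_left hu0.le hC1
  have hu1 : u ≤ 1 / 64 := by linarith
  have hCd : C * d = u / 30 := by
    rw [hd]
    field_simp
  have hdu : d ≤ u / 30 := by
    rw [← hCd]
    exact le_mul_of_one_le_left hd0.le hC1
  have hd1 : d ≤ 1 / 1920 := by linarith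
  obtain ⟨l, hl⟩ : ∃ l : ℕ, l = ⌈1 / d⌉₊ := ⟨_, rfl⟩
  have hl1 : 1 ≤ l := by
    rw [hl]
    exact Nat.ceil_pos.2 (by positivity)
  have hld : 1 ≤ d * l := by
    have h1 : 1 / d ≤ l := by rw [hl]; exact Nat.le_ceil _
    rw [div_le_iff₀ hd0] at h1
    linarith
  obtain ⟨b, hb⟩ := hRegS d hd0 (by linarith) l hl1
  obtain ⟨c, hc⟩ : ∃ c : ℝ, c = 1 / (4 * ((b : ℝ) + 1)) := ⟨_, rfl⟩
  have hb0 : (0 : ℝ) ≤ b := Nat.cast_nonneg _
  have hc0 : 0 < c := by rw [hc]; positivity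
  obtain ⟨M₁, k₁, hT⟩ := hTFour (u / 4) d (d / 256) c b (by positivity) (by linarith) hd0
    (by linarith) (by positivity) (by linarith) (by linarith) hc0
  refine ⟨M₁, ?_⟩
  intro M hM
  obtain ⟨k₂, hk₂⟩ : ∃ k₂ : ℕ, k₂ = ⌈4 * (M : ℝ) / d⌉₊ + ⌈(b : ℝ) / d⌉₊ + b * (2 * ⌈1 / d ^ 2⌉₊ + 2) +
    l + 1 := ⟨_, rfl⟩
  refine ⟨max k₁ k₂, ?_⟩
  intro k hk hodd V _ G A hR hA1 hA2
  have hkk1 : k₁ ≤ k := le_trans (le_max_left _ _) hk
  have hkk2 : k₂ ≤ k := le_trans (le_max_right _ _) hk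
  have hkpos : 0 < k := by omega
  have hkR : (0 : ℝ) < k := by exact_mod_cast hkpos
  have hkM : 4 * (M : ℝ) ≤ d * k := by
    have h1 : 4 * (M : ℝ) / d ≤ k := (Nat.le_ceil _).trans (Nat.cast_le.2 (by omega))
    rw [div_le_iff₀ hd0] at h1
    linarith
  have hkb : (b : ℝ) ≤ d * k := by
    have h1 : (b : ℝ) / d ≤ k := (Nat.le_ceil _).trans (Nat.cast_le.2 (by omega))
    rw [div_le_iff₀ hd0] at h1
    linarith
  obtain ⟨N, hN⟩ : ∃ N : ℝ, N = (A.card : ℝ) := ⟨_, rfl⟩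
  rw [← hN] at hA1
  have hN1 : (1 + e) * k ≤ N := by
    have := mul_le_mul_of_nonneg_right hee hkR.le
    linarith
  have hN2 : N ≤ C * k := by
    rw [hN, hC]
    have : (A.card : ℝ) ≤ C₁ * k := by exact_mod_cast hA2
    linarith
  have hkN : (k : ℝ) ≤ N := by
    have : 0 < e * k := by positivity
    linarith
  have hkA : k ≤ A.card := by rw [hN] at hkN; exact_mod_cast hkN
  obtain ⟨t₀, s₀, P, bad, p1, p2, p3, p4, p5, p6, p7, p8⟩ := hb V G A (by omega)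
  have ht0 : (l : ℝ) ≤ t₀ := by exact_mod_cast p1
  have htb : (t₀ : ℝ) ≤ b := by exact_mod_cast p2
  have hdt : 1 ≤ d * t₀ := hld.trans (mul_le_mul_of_nonneg_left ht0 hd0.le)
  -- sizes
  have hsum1 : t₀ * s₀ ≤ A.card := by
    have h1 : ((univ : Finset (Fin t₀)).biUnion P).card = ∑ i, (P i).card :=
      card_biUnion (fun i _ j _ hij => p3 i j hij)
    have h2 : (univ : Finset (Fin t₀)).biUnion P ⊆ A := by
      intro v hv
      rw [mem_biUnion] at hv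
      obtain ⟨i, _, hi⟩ := hv
      exact p4 i hi
    have h3 := card_le_card h2
    rw [h1] at h3
    have h4 : ∑ _i : Fin t₀, s₀ ≤ ∑ i, (P i).card := sum_le_sum (fun i _ => (p6 i).1)
    rw [sum_const, card_univ, Fintype.card_fin, smul_eq_mul] at h4
    exact h4.trans h3
  have hsum2 : A.card ≤ t₀ * (s₀ + 1) := by
    have h2 : A ⊆ (univ : Finset (Fin t₀)).biUnion P := by
      intro v hv
      obtain ⟨i, hi⟩ := p5 v hv
      rw [mem_biUnion]
      exact ⟨i, mem_univ _, hi⟩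
    refine (card_le_card h2).trans (card_biUnion_le.trans ?_)
    have h4 : ∑ i, (P i).card ≤ ∑ _i : Fin t₀, (s₀ + 1) := sum_le_sum (fun i _ => (p6 i).2)
    rw [sum_const, card_univ, Fintype.card_fin, smul_eq_mul] at h4
    exact h4
  have hsbig : 2 * ⌈1 / d ^ 2⌉₊ + 1 ≤ s₀ := by
    by_contra hcon
    have h1 : s₀ + 1 ≤ 2 * ⌈1 / d ^ 2⌉₊ + 1 := by omega
    have h2 : t₀ * (s₀ + 1) ≤ b * (2 * ⌈1 / d ^ 2⌉₊ + 1) := Nat.mul_le_mul p2 h1
    have h3 : b * (2 * ⌈1 / d ^ 2⌉₊ + 1) ≤ b * (2 * ⌈1 / d ^ 2⌉₊ + 2) :=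
      Nat.mul_le_mul_left _ (by omega)
    omega
  have hs1 : 1 ≤ d ^ 2 * s₀ := by
    have h1 : 1 / d ^ 2 ≤ (s₀ : ℝ) := (Nat.le_ceil _).trans (Nat.cast_le.2 (by omega))
    rw [div_le_iff₀ (by positivity)] at h1
    linarith
  have hs0R : (1 : ℝ) ≤ s₀ := by exact_mod_cast (by omega : 1 ≤ s₀)
  -- the reduced graph
  let Γ : SimpleGraph (Fin t₀) :=
    { Adj := fun i j => i ≠ j ∧ RegP G (P i) (P j) d ∧
        2 * d * (((P i).card : ℝ) * (P j).card) ≤ (ad G (P i) (P j) : ℝ)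
      symm := ⟨by
        rintro i j ⟨h1, h2, h3⟩
        refine ⟨Ne.symm h1, RegP_symm h2, ?_⟩
        rw [C_ad_symm, mul_comm ((P j).card : ℝ)]
        exact h3⟩
      loopless := ⟨fun i h => h.1 rfl⟩ }
  have hΓ : ∀ i j, Γ.Adj i j ↔ (i ≠ j ∧ RegP G (P i) (P j) d ∧
        2 * d * (((P i).card : ℝ) * (P j).card) ≤ (ad G (P i) (P j) : ℝ)) := fun _ _ => Iff.rfl
  clear_value Γ
  have hcount := C_count G A d t₀ s₀ P bad Γ hd0 hdt p5 (fun i => (p6 i).2) p7 p8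
    (fun i j h1 h2 h3 => (hΓ i j).2 ⟨h1, h2, h3⟩)
  obtain ⟨Ml, m₁, m1, m2, m3, m4⟩ := thm_CMat (Fin t₀) Γ
  rw [Fintype.card_fin] at m3 m4
  have m4R : (ad Γ univ univ : ℝ) + (m₁ : ℝ) ^ 2 ≤ 4 * (Ml.length : ℝ) ^ 2 +
      2 * m₁ * ((t₀ : ℝ) - 2 * Ml.length) + 4 * Ml.length := by
    have h1 : ((ad Γ univ univ + m₁ ^ 2 : ℕ) : ℝ) ≤
      ((4 * Ml.length ^ 2 + 2 * m₁ * (t₀ - 2 * Ml.length) + 4 * Ml.length : ℕ) : ℝ) := by
      exact_mod_cast m4
    push_cast [Nat.cast_sub m3] at h1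
    exact h1
  have hdens : (k : ℝ) * N ≤ (ad G A A : ℝ) + 4 * M * N := by
    rw [hN]
    exact_mod_cast hR.dens
  have hx := C_big C e u d k N (s₀ + 1) (2 * Ml.length * (s₀ + 1)) (m₁ * (s₀ + 1))
    (t₀ * (s₀ + 1)) (ad Γ univ univ) (ad G A A) m₁ Ml.length t₀ s₀ M hC1 he0 he1 hu hd hkR hN1 hN2
    hkM rfl (Nat.cast_nonneg _) hdens hcount m4R (Nat.cast_nonneg _) (by exact_mod_cast m2)
    (by exact_mod_cast m3) (by rw [hN]; exact_mod_cast hsum1) hdt (htb.trans hkb) rfl rfl rfl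
  -- the pairs
  have hpair : ∀ i : Fin Ml.length, ∃ A' B' : Finset V, A' ⊆ P (Ml.get i).1 ∧
      B' ⊆ P (Ml.get i).2 ∧ Pr G A' B' (d / 64) (d / 16) ∧
      (1 - 3 * d ^ 2) * s₀ ≤ (A'.card : ℝ) := by
    intro i
    have h1 := (m1.adj (Ml.get i) (List.get_mem _ _)).1
    rw [hΓ] at h1
    exact thm_Clean G _ _ d s₀ hd0 (by linarith) (p3 _ _ h1.1) h1.2.1 (p6 _) (p6 _) hs1 h1.2.2
  choose A' B' q1 q2 q3 q4 using hpair
  have hr1 : 1 ≤ Ml.length := by
    by_contra hcon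
    have h0 : Ml.length = 0 := by omega
    rw [h0] at hx
    have : 0 < (1 + u) * k := by positivity
    simp at hx
    linarith
  have hsumR : (1 / 2 + u / 4) * k ≤ ∑ j, ((A' j).card : ℝ) := by
    refine mid_num u d k _ (s₀ + 1) s₀ _ Ml.length hu0 hu1 hd0 hdu hkR rfl (Nat.cast_nonneg _) hx
      rfl ?_ ?_
    · have h1 : d ^ 2 * s₀ ≤ d * s₀ := mul_le_mul_of_nonneg_right (by nlinarith) (by linarith)
      linarith
    · have h1 : ∑ _j : Fin Ml.length, ((1 - 3 * d ^ 2) * (s₀ : ℝ)) ≤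
        ∑ j, ((A' j).card : ℝ) := sum_le_sum (fun j _ => q4 j)
      rw [sum_const, card_univ, Fintype.card_fin, nsmul_eq_mul] at h1
      exact h1
  refine hT k hkk1 hodd V G Ml.length A' B' hr1 ?_ ?_ ?_ hsumR ?_
  · have : 2 * Ml.length ≤ b := m3.trans p2
    omega
  · intro j
    refine ⟨?_, ?_⟩
    · have h1 : 4 * (d / 256) = d / 64 := by ring
      rw [h1]
      exact q3 j
    · refine le_trans ?_ (q4 j)
      have h1 : (s₀ : ℝ) / 2 ≤ (1 - 3 * d ^ 2) * s₀ := by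
        have : d ^ 2 ≤ 1 / 6 := by nlinarith
        have := mul_le_mul_of_nonneg_right (by linarith : (1 : ℝ) / 2 ≤ 1 - 3 * d ^ 2)
          (by linarith : (0 : ℝ) ≤ s₀)
        linarith
      refine le_trans ?_ h1
      have h2 : (k : ℝ) ≤ t₀ * (s₀ + 1) := by
        refine hkN.trans ?_
        rw [hN]
        exact_mod_cast hsum2
      have h3 : (t₀ : ℝ) * (s₀ + 1) ≤ ((b : ℝ) + 1) * (2 * s₀) :=
        mul_le_mul (by linarith) (by linarith) (by linarith) (by linarith)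
      rw [hc, div_mul_eq_mul_div, one_mul, div_le_iff₀ (by positivity)]
      linarith
  · intro i j hij
    obtain ⟨n1, n2, n3, n4⟩ := mid_ne m1 i j hij
    rw [disjoint_union_left, disjoint_union_right, disjoint_union_right]
    refine ⟨⟨?_, ?_⟩, ?_, ?_⟩
    · exact disjoint_of_subset_left (q1 i) (disjoint_of_subset_right (q1 j) (p3 _ _ n1))
    · exact disjoint_of_subset_left (q1 i) (disjoint_of_subset_right (q2 j) (p3 _ _ n2))
    · exact disjoint_of_subset_left (q2 i) (disjoint_of_subset_right (q1 j) (p3 _ _ n3))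
    · exact disjoint_of_subset_left (q2 i) (disjoint_of_subset_right (q2 j) (p3 _ _ n4))
  · intro X Y hXY hno hcard
    have hsub : (univ : Finset (Fin Ml.length)).biUnion (fun j => A' j ∪ B' j) ⊆ A := by
      intro v hv
      rw [mem_biUnion] at hv
      obtain ⟨j, _, hj⟩ := hv
      rw [mem_union] at hj
      rcases hj with hj | hj
      · exact p4 _ (q1 j hj)
      · exact p4 _ (q2 j hj)
    rcases hR.ins X Y hXY hno (lt_of_lt_of_le hcard hM) with h | h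
    · exact Or.inl (disjoint_of_subset_left hsub h)
    · exact Or.inr (disjoint_of_subset_left hsub h)

end Pool.CMK
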