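import Pool.Agent.CMX.StB

/-!
# CMX: module PRX (helper29)
-/

set_option autoImplicit false

namespace Pool.CMK

open Finset
open scoped Classical

private lemma PrX_dc {V : Type} (G : SimpleGraph V) (X B : Finset V) :
    ∑ x ∈ X, (B \ nbs G x B).card = ∑ v ∈ B, (X \ nbs G v X).card := by
  have h1 : ∀ x ∈ X, (B \ nbs G x B).card = ∑ v ∈ B, (if G.Adj x v then 0 else 1) := by
    intro x _
    have : B \ nbs G x B = B.filter (fun v => ¬ G.Adj x v) := by
      ext v
      simp only [nbs, mem_sdiff, mem_filter, not_and]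
      constructor
      · rintro ⟨h, h'⟩
        exact ⟨h, h' h⟩
      · rintro ⟨h, h'⟩
        exact ⟨h, fun _ => h'⟩
    rw [this, card_filter]
    apply sum_congr rfl
    intro v _
    by_cases h : G.Adj x v <;> simp [h]
  have h2 : ∀ v ∈ B, (X \ nbs G v X).card = ∑ x ∈ X, (if G.Adj x v then 0 else 1) := by
    intro v _
    have : X \ nbs G v X = X.filter (fun x => ¬ G.Adj x v) := by
      ext x
      simp only [nbs, mem_sdiff, mem_filter, not_and]
      constructor
      · rintro ⟨h, h'⟩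
        exact ⟨h, fun h2 => h' h h2.symm⟩
      · rintro ⟨h, h'⟩
        exact ⟨h, fun _ h2 => h' h2.symm⟩
    rw [this, card_filter]
    apply sum_congr rfl
    intro x _
    by_cases h : G.Adj x v <;> simp [h]
  rw [sum_congr rfl h1, sum_congr rfl h2, sum_comm]

/-- PRX. -/
theorem thm_PrX : St_PrX := by
  refine ⟨1, ?_⟩
  intro k hk V G X R hd hX hXR hR
  have hk1 : (1 : ℝ) ≤ (k : ℝ) := by exact_mod_cast hk
  obtain ⟨B₀, hB₀R, hB₀c⟩ := exists_subset_card_eq hXR
  set A : Finset V := X.filter (fun x => X.card ≤ 2 * (nbs G x B₀).card) with hA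
  have hXpos : (0 : ℝ) < (X.card : ℝ) := by nlinarith
  -- few vertices outside `A`
  have hsplit : ∀ x : V, ((B₀ \ nbs G x B₀).card : ℝ) = (X.card : ℝ) - ((nbs G x B₀).card : ℝ) := by
    intro x
    have hs : nbs G x B₀ ⊆ B₀ := filter_subset _ _
    have := card_sdiff_add_card_eq_card hs
    rw [hB₀c] at this
    have h2 : ((B₀ \ nbs G x B₀).card : ℝ) + ((nbs G x B₀).card : ℝ) = (X.card : ℝ) := by
      exact_mod_cast this
    linarith
  have hsum : (∑ x ∈ X, ((B₀ \ nbs G x B₀).card : ℝ)) ≤ (X.card : ℝ) * ((k : ℝ) / 1000) := by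
    have h1 : (∑ x ∈ X, ((B₀ \ nbs G x B₀).card : ℝ)) =
        ∑ v ∈ B₀, ((X \ nbs G v X).card : ℝ) := by
      exact_mod_cast PrX_dc G X B₀
    rw [h1]
    calc (∑ v ∈ B₀, ((X \ nbs G v X).card : ℝ)) ≤ ∑ _v ∈ B₀, (k : ℝ) / 1000 :=
          sum_le_sum (fun v hv => hR v (hB₀R hv))
      _ = (X.card : ℝ) * ((k : ℝ) / 1000) := by rw [sum_const, nsmul_eq_mul, hB₀c]
  have hXA : ((X \ A).card : ℝ) * ((X.card : ℝ) / 2) ≤ (X.card : ℝ) * ((k : ℝ) / 1000) := by
    calc ((X \ A).card : ℝ) * ((X.card : ℝ) / 2) = ∑ _x ∈ X \ A, (X.card : ℝ) / 2 := by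
          rw [sum_const, nsmul_eq_mul]
      _ ≤ ∑ x ∈ X \ A, ((B₀ \ nbs G x B₀).card : ℝ) := by
          apply sum_le_sum
          intro x hx
          rw [mem_sdiff, hA, mem_filter, not_and] at hx
          have h1 := hx.2 hx.1
          push Not at h1
          have h2 : (2 : ℝ) * ((nbs G x B₀).card : ℝ) < (X.card : ℝ) := by exact_mod_cast h1
          rw [hsplit x]
          linarith
      _ ≤ ∑ x ∈ X, ((B₀ \ nbs G x B₀).card : ℝ) :=
          sum_le_sum_of_subset_of_nonneg sdiff_subset (fun _ _ _ => Nat.cast_nonneg _)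
      _ ≤ _ := hsum
  have hXA2 : ((X \ A).card : ℝ) ≤ (k : ℝ) / 500 := by
    have h1 : (X.card : ℝ) * (((X \ A).card : ℝ) / 2) ≤ (X.card : ℝ) * ((k : ℝ) / 1000) := by
      linarith
    have h2 := le_of_mul_le_mul_left h1 hXpos
    linarith
  have hAX : A ⊆ X := filter_subset _ _
  have hXAeq : ((X \ A).card : ℝ) + (A.card : ℝ) = (X.card : ℝ) := by
    exact_mod_cast card_sdiff_add_card_eq_card hAX
  have hAc : (A.card : ℝ) ≥ (X.card : ℝ) - (k : ℝ) / 500 := by linarith
  have hA448 : (448 / 1000 : ℝ) * k ≤ (A.card : ℝ) := by linarith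
  have hAB₀ : A.card ≤ B₀.card := by rw [hB₀c]; exact card_le_card hAX
  obtain ⟨B, hBB₀, hBc⟩ := exists_subset_card_eq hAB₀
  refine ⟨A, B, hAX, hBB₀.trans hB₀R, ⟨?_, hBc.symm, ?_, ?_, ?_⟩, by linarith⟩
  · exact disjoint_of_subset_left hAX (disjoint_of_subset_right (hBB₀.trans hB₀R) hd)
  · intro X' Y' hX' hY' hcX hcY
    have hpos : (0 : ℝ) < 4 * (1 / 1000) * (A.card : ℝ) := by nlinarith
    have hg : 0 < ⌈4 * (1 / 1000) * (A.card : ℝ)⌉₊ := Nat.ceil_pos.mpr hpos
    obtain ⟨v, hv⟩ := card_pos.mp (lt_of_lt_of_le hg hcY)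
    have hvR : v ∈ R := hB₀R (hBB₀ (hY' hv))
    have h1 : (4 * (1 / 1000) * (A.card : ℝ)) ≤ (X'.card : ℝ) :=
      (Nat.le_ceil _).trans (by exact_mod_cast hcX)
    by_contra hcon
    push Not at hcon
    have hsub : X' ⊆ X \ nbs G v X := by
      intro x hx
      rw [mem_sdiff, nbs, mem_filter, not_and]
      exact ⟨hAX (hX' hx), fun _ h => hcon x hx v hv h.symm⟩
    have h2 : (X'.card : ℝ) ≤ ((X \ nbs G v X).card : ℝ) := by exact_mod_cast card_le_card hsub
    have h3 := hR v hvR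
    linarith
  · intro a ha
    have h1 : X.card ≤ 2 * (nbs G a B₀).card := (mem_filter.mp ha).2
    have h1' : (X.card : ℝ) ≤ 2 * ((nbs G a B₀).card : ℝ) := by exact_mod_cast h1
    have hsub : nbs G a B₀ ⊆ nbs G a B ∪ (B₀ \ B) := by
      intro x hx
      rw [nbs, mem_filter] at hx
      rw [mem_union, nbs, mem_filter, mem_sdiff]
      by_cases h : x ∈ B
      · exact Or.inl ⟨h, hx.2⟩
      · exact Or.inr ⟨hx.1, h⟩
    have h2 : (nbs G a B₀).card ≤ (nbs G a B).card + (B₀ \ B).card :=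
      (card_le_card hsub).trans (card_union_le _ _)
    have h2' : ((nbs G a B₀).card : ℝ) ≤ ((nbs G a B).card : ℝ) + ((B₀ \ B).card : ℝ) := by
      exact_mod_cast h2
    have h3 : ((B₀ \ B).card : ℝ) + (B.card : ℝ) = (B₀.card : ℝ) := by
      exact_mod_cast card_sdiff_add_card_eq_card hBB₀
    have h4 : (B.card : ℝ) = (A.card : ℝ) := by exact_mod_cast hBc
    have h5 : (B₀.card : ℝ) = (X.card : ℝ) := by exact_mod_cast hB₀c
    linarith
  · intro b hb
    have hbR : b ∈ R := hB₀R (hBB₀ hb)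
    have hsub : A ⊆ nbs G b A ∪ (X \ nbs G b X) := by
      intro x hx
      rw [mem_union, mem_sdiff]
      by_cases h : G.Adj b x
      · exact Or.inl (mem_filter.mpr ⟨hx, h⟩)
      · exact Or.inr ⟨hAX hx, fun h' => h (mem_filter.mp h').2⟩
    have h2 : A.card ≤ (nbs G b A).card + (X \ nbs G b X).card :=
      (card_le_card hsub).trans (card_union_le _ _)
    have h2' : (A.card : ℝ) ≤ ((nbs G b A).card : ℝ) + ((X \ nbs G b X).card : ℝ) := by
      exact_mod_cast h2
    have h3 := hR b hbR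
    linarith

end Pool.CMK
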