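import Pool.Agent.CMX.StB
import Pool.Agent.CMK.Lib

/-!
# CMX: module REAL, from a cycle in the codegree graph to a cycle of twice the length
-/

set_option autoImplicit false

namespace Pool.CMK

open Finset
open scoped Classical

theorem thm_Real : St_Real := by
  intro V G H Q R l hQR hlQ hl hco
  rw [lib_cyc_iff] at hl
  obtain ⟨h3, hn, hadj⟩ := hl
  obtain ⟨c, hc⟩ : ∃ c, c = l.length := ⟨_, rfl⟩
  have hc0 : 0 < c := by omega
  -- the places
  have hlt : ∀ i : ℕ, i % c < l.length := fun i => by rw [← hc]; exact Nat.mod_lt _ hc0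
  obtain ⟨z, hz⟩ : ∃ z : ℕ → V, ∀ i, z i = l[i % c]'(hlt i) := ⟨fun i => l[i % c]'(hlt i), fun _ => rfl⟩
  have hzQ : ∀ i, z i ∈ Q := fun i => by
    rw [hz]
    exact hlQ _ (List.getElem_mem _)
  have hzinj : ∀ i j, i < c → j < c → z i = z j → i = j := by
    intro i j hi hj h
    rw [hz, hz, hn.getElem_inj_iff, Nat.mod_eq_of_lt hi, Nat.mod_eq_of_lt hj] at h
    exact h
  have hzH : ∀ i, i < c → H.Adj (z i) (z (i + 1)) := by
    intro i hi
    have h := hadj i (by omega)
    rw [hz, hz]
    simp only [Nat.mod_eq_of_lt hi]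
    simp only [← hc] at h
    exact h
  have hzc : z c = z 0 := by
    rw [hz, hz]
    simp only [Nat.mod_self, Nat.zero_mod]
  -- the common neighbours
  obtain ⟨T, hT⟩ : ∃ T : Fin c → Finset V, ∀ i, T i =
      R.filter (fun r => G.Adj (z i) r ∧ G.Adj (z (i + 1)) r) := ⟨_, fun _ => rfl⟩
  have hTc : ∀ i, c ≤ (T i).card := by
    intro i
    rw [hT]
    exact hc.le.trans (hco _ _ (hzH i i.2))
  obtain ⟨r, hr, hrT⟩ := (Finset.all_card_le_biUnion_card_iff_exists_injective T).1 (by
    intro s
    rcases s.eq_empty_or_nonempty with h | ⟨i, hi⟩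
    · rw [h]; simp
    · calc s.card ≤ Fintype.card (Fin c) := card_le_univ s
        _ = c := Fintype.card_fin c
        _ ≤ (T i).card := hTc i
        _ ≤ (s.biUnion T).card := card_le_card (subset_biUnion_of_mem T hi))
  have hrR : ∀ i, r i ∈ R ∧ G.Adj (z i) (r i) ∧ G.Adj (z (i + 1)) (r i) := by
    intro i
    have h := hrT i
    rw [hT, mem_filter] at h
    exact h
  -- the cycle
  obtain ⟨f, hf⟩ : ∃ f : ℕ → V, ∀ j, f j =
      if j % 2 = 0 then z (j / 2) else r ⟨j / 2 % c, Nat.mod_lt _ hc0⟩ := ⟨_, fun _ => rfl⟩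
  have hfe : ∀ a, f (2 * a) = z a := by
    intro a
    rw [hf, if_pos (by omega)]
    congr 1
    omega
  have hfo : ∀ a (ha : a < c), f (2 * a + 1) = r ⟨a, ha⟩ := by
    intro a ha
    rw [hf, if_neg (by omega)]
    congr 1
    apply Fin.ext
    show (2 * a + 1) / 2 % c = a
    have e : (2 * a + 1) / 2 = a := by omega
    rw [e, Nat.mod_eq_of_lt ha]
  have hlen : ((List.range (2 * c)).map f).length = 2 * c := by simp
  refine ⟨(List.range (2 * c)).map f, ?_, by rw [hlen, hc]⟩
  rw [lib_cyc_iff]
  refine ⟨by rw [hlen]; omega, ?_, ?_⟩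
  · refine List.Nodup.map_on ?_ List.nodup_range
    intro j hj j' hj' h
    rw [List.mem_range] at hj hj'
    have hd : ∀ a (ha : a < c) b, z b ≠ r ⟨a, ha⟩ := by
      intro a ha b hab
      have h1 := hzQ b
      rw [hab] at h1
      exact (Finset.disjoint_left.1 hQR) h1 (hrR _).1
    rcases Nat.even_or_odd' j with ⟨a, ha | ha⟩ <;> rcases Nat.even_or_odd' j' with ⟨b, hb | hb⟩
    · rw [ha, hb, hfe, hfe] at h
      have := hzinj a b (by omega) (by omega) h
      omega
    · rw [ha, hb, hfe, hfo b (by omega)] at h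
      exact absurd h (hd _ _ _)
    · rw [ha, hb, hfo a (by omega), hfe] at h
      exact absurd h.symm (hd _ _ _)
    · rw [ha, hb, hfo a (by omega), hfo b (by omega)] at h
      have := congrArg Fin.val (hr h)
      simp only at this
      omega
  · intro i hi
    rw [hlen] at hi
    simp only [List.getElem_map, List.getElem_range, hlen]
    rcases Nat.even_or_odd' i with ⟨a, ha | ha⟩
    · have hac : a < c := by omega
      have e : (i + 1) % (2 * c) = 2 * a + 1 := by
        rw [Nat.mod_eq_of_lt (by omega)]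
        omega
      rw [e, ha, hfe, hfo a hac]
      exact (hrR ⟨a, hac⟩).2.1
    · have hac : a < c := by omega
      have e : f ((i + 1) % (2 * c)) = z (a + 1) := by
        by_cases h : a + 1 < c
        · rw [Nat.mod_eq_of_lt (by omega), ← hfe]
          congr 1
          omega
        · have h1 : i + 1 = 2 * c := by omega
          have h2 : a + 1 = c := by omega
          rw [h1, Nat.mod_self, h2, hzc, ← hfe 0]
      rw [e, ha, hfo a hac]
      exact (hrR ⟨a, hac⟩).2.2.symm

end Pool.CMK
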