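import Pool.Agent.CMX.StA
import Pool.Agent.Helper37.Mader.Menger

/-!
# CMX: disjoint routes from one set to all the others (`St_Routes`)
-/

set_option autoImplicit false

namespace Pool.CMK

open Finset
open scoped Classical

/-- the vertices of the auxiliary digraph: vertices, nodes, and the source and the sink -/
private abbrev Routes_W (V : Type) {r : ℕ} (N : ℕ) (j₀ : Fin r) : Type :=
  V ⊕ ({j : Fin r // j ≠ j₀} × Fin N) ⊕ Bool

/-- the arcs of the auxiliary digraph -/
private def Routes_r {V : Type} (G : SimpleGraph V) {r : ℕ} (N : ℕ) (D : Fin r → Finset V) (j₀ : Fin r) :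
    Routes_W V N j₀ → Routes_W V N j₀ → Prop
  | .inl a, .inl b => G.Adj a b
  | .inl a, .inr (.inl n) => a ∈ D n.1
  | .inl _, .inr (.inr _) => False
  | .inr (.inl _), .inl _ => False
  | .inr (.inl _), .inr (.inl _) => False
  | .inr (.inl _), .inr (.inr b) => b = false
  | .inr (.inr b), .inl w => b = true ∧ w ∈ D j₀
  | .inr (.inr _), .inr _ => False

private theorem Routes_dec {V : Type} (G : SimpleGraph V) {r : ℕ} (N : ℕ) (D : Fin r → Finset V)
    (j₀ : Fin r) : ∀ (l : List (Routes_W V N j₀)) (v : V),
    (Sum.inl v :: l).IsChain (Routes_r G N D j₀) →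
    (Sum.inl v :: l).getLast? = some (Sum.inr (Sum.inr false)) →
    ∃ (L : List V) (n : {j : Fin r // j ≠ j₀} × Fin N),
      Sum.inl v :: l = L.map Sum.inl ++ [Sum.inr (Sum.inl n), Sum.inr (Sum.inr false)] ∧
      L.head? = some v ∧ ∃ y ∈ D n.1, L.getLast? = some y := by
  intro l
  induction l with
  | nil =>
    intro v _ h
    simp at h
  | cons x l ih =>
    intro v hch hl
    rw [List.isChain_cons_cons] at hch
    obtain ⟨hvx, hch⟩ := hch
    rw [List.getLast?_cons_cons] at hl
    rcases x with w | n | b
    · obtain ⟨L, n, h1, h2, y, hy, h3⟩ := ih w hch hl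
      refine ⟨v :: L, n, ?_, rfl, y, hy, ?_⟩
      · rw [h1]
        rfl
      · rcases L with _ | ⟨z, L⟩
        · exact absurd h2 (by simp)
        · rw [List.getLast?_cons_cons]
          exact h3
    · rcases l with _ | ⟨y, l⟩
      · simp at hl
      · rw [List.isChain_cons_cons] at hch
        obtain ⟨hxy, hch⟩ := hch
        rcases y with w | n' | b
        · exact absurd hxy (by simp [Routes_r])
        · exact absurd hxy (by simp [Routes_r])
        · have hb : b = false := hxy
          subst hb
          rcases l with _ | ⟨z, l⟩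
          · exact ⟨[v], n, rfl, rfl, v, hvx, rfl⟩
          · rw [List.isChain_cons_cons] at hch
            have h5 := hch.1
            rcases z with w | z
            · exact absurd h5.1 (by simp)
            · exact absurd h5 (by simp [Routes_r])
    · exact absurd hvx (by simp [Routes_r])

theorem thm_Routes : St_Routes := by
  intro V _ G r N M D j₀ hrN hM hIns
  have hcardN : Fintype.card ({j : Fin r // j ≠ j₀} × Fin N) ≤ M := by
    rw [Fintype.card_prod, Fintype.card_fin]
    refine le_trans (Nat.mul_le_mul_right N ?_) hrN
    have h := Fintype.card_subtype_le (fun j : Fin r => j ≠ j₀)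
    rw [Fintype.card_fin] at h
    exact h
  set K := Fintype.card ({j : Fin r // j ≠ j₀} × Fin N) with hK
  have hinj := Pool.Agent.Helper37.Mader.exists_inj (r := Routes_r G N D j₀)
    (W := (Finset.univ : Finset (Routes_W V N j₀))) (k := K) (a := Sum.inr (Sum.inr true))
    (b := Sum.inr (Sum.inr false)) (by
      intro S _ hsS hzS hS
      set T := ((Finset.univ \ S).filter (fun w => w ≠ Sum.inr (Sum.inr true) ∧
        w ≠ Sum.inr (Sum.inr false) ∧ ∃ u ∈ insert (Sum.inr (Sum.inr true)) S,
          Routes_r G N D j₀ u w)) with hT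
      by_contra hlt
      push Not at hlt
      -- the vertex parts
      set P : Finset V := univ.filter (fun v => Sum.inl v ∈ S) with hP
      set R : Finset V := univ.filter (fun v => Sum.inl v ∈ T) with hR
      have hRT : R.card ≤ T.card := by
        have h1 : R.map ⟨Sum.inl, Sum.inl_injective⟩ ⊆ T := by
          intro z hz
          obtain ⟨v, hv, rfl⟩ := Finset.mem_map.mp hz
          exact (Finset.mem_filter.mp hv).2
        have h2 := Finset.card_le_card h1
        rw [Finset.card_map] at h2
        exact h2
      have hRM : R.card < M := by omega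
      have hmT : ∀ v : V, Sum.inl v ∉ S → (v ∈ D j₀ ∨ ∃ u ∈ P, G.Adj u v) → v ∈ R := by
        intro v hvS hv
        rw [hR, Finset.mem_filter, hT, Finset.mem_filter, Finset.mem_sdiff]
        refine ⟨Finset.mem_univ _, ⟨Finset.mem_univ _, hvS⟩, by simp, by simp, ?_⟩
        rcases hv with hv | ⟨u, hu, huv⟩
        · exact ⟨_, Finset.mem_insert_self _ _, rfl, hv⟩
        · exact ⟨Sum.inl u, Finset.mem_insert_of_mem (Finset.mem_filter.mp hu).2, huv⟩
      have hI := hIns P ((P ∪ R)ᶜ) (by
          rw [Finset.disjoint_left]
          intro v hv hv'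
          rw [Finset.mem_compl, Finset.mem_union, not_or] at hv'
          exact hv'.1 hv) (by
          intro p hp q hq hpq
          rw [Finset.mem_compl, Finset.mem_union, not_or] at hq
          refine hq.2 (hmT q (fun h => hq.1 ?_) (Or.inr ⟨p, hp, hpq⟩))
          exact Finset.mem_filter.mpr ⟨Finset.mem_univ _, h⟩) (by
          refine lt_of_le_of_lt (Finset.card_le_card ?_) hRM
          intro v hv
          rw [Finset.mem_compl, Finset.mem_union, not_or, Finset.mem_compl, not_not,
            Finset.mem_union] at hv
          rcases hv.2 with h | h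
          · exact absurd h hv.1
          · exact h)
      rcases hI with h | h
      · -- the first set misses `P`
        have h1 : D j₀ ⊆ R := by
          intro v hv
          refine hmT v (fun hvS => ?_) (Or.inl hv)
          rw [Finset.disjoint_left] at h
          exact h (Finset.mem_biUnion.mpr ⟨j₀, Finset.mem_univ _, hv⟩)
            (Finset.mem_filter.mpr ⟨Finset.mem_univ _, hvS⟩)
        have h2 := Finset.card_le_card h1
        have h3 := hM j₀
        omega
      · -- all the sets meet `P`
        have h1 : ∀ j, ∃ v ∈ D j, v ∈ P := by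
          intro j
          by_contra hno
          push Not at hno
          have h2 : D j ⊆ R := by
            intro v hv
            by_contra hvR
            rw [Finset.disjoint_left] at h
            refine h (Finset.mem_biUnion.mpr ⟨j, Finset.mem_univ _, hv⟩) ?_
            rw [Finset.mem_compl, Finset.mem_union, not_or]
            exact ⟨hno v hv, hvR⟩
          have h3 := Finset.card_le_card h2
          have h4 := hM j
          omega
        have h2 : (Finset.univ : Finset ({j : Fin r // j ≠ j₀} × Fin N)).map
            ⟨fun n => (Sum.inr (Sum.inl n) : Routes_W V N j₀), by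
              intro a b hab
              simpa using hab⟩ ⊆ T := by
          intro z hz
          obtain ⟨n, _, rfl⟩ := Finset.mem_map.mp hz
          rw [hT, Finset.mem_filter, Finset.mem_sdiff]
          refine ⟨⟨Finset.mem_univ _, fun hn => hS _ hn ?_⟩, fun h => ?_, fun h => ?_, ?_⟩
          · exact rfl
          · exact absurd (Sum.inr_injective h) (by simp)
          · exact absurd (Sum.inr_injective h) (by simp)
          · obtain ⟨v, hv, hvP⟩ := h1 n.1
            exact ⟨Sum.inl v, Finset.mem_insert_of_mem (Finset.mem_filter.mp hvP).2, hv⟩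
        have h3 := Finset.card_le_card h2
        rw [Finset.card_map, Finset.card_univ] at h3
        omega)
  obtain ⟨f, hf, hok⟩ := hinj
  obtain ⟨p, hp1, hp2, -⟩ := Pool.Agent.Helper37.Mader.paths_of_inj (r := Routes_r G N D j₀)
    (W := (Finset.univ : Finset (Routes_W V N j₀))) (k := K) (a := Sum.inr (Sum.inr true))
    (b := Sum.inr (Sum.inr false)) (by simp) (Finset.mem_univ _) (Finset.mem_univ _) f hf hok
    inferInstance
  -- the shape of the paths
  have hsh : ∀ i, ∃ (L : List V) (n : {j : Fin r // j ≠ j₀} × Fin N),
      p i = Sum.inr (Sum.inr true) ::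
        (L.map Sum.inl ++ [Sum.inr (Sum.inl n), Sum.inr (Sum.inr false)]) ∧
      PathL G L ∧ (∃ x ∈ D j₀, L.head? = some x) ∧ ∃ y ∈ D n.1, L.getLast? = some y := by
    intro i
    obtain ⟨a1, a2, a3, -, a5⟩ := hp1 i
    have hch : (p i).IsChain (Routes_r G N D j₀) := by
      rw [List.isChain_iff_getElem]
      intro j hj
      exact a5 j _ _ (List.getElem?_eq_getElem (by omega)) (List.getElem?_eq_getElem hj)
    rcases hpi : p i with _ | ⟨x, l⟩
    · rw [hpi] at a1
      simp at a1
    · rw [hpi] at a1 a2 a3 hch
      simp only [List.head?_cons, Option.some.injEq] at a1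
      subst a1
      rcases l with _ | ⟨y, l⟩
      · simp at a2
      · rw [List.isChain_cons_cons] at hch
        obtain ⟨hxy, hch⟩ := hch
        rw [List.getLast?_cons_cons] at a2
        rcases y with v | y
        · obtain ⟨L, n, h1, h2, h3⟩ := Routes_dec G N D j₀ l v hch a2
          refine ⟨L, n, by rw [h1], ⟨?_, ?_, ?_⟩, ⟨v, hxy.2, h2⟩, h3⟩
          · rintro rfl
            exact absurd h2 (by simp)
          · rw [h1] at a3
            exact List.Nodup.of_map _ (List.nodup_append.mp (List.nodup_cons.mp a3).2).1
          · rw [h1] at hch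
            have h5 := (List.isChain_append.mp hch).1
            rw [List.isChain_map] at h5
            exact h5
        · exact absurd hxy (by simp [Routes_r])
  choose L n hL1 hL2 hL3 hL4 using hsh
  have hn : Function.Injective n := by
    intro i j hij
    by_contra hne
    have h1 := hp2 i j hne (Sum.inr (Sum.inl (n i))) (by rw [hL1 i]; simp)
      (by rw [hL1 j, hij]; simp)
    simp at h1
  have hbij : Function.Bijective n := by
    rw [Fintype.bijective_iff_injective_and_card]
    exact ⟨hn, by rw [Fintype.card_fin]⟩
  obtain ⟨g, -, hg⟩ := Function.bijective_iff_has_inverse.mp hbij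
  refine ⟨fun j a => if h : j ≠ j₀ then L (g (⟨j, h⟩, a)) else [], ?_, ?_⟩
  · intro j hj a
    simp only [dif_pos hj]
    refine ⟨hL2 _, hL3 _, ?_⟩
    have h1 := hL4 (g (⟨j, hj⟩, a))
    rw [hg (⟨j, hj⟩, a)] at h1
    exact h1
  · intro j a j' a' hj hj' hne v hv hv'
    simp only [dif_pos hj] at hv
    simp only [dif_pos hj'] at hv'
    have hgne : g (⟨j, hj⟩, a) ≠ g (⟨j', hj'⟩, a') := by
      intro h
      have h1 := congrArg n h
      rw [hg, hg] at h1
      apply hne
      simp only [Prod.mk.injEq, Subtype.mk.injEq] at h1
      rw [h1.1, h1.2]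
    have h1 := hp2 _ _ hgne (Sum.inl v) (by rw [hL1]; simp [hv]) (by rw [hL1]; simp [hv'])
    simp at h1

end Pool.CMK
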