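import Pool.Agent.CMX.StD
import Pool.Agent.CMK.Lib

/-!
# CMX: paths in a small region (`St_DNear`)
-/

set_option autoImplicit false

namespace Pool.CMK

open Finset
open scoped Classical

/-- the numbers -/
private theorem DNear_arith {V : Type} [Fintype V] {G : SimpleGraph V} {k M : ℕ} {A : Finset V}
    (hk : 40000 * (M + 1) ≤ k) (hA : Rgn G k M A) (hAk : 10000 * A.card ≤ 10001 * k) :
    k ≤ A.card + 4 * M ∧
      100 * (A.filter (fun v => k < 50 * (A.card - (nbs G v A).card))).card ≤ A.card := by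
  have ha : 0 < A.card := hA.ne.card_pos
  have hdeg : ∀ v, (nbs G v A).card ≤ A.card := fun v => Finset.card_filter_le _ _
  have had : ad G A A = ∑ v ∈ A, (nbs G v A).card := lib_ad_eq_sum G A A
  have hsum : ∑ v ∈ A, (A.card - (nbs G v A).card) + ad G A A = A.card * A.card := by
    rw [had, ← Finset.sum_add_distrib]
    rw [Finset.sum_congr rfl (fun v _ => Nat.sub_add_cancel (hdeg v)), Finset.sum_const,
      smul_eq_mul]
  have hdens := hA.dens
  have h1 : k ≤ A.card + 4 * M := by
    have h2 : k * A.card ≤ (A.card + 4 * M) * A.card := by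
      have h3 : ad G A A ≤ A.card * A.card := lib_ad_le G A A
      rw [Nat.add_mul]
      omega
    exact Nat.le_of_mul_le_mul_right h2 ha
  refine ⟨h1, ?_⟩
  set B := A.filter (fun v => k < 50 * (A.card - (nbs G v A).card)) with hB
  have hBs : B.card * k ≤ 50 * ∑ v ∈ A, (A.card - (nbs G v A).card) := by
    calc B.card * k = ∑ _v ∈ B, k := by rw [Finset.sum_const, smul_eq_mul]
      _ ≤ ∑ v ∈ B, 50 * (A.card - (nbs G v A).card) :=
          Finset.sum_le_sum fun v hv => (Finset.mem_filter.1 hv).2.le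
      _ ≤ ∑ v ∈ A, 50 * (A.card - (nbs G v A).card) :=
          Finset.sum_le_sum_of_subset (Finset.filter_subset _ _)
      _ = 50 * ∑ v ∈ A, (A.card - (nbs G v A).card) := by rw [Finset.mul_sum]
  have h3 : 5000 * ∑ v ∈ A, (A.card - (nbs G v A).card) ≤ A.card * k := by
    have h4 : ∑ v ∈ A, (A.card - (nbs G v A).card) + k * A.card ≤
        A.card * A.card + 4 * M * A.card := by omega
    have h5 : 5000 * (A.card + 4 * M) ≤ 5000 * k + k := by omega
    nlinarith
  have h6 : 100 * B.card * k ≤ A.card * k := by nlinarith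
  exact Nat.le_of_mul_le_mul_right h6 (by omega)

theorem thm_DNear (hDPath : St_DPath) : St_DNear := by
  refine ⟨1 / 10000, by norm_num, fun M => ⟨40000 * (M + 1), fun k hk V _ G A hA hAk => ?_⟩⟩
  have hAk' : 10000 * A.card ≤ 10001 * k := by
    have h1 : (10000 : ℝ) * (A.card : ℝ) ≤ 10001 * k := by linarith
    exact_mod_cast h1
  obtain ⟨h1, h2⟩ := DNear_arith hk hA hAk'
  refine ⟨by omega, ?_⟩
  intro x hx y hy hxy t ht ht'
  set B := A.filter (fun v => k < 50 * (A.card - (nbs G v A).card)) with hB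
  have hBA : B ⊆ A := Finset.filter_subset _ _
  have hWc : (A \ B).card = A.card - B.card := Finset.card_sdiff_of_subset hBA
  have hdegW : ∀ v, (nbs G v A).card ≤ (nbs G v (A \ B)).card + B.card := by
    intro v
    have h3 : nbs G v A ⊆ nbs G v (A \ B) ∪ B := by
      intro w hw
      rw [lib_mem_nbs] at hw
      rw [Finset.mem_union, lib_mem_nbs, Finset.mem_sdiff]
      by_cases hwB : w ∈ B
      · exact Or.inr hwB
      · exact Or.inl ⟨⟨hw.1, hwB⟩, hw.2⟩
    exact (Finset.card_le_card h3).trans (Finset.card_union_le _ _)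
  have hdeg : ∀ v ∈ A, 3 ≤ (nbs G v (A \ B)).card := by
    intro v hv
    have h3 : nbs G v univ ⊆ nbs G v A ∪ bdr G A := by
      intro w hw
      rw [lib_mem_nbs] at hw
      rw [Finset.mem_union, lib_mem_nbs]
      by_cases hwA : w ∈ A
      · exact Or.inl ⟨hwA, hw.2⟩
      · exact Or.inr (Finset.mem_filter.2 ⟨Finset.mem_univ _, hwA, v, hv, hw.2⟩)
    have h4 := (Finset.card_le_card h3).trans (Finset.card_union_le _ _)
    have h5 := hA.deg v hv
    have h6 := hA.bd
    have h7 := hdegW v
    omega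
  obtain ⟨q, q1, q2, q3, q4, q5, q6⟩ := hDPath V G (A \ B) ∅ (k / 50) 0 t x y (by
      intro w hw
      have hw1 := (Finset.mem_sdiff.1 hw).1
      have hw2 : ¬ (k < 50 * (A.card - (nbs G w A).card)) := fun h =>
        (Finset.mem_sdiff.1 hw).2 (Finset.mem_filter.2 ⟨hw1, h⟩)
      have h3 : (A \ B) ⊆ nbs G w (A \ B) ∪ (A \ nbs G w A) := by
        intro v hv
        rw [Finset.mem_union, lib_mem_nbs, Finset.mem_sdiff (s := A) (t := nbs G w A), lib_mem_nbs]
        by_cases hwv : G.Adj w v
        · exact Or.inl ⟨hv, hwv⟩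
        · exact Or.inr ⟨(Finset.mem_sdiff.1 hv).1, fun h => hwv h.2⟩
      have h4 := (Finset.card_le_card h3).trans (Finset.card_union_le _ _)
      have h5 : (A \ nbs G w A).card = A.card - (nbs G w A).card :=
        Finset.card_sdiff_of_subset (Finset.filter_subset _ _)
      omega) (by simp) hxy (by have := hdeg x hx; omega) (by have := hdeg y hy; omega) ht (by omega)
  exact ⟨q, q1, q2, q3, fun w hw => ⟨(Finset.mem_sdiff.1 (q4 w hw).1).1, (q4 w hw).2.2.1,
    (q4 w hw).2.2.2⟩, q5, q6⟩

end Pool.CMK
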