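import Pool.Agent.CMX.StD
import Pool.Agent.CMK.Lib

/-!
# CMX, module SmallTA: two small regions
-/

set_option autoImplicit false

namespace Pool.CMK

open Finset
open scoped Classical

private theorem SmallTA_mod (N k : ℕ) (hk : 2 ≤ k) : ∃ r < k, (N + r) % k = 1 := by
  have h1 : k * (N / k) + N % k = N := Nat.div_add_mod N k
  have h2 : N % k < k := Nat.mod_lt _ (by omega)
  by_cases h : N % k ≤ 1
  · refine ⟨1 - N % k, by omega, ?_⟩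
    have h3 : N + (1 - N % k) = k * (N / k) + 1 := by omega
    rw [h3, Nat.mul_add_mod, Nat.mod_eq_of_lt (by omega)]
  · refine ⟨k + 1 - N % k, by omega, ?_⟩
    have h3 : N + (k + 1 - N % k) = k * (N / k + 1) + 1 := by
      rw [Nat.mul_add]
      omega
    rw [h3, Nat.mul_add_mod, Nat.mod_eq_of_lt (by omega)]

theorem thm_SmallTA (hTwo : St_Two) (hDNear : St_DNear) : St_SmallT := by
  obtain ⟨e, he, hD⟩ := hDNear
  refine ⟨e, he, fun M => ?_⟩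
  obtain ⟨k₀, hk₀⟩ := hD M
  refine ⟨k₀ + 20, fun k hk _ V _ G A₁ A₂ hSC hR₁ hR₂ hdis _ hA₁ hA₂ => ?_⟩
  obtain ⟨hc₁, hp₁⟩ := hk₀ k (by omega) V G A₁ hR₁ hA₁
  obtain ⟨hc₂, hp₂⟩ := hk₀ k (by omega) V G A₂ hR₂ hA₂
  obtain ⟨p, q, hp, hq, hpq, ⟨x₁, hx₁, hpx, hpx'⟩, ⟨y₁, hy₁, hpy, hpy'⟩, ⟨x₂, hx₂, hqx, hqx'⟩,
    ⟨y₂, hy₂, hqy, hqy'⟩⟩ := hTwo V G A₁ A₂ hSC hdis hc₁ hc₂
  have mx₁ : x₁ ∈ p := List.mem_of_mem_head? hpx
  have my₁ : y₁ ∈ p := List.mem_of_mem_getLast? hpy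
  have mx₂ : x₂ ∈ q := List.mem_of_mem_head? hqx
  have my₂ : y₂ ∈ q := List.mem_of_mem_getLast? hqy
  have nx : x₂ ≠ x₁ := fun h => hpq x₁ mx₁ (h ▸ mx₂)
  have ny : y₁ ≠ y₂ := fun h => hpq y₁ my₁ (h ▸ my₂)
  obtain ⟨r, hr, hmod⟩ := SmallTA_mod (p.length + q.length + 6) k (by omega)
  obtain ⟨r₂, hl₂, hn₂, hch₂, hm₂, ⟨a₂, ha₂, haa₂⟩, ⟨b₂, hb₂, hbb₂⟩⟩ :=
    hp₂ y₁ hy₁ y₂ hy₂ ny ((6 + r) - (6 + r) / 2) (by omega) (by omega)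
  obtain ⟨r₁, hl₁, hn₁, hch₁, hm₁, ⟨a₁, ha₁, haa₁⟩, ⟨b₁, hb₁, hbb₁⟩⟩ :=
    hp₁ x₂ hx₂ x₁ hx₁ nx ((6 + r) / 2) (by omega) (by omega)
  have f1 : PathFT G x₁ y₁ p := ⟨hp, hpx, hpy⟩
  have f2 : PathFT G a₂ b₂ r₂ := ⟨⟨by rintro rfl; simp at ha₂, hn₂, hch₂⟩, ha₂, hb₂⟩
  have f3 : PathFT G y₂ x₂ q.reverse := lib_pathFT_reverse ⟨hq, hqx, hqy⟩
  have f4 : PathFT G a₁ b₁ r₁ := ⟨⟨by rintro rfl; simp at ha₁, hn₁, hch₁⟩, ha₁, hb₁⟩
  have g1 : PathFT G x₁ b₂ (p ++ r₂) := by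
    refine lib_path_append f1 f2 (fun w hw hw' => ?_) haa₂
    obtain ⟨h1, h2, -⟩ := hm₂ w hw'
    exact h2 (hpy' w hw h1)
  have g2 : PathFT G x₁ x₂ (p ++ r₂ ++ q.reverse) := by
    refine lib_path_append g1 f3 (fun w hw hw' => ?_) hbb₂
    rw [List.mem_reverse] at hw'
    rcases List.mem_append.1 hw with h | h
    · exact hpq w h hw'
    · obtain ⟨h1, -, h3⟩ := hm₂ w h
      exact h3 (hqy' w hw' h1)
  have g3 : CycL G (p ++ r₂ ++ q.reverse ++ r₁) := by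
    refine lib_cyc_of_paths g2 f4 (fun w hw hw' => ?_) haa₁ hbb₁ ?_
    · obtain ⟨h1, h2, h3⟩ := hm₁ w hw'
      rcases List.mem_append.1 hw with h | h
      · rcases List.mem_append.1 h with h | h
        · exact h3 (hpx' w h h1)
        · exact Finset.disjoint_left.1 hdis h1 (hm₂ w h).1
      · rw [List.mem_reverse] at h
        exact h2 (hqx' w h h1)
    · rw [hl₁]
      omega
  refine ⟨_, g3, ?_⟩
  have hlen : (p ++ r₂ ++ q.reverse ++ r₁).length = p.length + q.length + 6 + r := by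
    rw [List.length_append, List.length_append, List.length_append, List.length_reverse, hl₁, hl₂]
    omega
  rw [hlen, hmod]

end Pool.CMK
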