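import Pool.Agent.CMX.DPath
import Pool.Agent.CMX.DNear
import Pool.Agent.CMX.SmallTA

set_option autoImplicit false

namespace Pool.CMK

/-- two small regions -/
theorem thm_SmallT (hTwo : St_Two) : St_SmallT := thm_SmallTA hTwo (thm_DNear thm_DPath)

end Pool.CMK
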