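import Pool.Agent.CMX.StD
import Pool.Agent.CMK.Lib

/-!
# CMX part D, module DCyc: a cycle through given vertices in a nearly complete graph
-/

set_option autoImplicit false

namespace Pool.CMK

open Finset
open scoped Classical

variable {V : Type}

/-- the joining path of three vertices -/
private theorem DCyc_join (hDPath : St_DPath) (G : SimpleGraph V) (W Z : Finset V) (h : ℕ)
    (hW : ∀ w ∈ W, W.card ≤ (nbs G w W).card + h)
    (hdeg : ∀ z ∈ Z, 5 * Z.card + 3 ≤ (nbs G z W).card)
    (hbig : 5 * Z.card + 2 * h + 9 ≤ W.card) (P : List V) (hP : P.length ≤ 4 * Z.card)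
    (x y : V) (hx : x ∈ Z) (hy : y ∈ Z) (hxy : x ≠ y) :
    ∃ (q : List V) (a b : V), q.length = 3 ∧ PathFT G a b q ∧ G.Adj x a ∧ G.Adj b y ∧
      (∀ w ∈ q, w ∈ W ∧ w ∉ P ∧ w ∉ Z) := by
  have hU : ((P.toFinset ∪ Z) ∩ W).card ≤ 5 * Z.card := by
    calc ((P.toFinset ∪ Z) ∩ W).card ≤ (P.toFinset ∪ Z).card :=
          Finset.card_le_card Finset.inter_subset_left
      _ ≤ P.toFinset.card + Z.card := Finset.card_union_le _ _
      _ ≤ P.length + Z.card := by
          have := List.toFinset_card_le P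
          omega
      _ ≤ 5 * Z.card := by omega
  obtain ⟨q, q1, q2, q3, q4, ⟨a, ha, hxa⟩, ⟨b, hb, hby⟩⟩ :=
    hDPath V G W (P.toFinset ∪ Z) h (5 * Z.card) 3 x y hW hU hxy (hdeg x hx) (hdeg y hy)
      (le_refl 3) (by omega)
  refine ⟨q, a, b, q1, ⟨⟨?_, q2, q3⟩, ha, hb⟩, hxa, hby, ?_⟩
  · rintro rfl
    simp at q1
  · intro w hw
    obtain ⟨w1, w2, w3, w4⟩ := q4 w hw
    rw [Finset.mem_union, not_or, List.mem_toFinset] at w2
    exact ⟨w1, w2.1, w2.2⟩

/-- extending a path through the vertices of a list -/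
private theorem DCyc_ext (hDPath : St_DPath) (G : SimpleGraph V) (W Z : Finset V) (h : ℕ)
    (hW : ∀ w ∈ W, W.card ≤ (nbs G w W).card + h)
    (hdeg : ∀ z ∈ Z, 5 * Z.card + 3 ≤ (nbs G z W).card)
    (hbig : 5 * Z.card + 2 * h + 9 ≤ W.card) (x : V) (zs : List V) :
    ∀ (P : List V) (y : V), PathFT G x y P → y ∈ Z → (∀ z ∈ zs, z ∈ Z) → zs.Nodup →
      (∀ z ∈ zs, z ∉ P) → (∀ v ∈ P, v ∈ Z ∨ v ∈ W) →
      P.length + 4 * zs.length ≤ 4 * Z.card →
      ∃ (Q : List V) (y' : V), PathFT G x y' Q ∧ Q.length = P.length + 4 * zs.length ∧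
        (y' ∈ zs ∨ (zs = [] ∧ y' = y)) ∧ (∀ v ∈ P, v ∈ Q) ∧ (∀ v ∈ zs, v ∈ Q) ∧
        (∀ v ∈ Q, v ∈ Z ∨ v ∈ W) := by
  induction zs with
  | nil =>
    intro P y hP _ _ _ _ hPW _
    exact ⟨P, y, hP, by simp, Or.inr ⟨rfl, rfl⟩, fun v hv => hv, by simp, hPW⟩
  | cons z zs ih =>
    intro P y hP hy hz hnd hzP hPW hlen
    rw [List.length_cons] at hlen
    have hzZ : z ∈ Z := hz z (List.mem_cons_self)
    have hyP : y ∈ P := List.mem_of_getLast? hP.2.2
    have hzy : y ≠ z := by
      rintro rfl
      exact hzP y List.mem_cons_self hyP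
    obtain ⟨q, a, b, q1, q2, q3, q4, q5⟩ :=
      DCyc_join hDPath G W Z h hW hdeg hbig P (by omega) y z hy hzZ hzy
    have hPq : PathFT G x b (P ++ q) :=
      lib_path_append hP q2 (fun w hw hw' => (q5 w hw').2.1 hw) q3
    have hzz : PathFT G z z [z] := ⟨⟨by simp, by simp, by simp⟩, by simp, by simp⟩
    have hPz : PathFT G x z (P ++ q ++ [z]) := by
      refine lib_path_append hPq hzz ?_ q4
      intro w hw hw'
      rw [List.mem_singleton] at hw'
      subst hw'
      rw [List.mem_append] at hw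
      rcases hw with hw | hw
      · exact hzP w List.mem_cons_self hw
      · exact (q5 w hw).2.2 hzZ
    rw [List.nodup_cons] at hnd
    obtain ⟨Q, y', h1, h2, h3, h4, h5, h6⟩ := ih (P ++ q ++ [z]) z hPz hzZ
      (fun w hw => hz w (List.mem_cons_of_mem _ hw)) hnd.2
      (by
        intro w hw hw'
        rw [List.mem_append, List.mem_append, List.mem_singleton] at hw'
        rcases hw' with (hw' | hw') | hw'
        · exact hzP w (List.mem_cons_of_mem _ hw) hw'
        · exact (q5 w hw').2.2 (hz w (List.mem_cons_of_mem _ hw))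
        · subst hw'
          exact hnd.1 hw)
      (by
        intro w hw
        rw [List.mem_append, List.mem_append, List.mem_singleton] at hw
        rcases hw with (hw | hw) | hw
        · exact hPW w hw
        · exact Or.inr (q5 w hw).1
        · subst hw
          exact Or.inl hzZ)
      (by
        simp only [List.length_append, List.length_cons, List.length_nil]
        omega)
    refine ⟨Q, y', h1, ?_, ?_, ?_, ?_, h6⟩
    · rw [h2]
      simp only [List.length_append, List.length_cons, List.length_nil]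
      omega
    · rcases h3 with h3 | ⟨_, h3⟩
      · exact Or.inl (List.mem_cons_of_mem _ h3)
      · exact Or.inl (by rw [h3]; exact List.mem_cons_self)
    · intro v hv
      exact h4 v (by simp [hv])
    · intro v hv
      rw [List.mem_cons] at hv
      rcases hv with hv | hv
      · exact h4 v (by simp [hv])
      · exact h5 v hv

/-- a cycle through given vertices -/
theorem thm_DCyc (hDPath : St_DPath) : St_DCyc := by
  intro V G W Z h hW hZ hdeg hbig
  have hZl : Z.toList.length = Z.card := Finset.length_toList Z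
  have hZn : Z.toList.Nodup := Finset.nodup_toList Z
  have hZm : ∀ v, v ∈ Z.toList ↔ v ∈ Z := fun v => Finset.mem_toList
  rcases hL : Z.toList with _ | ⟨z, zs⟩
  · rw [hL] at hZl
    simp at hZl
    omega
  rw [hL] at hZl hZn
  rw [List.length_cons] at hZl
  rw [List.nodup_cons] at hZn
  have hzZ : z ∈ Z := by
    rw [← hZm, hL]
    exact List.mem_cons_self
  have hzsZ : ∀ w ∈ zs, w ∈ Z := by
    intro w hw
    rw [← hZm, hL]
    exact List.mem_cons_of_mem _ hw
  have hzz : PathFT G z z [z] := ⟨⟨by simp, by simp, by simp⟩, by simp, by simp⟩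
  obtain ⟨Q, y', h1, h2, h3, h4, h5, h6⟩ := DCyc_ext hDPath G W Z h hW hdeg hbig z zs [z] z hzz hzZ
    hzsZ hZn.2
    (by
      intro w hw hw'
      rw [List.mem_singleton] at hw'
      subst hw'
      exact hZn.1 hw)
    (by
      intro w hw
      rw [List.mem_singleton] at hw
      subst hw
      exact Or.inl hzZ)
    (by
      rw [List.length_singleton]
      omega)
  rw [List.length_singleton] at h2
  have hy' : y' ∈ zs := by
    rcases h3 with h3 | ⟨h3, _⟩
    · exact h3
    · subst h3
      simp at hZl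
      omega
  have hyz : y' ≠ z := by
    rintro rfl
    exact hZn.1 hy'
  obtain ⟨q, a, b, q1, q2, q3, q4, q5⟩ :=
    DCyc_join hDPath G W Z h hW hdeg hbig Q (by omega) y' z (hzsZ y' hy') hzZ hyz
  refine ⟨Q ++ q, lib_cyc_of_paths h1 q2 (fun w hw hw' => (q5 w hw').2.1 hw) q3 q4 (by omega),
    ?_, ?_, ?_⟩
  · rw [List.length_append, h2, q1]
    omega
  · intro w hw
    rw [← hZm, hL, List.mem_cons] at hw
    rw [List.mem_append]
    rcases hw with hw | hw
    · subst hw
      exact Or.inl (h4 w List.mem_cons_self)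
    · exact Or.inl (h5 w hw)
  · intro w hw
    rw [List.mem_append] at hw
    rcases hw with hw | hw
    · exact h6 w hw
    · exact Or.inr (q5 w hw).1

end Pool.CMK
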