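import Pool.Agent.CMX.StD
import Pool.Agent.CMK.Lib

/-!
# CMX: extending a cycle by single vertices
-/

set_option autoImplicit false

namespace Pool.CMK

open Finset
open scoped Classical

/-- two consecutive vertices of the cycle adjacent to `w` -/
private theorem DGrow_pair {V : Type} [Fintype V] (G : SimpleGraph V) (h : ℕ) (l : List V) (w : V)
    (hn : l.Nodup) (h0 : 0 < l.length)
    (hw : (univ.filter (fun z => ¬ G.Adj w z)).card ≤ h) (hl : 2 * h < l.length) :
    ∃ (i : ℕ) (hi : i < l.length), G.Adj w l[i] ∧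
      G.Adj w (l[(i + 1) % l.length]'(Nat.mod_lt _ h0)) := by
  by_contra hcon
  push Not at hcon
  set L := l.length with hL
  let I : Finset (Fin L) := univ.filter (fun i : Fin L => ¬ G.Adj w l[i.1])
  have hI : I.card ≤ h := by
    refine le_trans ?_ hw
    refine Finset.card_le_card_of_injOn (fun i : Fin L => l[i.1]) ?_ ?_
    · intro i hi
      have := (Finset.mem_filter.1 hi).2
      exact Finset.mem_filter.2 ⟨Finset.mem_univ _, this⟩
    · intro i _ j _ hij
      exact Fin.ext ((hn.getElem_inj_iff).1 hij)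
  let s : Fin L → Fin L := fun i => ⟨(i.1 + 1) % L, Nat.mod_lt _ h0⟩
  have hs : Function.Injective s := by
    intro i j hij
    have h1 : (i.1 + 1) % L = (j.1 + 1) % L := congrArg Fin.val hij
    have h2 : i.1 % L = j.1 % L := Nat.ModEq.add_right_cancel' 1 h1
    rw [Nat.mod_eq_of_lt i.2, Nat.mod_eq_of_lt j.2] at h2
    exact Fin.ext h2
  let J : Finset (Fin L) := univ.filter (fun i : Fin L => s i ∈ I)
  have hJ : J.card ≤ h := by
    refine le_trans ?_ hI
    refine Finset.card_le_card_of_injOn s ?_ hs.injOn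
    intro i hi
    exact (Finset.mem_filter.1 hi).2
  have hU : (univ : Finset (Fin L)) ⊆ I ∪ J := by
    intro i _
    rw [Finset.mem_union]
    by_cases h1 : G.Adj w l[i.1]
    · right
      refine Finset.mem_filter.2 ⟨Finset.mem_univ _, Finset.mem_filter.2 ⟨Finset.mem_univ _, ?_⟩⟩
      exact hcon i.1 i.2 h1
    · left
      exact Finset.mem_filter.2 ⟨Finset.mem_univ _, h1⟩
  have h1 := Finset.card_le_card hU
  have h2 := Finset.card_union_le I J
  rw [Finset.card_univ, Fintype.card_fin] at h1
  omega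

private theorem DGrow_step {V : Type} [Fintype V] (G : SimpleGraph V) (h : ℕ) (l : List V) (w : V)
    (hc : CycL G l) (hwl : w ∉ l)
    (hw : (univ.filter (fun z => ¬ G.Adj w z)).card ≤ h) (hl : 2 * h < l.length) :
    ∃ l₁, CycL G l₁ ∧ l₁.length = l.length + 1 ∧ ∀ v, v ∈ l₁ ↔ v ∈ l ∨ v = w := by
  have h3 : 3 ≤ l.length := hc.1
  have h0 : 0 < l.length := by omega
  obtain ⟨i, hi, ha, hb⟩ := DGrow_pair G h l w hc.2.1 h0 hw hl
  have hr := lib_cyc_rotate hc (i + 1)
  have hlen : (l.rotate (i + 1)).length = l.length := List.length_rotate ..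
  have hhead : (l.rotate (i + 1)).head? = some (l[(i + 1) % l.length]'(Nat.mod_lt _ h0)) := by
    rw [List.head?_eq_getElem?, List.getElem?_eq_getElem (by rw [hlen]; exact h0),
      List.getElem_rotate]
    simp
  have hlast : (l.rotate (i + 1)).getLast? = some l[i] := by
    rw [List.getLast?_eq_getElem?, List.getElem?_eq_getElem (by rw [hlen]; omega),
      List.getElem_rotate]
    have e : ((l.rotate (i + 1)).length - 1 + (i + 1)) % l.length = i := by
      rw [hlen]
      have : l.length - 1 + (i + 1) = i + l.length := by omega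
      rw [this, Nat.add_mod_right, Nat.mod_eq_of_lt hi]
    simp only [e]
  have hmem : ∀ v, v ∈ l.rotate (i + 1) ↔ v ∈ l := fun v => List.mem_rotate
  refine ⟨l.rotate (i + 1) ++ [w], ?_, ?_, ?_⟩
  · obtain ⟨-, hn', hc', -⟩ := hr
    refine ⟨by rw [List.length_append, hlen]; simp; omega, ?_, ?_, _, w, ?_, ?_, hb⟩
    · rw [List.nodup_append]
      refine ⟨hn', by simp, fun a ha' b hb' hab => ?_⟩
      rw [List.mem_singleton] at hb'
      rw [hab, hb', hmem] at ha'
      exact hwl ha'
    · rw [List.isChain_append]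
      refine ⟨hc', by simp, ?_⟩
      intro a ha' b hb'
      rw [hlast] at ha'
      simp only [List.head?_cons, Option.mem_def, Option.some.injEq] at ha' hb'
      rw [← ha', ← hb']
      exact ha.symm
    · rw [List.head?_append, hhead]
      rfl
    · simp
  · rw [List.length_append, hlen]
    simp
  · intro v
    rw [List.mem_append, hmem, List.mem_singleton]

theorem thm_DGrow : St_DGrow := by
  intro V _ G W h t
  induction t with
  | zero =>
    intro l hc _ _ _
    exact ⟨l, hc, rfl⟩
  | succ t ih =>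
    intro l hc hW hl ht
    have hne : (W \ l.toFinset).Nonempty := by
      rw [← Finset.card_pos]
      omega
    obtain ⟨w, hw⟩ := hne
    obtain ⟨hwW, hwl⟩ := Finset.mem_sdiff.1 hw
    rw [List.mem_toFinset] at hwl
    obtain ⟨l₁, hc₁, hlen, hmem⟩ := DGrow_step G h l w hc hwl (hW w hwW) hl
    have h1 : (W \ l.toFinset).erase w ⊆ W \ l₁.toFinset := by
      intro v hv
      obtain ⟨hvw, hv'⟩ := Finset.mem_erase.1 hv
      obtain ⟨hvW, hvl⟩ := Finset.mem_sdiff.1 hv'
      refine Finset.mem_sdiff.2 ⟨hvW, ?_⟩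
      rw [List.mem_toFinset] at hvl ⊢
      rw [hmem]
      push Not
      exact ⟨hvl, hvw⟩
    have h2 := Finset.card_le_card h1
    rw [Finset.card_erase_of_mem hw] at h2
    obtain ⟨l', hc', hlen'⟩ := ih l₁ hc₁ hW (by omega) (by omega)
    exact ⟨l', hc', by omega⟩

end Pool.CMK
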