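import Pool.Agent.CMX.StD
import Pool.Agent.CMK.Lib

/-!
# CMX [SmallVA]: the whole graph is small
-/

set_option autoImplicit false

namespace Pool.CMK

open Finset
open scoped Classical

theorem SmallVA_nonadj {V : Type} [Fintype V] (G : SimpleGraph V) (w : V) :
    (univ.filter (fun z => ¬ G.Adj w z)).card + (nbs G w univ).card = Fintype.card V := by
  unfold nbs
  rw [add_comm, Finset.card_filter_add_card_filter_not, Finset.card_univ]

theorem SmallVA_split {V : Type} [Fintype V] (G : SimpleGraph V) (w : V) (W : Finset V) :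
    W.card ≤ (nbs G w W).card + (univ.filter (fun z => ¬ G.Adj w z)).card := by
  have h1 : W.card = (W.filter (fun z => G.Adj w z)).card +
      (W.filter (fun z => ¬ G.Adj w z)).card := (Finset.card_filter_add_card_filter_not _).symm
  have h2 : (W.filter (fun z => ¬ G.Adj w z)).card ≤ (univ.filter (fun z => ¬ G.Adj w z)).card :=
    Finset.card_le_card (Finset.filter_subset_filter _ (Finset.subset_univ _))
  unfold nbs
  omega

theorem SmallVA_deg {V : Type} [Fintype V] (G : SimpleGraph V) (z : V) (W : Finset V) :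
    (nbs G z univ).card ≤ (nbs G z W).card + (Wᶜ).card := by
  have h1 : nbs G z univ ⊆ nbs G z W ∪ Wᶜ := by
    intro v hv
    unfold nbs at hv ⊢
    rw [Finset.mem_filter] at hv
    rw [Finset.mem_union, Finset.mem_filter, Finset.mem_compl]
    by_cases hvW : v ∈ W
    · exact Or.inl ⟨hvW, hv.2⟩
    · exact Or.inr hvW
  exact (Finset.card_le_card h1).trans (Finset.card_union_le _ _)

theorem thm_SmallVA (hDCyc : St_DCyc) (hDGrow : St_DGrow) : St_SmallV := by
  refine ⟨1 / 10000, by norm_num, 10000, ?_⟩
  intro k hk _ V _ G hn1 hn2 had hdeg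
  set n := Fintype.card V with hn
  have hn2' : 10000 * n ≤ 10001 * k := by
    have : (10000 : ℝ) * n ≤ 10001 * k := by linarith
    exact_mod_cast this
  -- degrees
  have hdn : ∀ v, (nbs G v univ).card + 1 ≤ n := by
    intro v
    have h1 := SmallVA_nonadj G v
    have h2 : 0 < (univ.filter (fun z => ¬ G.Adj v z)).card := by
      apply Finset.card_pos.2
      exact ⟨v, by simp⟩
    omega
  have hsum : ad G univ univ = ∑ v, (nbs G v univ).card := lib_ad_eq_sum G univ univ
  have hdef : ad G univ univ + ∑ v : V, (n - 1 - (nbs G v univ).card) = n * (n - 1) := by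
    rw [hsum, ← Finset.sum_add_distrib]
    have h1 : ∀ v ∈ (univ : Finset V), (nbs G v univ).card + (n - 1 - (nbs G v univ).card) =
        n - 1 := by
      intro v _
      have := hdn v
      omega
    rw [Finset.sum_congr rfl h1, Finset.sum_const, Finset.card_univ, smul_eq_mul]
  have hD : 10000 * ∑ v : V, (n - 1 - (nbs G v univ).card) ≤ k * (n - 1) := by
    obtain ⟨m, hm⟩ : ∃ m, n = k + m := ⟨n - k, by omega⟩
    have h1 : ∑ v : V, (n - 1 - (nbs G v univ).card) ≤ m * (n - 1) := by
      have h2 : n * (n - 1) = k * (n - 1) + m * (n - 1) := by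
        rw [← add_mul, ← hm]
      omega
    have h3 : 10000 * m ≤ k := by omega
    calc 10000 * ∑ v : V, (n - 1 - (nbs G v univ).card) ≤ 10000 * (m * (n - 1)) :=
          Nat.mul_le_mul_left _ h1
      _ = (10000 * m) * (n - 1) := by ring
      _ ≤ k * (n - 1) := Nat.mul_le_mul_right _ h3
  -- the bad vertices
  set B : Finset V := univ.filter (fun v => k < 100 * (n - 1 - (nbs G v univ).card)) with hB
  have hBc : 100 * B.card ≤ n - 1 := by
    have h1 : B.card * k ≤ ∑ v ∈ B, 100 * (n - 1 - (nbs G v univ).card) := by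
      rw [← smul_eq_mul, ← Finset.sum_const]
      apply Finset.sum_le_sum
      intro v hv
      rw [hB, Finset.mem_filter] at hv
      exact hv.2.le
    have h2 : ∑ v ∈ B, 100 * (n - 1 - (nbs G v univ).card) ≤
        100 * ∑ v : V, (n - 1 - (nbs G v univ).card) := by
      rw [Finset.mul_sum]
      exact Finset.sum_le_sum_of_subset (Finset.subset_univ _)
    have h3 : (100 * B.card) * k ≤ (n - 1) * k := by
      calc (100 * B.card) * k = 100 * (B.card * k) := by ring
        _ ≤ 100 * (100 * ∑ v : V, (n - 1 - (nbs G v univ).card)) :=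
            Nat.mul_le_mul_left _ (h1.trans h2)
        _ = 10000 * ∑ v : V, (n - 1 - (nbs G v univ).card) := by ring
        _ ≤ k * (n - 1) := hD
        _ = (n - 1) * k := by ring
    exact Nat.le_of_mul_le_mul_right h3 (by omega)
  set W : Finset V := Bᶜ with hW
  have hWB : W.card + B.card = n := by
    rw [hW, Finset.card_compl]
    have : B.card ≤ Fintype.card V := Finset.card_le_univ B
    omega
  set h := k / 100 + 1 with hh
  have hWn : ∀ w ∈ W, (univ.filter (fun z => ¬ G.Adj w z)).card ≤ h := by
    intro w hw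
    rw [hW, Finset.mem_compl, hB, Finset.mem_filter] at hw
    have h1 : ¬ k < 100 * (n - 1 - (nbs G w univ).card) := fun h' => hw ⟨Finset.mem_univ _, h'⟩
    have h2 := SmallVA_nonadj G w
    have h3 := hdn w
    omega
  have hWW : ∀ w ∈ W, W.card ≤ (nbs G w W).card + h := by
    intro w hw
    have h1 := SmallVA_split G w W
    have h2 := hWn w hw
    omega
  obtain ⟨b, hb⟩ : ∃ b, b = k + 1 - W.card := ⟨_, rfl⟩
  have hbB : b ≤ B.card := by omega
  obtain ⟨B', hB'B, hB'c⟩ := Finset.exists_subset_card_eq hbB
  have hWc : k + 1 ≤ W.card + k / 50 := by omega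
  obtain ⟨W', hW'W, hW'c⟩ := Finset.exists_subset_card_eq (show h + 2 ≤ W.card by omega)
  have hdBW : Disjoint B W := by
    rw [hW]; exact disjoint_compl_right
  have hdis : Disjoint B' W' := Finset.disjoint_of_subset_left hB'B
    (Finset.disjoint_of_subset_right hW'W hdBW)
  set Z := B' ∪ W' with hZ
  have hZc : Z.card = b + (h + 2) := by
    rw [hZ, Finset.card_union_of_disjoint hdis, hB'c, hW'c]
  have hBk : B.card ≤ k / 50 := by omega
  have hZdeg : ∀ z ∈ Z, 5 * Z.card + 3 ≤ (nbs G z W).card := by
    intro z _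
    have h1 := SmallVA_deg G z W
    have h2 := hdeg z
    have h3 : Wᶜ = B := by rw [hW, compl_compl]
    rw [h3] at h1
    omega
  obtain ⟨l, hl, hlen, hZl, hlZW⟩ := hDCyc V G W Z h hWW (by omega) hZdeg (by omega)
  have hlc : l.toFinset.card = 4 * Z.card := by
    rw [List.toFinset_card_of_nodup hl.2.1, hlen]
  have hout : l.toFinset \ W = B' := by
    ext v
    rw [Finset.mem_sdiff, List.mem_toFinset]
    constructor
    · rintro ⟨h1, h2⟩
      rcases hlZW v h1 with h3 | h3
      · rw [hZ, Finset.mem_union] at h3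
        rcases h3 with h3 | h3
        · exact h3
        · exact absurd (hW'W h3) h2
      · exact absurd h3 h2
    · intro h1
      exact ⟨hZl v (Finset.mem_union_left _ h1), fun h2 =>
        Finset.disjoint_left.1 hdBW (hB'B h1) h2⟩
  have hin : (l.toFinset ∩ W).card + b = 4 * Z.card := by
    have h1 := Finset.card_sdiff_add_card_inter l.toFinset W
    rw [hout, hB'c] at h1
    omega
  have hWl : (W \ l.toFinset).card + (l.toFinset ∩ W).card = W.card := by
    have h1 := Finset.card_sdiff_add_card_inter W l.toFinset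
    rw [Finset.inter_comm] at h1
    exact h1
  obtain ⟨l', hl', hlen'⟩ := hDGrow V G W h (k + 1 - 4 * Z.card) l hl hWn (by omega) (by omega)
  exact ⟨l', hl', by omega⟩

end Pool.CMK
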