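import Pool.Agent.CMX.DPath
import Pool.Agent.CMX.DCyc
import Pool.Agent.CMX.DGrow
import Pool.Agent.CMX.SmallVA

set_option autoImplicit false

namespace Pool.CMK

/-- the whole graph is small, hence nearly complete -/
theorem thm_SmallV : St_SmallV := thm_SmallVA (thm_DCyc thm_DPath) thm_DGrow

end Pool.CMK
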