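import Pool.Agent.CMX.StB

/-!
# CMX: covering the dense parts by disjoint pairs (`St_SpQ`)
-/

set_option autoImplicit false

namespace Pool.CMK

open Finset
open scoped Classical

/-- there is a family of `r` allowed disjoint pairs of small total size -/
private def SpQ_Fam {V : Type} (Pp : Finset V → Finset V → Prop) (M : ℝ) (r : ℕ) : Prop :=
  ∃ A B : Fin r → Finset V, (∀ j, Pp (A j) (B j)) ∧
    (∀ i j, i ≠ j → Disjoint (A i ∪ B i) (A j ∪ B j)) ∧ ∑ j, ((A j).card : ℝ) < M

private theorem SpQ_exists {P : ℕ → Prop} {N : ℕ} (h0 : P 0) (hN : ∀ n, P n → n ≤ N) :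
    ∃ r, P r ∧ ¬ P (r + 1) := by
  by_contra hcon
  push Not at hcon
  have hall : ∀ n, P n := by
    intro n
    induction n with
    | zero => exact h0
    | succ n ih => exact hcon n ih
  have := hN (N + 1) (hall (N + 1))
  omega

private theorem SpQ_max {V : Type} [Fintype V] (Pp : Finset V → Finset V → Prop) (M c : ℝ) (R : ℕ)
    (hM : 0 < M) (hc : 0 < c) (hR : M ≤ R * c)
    (hPp : ∀ A B, Pp A B → Disjoint A B ∧ A.card = B.card ∧ c ≤ (A.card : ℝ)) :
    (∃ (r : ℕ) (A B : Fin r → Finset V), 1 ≤ r ∧ r ≤ R + 1 ∧ (∀ j, Pp (A j) (B j)) ∧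
      (∀ i j, i ≠ j → Disjoint (A i ∪ B i) (A j ∪ B j)) ∧ M ≤ ∑ j, ((A j).card : ℝ)) ∨
    ∃ Q : Finset V, (Q.card : ℝ) ≤ 2 * M ∧ (∀ v ∈ Q, ∃ A B, Pp A B ∧ v ∈ A ∪ B) ∧
      ∀ A B, Pp A B → ¬ (A ∪ B ⊆ Qᶜ) := by
  have hzero : SpQ_Fam Pp M 0 := by
    refine ⟨fun _ => ∅, fun _ => ∅, fun j => j.elim0, fun i => i.elim0, ?_⟩
    simpa using hM
  have hbound : ∀ r, SpQ_Fam Pp M r → r ≤ R := by
    rintro r ⟨A, B, hP, -, hs⟩
    have h1 : ∑ _j : Fin r, c ≤ ∑ j, ((A j).card : ℝ) :=
      Finset.sum_le_sum fun j _ => (hPp _ _ (hP j)).2.2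
    rw [Finset.sum_const, Finset.card_univ, Fintype.card_fin, nsmul_eq_mul] at h1
    have h2 : (r : ℝ) * c < R * c := by linarith
    have h3 : (r : ℝ) < R := lt_of_mul_lt_mul_right h2 hc.le
    exact_mod_cast h3.le
  obtain ⟨r, ⟨A, B, hP, hd, hs⟩, hr⟩ := SpQ_exists hzero hbound
  have hrR : r ≤ R := hbound r ⟨A, B, hP, hd, hs⟩
  by_cases hex : ∃ A' B', Pp A' B' ∧ A' ∪ B' ⊆ ((univ : Finset (Fin r)).biUnion
      (fun j => A j ∪ B j))ᶜ
  · left
    obtain ⟨A', B', hP', hsub⟩ := hex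
    have hdj : ∀ j, Disjoint (A' ∪ B') (A j ∪ B j) := by
      intro j
      rw [Finset.disjoint_left]
      intro v hv hv'
      have := hsub hv
      rw [Finset.mem_compl, Finset.mem_biUnion] at this
      exact this ⟨j, Finset.mem_univ _, hv'⟩
    have hPc : ∀ j, Pp ((Fin.cons A' A : Fin (r + 1) → Finset V) j)
        ((Fin.cons B' B : Fin (r + 1) → Finset V) j) := by
      intro j
      refine Fin.cases ?_ (fun i => ?_) j
      · simpa using hP'
      · simpa using hP i
    have hdc : ∀ i j, i ≠ j → Disjoint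
        ((Fin.cons A' A : Fin (r + 1) → Finset V) i ∪ (Fin.cons B' B : Fin (r + 1) → Finset V) i)
        ((Fin.cons A' A : Fin (r + 1) → Finset V) j ∪
          (Fin.cons B' B : Fin (r + 1) → Finset V) j) := by
      intro i j
      refine Fin.cases ?_ (fun i' => ?_) i
      · refine Fin.cases ?_ (fun j' => ?_) j
        · intro h
          exact absurd rfl h
        · intro _
          simpa using hdj j'
      · refine Fin.cases ?_ (fun j' => ?_) j
        · intro _
          simpa using (hdj i').symm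
        · intro h
          have : i' ≠ j' := fun h' => h (by rw [h'])
          simpa using hd i' j' this
    refine ⟨r + 1, Fin.cons A' A, Fin.cons B' B, by omega, by omega, hPc, hdc, ?_⟩
    by_contra hcon
    push Not at hcon
    exact hr ⟨Fin.cons A' A, Fin.cons B' B, hPc, hdc, hcon⟩
  · right
    push Not at hex
    refine ⟨(univ : Finset (Fin r)).biUnion (fun j => A j ∪ B j), ?_, ?_, hex⟩
    · have h1 : (((univ : Finset (Fin r)).biUnion (fun j => A j ∪ B j)).card : ℝ) ≤
          ∑ j, 2 * ((A j).card : ℝ) := by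
        have h2 : ((univ : Finset (Fin r)).biUnion (fun j => A j ∪ B j)).card ≤
            ∑ j, 2 * (A j).card := by
          refine Finset.card_biUnion_le.trans (Finset.sum_le_sum fun j _ => ?_)
          have h3 := Finset.card_union_le (A j) (B j)
          have h4 := (hPp _ _ (hP j)).2.1
          omega
        exact_mod_cast h2
      rw [← Finset.mul_sum] at h1
      linarith
    · intro v hv
      obtain ⟨j, -, hj⟩ := Finset.mem_biUnion.mp hv
      exact ⟨A j, B j, hP j, hj⟩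

/-- the induced graph -/
private theorem SpQ_ind {V : Type} (G : SimpleGraph V) (Y : Finset V) (S T : Finset {v // v ∈ Y}) :
    ad (G.comap (Subtype.val : {v // v ∈ Y} → V)) S T =
      ad G (S.map (Function.Embedding.subtype _)) (T.map (Function.Embedding.subtype _)) := by
  have had : ∀ (W : Type) (H : SimpleGraph W) (X Z : Finset W),
      ad H X Z = ∑ v ∈ X, (nbs H v Z).card := by
    intro W H X Z
    unfold ad nbs
    rw [Finset.card_filter, Finset.sum_product]
    refine Finset.sum_congr rfl fun v _ => ?_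
    rw [Finset.card_filter]
  rw [had, had, Finset.sum_map]
  refine Finset.sum_congr rfl fun v _ => ?_
  unfold nbs
  rw [Finset.filter_map, Finset.card_map]
  rfl

/-- cycles of the induced graph -/
private theorem SpQ_cyc {V : Type} (G : SimpleGraph V) (Y : Finset V) {l : List {v // v ∈ Y}}
    (h : CycL (G.comap (Subtype.val : {v // v ∈ Y} → V)) l) : CycL G (l.map Subtype.val) := by
  obtain ⟨h1, h2, h3, a, b, ha, hb, hab⟩ := h
  refine ⟨?_, ?_, ?_, a.1, b.1, ?_, ?_, hab⟩
  · rw [List.length_map]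
    exact h1
  · exact h2.map Subtype.val_injective
  · rw [List.isChain_map]
    exact h3
  · rw [List.head?_map, ha]
    rfl
  · rw [List.getLast?_map, hb]
    rfl

/-- one of `k` consecutive even numbers is `1` modulo the odd number `k` -/
private theorem SpQ_mod {k h : ℕ} (hk : Odd k) (hk3 : 3 ≤ k) :
    ∃ j, 1 ≤ j ∧ j ≤ k ∧ (2 * h + 2 * j) % k = 1 := by
  obtain ⟨m, hm⟩ := hk
  have h0 : 0 < k := by omega
  have h1 : k * (h / k) + h % k = h := Nat.div_add_mod h k
  have h2 : h % k < k := Nat.mod_lt _ h0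
  by_cases h3 : h % k ≤ m
  · refine ⟨m + 1 - h % k, by omega, by omega, ?_⟩
    have e : 2 * h + 2 * (m + 1 - h % k) = 1 + k * (2 * (h / k) + 1) := by
      have : k * (2 * (h / k) + 1) = 2 * (k * (h / k)) + k := by ring
      omega
    rw [e, Nat.add_mul_mod_self_left]
    exact Nat.mod_eq_of_lt (by omega)
  · refine ⟨m + 1 + k - h % k, by omega, by omega, ?_⟩
    have e : 2 * h + 2 * (m + 1 + k - h % k) = 1 + k * (2 * (h / k) + 3) := by
      have : k * (2 * (h / k) + 3) = 2 * (k * (h / k)) + 3 * k := by ring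
      omega
    rw [e, Nat.add_mul_mod_self_left]
    exact Nat.mod_eq_of_lt (by omega)

private theorem SpQ_ad_le {V : Type} (G : SimpleGraph V) (S : Finset V) :
    (ad G S S : ℝ) ≤ (S.card : ℝ) * S.card := by
  have h : ad G S S ≤ S.card * S.card := by
    unfold ad
    refine le_trans (card_filter_le _ _) ?_
    rw [card_product]
  exact_mod_cast h

theorem thm_SpQ (hTFour : St_TFour) (hPair : St_Pair) (hLsp : St_Lsp) : St_SpQ := by
  intro θ hθ hθ1
  have hθ2 : (0 : ℝ) < θ ^ 2 := by positivity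
  have hθ3 : θ ^ 2 ≤ 1 / 10 * θ := by nlinarith
  have hρ : (0 : ℝ) < θ ^ 2 / 72 := by positivity
  obtain ⟨c, hc, n₀, hP⟩ := hPair (θ ^ 2 / 72) (θ ^ 2 / 72 / 256) hρ (by linarith) (by positivity)
    (by linarith)
  have hc' : (0 : ℝ) < 2 * c * (θ ^ 2 / 48) := by positivity
  set R : ℕ := ⌈1 / (2 * c * (θ ^ 2 / 48))⌉₊ with hR
  have hRc : 1 ≤ (R : ℝ) * (2 * c * (θ ^ 2 / 48)) := by
    have h1 : 1 / (2 * c * (θ ^ 2 / 48)) ≤ (R : ℝ) := Nat.le_ceil _
    rwa [div_le_iff₀ hc'] at h1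
  obtain ⟨M₀, k₁, hT⟩ := hTFour θ (θ ^ 2 / 72) (θ ^ 2 / 72 / 256) (2 * c * (θ ^ 2 / 48)) (R + 1) hθ
    hθ1 hρ (by linarith) (by positivity) (by linarith) (by linarith) hc'
  refine ⟨M₀, fun M hM => ⟨max (max k₁ 3) (max ⌈48 / θ ^ 2⌉₊ ⌈(n₀ : ℝ) / (2 * (θ ^ 2 / 48))⌉₊), ?_⟩⟩
  intro k hk hodd V _ G A hIns
  have hk1 : k₁ ≤ k := le_trans (le_trans (le_max_left _ _) (le_max_left _ _)) hk
  have hk3 : 3 ≤ k := le_trans (le_trans (le_max_right _ _) (le_max_left _ _)) hk
  have hk4 : ⌈48 / θ ^ 2⌉₊ ≤ k := le_trans (le_trans (le_max_left _ _) (le_max_right _ _)) hk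
  have hk5 : ⌈(n₀ : ℝ) / (2 * (θ ^ 2 / 48))⌉₊ ≤ k :=
    le_trans (le_trans (le_max_right _ _) (le_max_right _ _)) hk
  have hk0 : (1 : ℝ) ≤ k := by exact_mod_cast (by omega : 1 ≤ k)
  have hk4' : 1 ≤ θ ^ 2 / 48 * k := by
    have h1 : 48 / θ ^ 2 ≤ (k : ℝ) := Nat.ceil_le.1 hk4
    rw [div_le_iff₀ hθ2] at h1
    linarith
  have hk5' : (n₀ : ℝ) ≤ 2 * (θ ^ 2 / 48) * k := by
    have h1 : (n₀ : ℝ) / (2 * (θ ^ 2 / 48)) ≤ k := Nat.ceil_le.1 hk5
    rw [div_le_iff₀ (by positivity)] at h1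
    linarith
  by_cases hcyc : ∃ l, CycL G l ∧ l.length % k = 1
  · exact Or.inl hcyc
  right
  rcases SpQ_max (V := V) (fun A' B' => (Pr G A' B' (4 * (θ ^ 2 / 72 / 256)) (θ ^ 2 / 72 / 16) ∧
      2 * c * (θ ^ 2 / 48) * k ≤ (A'.card : ℝ)) ∧ A' ∪ B' ⊆ A) ((1 / 2 + θ) * k)
      (2 * c * (θ ^ 2 / 48) * k) R (by positivity) (by positivity) (by
        have h1 : (1 / 2 + θ) * (k : ℝ) ≤ 1 * k := by
          apply mul_le_mul_of_nonneg_right _ (by linarith)
          linarith
        have h2 : 1 * (k : ℝ) ≤ R * (2 * c * (θ ^ 2 / 48)) * k :=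
          mul_le_mul_of_nonneg_right hRc (by linarith)
        linarith)
      (fun A' B' h => ⟨h.1.1.disj, h.1.1.card, h.1.2⟩) with
    ⟨r, A', B', hr1, hrR, hAB, hdis, hsum⟩ | ⟨Q, hQ, hQA, hnone⟩
  · exfalso
    apply hcyc
    refine hT k hk1 hodd V G r A' B' hr1 hrR (fun j => (hAB j).1) hdis hsum ?_
    intro P Q hPQ hne hcard
    have hsub : univ.biUnion (fun j => A' j ∪ B' j) ⊆ A := by
      intro v hv
      obtain ⟨j, -, hj⟩ := Finset.mem_biUnion.mp hv
      exact (hAB j).2 hj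
    rcases hIns P Q hPQ hne (lt_of_lt_of_le hcard hM) with h | h
    · exact Or.inl (h.mono_left hsub)
    · exact Or.inr (h.mono_left hsub)
  · refine ⟨Q, ?_, by linarith, ?_⟩
    · intro v hv
      obtain ⟨A', B', h1, h2⟩ := hQA v hv
      exact h1.2 h2
    · intro Y' hY' hY'n
      by_contra hlt
      push Not at hlt
      apply hcyc
      obtain ⟨y, hy⟩ := hY'n
      have hne : Nonempty {v // v ∈ Y'} := ⟨⟨y, hy⟩⟩
      have hmu : (univ : Finset {v // v ∈ Y'}).map (Function.Embedding.subtype _) = Y' := by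
        ext v
        simp
      obtain ⟨h, hh⟩ := hLsp {v // v ∈ Y'} (G.comap (Subtype.val : {v // v ∈ Y'} → V)) k
        (θ ^ 2 / 48 * k) (by omega) hk4' (by
          rw [SpQ_ind, hmu, Fintype.card_coe]
          refine le_trans (le_of_eq ?_) hlt
          ring) (fun S hSn hSc => by
          rw [SpQ_ind, ← Finset.card_map (Function.Embedding.subtype _)]
          set S' := S.map (Function.Embedding.subtype (fun v => v ∈ Y')) with hS'
          have hS'Y : S' ⊆ Y' := by
            intro v hv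
            obtain ⟨w, -, rfl⟩ := Finset.mem_map.1 hv
            exact w.2
          have hS'n : S'.Nonempty := by simpa [hS'] using hSn
          have hS'c : S'.card ≤ 2 * k + 1 := by rw [hS', Finset.card_map]; exact hSc
          by_contra hge
          push Not at hge
          have hSpos : (0 : ℝ) < S'.card := by exact_mod_cast hS'n.card_pos
          have hSk : (S'.card : ℝ) ≤ 2 * k + 1 := by exact_mod_cast hS'c
          have h1 : 2 * (θ ^ 2 / 48 * k) ≤ S'.card := by
            have h2 := le_trans hge (SpQ_ad_le G S')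
            exact le_of_mul_le_mul_right h2 hSpos
          have hn0 : n₀ ≤ S'.card := by
            have h2 : (n₀ : ℝ) ≤ S'.card := by linarith
            exact_mod_cast h2
          have hden : θ ^ 2 / 72 * (S'.card : ℝ) ^ 2 ≤ (ad G S' S' : ℝ) := by
            refine le_trans ?_ hge
            have h3 : θ ^ 2 / 72 * (S'.card : ℝ) ≤ 2 * (θ ^ 2 / 48 * k) := by
              have h4 : (S'.card : ℝ) ≤ 3 * k := by linarith
              have h5 : θ ^ 2 / 72 * (S'.card : ℝ) ≤ θ ^ 2 / 72 * (3 * k) :=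
                mul_le_mul_of_nonneg_left h4 hρ.le
              linarith
            calc θ ^ 2 / 72 * (S'.card : ℝ) ^ 2 = θ ^ 2 / 72 * (S'.card : ℝ) * S'.card := by ring
              _ ≤ 2 * (θ ^ 2 / 48 * k) * S'.card := mul_le_mul_of_nonneg_right h3 hSpos.le
          obtain ⟨A', B', hAS, hBS, hpr, hcard⟩ := hP V G S' hn0 hden
          have hAB' : A' ∪ B' ⊆ A \ Q := (union_subset hAS hBS).trans (hS'Y.trans hY')
          refine hnone A' B' ⟨⟨hpr, ?_⟩, hAB'.trans Finset.sdiff_subset⟩ ?_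
          · refine le_trans ?_ hcard
            calc 2 * c * (θ ^ 2 / 48) * (k : ℝ) = c * (2 * (θ ^ 2 / 48 * k)) := by ring
              _ ≤ c * S'.card := mul_le_mul_of_nonneg_left h1 hc.le
          · intro v hv
            rw [Finset.mem_compl]
            exact (Finset.mem_sdiff.mp (hAB' hv)).2)
      obtain ⟨j, h1, h2, h3⟩ := SpQ_mod (h := h) hodd hk3
      obtain ⟨l, hl, hlen⟩ := hh j h1 h2
      refine ⟨l.map Subtype.val, SpQ_cyc G _ hl, ?_⟩
      rw [List.length_map, hlen]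
      exact h3

end Pool.CMK
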