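import Pool.Agent.CMX.StB
import Pool.Agent.CMK.Lib

/-!
# CMX [Struct]: the structure of a large region
-/

set_option autoImplicit false

namespace Pool.CMK

open Finset
open scoped Classical

variable {V : Type}

private theorem Struct_ins [Fintype V] {G : SimpleGraph V} {A D : Finset V} {M M' : ℕ}
    (h : Ins G A M) (hD : D ⊆ A) (hM : M' ≤ M) : Ins G D M' := by
  intro P Q h1 h2 h3
  rcases h P Q h1 h2 (lt_of_lt_of_le h3 hM) with h4 | h4
  · exact Or.inl (disjoint_of_subset_left hD h4)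
  · exact Or.inr (disjoint_of_subset_left hD h4)

private theorem Struct_nbs_sub (G : SimpleGraph V) (v : V) (X : Finset V) : nbs G v X ⊆ X :=
  filter_subset _ _

/-- non-neighbours in `X ⊆ Q` -/
private theorem Struct_non (G : SimpleGraph V) (v : V) {X Q : Finset V} (h : X ⊆ Q) :
    X \ nbs G v X = X \ nbs G v Q := by
  ext w
  simp only [mem_sdiff, lib_mem_nbs]
  constructor
  · rintro ⟨h1, h2⟩
    exact ⟨h1, fun h3 => h2 ⟨h1, h3.2⟩⟩
  · rintro ⟨h1, h2⟩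
    exact ⟨h1, fun h3 => h2 ⟨h h1, h3.2⟩⟩

/-- first class -/
private theorem Struct_one (G : SimpleGraph V) (v : V) {X Q : Finset V} (hX : X ⊆ Q)
    {θ : ℝ} {k b : ℕ} (hb : (b : ℝ) ≤ θ * k)
    (h1 : (1 / 2 - 2 * θ) * k ≤ ((nbs G v Q).card : ℝ))
    (h2 : (nbs G v Q ∪ X).card < (k + 1) / 2 + 6 * b) :
    ((X \ nbs G v X).card : ℝ) ≤ 8 * θ * k + 1 := by
  rw [Struct_non G v hX]
  have h3 : (X \ nbs G v Q).card + (nbs G v Q).card = (nbs G v Q ∪ X).card := by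
    rw [union_comm, ← sdiff_union_self_eq_union, card_union_of_disjoint sdiff_disjoint]
  have h4 : 2 * (nbs G v Q ∪ X).card < k + 1 + 12 * b + 1 := by omega
  have h5 : (2 : ℝ) * (((X \ nbs G v Q).card : ℝ) + ((nbs G v Q).card : ℝ)) < k + 1 + 12 * b + 1 := by
    have : ((2 * (nbs G v Q ∪ X).card : ℕ) : ℝ) < ((k + 1 + 12 * b + 1 : ℕ) : ℝ) := by
      exact_mod_cast h4
    rw [← h3] at this
    push_cast at this
    exact this
  linarith

/-- second class -/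
private theorem Struct_two (G : SimpleGraph V) (v : V) {X Q : Finset V} (hX : X ⊆ Q)
    {θ : ℝ} {k b : ℕ} (hb : (b : ℝ) ≤ θ * k) (hQ : (Q.card : ℝ) ≤ (1 + 2 * θ) * k)
    (hX1 : (1 / 2 - 2 * θ) * k ≤ (X.card : ℝ))
    (h1 : (1 / 2 - 2 * θ) * k ≤ ((nbs G v Q).card : ℝ))
    (h2 : (nbs G v Q ∩ X).card < 2 * b + 2) :
    (((Q \ X) \ nbs G v (Q \ X)).card : ℝ) ≤ 8 * θ * k + 1 ∧
      (1 / 2 - 4 * θ) * k - 1 ≤ ((Q \ X).card : ℝ) := by
  have h3 : nbs G v (Q \ X) = nbs G v Q \ X := by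
    ext w
    simp only [mem_sdiff, lib_mem_nbs]
    tauto
  have h4 : (nbs G v Q \ X).card + (nbs G v Q ∩ X).card = (nbs G v Q).card :=
    card_sdiff_add_card_inter _ _
  have h5 : (Q \ X).card + X.card = Q.card := card_sdiff_add_card_eq_card hX
  have h6 : nbs G v (Q \ X) ⊆ Q \ X := Struct_nbs_sub G v _
  have h7 : ((Q \ X) \ nbs G v (Q \ X)).card + (nbs G v (Q \ X)).card = (Q \ X).card :=
    card_sdiff_add_card_eq_card h6
  rw [h3] at h7
  have h4' : ((nbs G v Q \ X).card : ℝ) + ((nbs G v Q ∩ X).card : ℝ) = ((nbs G v Q).card : ℝ) := by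
    exact_mod_cast h4
  have h5' : ((Q \ X).card : ℝ) + (X.card : ℝ) = (Q.card : ℝ) := by exact_mod_cast h5
  have h7' : (((Q \ X) \ (nbs G v Q \ X)).card : ℝ) + ((nbs G v Q \ X).card : ℝ) =
      ((Q \ X).card : ℝ) := by exact_mod_cast h7
  have h2' : ((nbs G v Q ∩ X).card : ℝ) + 1 ≤ 2 * b + 2 := by exact_mod_cast h2
  have h8 : (0 : ℝ) ≤ (((Q \ X) \ (nbs G v Q \ X)).card : ℝ) := Nat.cast_nonneg _
  rw [h3]
  constructor
  · linarith
  · linarith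

theorem thm_Struct (hTFour : St_TFour) (hSpQ : St_SpQ) (hTyp : St_Typ) (hDich : St_Dich)
    (hPrX : St_PrX) : St_Struct := by
  intro ζ C₀ hζ hζ1
  obtain ⟨θ, hθ⟩ : ∃ θ : ℝ, θ = min ζ (1 / 1000) / 20 := ⟨_, rfl⟩
  have hθ0 : 0 < θ := by
    rw [hθ]
    have : 0 < min ζ (1 / 1000) := lt_min hζ (by norm_num)
    linarith
  have hθζ : 20 * θ ≤ ζ := by
    rw [hθ]
    have : min ζ (1 / 1000) ≤ ζ := min_le_left _ _
    linarith
  have hθk : 20 * θ ≤ 1 / 1000 := by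
    rw [hθ]
    have : min ζ (1 / 1000) ≤ 1 / 1000 := min_le_right _ _
    linarith
  obtain ⟨M₁, hM₁⟩ := hSpQ θ hθ0 (by linarith)
  obtain ⟨ν, hν, hM₃⟩ := hTyp θ hθ0 (by linarith)
  obtain ⟨M₂, k₂, hM₂⟩ := hTFour (1 / 10) 1 (1 / 1000) (2 / 5) 2 (by norm_num) le_rfl
    (by norm_num) le_rfl (by norm_num) (by norm_num) (by norm_num) (by norm_num)
  obtain ⟨k₅, hk₅⟩ := hPrX
  refine ⟨4 * C₀ + 100 + ⌈2 / ν⌉₊, max M₁ M₂, fun M hM => ?_⟩
  obtain ⟨k₁, hk₁⟩ := hM₁ M (le_of_max_le_left hM)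
  obtain ⟨k₃, hk₃⟩ := hM₃ M
  refine ⟨max (max k₁ k₂) (max (max k₃ k₅) (max ⌈2 / ζ⌉₊ 2000)), fun k hk hodd V _ G A hA hCA => ?_⟩
  have hk1 : k₁ ≤ k := (le_max_left _ _).trans ((le_max_left _ _).trans hk)
  have hk2 : k₂ ≤ k := (le_max_right _ _).trans ((le_max_left _ _).trans hk)
  have hk3 : k₃ ≤ k := (le_max_left _ _).trans ((le_max_left _ _).trans
    ((le_max_right _ _).trans hk))
  have hk5 : k₅ ≤ k := (le_max_right _ _).trans ((le_max_left _ _).trans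
    ((le_max_right _ _).trans hk))
  have hkζ : ⌈2 / ζ⌉₊ ≤ k := (le_max_left _ _).trans ((le_max_right _ _).trans
    ((le_max_right _ _).trans hk))
  have hk2000 : 2000 ≤ k := (le_max_right _ _).trans ((le_max_right _ _).trans
    ((le_max_right _ _).trans hk))
  have hkR : (2000 : ℝ) ≤ (k : ℝ) := by exact_mod_cast hk2000
  have hk0 : (0 : ℝ) ≤ (k : ℝ) := by linarith
  have hζk : 2 ≤ ζ * k := by
    have h1 : 2 / ζ ≤ (k : ℝ) := (Nat.le_ceil _).trans (by exact_mod_cast hkζ)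
    rw [div_le_iff₀ hζ] at h1
    linarith
  have hmod : (k + 1) % k = 1 := by
    rw [Nat.add_mod_left]
    exact Nat.mod_eq_of_lt (by omega)
  by_cases hcyc : ∃ l, CycL G l ∧ l.length = k + 1
  · obtain ⟨l, hl, hl1⟩ := hcyc
    exact Or.inl ⟨l, hl, by rw [hl1]; exact hmod⟩
  rcases hk₁ k hk1 hodd V G A hA.ins with h | ⟨Q, hQA, hQ, hsp⟩
  · exact Or.inl h
  -- sizes
  have hAk : (4 * (C₀ : ℝ) + 100 + 2 / ν) * k ≤ (A.card : ℝ) := by
    have h1 : (((4 * C₀ + 100 + ⌈2 / ν⌉₊) * k : ℕ) : ℝ) ≤ (A.card : ℝ) := by exact_mod_cast hCA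
    push_cast at h1
    refine le_trans ?_ h1
    refine mul_le_mul_of_nonneg_right ?_ hk0
    have := Nat.le_ceil (2 / ν)
    linarith
  have hC0 : (0 : ℝ) ≤ (C₀ : ℝ) := Nat.cast_nonneg _
  have hν2 : 0 < 2 / ν := by positivity
  have hA100 : 100 * (k : ℝ) ≤ (A.card : ℝ) := by
    refine le_trans ?_ hAk
    refine mul_le_mul_of_nonneg_right ?_ hk0
    linarith
  have hAC : 4 * (C₀ : ℝ) * k ≤ (A.card : ℝ) := by
    refine le_trans ?_ hAk
    refine mul_le_mul_of_nonneg_right ?_ hk0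
    linarith
  have hAν : 2 / ν * k ≤ (A.card : ℝ) := by
    refine le_trans ?_ hAk
    refine mul_le_mul_of_nonneg_right ?_ hk0
    linarith
  have hQ2 : (Q.card : ℝ) ≤ 2 * k := by
    refine hQ.trans (mul_le_mul_of_nonneg_right ?_ hk0)
    linarith
  have hQA' : (A \ Q).card + Q.card = A.card := card_sdiff_add_card_eq_card hQA
  have hQAr : ((A \ Q).card : ℝ) + (Q.card : ℝ) = (A.card : ℝ) := by exact_mod_cast hQA'
  have hAQ : (49 / 50 : ℝ) * A.card ≤ ((A \ Q).card : ℝ) := by linarith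
  have hAQne : (A \ Q).Nonempty := by
    rw [← card_pos]
    have h1 : (0 : ℝ) < ((A \ Q).card : ℝ) := by linarith
    exact_mod_cast h1
  obtain ⟨R', R, H, hRR', hR'A, hRc, hRd, hRe, hH, hRb⟩ :=
    hk₃ k hk3 V G A Q hA.deg hA.bd hQA hQ hAQne hsp
  have hRA : (19 / 20 : ℝ) * A.card ≤ (R.card : ℝ) := by
    refine le_trans ?_ hRc
    have h1 : (1 - 2 * θ) * ((49 / 50 : ℝ) * A.card) ≤ (1 - 2 * θ) * ((A \ Q).card : ℝ) :=
      mul_le_mul_of_nonneg_left hAQ (by linarith)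
    refine le_trans ?_ h1
    have h2 : (9999 / 10000 : ℝ) ≤ 1 - 2 * θ := by linarith
    have h3 : (0 : ℝ) ≤ (49 / 50 : ℝ) * A.card := by positivity
    have h4 := mul_le_mul_of_nonneg_right h2 h3
    linarith
  have hRR'c : (R.card : ℝ) ≤ (R'.card : ℝ) := by exact_mod_cast card_le_card hRR'
  have hνR' : (k : ℝ) ≤ ν * R'.card := by
    have h1 : (19 / 20 : ℝ) * (2 / ν * k) ≤ (R'.card : ℝ) := by linarith
    have h2 : ν * ((19 / 20 : ℝ) * (2 / ν * k)) ≤ ν * R'.card :=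
      mul_le_mul_of_nonneg_left h1 hν.le
    have h3 : ν * ((19 / 20 : ℝ) * (2 / ν * k)) = (19 / 10) * k := by
      field_simp
      ring
    rw [h3] at h2
    linarith
  have hRne : R.Nonempty := by
    rw [← card_pos]
    have h1 : (0 : ℝ) < (R.card : ℝ) := by linarith
    exact_mod_cast h1
  set b : ℕ := ⌊θ * k⌋₊ with hbdef
  have hb : (b : ℝ) ≤ θ * k := Nat.floor_le (by positivity)
  have hdisQR' : Disjoint Q R' := by
    rw [disjoint_left]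
    intro v hv hv'
    exact (mem_sdiff.1 (hR'A hv')).2 hv
  have hR'Q : ∀ v ∈ R', v ∉ Q := fun v hv => (mem_sdiff.1 (hR'A hv)).2
  have hR'A' : ∀ v ∈ R', v ∈ A := fun v hv => (mem_sdiff.1 (hR'A hv)).1
  -- the dichotomy
  have hdich : ∀ v ∈ R, ∀ w ∈ R, (nbs G v Q ∩ nbs G w Q).card < 2 * b + 2 ∨
      (nbs G v Q ∪ nbs G w Q).card < (k + 1) / 2 + 6 * b := by
    intro v hv w hw
    by_contra hcon
    push Not at hcon
    refine hcyc (hDich V G H Q R' (nbs G v Q) (nbs G w Q) b k hodd (by omega) hdisQR'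
      (Struct_nbs_sub _ _ _) (Struct_nbs_sub _ _ _) (fun z z' hz => ?_) (hRb v hv) (hRb w hw) ?_
      hcon.1 hcon.2)
    · have h1 := hνR'.trans (hH z z' hz)
      exact_mod_cast h1
    · have h1 := hRe v (hRR' hv)
      have h2 : (3 * (b : ℝ) + 3) ≤ ((nbs G v Q).card : ℝ) := by
        refine le_trans ?_ h1
        have h3 : θ * k ≤ (1 / 20000) * k := mul_le_mul_of_nonneg_right (by linarith) hk0
        linarith
      exact_mod_cast h2
  obtain ⟨v₁, hv₁⟩ := hRne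
  set X₁ : Finset V := nbs G v₁ Q with hX₁
  have hX₁Q : X₁ ⊆ Q := Struct_nbs_sub _ _ _
  have hX₁c : (1 / 2 - 2 * θ) * k ≤ (X₁.card : ℝ) := hRe v₁ (hRR' hv₁)
  set R₁ : Finset V := R.filter (fun v => 2 * b + 2 ≤ (nbs G v Q ∩ X₁).card) with hR₁
  set R₂ : Finset V := R.filter (fun v => ¬ 2 * b + 2 ≤ (nbs G v Q ∩ X₁).card) with hR₂
  have hsum : R₁.card + R₂.card = R.card := card_filter_add_card_filter_not _
  have hsumr : (R₁.card : ℝ) + (R₂.card : ℝ) = (R.card : ℝ) := by exact_mod_cast hsum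
  have hR₁R : R₁ ⊆ R := filter_subset _ _
  have hR₂R : R₂ ⊆ R := filter_subset _ _
  have hdisR : ∀ v, v ∈ R₁ → v ∉ R₂ := by
    intro v h1 h2
    exact (mem_filter.1 h2).2 (mem_filter.1 h1).2
  have hone : ∀ v ∈ R₁, ((X₁ \ nbs G v X₁).card : ℝ) ≤ 8 * θ * k + 1 := by
    intro v hv
    obtain ⟨h1, h2⟩ := mem_filter.1 hv
    rcases hdich v h1 v₁ hv₁ with h3 | h3
    · exact absurd h2 (not_le.2 h3)
    · exact Struct_one G v hX₁Q hb (hRe v (hRR' h1)) h3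
  have htwo : ∀ v ∈ R₂, (((Q \ X₁) \ nbs G v (Q \ X₁)).card : ℝ) ≤ 8 * θ * k + 1 ∧
      (1 / 2 - 4 * θ) * k - 1 ≤ ((Q \ X₁).card : ℝ) := by
    intro v hv
    obtain ⟨h1, h2⟩ := mem_filter.1 hv
    exact Struct_two G v hX₁Q hb hQ hX₁c (hRe v (hRR' h1)) (not_le.1 h2)
  have hsmall1 : 8 * θ * (k : ℝ) + 1 ≤ ζ * k := by
    have h3 : 20 * θ * k ≤ ζ * k := mul_le_mul_of_nonneg_right hθζ hk0
    linarith
  have hsmall2 : 8 * θ * (k : ℝ) + 1 ≤ (k : ℝ) / 1000 := by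
    have h3 : 20 * θ * k ≤ (1 / 1000) * k := mul_le_mul_of_nonneg_right hθk hk0
    linarith
  have hdeg : ∀ R₀ : Finset V, R₀ ⊆ R → ∀ v ∈ R₀, (nbs G v R₀).card ≤ k := by
    intro R₀ hR₀ v hv
    have h1 : nbs G v R₀ ⊆ nbs G v (A \ Q) :=
      lib_nbs_mono G v (hR₀.trans (hRR'.trans hR'A))
    have h2 : ((nbs G v R₀).card : ℝ) ≤ ((nbs G v (A \ Q)).card : ℝ) := by
      exact_mod_cast card_le_card h1
    have h3 := hRd v (hRR' (hR₀ hv))
    have h4 : θ * (k : ℝ) ≤ 1 * k := mul_le_mul_of_nonneg_right (by linarith) hk0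
    have h5 : ((nbs G v R₀).card : ℝ) ≤ (k : ℝ) := by linarith
    exact_mod_cast h5
  have hdisj : ∀ R₀ X₀ : Finset V, R₀ ⊆ R → X₀ ⊆ Q → Disjoint R₀ X₀ := by
    intro R₀ X₀ h1 h2
    rw [disjoint_left]
    intro v hv hv'
    exact hR'Q v (hRR' (h1 hv)) (h2 hv')
  have hsubA : ∀ R₀ : Finset V, R₀ ⊆ R → R₀ ⊆ A := fun R₀ h1 v hv => hR'A' v (hRR' (h1 hv))
  -- final sizes
  have hfin : ∀ R₀ : Finset V, (7 / 10 : ℝ) * A.card ≤ (R₀.card : ℝ) →
      C₀ * k ≤ R₀.card ∧ 2 * A.card ≤ 3 * R₀.card := by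
    intro R₀ h1
    have hA0 : (0 : ℝ) ≤ (A.card : ℝ) := Nat.cast_nonneg _
    constructor
    · have h2 : (C₀ : ℝ) * k ≤ (R₀.card : ℝ) := by linarith
      exact_mod_cast h2
    · have h2 : 2 * (A.card : ℝ) ≤ 3 * (R₀.card : ℝ) := by linarith
      exact_mod_cast h2
  by_cases hc2 : (R₂.card : ℝ) ≤ A.card / 4
  · right
    obtain ⟨h1, h2⟩ := hfin R₁ (by linarith)
    refine ⟨R₁, X₁, hsubA _ hR₁R, hdisj _ _ hR₁R hX₁Q, h1, h2, ?_, fun v hv =>
      (hone v hv).trans hsmall1, hdeg _ hR₁R⟩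
    refine le_trans ?_ hX₁c
    refine mul_le_mul_of_nonneg_right ?_ hk0
    linarith
  by_cases hc1 : (R₁.card : ℝ) ≤ A.card / 4
  · right
    obtain ⟨h1, h2⟩ := hfin R₂ (by linarith)
    have hR₂ne : R₂.Nonempty := by
      rw [← card_pos]
      have h3 : (0 : ℝ) < (R₂.card : ℝ) := by linarith
      exact_mod_cast h3
    obtain ⟨v, hv⟩ := hR₂ne
    refine ⟨R₂, Q \ X₁, hsubA _ hR₂R, hdisj _ _ hR₂R sdiff_subset, h1, h2, ?_, fun v hv =>
      (htwo v hv).1.trans hsmall1, hdeg _ hR₂R⟩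
    refine le_trans ?_ (htwo v hv).2
    have h3 : 20 * θ * k ≤ ζ * k := mul_le_mul_of_nonneg_right hθζ hk0
    have h4 : 0 ≤ θ * (k : ℝ) := by positivity
    linarith
  -- two pairs
  push Not at hc1 hc2
  left
  have hR₂ne : R₂.Nonempty := by
    rw [← card_pos]
    have h3 : (0 : ℝ) < (R₂.card : ℝ) := by linarith
    exact_mod_cast h3
  obtain ⟨v₂, hv₂⟩ := hR₂ne
  have hθk' : θ * (k : ℝ) ≤ (1 / 20000) * k := mul_le_mul_of_nonneg_right (by linarith) hk0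
  have hX₁le : (X₁.card : ℝ) ≤ (Q.card : ℝ) := by exact_mod_cast card_le_card hX₁Q
  have hX₂le : ((Q \ X₁).card : ℝ) ≤ (Q.card : ℝ) := by
    exact_mod_cast card_le_card (sdiff_subset : Q \ X₁ ⊆ Q)
  obtain ⟨A₁, B₁, hA₁, hB₁, hP₁, hc₁⟩ := hk₅ k hk5 V G X₁ R₁ (hdisj _ _ hR₁R hX₁Q).symm
    (by linarith) (by
      have h3 : (X₁.card : ℝ) ≤ (R₁.card : ℝ) := by linarith
      exact_mod_cast h3) (fun v hv => (hone v hv).trans hsmall2)
  obtain ⟨A₂, B₂, hA₂, hB₂, hP₂, hc₂⟩ := hk₅ k hk5 V G (Q \ X₁) R₂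
    (hdisj _ _ hR₂R sdiff_subset).symm
    (by
      have h3 := (htwo v₂ hv₂).2
      linarith) (by
      have h3 : ((Q \ X₁).card : ℝ) ≤ (R₂.card : ℝ) := by linarith
      exact_mod_cast h3) (fun v hv => (htwo v hv).1.trans hsmall2)
  have hd12 : Disjoint (A₁ ∪ B₁) (A₂ ∪ B₂) := by
    rw [disjoint_left]
    intro v hv hv'
    rcases mem_union.1 hv with h1 | h1
    · have h3 := hA₁ h1
      rcases mem_union.1 hv' with h2 | h2
      · exact (mem_sdiff.1 (hA₂ h2)).2 h3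
      · exact hR'Q v (hRR' (hR₂R (hB₂ h2))) (hX₁Q h3)
    · have h3 := hB₁ h1
      rcases mem_union.1 hv' with h2 | h2
      · exact hR'Q v (hRR' (hR₁R h3)) (mem_sdiff.1 (hA₂ h2)).1
      · exact hdisR v h3 (hB₂ h2)
  refine hM₂ k hk2 hodd V G 2 ![A₁, A₂] ![B₁, B₂] (by norm_num) le_rfl ?_ ?_ ?_ ?_
  · intro j
    match j with
    | 0 => exact ⟨hP₁, hc₁⟩
    | 1 => exact ⟨hP₂, hc₂⟩
  · intro i j hij
    match i, j, hij with
    | 0, 0, h => exact absurd rfl h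
    | 0, 1, _ => exact hd12
    | 1, 0, _ => exact hd12.symm
    | 1, 1, h => exact absurd rfl h
  · rw [Fin.sum_univ_two]
    show (1 / 2 + 1 / 10 : ℝ) * k ≤ (A₁.card : ℝ) + (A₂.card : ℝ)
    linarith
  · refine Struct_ins hA.ins ?_ (le_of_max_le_right hM)
    intro v hv
    obtain ⟨j, -, hj⟩ := mem_biUnion.1 hv
    match j, hj with
    | 0, hj =>
      rcases mem_union.1 hj with h1 | h1
      · exact hQA (hX₁Q (hA₁ h1))
      · exact hsubA _ hR₁R (hB₁ h1)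
    | 1, hj =>
      rcases mem_union.1 hj with h1 | h1
      · exact hQA (mem_sdiff.1 (hA₂ h1)).1
      · exact hsubA _ hR₂R (hB₂ h1)

end Pool.CMK
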