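import Pool.Agent.CMX.StA

set_option autoImplicit false

namespace Pool.CMK

open Finset
open scoped Classical

private lemma TFour_sdE_le {V : Type} {r : ℕ} (A : Fin r → Finset V) (l : List V) :
    sdE A l ≤ 2 := by
  unfold sdE
  split_ifs <;> omega

private lemma TFour_num (ρ γ c : ℝ) (hρ : 0 < ρ) (hρ1 : ρ ≤ 1) (hγ : 0 < γ)
    (hγρ : 256 * γ ≤ ρ) (K k m : ℕ) (hK : 8 ≤ K)
    (hk : 32 * ((K : ℝ) + 2) ≤ ρ * c * k) (hm : c * k ≤ (m : ℝ)) :
    1 ≤ ⌈4 * γ * (m : ℝ)⌉₊ ∧ ((⌈4 * γ * (m : ℝ)⌉₊ : ℕ) : ℝ) ≤ 4 * γ * m + 1 ∧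
      K + 2 * ⌈4 * γ * (m : ℝ)⌉₊ ≤ ⌈ρ / 16 * (m : ℝ)⌉₊ ∧ K + 6 * ⌈4 * γ * (m : ℝ)⌉₊ ≤ m := by
  have hK' : (8 : ℝ) ≤ K := by exact_mod_cast hK
  have hρm : 32 * ((K : ℝ) + 2) ≤ ρ * m := by
    have := mul_le_mul_of_nonneg_left hm hρ.le
    nlinarith
  have hm0 : (0 : ℝ) < m := by
    rcases lt_or_ge (0 : ℝ) (m : ℝ) with h | h
    · exact h
    · nlinarith
  have hρm1 : ρ * m ≤ m := by nlinarith
  have hγm : 256 * γ * m ≤ ρ * m := mul_le_mul_of_nonneg_right hγρ hm0.le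
  have hpos : 0 < 4 * γ * (m : ℝ) := by positivity
  have hceil : ((⌈4 * γ * (m : ℝ)⌉₊ : ℕ) : ℝ) ≤ 4 * γ * m + 1 :=
    (Nat.ceil_lt_add_one hpos.le).le
  refine ⟨Nat.one_le_iff_ne_zero.2 (Nat.pos_iff_ne_zero.1 (Nat.ceil_pos.2 hpos)), hceil, ?_, ?_⟩
  · have h1 : ρ / 16 * (m : ℝ) ≤ ((⌈ρ / 16 * (m : ℝ)⌉₊ : ℕ) : ℝ) := Nat.le_ceil _
    have h2 : ((K + 2 * ⌈4 * γ * (m : ℝ)⌉₊ : ℕ) : ℝ) ≤ ((⌈ρ / 16 * (m : ℝ)⌉₊ : ℕ) : ℝ) := by
      push_cast
      nlinarith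
    exact_mod_cast h2
  · have h2 : ((K + 6 * ⌈4 * γ * (m : ℝ)⌉₊ : ℕ) : ℝ) ≤ (m : ℝ) := by
      push_cast
      nlinarith
    exact_mod_cast h2

private lemma TFour_main (hRoutes : St_Routes) (hShrB : St_ShrB) (hEars : St_Ears)
    {V : Type} [Fintype V] (G : SimpleGraph V) (r M' Q k : ℕ) (T : ℝ)
    (A B : Fin r → Finset V) (m g w : Fin r → ℕ) (hr : 2 ≤ r) (hQ : r * M' ≤ Q)
    (hA : ∀ x : Fin M' → ℕ, ∃ F : Finset (Fin M'), F.Nonempty ∧
      ∀ e : ℕ, Even e → e ≤ 8 * Q →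
        ∃ t : ℕ, (t : ℝ) ≤ T ∧ (∑ a ∈ F, x a + e + 2 * t) % k = 1)
    (hbase : ∀ j, Disjoint (A j) (B j) ∧ (A j).card = m j ∧ (B j).card = m j ∧ 1 ≤ g j ∧
      P1 G (A j) (B j) (g j) ∧ (∀ a ∈ A j, w j ≤ (nbs G a (B j)).card) ∧
      (∀ b ∈ B j, w j ≤ (nbs G b (A j)).card))
    (hnum : ∀ j, 20 * Q + 8 + 2 * g j ≤ w j ∧ 20 * Q + 8 + 6 * g j ≤ m j)
    (hdis : ∀ i j, i ≠ j → Disjoint (A i ∪ B i) (A j ∪ B j))
    (hIns : Ins G (univ.biUnion (fun j => A j ∪ B j)) (2 * Q))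
    (hfin : ∀ t n : ℕ, (t : ℝ) ≤ T → n ≤ Q →
      t + ∑ j, (12 * Q + 8 * n + 6 * g j + 2) ≤ ∑ j, m j) :
    ∃ l, CycL G l ∧ l.length % k = 1 := by
  set j₀ : Fin r := ⟨0, by omega⟩ with hj₀
  have hDcard : ∀ j, (A j ∪ B j).card = 2 * m j := by
    intro j
    obtain ⟨h1, h2, h3, -⟩ := hbase j
    rw [card_union_of_disjoint h1, h2, h3]
    ring
  obtain ⟨p, hp, hpd⟩ := hRoutes V G r (2 * M') (2 * Q) (fun j => A j ∪ B j) j₀
    (by
      have h : r * (2 * M') = 2 * (r * M') := by ring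
      omega)
    (by
      intro j
      have h1 := (hnum j).2
      have h2 := hDcard j
      show 2 * Q ≤ (A j ∪ B j).card
      omega) hIns
  have hcardι : Fintype.card {x : Fin r × Fin (2 * M') // x.1 ≠ j₀} ≤ 2 * Q := by
    refine (Fintype.card_subtype_le _).trans ?_
    rw [Fintype.card_prod, Fintype.card_fin, Fintype.card_fin]
    have h : r * (2 * M') = 2 * (r * M') := by ring
    omega
  obtain ⟨p', hp', hpd', hcnt⟩ := hShrB V G r {x : Fin r × Fin (2 * M') // x.1 ≠ j₀} A B m g w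
    (fun _ => j₀) (fun x => x.1.1) (fun x => p x.1.1 x.1.2)
    (by
      intro j
      obtain ⟨h1, h2, h3, h4, h5, h6, h7⟩ := hbase j
      obtain ⟨h8, h9⟩ := hnum j
      refine ⟨h1, h2, h3, h4, h5, h6, h7, ?_, ?_⟩ <;> omega)
    hdis (fun x => x.2.symm)
    (fun x => hp x.1.1 x.2 x.1.2)
    (by
      intro x y hxy v hv
      refine hpd x.1.1 x.1.2 y.1.1 y.1.2 x.2 y.2 ?_ v hv
      intro h
      exact hxy (Subtype.ext h))
  have hev : ∀ a : Fin M', 2 * a.1 < 2 * M' := fun a => by omega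
  have hod : ∀ a : Fin M', 2 * a.1 + 1 < 2 * M' := fun a => by omega
  let pe : {j : Fin r // j ≠ j₀} → Fin M' → List V :=
    fun j a => p' ⟨(j.1, ⟨2 * a.1, hev a⟩), j.2⟩
  let po : {j : Fin r // j ≠ j₀} → Fin M' → List V :=
    fun j a => p' ⟨(j.1, ⟨2 * a.1 + 1, hod a⟩), j.2⟩
  obtain ⟨F, hFne, hF⟩ := hA (fun a => ∑ j : {j : Fin r // j ≠ j₀},
    ((pe j a).length + sdE A (pe j a) + ((po j a).length + sdE A (po j a))))
  obtain ⟨a₀, ha₀⟩ := hFne
  set n : ℕ := Fintype.card ({j : Fin r // j ≠ j₀} × F) with hn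
  let φ : Fin n ≃ {j : Fin r // j ≠ j₀} × F := (Fintype.equivFin _).symm
  have hnQ : n ≤ Q := by
    rw [hn, Fintype.card_prod, Fintype.card_coe]
    have h1 : Fintype.card {j : Fin r // j ≠ j₀} ≤ r := by
      refine (Fintype.card_subtype_le _).trans ?_
      rw [Fintype.card_fin]
    have h2 : F.card ≤ M' := by
      refine (Finset.card_le_univ F).trans ?_
      rw [Fintype.card_fin]
    exact (Nat.mul_le_mul h1 h2).trans hQ
  have hn1 : 1 ≤ n := by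
    rw [hn]
    refine Nat.one_le_iff_ne_zero.2 ?_
    have hne : Nonempty ({j : Fin r // j ≠ j₀} × F) :=
      ⟨(⟨⟨1, by omega⟩, by
        intro h
        rw [hj₀, Fin.mk.injEq] at h
        omega⟩, ⟨a₀, ha₀⟩)⟩
    exact Fintype.card_ne_zero
  have hkey : ∀ x y : {x : Fin r × Fin (2 * M') // x.1 ≠ j₀}, x = y →
      x.1.1 = y.1.1 ∧ x.1.2.1 = y.1.2.1 := by
    rintro x y rfl
    exact ⟨rfl, rfl⟩
  obtain ⟨b, hb1, hb2, hb3, hb4⟩ := hEars V G r n (12 * Q) A B m g w j₀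
    (fun l => (φ l).1.1) (fun l => pe (φ l).1 (φ l).2.1) (fun l => po (φ l).1 (φ l).2.1)
    hn1 (fun l => (φ l).1.2)
    (by
      intro j hj
      refine ⟨φ.symm (⟨j, hj⟩, ⟨a₀, ha₀⟩), ?_⟩
      simp)
    (by
      intro j
      obtain ⟨h1, h2, h3, h4, h5, h6, h7⟩ := hbase j
      obtain ⟨h8, h9⟩ := hnum j
      refine ⟨h1, h2, h3, h4, h5, h6, h7, ?_, ?_⟩ <;> omega)
    hdis
    (by
      intro l
      exact ⟨hp' _, hp' _⟩)
    (by
      intro l l' hll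
      constructor
      · intro v hv
        refine hpd' _ _ ?_ v hv
        intro h
        obtain ⟨h3, h4⟩ := hkey _ _ h
        have h3' : (φ l).1.1 = (φ l').1.1 := h3
        have h4' : 2 * (φ l).2.1.1 = 2 * (φ l').2.1.1 := h4
        apply hll
        apply φ.injective
        refine Prod.ext (Subtype.ext h3') (Subtype.ext (Fin.ext ?_))
        omega
      · intro v hv
        refine hpd' _ _ ?_ v hv
        intro h
        obtain ⟨h3, h4⟩ := hkey _ _ h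
        have h3' : (φ l).1.1 = (φ l').1.1 := h3
        have h4' : 2 * (φ l).2.1.1 + 1 = 2 * (φ l').2.1.1 + 1 := h4
        apply hll
        apply φ.injective
        refine Prod.ext (Subtype.ext h3') (Subtype.ext (Fin.ext ?_))
        omega)
    (by
      intro l l' v hv
      refine hpd' _ _ ?_ v hv
      intro h
      obtain ⟨h3, h4⟩ := hkey _ _ h
      have h4' : 2 * (φ l).2.1.1 = 2 * (φ l').2.1.1 + 1 := h4
      omega)
    (by
      intro j
      refine (card_le_card ?_).trans ((hcnt j).trans (by omega))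
      intro v hv
      rw [mem_filter] at hv ⊢
      refine ⟨hv.1, ?_⟩
      obtain ⟨l, h | h⟩ := hv.2
      · exact ⟨_, h⟩
      · exact ⟨_, h⟩)
  have hW : ∑ a ∈ F, ∑ j : {j : Fin r // j ≠ j₀},
      ((pe j a).length + sdE A (pe j a) + ((po j a).length + sdE A (po j a))) =
      ∑ l, ((pe (φ l).1 (φ l).2.1).length + sdE A (pe (φ l).1 (φ l).2.1) +
        ((po (φ l).1 (φ l).2.1).length + sdE A (po (φ l).1 (φ l).2.1))) := by
    rw [Equiv.sum_comp φ (fun x : {j : Fin r // j ≠ j₀} × F =>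
      (pe x.1 x.2.1).length + sdE A (pe x.1 x.2.1) +
        ((po x.1 x.2.1).length + sdE A (po x.1 x.2.1))), Fintype.sum_prod_type_right]
    exact (Finset.sum_coe_sort F (fun a => ∑ j : {j : Fin r // j ≠ j₀},
      ((pe j a).length + sdE A (pe j a) + ((po j a).length + sdE A (po j a))))).symm
  have hWle : ∑ l, ((pe (φ l).1 (φ l).2.1).length + sdE A (pe (φ l).1 (φ l).2.1) +
        ((po (φ l).1 (φ l).2.1).length + sdE A (po (φ l).1 (φ l).2.1))) ≤
      ∑ l, ((pe (φ l).1 (φ l).2.1).length + (po (φ l).1 (φ l).2.1).length) + 4 * n := by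
    have h1 : ∑ l, ((pe (φ l).1 (φ l).2.1).length + sdE A (pe (φ l).1 (φ l).2.1) +
        ((po (φ l).1 (φ l).2.1).length + sdE A (po (φ l).1 (φ l).2.1))) ≤
        ∑ l : Fin n, (((pe (φ l).1 (φ l).2.1).length + (po (φ l).1 (φ l).2.1).length) + 4) := by
      refine sum_le_sum (fun l _ => ?_)
      have h2 := TFour_sdE_le A (pe (φ l).1 (φ l).2.1)
      have h3 := TFour_sdE_le A (po (φ l).1 (φ l).2.1)
      omega
    have h4 : ∑ l : Fin n, (((pe (φ l).1 (φ l).2.1).length +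
        (po (φ l).1 (φ l).2.1).length) + 4) =
        ∑ l, ((pe (φ l).1 (φ l).2.1).length + (po (φ l).1 (φ l).2.1).length) + 4 * n := by
      rw [sum_add_distrib, sum_const, card_univ, Fintype.card_fin, smul_eq_mul, mul_comm n 4]
    exact h1.trans h4.le
  have hWge : ∑ l, ((pe (φ l).1 (φ l).2.1).length + (po (φ l).1 (φ l).2.1).length) ≤
      ∑ l, ((pe (φ l).1 (φ l).2.1).length + sdE A (pe (φ l).1 (φ l).2.1) +
        ((po (φ l).1 (φ l).2.1).length + sdE A (po (φ l).1 (φ l).2.1))) := by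
    refine sum_le_sum (fun l _ => ?_)
    omega
  rw [← hW] at hWle hWge hb3
  set W : ℕ := ∑ a ∈ F, ∑ j : {j : Fin r // j ≠ j₀},
      ((pe j a).length + sdE A (pe j a) + ((po j a).length + sdE A (po j a))) with hWdef
  set S : ℕ := ∑ l, ((pe (φ l).1 (φ l).2.1).length + (po (φ l).1 (φ l).2.1).length) with hS
  have hWb : W ≤ b := by omega
  obtain ⟨t, ht, hmod⟩ := hF (b - W) (by
    rw [Nat.even_iff]
    omega) (by omega)
  obtain ⟨l, hl, hlen⟩ := hb4 t (by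
    have := hfin t n ht hnQ
    omega)
  refine ⟨l, hl, ?_⟩
  rw [hlen]
  have h5 : b + 2 * t = W + (b - W) + 2 * t := by omega
  rw [h5]
  exact hmod

theorem thm_TFour (hArith : St_Arith) (hRoutes : St_Routes) (hShrB : St_ShrB)
    (hEars : St_Ears) (hTOne : St_TOne) : St_TFour := by
  intro ε ρ γ c R hε hε1 hρ hρ1 hγ hγρ hγε hc
  obtain ⟨M', hM', hA⟩ := hArith (ε / 2) (by positivity)
  obtain ⟨k₁, hk₁⟩ := hA (8 * (R * M'))
  set Q : ℕ := R * M' with hQ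
  set K : ℕ := 20 * Q + 8 with hK
  refine ⟨2 * Q, max k₁ (max 5 (max ⌈32 * ((K : ℝ) + 2) / (ρ * c)⌉₊
    (max ⌈(12 : ℝ) / ε⌉₊ ⌈3 * ((R : ℝ) * K) / ε⌉₊))), ?_⟩
  intro k hk hodd V _ G r A B hr hrR hpr hdis hsum hIns
  have hk1 : k₁ ≤ k := le_trans (le_max_left _ _) hk
  have hk2 : 5 ≤ k := le_trans ((le_max_left _ _).trans (le_max_right _ _)) hk
  have hk3 : 32 * ((K : ℝ) + 2) ≤ ρ * c * k := by
    have h1 : ⌈32 * ((K : ℝ) + 2) / (ρ * c)⌉₊ ≤ k :=
      le_trans ((le_max_left _ _).trans ((le_max_right _ _).trans (le_max_right _ _))) hk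
    have h2 : 32 * ((K : ℝ) + 2) / (ρ * c) ≤ k := Nat.ceil_le.1 h1
    rw [div_le_iff₀ (by positivity)] at h2
    linarith
  have hk4 : (12 : ℝ) ≤ ε * k := by
    have h1 : ⌈(12 : ℝ) / ε⌉₊ ≤ k :=
      le_trans ((le_max_left _ _).trans ((le_max_right _ _).trans ((le_max_right _ _).trans
        (le_max_right _ _)))) hk
    have h2 : (12 : ℝ) / ε ≤ k := Nat.ceil_le.1 h1
    rw [div_le_iff₀ hε] at h2
    linarith
  have hk5 : 3 * ((R : ℝ) * K) ≤ ε * k := by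
    have h1 : ⌈3 * ((R : ℝ) * K) / ε⌉₊ ≤ k :=
      le_trans ((le_max_right _ _).trans ((le_max_right _ _).trans ((le_max_right _ _).trans
        (le_max_right _ _)))) hk
    have h2 : 3 * ((R : ℝ) * K) / ε ≤ k := Nat.ceil_le.1 h1
    rw [div_le_iff₀ hε] at h2
    linarith
  have hnum := fun j => TFour_num ρ γ c hρ hρ1 hγ hγρ K k (A j).card (by omega) hk3 (hpr j).2
  have hbase : ∀ j, Disjoint (A j) (B j) ∧ (A j).card = (A j).card ∧
      (B j).card = (A j).card ∧ 1 ≤ ⌈4 * γ * ((A j).card : ℝ)⌉₊ ∧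
      P1 G (A j) (B j) ⌈4 * γ * ((A j).card : ℝ)⌉₊ ∧
      (∀ a ∈ A j, ⌈ρ / 16 * ((A j).card : ℝ)⌉₊ ≤ (nbs G a (B j)).card) ∧
      (∀ b ∈ B j, ⌈ρ / 16 * ((A j).card : ℝ)⌉₊ ≤ (nbs G b (A j)).card) := by
    intro j
    obtain ⟨h, -⟩ := hpr j
    exact ⟨h.disj, rfl, h.card.symm, (hnum j).1, h.p1, fun a ha => Nat.ceil_le.2 (h.dA a ha),
      fun b hb => Nat.ceil_le.2 (h.dB b hb)⟩
  rcases Nat.lt_or_ge r 2 with hr2 | hr2
  · have hr1 : r = 1 := by omega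
    subst hr1
    obtain ⟨h1, h2, h3, h4, h5, h6, h7⟩ := hbase 0
    obtain ⟨g1, g2, g3, g4⟩ := hnum 0
    rw [Fin.sum_univ_one] at hsum
    obtain ⟨l, hl, hlen⟩ := hTOne V G (A 0) (B 0) (A 0).card ⌈4 * γ * ((A 0).card : ℝ)⌉₊ k
      h1 h2 h3 h4 h5 (fun a ha => le_trans (by omega) (h6 a ha))
      (fun b hb => le_trans (by omega) (h7 b hb)) hodd hk2
      (by
        have hreal : (((k - 1 + 12 * ⌈4 * γ * ((A 0).card : ℝ)⌉₊ : ℕ)) : ℝ) ≤
            ((2 * (A 0).card : ℕ) : ℝ) := by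
          have hk6 : ((k - 1 : ℕ) : ℝ) = (k : ℝ) - 1 := by
            rw [Nat.cast_sub (by omega)]
            simp
          push_cast [hk6]
          have hm0 : (0 : ℝ) ≤ ((A 0).card : ℝ) := Nat.cast_nonneg _
          have h8 : 100 * γ * ((A 0).card : ℝ) ≤ ε * (A 0).card :=
            mul_le_mul_of_nonneg_right hγε hm0
          have h9 : 0 ≤ (1 / 10 - ε) * ((A 0).card : ℝ) :=
            mul_nonneg (by linarith) hm0
          have hk0 : (0 : ℝ) ≤ (k : ℝ) := Nat.cast_nonneg _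
          have h10 : (2 - 48 / 100 * ε) * ((1 / 2 + ε) * k) ≤
              (2 - 48 / 100 * ε) * ((A 0).card : ℝ) :=
            mul_le_mul_of_nonneg_left hsum (by linarith)
          have h11 : 0 ≤ (1 / 10 - ε) * (ε * k) :=
            mul_nonneg (by linarith) (by positivity)
          nlinarith
        exact_mod_cast hreal)
    refine ⟨l, hl, ?_⟩
    rw [hlen, Nat.add_mod_left]
    exact Nat.mod_eq_of_lt (by omega)
  · refine TFour_main hRoutes hShrB hEars G r M' Q k ((1 / 2 + ε / 2) * k) A B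
      (fun j => (A j).card) (fun j => ⌈4 * γ * ((A j).card : ℝ)⌉₊)
      (fun j => ⌈ρ / 16 * ((A j).card : ℝ)⌉₊) hr2 ?_ (hk₁ k hk1 hodd) hbase ?_ hdis hIns ?_
    · rw [hQ]
      exact Nat.mul_le_mul_right _ hrR
    · intro j
      exact ⟨(hnum j).2.2.1, (hnum j).2.2.2⟩
    · intro t n ht hn
      have hreal : (((t + ∑ j, (12 * Q + 8 * n + 6 * ⌈4 * γ * ((A j).card : ℝ)⌉₊ + 2) : ℕ)) : ℝ) ≤
          ((∑ j, (A j).card : ℕ) : ℝ) := by
        have h1 : ((∑ j, (12 * Q + 8 * n + 6 * ⌈4 * γ * ((A j).card : ℝ)⌉₊ + 2) : ℕ) : ℝ) ≤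
            ∑ j : Fin r, ((K : ℝ) + 24 * γ * ((A j).card : ℝ)) := by
          rw [Nat.cast_sum]
          refine sum_le_sum (fun j _ => ?_)
          have h2 := (hnum j).2.1
          have h3 : (n : ℝ) ≤ (Q : ℝ) := by exact_mod_cast hn
          have h4 : (K : ℝ) = 20 * Q + 8 := by rw [hK]; push_cast; ring
          push_cast
          rw [h4]
          linarith
        have h1' : ∑ j : Fin r, ((K : ℝ) + 24 * γ * ((A j).card : ℝ)) =
            r * K + 24 * γ * ∑ j, ((A j).card : ℝ) := by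
          rw [sum_add_distrib, sum_const, card_univ, Fintype.card_fin, nsmul_eq_mul, ← mul_sum]
        rw [h1'] at h1
        set Z : ℝ := ∑ j, ((A j).card : ℝ) with hZ
        rw [Nat.cast_add, Nat.cast_sum (s := univ) (f := fun j => (A j).card)]
        have hZ0 : 0 ≤ Z := sum_nonneg (fun j _ => Nat.cast_nonneg _)
        have hrR' : (r : ℝ) * K ≤ R * K := by
          have : (r : ℝ) ≤ R := by exact_mod_cast hrR
          exact mul_le_mul_of_nonneg_right this (Nat.cast_nonneg _)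
        have h5 : 100 * γ * Z ≤ ε * Z := mul_le_mul_of_nonneg_right hγε hZ0
        have h6 : (1 - 24 / 100 * ε) * ((1 / 2 + ε) * k) ≤ (1 - 24 / 100 * ε) * Z :=
          mul_le_mul_of_nonneg_left hsum (by linarith)
        have hk0 : (0 : ℝ) ≤ (k : ℝ) := Nat.cast_nonneg _
        have h7 : 0 ≤ (1 / 10 - ε) * (ε * k) :=
          mul_nonneg (by linarith) (by positivity)
        have h8 : 0 ≤ ε * (k : ℝ) := by positivity
        change _ ≤ Z
        nlinarith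
      exact_mod_cast hreal

end Pool.CMK
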