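import Pool.Agent.CMX.StA
import Pool.Agent.CMK.Lib

/-!
# CMX: one large pair (`St_TOne`)
-/

set_option autoImplicit false

namespace Pool.CMK

open Finset
open scoped Classical

/-- The module TONE. -/
theorem thm_TOne (hPP : St_PP) : St_TOne := by
  intro V _ G A B m g k hAB hA hB hg hP1 hdA hdB hodd hk hkm
  have hAne : A.Nonempty := by
    rw [← Finset.card_pos, hA]
    omega
  obtain ⟨x, hx⟩ := hAne
  have h1 : (nbs G x B).Nonempty := by
    rw [← Finset.card_pos]
    have := hdA x hx
    omega
  obtain ⟨y, hy⟩ := h1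
  rw [lib_mem_nbs] at hy
  obtain ⟨hyB, hxy⟩ := hy
  have hne : x ≠ y := hxy.ne
  obtain ⟨q, hlen, hnd, hch, hin, ⟨a, ha, hxa⟩, ⟨b, hb, hby⟩⟩ :=
    hPP V G A B m g 0 ∅ x y false true (k - 1) hAB hA hB hg hP1 (by simp) hne
      (by
        have := hdA x hx
        simpa using this)
      (by
        have := hdB y hyB
        simpa using this)
      (by omega)
      (by
        simp only [Bool.false_eq_true, if_false]
        obtain ⟨j, rfl⟩ := hodd
        exact ⟨j, by omega⟩)
      (by omega)
  have hqne : q ≠ [] := by
    rintro rfl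
    simp at ha
  have hq : PathFT G a b q := ⟨⟨hqne, hnd, hch⟩, ha, hb⟩
  have hpx : PathFT G x x [x] := ⟨⟨by simp, by simp, by simp⟩, by simp, by simp⟩
  have hpy : PathFT G y y [y] := ⟨⟨by simp, by simp, by simp⟩, by simp, by simp⟩
  have h2 : PathFT G x b ([x] ++ q) := by
    refine lib_path_append hpx hq ?_ hxa
    intro w hw hw'
    rw [List.mem_singleton] at hw
    exact (hin w hw').2.2.1 hw
  have h3 : CycL G (([x] ++ q) ++ [y]) := by
    refine lib_cyc_of_paths h2 hpy ?_ hby hxy.symm ?_
    · intro w hw hw'
      rw [List.mem_singleton] at hw'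
      rw [List.mem_append, List.mem_singleton] at hw
      rcases hw with hw | hw
      · exact hne (hw.symm.trans hw')
      · exact (hin w hw).2.2.2 hw'
    · simp only [List.length_append, List.length_singleton]
      omega
  refine ⟨_, h3, ?_⟩
  simp only [List.length_append, List.length_singleton]
  omega

end Pool.CMK
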