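import Pool.Agent.CMX.StB
import Pool.Agent.CMK.Lib

/-!
# CMX: typical vertices
-/

set_option autoImplicit false

namespace Pool.CMK

open Finset
open scoped Classical

/-- the codegree graph -/
private noncomputable def Typ_H {V : Type} (G : SimpleGraph V) (R' : Finset V) (ν : ℝ) :
    SimpleGraph V where
  Adj z z' := z ≠ z' ∧ ν * R'.card ≤ ((R'.filter (fun r => G.Adj z r ∧ G.Adj z' r)).card : ℝ)
  symm := by
    refine ⟨fun z z' h => ⟨h.1.symm, ?_⟩⟩
    have : R'.filter (fun r => G.Adj z' r ∧ G.Adj z r) =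
        R'.filter (fun r => G.Adj z r ∧ G.Adj z' r) :=
      Finset.filter_congr fun r _ => and_comm
    rw [this]
    exact h.2
  loopless := ⟨fun z h => h.1 rfl⟩

private noncomputable def Typ_bad {V : Type} (G H : SimpleGraph V) (Q : Finset V) (v : V) : ℕ :=
  ∑ z ∈ nbs G v Q, ((nbs G v Q).filter (fun w => w ≠ z ∧ ¬ H.Adj z w)).card

private theorem Typ_bad_eq {V : Type} (G H : SimpleGraph V) (Q : Finset V) (v : V) :
    Typ_bad G H Q v = ∑ z ∈ Q, ∑ w ∈ Q,
      if (G.Adj z v ∧ G.Adj w v) ∧ (w ≠ z ∧ ¬ H.Adj z w) then 1 else 0 := by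
  unfold Typ_bad nbs
  rw [Finset.sum_filter]
  refine Finset.sum_congr rfl fun z _ => ?_
  by_cases hz : G.Adj v z
  · rw [if_pos hz, Finset.filter_filter, Finset.card_filter]
    refine Finset.sum_congr rfl fun w _ => ?_
    have : (G.Adj v w ∧ w ≠ z ∧ ¬H.Adj z w) ↔ ((G.Adj z v ∧ G.Adj w v) ∧ (w ≠ z ∧ ¬ H.Adj z w)) := by
      constructor
      · rintro ⟨h1, h2⟩
        exact ⟨⟨hz.symm, h1.symm⟩, h2⟩
      · rintro ⟨⟨_, h1⟩, h2⟩
        exact ⟨h1.symm, h2⟩
    rw [if_congr this rfl rfl]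
  · rw [if_neg hz]
    symm
    refine Finset.sum_eq_zero fun w _ => if_neg ?_
    rintro ⟨⟨h1, _⟩, _⟩
    exact hz h1.symm

/-- double counting -/
private theorem Typ_sum {V : Type} (G : SimpleGraph V) (Q R' : Finset V) (ν : ℝ) (hν : 0 ≤ ν) :
    (∑ v ∈ R', (Typ_bad G (Typ_H G R' ν) Q v : ℝ)) ≤ (Q.card : ℝ) ^ 2 * (ν * R'.card) := by
  have h1 : (∑ v ∈ R', (Typ_bad G (Typ_H G R' ν) Q v : ℝ)) =
      ∑ z ∈ Q, ∑ w ∈ Q, ∑ v ∈ R',
        (if (G.Adj z v ∧ G.Adj w v) ∧ (w ≠ z ∧ ¬ (Typ_H G R' ν).Adj z w) then (1 : ℝ) else 0) := by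
    rw [Finset.sum_congr rfl fun v _ => by rw [Typ_bad_eq]]
    push_cast
    rw [Finset.sum_comm]
    refine Finset.sum_congr rfl fun z _ => ?_
    rw [Finset.sum_comm]
  rw [h1]
  have h2 : ∀ z ∈ Q, ∀ w ∈ Q, (∑ v ∈ R',
      (if (G.Adj z v ∧ G.Adj w v) ∧ (w ≠ z ∧ ¬ (Typ_H G R' ν).Adj z w) then (1 : ℝ) else 0)) ≤
      ν * R'.card := by
    intro z _ w _
    by_cases h : w ≠ z ∧ ¬ (Typ_H G R' ν).Adj z w
    · have h3 : ((R'.filter (fun r => G.Adj z r ∧ G.Adj w r)).card : ℝ) < ν * R'.card := by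
        by_contra hcon
        push Not at hcon
        exact h.2 ⟨h.1.symm, hcon⟩
      refine le_trans (le_of_eq ?_) h3.le
      rw [Finset.card_filter]
      push_cast
      refine Finset.sum_congr rfl fun v _ => ?_
      have : ((G.Adj z v ∧ G.Adj w v) ∧ (w ≠ z ∧ ¬ (Typ_H G R' ν).Adj z w)) ↔
          (G.Adj z v ∧ G.Adj w v) := ⟨fun h' => h'.1, fun h' => ⟨h', h⟩⟩
      rw [if_congr this rfl rfl]
    · rw [Finset.sum_eq_zero fun v _ => if_neg fun h' => h h'.2]
      positivity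
  calc (∑ z ∈ Q, ∑ w ∈ Q, ∑ v ∈ R',
        (if (G.Adj z v ∧ G.Adj w v) ∧ (w ≠ z ∧ ¬ (Typ_H G R' ν).Adj z w) then (1 : ℝ) else 0))
      ≤ ∑ z ∈ Q, ∑ w ∈ Q, ν * R'.card :=
        Finset.sum_le_sum fun z hz => Finset.sum_le_sum fun w hw => h2 z hz w hw
    _ = (Q.card : ℝ) ^ 2 * (ν * R'.card) := by
      rw [Finset.sum_const, Finset.sum_const, nsmul_eq_mul, nsmul_eq_mul]
      ring

theorem thm_Typ : St_Typ := by
  intro θ hθ hθ1
  refine ⟨θ ^ 3 / 8, by positivity, fun M => ?_⟩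
  refine ⟨⌈(2 * M + 2) / θ⌉₊ + 1, fun k hk V _ G A Q hdeg hbd hQA hQ hYne hsp => ?_⟩
  have hk1 : (2 * M + 2 : ℝ) / θ ≤ k := by
    have h1 : (2 * M + 2 : ℝ) / θ ≤ (⌈(2 * M + 2 : ℝ) / θ⌉₊ : ℝ) := Nat.le_ceil _
    have h2 : ((⌈(2 * M + 2 : ℝ) / θ⌉₊ + 1 : ℕ) : ℝ) ≤ k := by exact_mod_cast hk
    push_cast at h2
    linarith
  have hkθ : (2 * M + 2 : ℝ) ≤ θ * k := by
    rw [div_le_iff₀ hθ] at hk1
    linarith
  have hM0 : (0 : ℝ) ≤ M := Nat.cast_nonneg _
  have hk0 : (0 : ℝ) < k := by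
    by_contra hcon
    push Not at hcon
    nlinarith
  set Y := A \ Q with hY
  set R' := Y.filter (fun v => ((nbs G v Y).card : ℝ) ≤ θ * k) with hR'
  set b := ⌊θ * k⌋₊ with hb
  have hb1 : θ * k / 2 ≤ (b : ℝ) := by
    have := Nat.lt_floor_add_one (θ * k)
    rw [← hb] at this
    linarith
  have hYc : (0 : ℝ) < Y.card := by exact_mod_cast hYne.card_pos
  -- the size of R'
  have hR'c : (1 - θ) * Y.card ≤ R'.card := by
    have h1 : ((Y \ R').card : ℝ) * (θ * k) ≤ (ad G Y Y : ℝ) := by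
      rw [lib_ad_eq_sum]
      push_cast
      calc ((Y \ R').card : ℝ) * (θ * k) = ∑ v ∈ Y \ R', θ * k := by
            rw [Finset.sum_const, nsmul_eq_mul]
        _ ≤ ∑ v ∈ Y \ R', ((nbs G v Y).card : ℝ) := by
            refine Finset.sum_le_sum fun v hv => ?_
            rw [Finset.mem_sdiff, hR', Finset.mem_filter, not_and, not_le] at hv
            exact (hv.2 hv.1).le
        _ ≤ ∑ v ∈ Y, ((nbs G v Y).card : ℝ) :=
            Finset.sum_le_sum_of_subset_of_nonneg Finset.sdiff_subset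
              fun _ _ _ => Nat.cast_nonneg _
    have h2 := hsp Y le_rfl hYne
    have h3 : ((Y \ R').card : ℝ) = Y.card - R'.card := by
      rw [Finset.card_sdiff_of_subset (Finset.filter_subset _ _), Nat.cast_sub
        (Finset.card_le_card (Finset.filter_subset _ _))]
    rw [h3] at h1
    have h4 : ((Y.card : ℝ) - R'.card) * (θ * k) < (θ * Y.card) * (θ * k) := by
      calc _ ≤ _ := h1
        _ < _ := h2
        _ = _ := by ring
    have h5 := lt_of_mul_lt_mul_right h4 (by positivity)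
    linarith
  set ν := θ ^ 3 / 8 with hν
  have hν0 : 0 < ν := by positivity
  set H := Typ_H G R' ν with hH
  set R := R'.filter (fun v => Typ_bad G H Q v ≤ b ^ 2) with hR
  refine ⟨R', R, H, Finset.filter_subset _ _, Finset.filter_subset _ _, ?_, ?_, ?_, ?_, ?_⟩
  · -- the size of R
    have h1 : ((R' \ R).card : ℝ) * (b : ℝ) ^ 2 ≤ (Q.card : ℝ) ^ 2 * (ν * R'.card) := by
      refine le_trans ?_ (Typ_sum G Q R' ν hν0.le)
      calc ((R' \ R).card : ℝ) * (b : ℝ) ^ 2 = ∑ v ∈ R' \ R, (b : ℝ) ^ 2 := by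
            rw [Finset.sum_const, nsmul_eq_mul]
        _ ≤ ∑ v ∈ R' \ R, (Typ_bad G H Q v : ℝ) := by
            refine Finset.sum_le_sum fun v hv => ?_
            obtain ⟨hv1, hv2⟩ := Finset.mem_sdiff.1 hv
            rw [hR, Finset.mem_filter, not_and, not_le] at hv2
            exact_mod_cast (hv2 hv1).le
        _ ≤ ∑ v ∈ R', (Typ_bad G H Q v : ℝ) :=
            Finset.sum_le_sum_of_subset_of_nonneg Finset.sdiff_subset
              fun _ _ _ => Nat.cast_nonneg _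
    have h3 : ((R' \ R).card : ℝ) = R'.card - R.card := by
      rw [Finset.card_sdiff_of_subset (Finset.filter_subset _ _), Nat.cast_sub
        (Finset.card_le_card (Finset.filter_subset _ _))]
    have hr0 : (0 : ℝ) ≤ (R' \ R).card := Nat.cast_nonneg _
    have h4 : ((R' \ R).card : ℝ) * (θ * k / 2) ^ 2 ≤ (5 / 4 * k ^ 2) * (ν * R'.card) := by
      calc ((R' \ R).card : ℝ) * (θ * k / 2) ^ 2 ≤ ((R' \ R).card : ℝ) * (b : ℝ) ^ 2 := by
            gcongr
        _ ≤ (Q.card : ℝ) ^ 2 * (ν * R'.card) := h1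
        _ ≤ ((1 + 2 * θ) * k) ^ 2 * (ν * R'.card) := by
            gcongr
        _ ≤ (5 / 4 * k ^ 2) * (ν * R'.card) := by
            have h5 : ((1 + 2 * θ) * k) ^ 2 ≤ 5 / 4 * (k : ℝ) ^ 2 := by
              rw [mul_pow]
              have h6 : (1 + 2 * θ) ^ 2 ≤ 5 / 4 := by nlinarith
              gcongr
            gcongr
    have h7 : ((R' \ R).card : ℝ) ≤ θ * R'.card := by
      have h8 : ((R' \ R).card : ℝ) * (θ ^ 2 * k ^ 2 / 4) ≤
          (θ * R'.card) * (θ ^ 2 * k ^ 2 / 4) := by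
        calc ((R' \ R).card : ℝ) * (θ ^ 2 * k ^ 2 / 4)
            = ((R' \ R).card : ℝ) * (θ * k / 2) ^ 2 := by ring
          _ ≤ (5 / 4 * k ^ 2) * (ν * R'.card) := h4
          _ = (5 / 8) * ((θ * R'.card) * (θ ^ 2 * k ^ 2 / 4)) := by
            rw [hν]
            ring
          _ ≤ 1 * ((θ * R'.card) * (θ ^ 2 * k ^ 2 / 4)) := by
            gcongr
            norm_num
          _ = _ := one_mul _
      exact le_of_mul_le_mul_right h8 (by positivity)
    rw [h3] at h7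
    nlinarith
  · intro v hv
    exact (Finset.mem_filter.1 hv).2
  · intro v hv
    obtain ⟨hvY, hvd⟩ := Finset.mem_filter.1 hv
    have hvA : v ∈ A := (Finset.mem_sdiff.1 hvY).1
    have h1 := hdeg v hvA
    have h2 : nbs G v univ ⊆ nbs G v Q ∪ nbs G v Y ∪ bdr G A := by
      intro w hw
      have hw' : G.Adj v w := (Finset.mem_filter.1 hw).2
      by_cases hwA : w ∈ A
      · by_cases hwQ : w ∈ Q
        · exact Finset.mem_union_left _ (Finset.mem_union_left _
            (Finset.mem_filter.2 ⟨hwQ, hw'⟩))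
        · exact Finset.mem_union_left _ (Finset.mem_union_right _
            (Finset.mem_filter.2 ⟨Finset.mem_sdiff.2 ⟨hwA, hwQ⟩, hw'⟩))
      · exact Finset.mem_union_right _ (Finset.mem_filter.2 ⟨Finset.mem_univ _, hwA, v, hvA, hw'⟩)
    have h3 : (nbs G v univ).card ≤ (nbs G v Q).card + (nbs G v Y).card + (bdr G A).card :=
      (Finset.card_le_card h2).trans ((Finset.card_union_le _ _).trans
        (Nat.add_le_add_right (Finset.card_union_le _ _) _))
    have h4 : (k : ℝ) < 2 * (nbs G v univ).card := by exact_mod_cast h1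
    have h5 : ((nbs G v univ).card : ℝ) ≤ (nbs G v Q).card + (nbs G v Y).card + (bdr G A).card := by
      exact_mod_cast h3
    have h6 : ((bdr G A).card : ℝ) < 2 * M := by exact_mod_cast hbd
    linarith
  · intro z z' h
    exact h.2
  · intro v hv
    obtain ⟨-, hvb⟩ := Finset.mem_filter.1 hv
    by_contra hcon
    push Not at hcon
    set Z := (nbs G v Q).filter (fun z => b <
      ((nbs G v Q).filter (fun w => w ≠ z ∧ ¬ H.Adj z w)).card) with hZ
    have h1 : (b + 1) * (b + 1) ≤ Typ_bad G H Q v := by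
      calc (b + 1) * (b + 1) ≤ Z.card * (b + 1) := Nat.mul_le_mul_right _ hcon
        _ = ∑ z ∈ Z, (b + 1) := by rw [Finset.sum_const, smul_eq_mul]
        _ ≤ ∑ z ∈ Z, ((nbs G v Q).filter (fun w => w ≠ z ∧ ¬ H.Adj z w)).card :=
            Finset.sum_le_sum fun z hz => (Finset.mem_filter.1 hz).2
        _ ≤ Typ_bad G H Q v := Finset.sum_le_sum_of_subset (Finset.filter_subset _ _)
    nlinarith

end Pool.CMK
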