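import Pool.Agent.CMX.StB
import Pool.Agent.CMK.Lib

/-!
# CMX [ZLEM]: two nearly complete overlapping sets contain a cycle of a given length
-/

set_option autoImplicit false

namespace Pool.CMK

open Finset
open scoped Classical

/-- the inner part of a path with at least three vertices -/
private theorem ZLem_inner {T : Type} {H : SimpleGraph T} {x y : T} {l : List T}
    (h : PathFT H x y l) (h3 : 3 ≤ l.length) : ∃ (q : List T) (u v : T),
    l = x :: (q ++ [y]) ∧ PathFT H u v q ∧ H.Adj x u ∧ H.Adj v y := by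
  obtain ⟨⟨-, hn, hc⟩, hh, hl⟩ := h
  obtain ⟨t, rfl⟩ : ∃ t, l = x :: t := by
    rcases l with _ | ⟨a, t⟩
    · simp at h3
    · simp at hh
      exact ⟨t, by rw [hh]⟩
  have ht : t ≠ [] := by
    rintro rfl
    simp at h3
  obtain ⟨q, rfl⟩ : ∃ q, t = q ++ [y] := by
    refine ⟨t.dropLast, ?_⟩
    have h5 := List.dropLast_append_getLast ht
    have h6 : t.getLast ht = y := by
      rw [List.getLast?_cons_of_ne_nil ht, List.getLast?_eq_some_getLast ht] at hl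
      exact Option.some.inj hl
    rw [h6] at h5
    exact h5.symm
  have hq : q ≠ [] := by
    rintro rfl
    simp at h3
  obtain ⟨hc1, hc2⟩ := List.isChain_cons.1 hc
  obtain ⟨hc3, -, hc4⟩ := List.isChain_append.1 hc2
  refine ⟨q, q.head hq, q.getLast hq, rfl, ⟨⟨hq, ?_, hc3⟩, List.head?_eq_some_head hq,
    List.getLast?_eq_some_getLast hq⟩, ?_, ?_⟩
  · exact (List.nodup_append.1 (List.nodup_cons.1 hn).2).1
  · apply hc1
    rw [List.head?_append, List.head?_eq_some_head hq]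
    rfl
  · exact hc4 _ (by rw [List.getLast?_eq_some_getLast hq]; rfl) _ (by rfl)

/-- a large nearly complete set -/
private theorem ZLem_one (hGrp : St_Grp) {T : Type} (H : SimpleGraph T) (N : Finset T) (b c : ℕ)
    (hc : 3 ≤ c) (hN : ∀ v ∈ N, (N.filter (fun w => w ≠ v ∧ ¬ H.Adj v w)).card ≤ b)
    (h : c + 2 * b ≤ N.card) : ∃ l, CycL H l ∧ l.length = c ∧ ∀ v ∈ l, v ∈ N := by
  obtain ⟨x, hx⟩ : N.Nonempty := by
    rw [← card_pos]
    omega
  obtain ⟨y, hy, hxy, hadj⟩ : ∃ y ∈ N, x ≠ y ∧ H.Adj x y := by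
    by_contra hcon
    push Not at hcon
    have h1 : N.erase x ⊆ N.filter (fun w => w ≠ x ∧ ¬ H.Adj x w) := by
      intro y hy
      obtain ⟨hy1, hy2⟩ := mem_erase.1 hy
      exact mem_filter.2 ⟨hy2, hy1, hcon y hy2 hy1.symm⟩
    have h2 := card_le_card h1
    rw [card_erase_of_mem hx] at h2
    have h3 := hN x hx
    omega
  obtain ⟨l, h1, h2, h3⟩ := hGrp T H N b c x y hN hx hy hxy hc h
  exact ⟨l, lib_cyc_of_path h1 hadj.symm (by omega), h2, h3⟩

theorem thm_ZLem (hGrp : St_Grp) : St_ZLem := by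
  intro T H Z₁ Z₂ b c hc hb1 hb2 hZ1 hZ12 hZ
  obtain ⟨Y₁, hY₁⟩ : ∃ Y, Y = Z₁.filter
    (fun z => ¬ b < (Z₁.filter (fun w => w ≠ z ∧ ¬ H.Adj z w)).card) := ⟨_, rfl⟩
  obtain ⟨Y₂, hY₂⟩ : ∃ Y, Y = Z₂.filter
    (fun z => ¬ b < (Z₂.filter (fun w => w ≠ z ∧ ¬ H.Adj z w)).card) := ⟨_, rfl⟩
  have hs1 : Y₁ ⊆ Z₁ := by rw [hY₁]; exact filter_subset _ _
  have hs2 : Y₂ ⊆ Z₂ := by rw [hY₂]; exact filter_subset _ _
  have hc1 := card_filter_add_card_filter_not (s := Z₁)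
    (fun z => b < (Z₁.filter (fun w => w ≠ z ∧ ¬ H.Adj z w)).card)
  have hc2 := card_filter_add_card_filter_not (s := Z₂)
    (fun z => b < (Z₂.filter (fun w => w ≠ z ∧ ¬ H.Adj z w)).card)
  rw [← hY₁] at hc1
  rw [← hY₂] at hc2
  have hN : ∀ (Z Y N : Finset T), Y = Z.filter
      (fun z => ¬ b < (Z.filter (fun w => w ≠ z ∧ ¬ H.Adj z w)).card) → N ⊆ Y →
      ∀ v ∈ N, (N.filter (fun w => w ≠ v ∧ ¬ H.Adj v w)).card ≤ b := by
    intro Z Y N hY hNY v hv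
    have h1 := hNY hv
    rw [hY] at h1
    have h2 := (mem_filter.1 h1).2
    have h3 : N ⊆ Z := by
      refine hNY.trans ?_
      rw [hY]
      exact filter_subset _ _
    exact (card_le_card (filter_subset_filter _ h3)).trans (not_lt.1 h2)
  have hsd1 : (Z₁ \ Y₁).card ≤ b := by
    rw [card_sdiff_of_subset hs1]
    omega
  have hsd2 : (Z₂ \ Y₂).card ≤ b := by
    rw [card_sdiff_of_subset hs2]
    omega
  by_cases h1 : c + 2 * b ≤ Y₁.card
  · obtain ⟨l, l1, l2, l3⟩ := ZLem_one hGrp H Y₁ b c hc (hN Z₁ Y₁ Y₁ hY₁ subset_rfl) h1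
    exact ⟨l, l1, l2, fun v hv => mem_union_left _ (hs1 (l3 v hv))⟩
  by_cases h2 : c + 2 * b ≤ Y₂.card
  · obtain ⟨l, l1, l2, l3⟩ := ZLem_one hGrp H Y₂ b c hc (hN Z₂ Y₂ Y₂ hY₂ subset_rfl) h2
    exact ⟨l, l1, l2, fun v hv => mem_union_right _ (hs2 (l3 v hv))⟩
  have hint : 2 ≤ (Y₁ ∩ Y₂).card := by
    have h3 : Z₁ ∩ Z₂ ⊆ (Y₁ ∩ Y₂) ∪ ((Z₁ \ Y₁) ∪ (Z₂ \ Y₂)) := by
      intro v hv
      simp only [mem_inter, mem_union, mem_sdiff] at hv ⊢
      tauto
    have h4 := (card_le_card h3).trans ((card_union_le _ _).trans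
      (Nat.add_le_add_left (card_union_le _ _) _))
    omega
  have huni : c + 4 * b ≤ (Y₁ ∪ Y₂).card := by
    have h3 : Z₁ ∪ Z₂ ⊆ (Y₁ ∪ Y₂) ∪ ((Z₁ \ Y₁) ∪ (Z₂ \ Y₂)) := by
      intro v hv
      simp only [mem_union, mem_sdiff] at hv ⊢
      tauto
    have h4 := (card_le_card h3).trans ((card_union_le _ _).trans
      (Nat.add_le_add_left (card_union_le _ _) _))
    omega
  obtain ⟨o₁, ho₁, o₂, ho₂, hne⟩ := one_lt_card.1 (lt_of_lt_of_le one_lt_two hint)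
  obtain ⟨ho₁1, ho₁2⟩ := mem_inter.1 ho₁
  obtain ⟨ho₂1, ho₂2⟩ := mem_inter.1 ho₂
  have hY1c : 2 * b + 3 ≤ Y₁.card := by omega
  obtain ⟨l₁, a1, a2, a3⟩ := hGrp T H Y₁ b (Y₁.card - 2 * b) o₁ o₂
    (hN Z₁ Y₁ Y₁ hY₁ subset_rfl) ho₁1 ho₂1 hne (by omega) (by omega)
  have hN2 : (Y₂ \ Y₁) ∪ {o₁, o₂} ⊆ Y₂ := by
    intro v hv
    rcases mem_union.1 hv with h | h
    · exact (mem_sdiff.1 h).1
    · rcases mem_insert.1 h with h | h
      · rw [h]; exact ho₁2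
      · rw [mem_singleton.1 h]; exact ho₂2
  have hN2c : ((Y₂ \ Y₁) ∪ {o₁, o₂}).card = (Y₂ \ Y₁).card + 2 := by
    rw [card_union_of_disjoint, card_pair hne]
    rw [disjoint_left]
    intro v hv hv'
    have h5 := (mem_sdiff.1 hv).2
    rcases mem_insert.1 hv' with h | h
    · exact h5 (by rw [h]; exact ho₁1)
    · exact h5 (by rw [mem_singleton.1 h]; exact ho₂1)
  have hU : (Y₁ ∪ Y₂).card = Y₁.card + (Y₂ \ Y₁).card := by
    rw [← union_sdiff_self_eq_union, card_union_of_disjoint disjoint_sdiff]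
  obtain ⟨l₂, b1, b2, b3⟩ := hGrp T H ((Y₂ \ Y₁) ∪ {o₁, o₂}) b (c + 2 - (Y₁.card - 2 * b)) o₂ o₁
    (hN Z₂ Y₂ _ hY₂ hN2) (mem_union_right _ (by simp)) (mem_union_right _ (by simp)) hne.symm
    (by omega) (by omega)
  obtain ⟨q, u, v, rfl, c1, c2, c3⟩ := ZLem_inner b1 (by omega)
  have hnd := b1.1.2.1
  have hq : ∀ w ∈ q, w ∈ Y₂ \ Y₁ := by
    intro w hw
    have h5 := b3 w (List.mem_cons_of_mem _ (List.mem_append_left _ hw))
    rcases mem_union.1 h5 with h | h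
    · exact h
    · exfalso
      obtain ⟨d1, d2⟩ := List.nodup_cons.1 hnd
      rcases mem_insert.1 h with h | h
      · exact (List.nodup_append.1 d2).2.2 w hw o₁ (by simp) h
      · rw [mem_singleton.1 h] at hw
        exact d1 (List.mem_append_left _ hw)
  have hlen : q.length + 2 = c + 2 - (Y₁.card - 2 * b) := by
    rw [← b2]
    simp
  refine ⟨l₁ ++ q, lib_cyc_of_paths a1 c1 ?_ c2 c3 ?_, ?_, ?_⟩
  · intro w hw hw'
    exact (mem_sdiff.1 (hq w hw')).2 (a3 w hw)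
  · omega
  · rw [List.length_append]
    omega
  · intro w hw
    rcases List.mem_append.1 hw with h | h
    · exact mem_union_left _ (hs1 (a3 w h))
    · exact mem_union_right _ (hs2 (mem_sdiff.1 (hq w h)).1)

end Pool.CMK
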