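import Pool.Agent.CMK.Dfs
import Pool.Agent.CMK.Alt
import Pool.Agent.CMK.PP
import Pool.Agent.CMK.Two
import Pool.Agent.CMK.ShrA
import Pool.Agent.CMK.CycJ
import Pool.Agent.CMK.Cut
import Pool.Agent.CMK.MaxP
import Pool.Agent.CMK.Pair
import Pool.Agent.CMK.PosR
import Pool.Agent.CMK.Posa
import Pool.Agent.CMK.TheA
import Pool.Agent.CMK.TheN
import Pool.Agent.CMK.Theta
import Pool.Agent.CMK.LayT
import Pool.Agent.CMK.Lay
import Pool.Agent.CMK.Lsp
import Pool.Agent.CMK.RegU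
import Pool.Agent.CMX.EndL
import Pool.Agent.CMX.Arith
import Pool.Agent.CMX.Routes
import Pool.Agent.CMX.ShrB
import Pool.Agent.CMX.CycB
import Pool.Agent.CMX.Ears
import Pool.Agent.CMX.TOne
import Pool.Agent.CMX.TFour
import Pool.Agent.CMX.Grp
import Pool.Agent.CMX.Real
import Pool.Agent.CMX.ZLem
import Pool.Agent.CMX.Dich
import Pool.Agent.CMX.SpQ
import Pool.Agent.CMX.Typ
import Pool.Agent.CMX.PrX
import Pool.Agent.CMX.Struct
import Pool.Agent.CMX.LemB
import Pool.Agent.CMX.Large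
import Pool.Agent.CMX.Mid
import Pool.Agent.CMX.SmallV
import Pool.Agent.CMX.SmallT
import Pool.Agent.CMX.Big
import Pool.Agent.CMX.FinX

/-!
# CMX: everything together
-/

set_option autoImplicit false

namespace Pool.CMK

theorem allx_PP : St_PP := thm_PP (thm_Alt thm_Dfs)

theorem allx_Lsp : St_Lsp :=
  thm_Lsp thm_Cut (thm_Posa thm_PosR) (thm_Theta (thm_TheN thm_TheA)) (thm_Lay thm_LayT)

theorem allx_Pair : St_Pair := thm_Pair (thm_MaxP thm_Cut)

theorem allx_TFour : St_TFour :=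
  thm_TFour thm_Arith thm_Routes (thm_ShrB (thm_ShrA allx_PP))
    (thm_Ears (thm_CycB allx_PP thm_CycJ)) (thm_TOne allx_PP)

theorem allx_Struct : St_Struct :=
  thm_Struct allx_TFour (thm_SpQ allx_TFour allx_Pair allx_Lsp) thm_Typ
    (thm_Dich (thm_ZLem thm_Grp) thm_Real) thm_PrX

theorem allx_Big : St_Big :=
  thm_Big thm_EndL (thm_Large thm_LemB allx_Struct) (thm_Mid allx_TFour thm_RegU)
    thm_SmallV (thm_SmallT thm_Two)

theorem allx_FinX : St_FinX := thm_FinX allx_Big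

end Pool.CMK
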