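import Pool.Agent.CMX.Top

/-!
# CMX, part C: the matching lemma (MP_3a51d2_co)
-/

set_option autoImplicit false

namespace Pool.CMK

open Finset
open scoped Classical

/-- CMAT.  A maximum matching `M` of `Γ`; `m₁` is the number of its edges with an end which has two uncovered
neighbours. -/
def St_CMat : Prop := ∀ (T : Type) [Fintype T] (Γ : SimpleGraph T), ∃ (M : List (T × T)) (m₁ : ℕ),
  MatL Γ univ M ∧ m₁ ≤ M.length ∧ 2 * M.length ≤ Fintype.card T ∧
    ad Γ univ univ + m₁ ^ 2 ≤
      4 * M.length ^ 2 + 2 * m₁ * (Fintype.card T - 2 * M.length) + 4 * M.length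

/-- the covered vertices, as a list -/
private def xcov {T : Type} (M : List (T × T)) : List T := M.flatMap (fun e => [e.1, e.2])

private lemma xcov_nil {T : Type} : xcov ([] : List (T × T)) = [] := rfl

private lemma xcov_cons {T : Type} (e : T × T) (M : List (T × T)) :
    xcov (e :: M) = e.1 :: e.2 :: xcov M := by
  simp [xcov]

private lemma xcov_length {T : Type} (M : List (T × T)) : (xcov M).length = 2 * M.length := by
  induction M with
  | nil => simp [xcov_nil]
  | cons e M ih => rw [xcov_cons]; simp only [List.length_cons, ih]; omega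

private lemma xcov_mem {T : Type} {M : List (T × T)} {x : T} :
    x ∈ xcov M ↔ ∃ e ∈ M, x = e.1 ∨ x = e.2 := by
  simp only [xcov, List.mem_flatMap, List.mem_cons, List.not_mem_nil, or_false]

private lemma xcov_perm {T : Type} {M N : List (T × T)} (h : M.Perm N) : (xcov M).Perm (xcov N) :=
  List.Perm.flatMap_right _ h

private lemma mat_perm {T : Type} {Γ : SimpleGraph T} {K : Finset T} {M N : List (T × T)}
    (h : M.Perm N) (hM : MatL Γ K M) : MatL Γ K N := by
  refine ⟨?_, ?_⟩
  · intro e he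
    exact hM.adj e (h.mem_iff.2 he)
  · have h1 : (xcov M).Nodup := hM.nod
    exact (xcov_perm h).nodup_iff.1 h1

private lemma mat_cons {T : Type} [Fintype T] {Γ : SimpleGraph T} {x y : T} {N : List (T × T)} :
    MatL Γ univ ((x, y) :: N) ↔ (Γ.Adj x y ∧ x ∉ xcov N ∧ y ∉ xcov N ∧ MatL Γ univ N) := by
  constructor
  · intro h
    have h1 : (xcov ((x, y) :: N)).Nodup := h.nod
    rw [xcov_cons, List.nodup_cons, List.nodup_cons] at h1
    simp only [List.mem_cons, not_or] at h1
    refine ⟨(h.adj _ (List.mem_cons_self)).1, h1.1.2, h1.2.1, ⟨fun e he => h.adj e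
      (List.mem_cons_of_mem _ he), h1.2.2⟩⟩
  · rintro ⟨h1, h2, h3, h4⟩
    refine ⟨?_, ?_⟩
    · intro e he
      rcases List.mem_cons.1 he with rfl | he
      · exact ⟨h1, mem_univ _, mem_univ _⟩
      · exact h4.adj e he
    · change (xcov ((x, y) :: N)).Nodup
      rw [xcov_cons, List.nodup_cons, List.nodup_cons]
      simp only [List.mem_cons, not_or]
      exact ⟨⟨h1.ne, h2⟩, h3, h4.nod⟩

private lemma mat_swap {T : Type} [Fintype T] {Γ : SimpleGraph T} {e : T × T} {N : List (T × T)}
    (h : MatL Γ univ (e :: N)) : MatL Γ univ (e.swap :: N) := by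
  obtain ⟨x, y⟩ := e
  rw [Prod.swap_prod_mk, mat_cons]
  rw [mat_cons] at h
  exact ⟨h.1.symm, h.2.2.1, h.2.1, h.2.2.2⟩

/-- reorientation of the edges -/
private lemma mat_orient {T : Type} [Fintype T] {Γ : SimpleGraph T} (f : T → Prop)
    (M : List (T × T)) (hM : MatL Γ univ M) : ∃ N, MatL Γ univ N ∧ (∀ x, x ∈ xcov N ↔ x ∈ xcov M) ∧
      N.length = M.length ∧ ∀ e ∈ N, f e.2 → f e.1 := by
  induction M with
  | nil => exact ⟨[], hM, fun x => Iff.rfl, rfl, by simp⟩
  | cons e M ih =>
    obtain ⟨x, y⟩ := e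
    have h1 := hM
    rw [mat_cons] at h1
    obtain ⟨N, h2, h3, h4, h5⟩ := ih h1.2.2.2
    by_cases hf : f y
    · refine ⟨(y, x) :: N, ?_, ?_, by simp [h4], ?_⟩
      · rw [mat_cons, h3, h3]
        exact ⟨h1.1.symm, h1.2.2.1, h1.2.1, h2⟩
      · intro z
        rw [xcov_cons, xcov_cons]
        simp only [List.mem_cons]
        rw [h3]
        tauto
      · intro e he
        rcases List.mem_cons.1 he with rfl | he
        · intro _; exact hf
        · exact h5 e he
    · refine ⟨(x, y) :: N, ?_, ?_, by simp [h4], ?_⟩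
      · rw [mat_cons, h3, h3]
        exact ⟨h1.1, h1.2.1, h1.2.2.1, h2⟩
      · intro z
        rw [xcov_cons, xcov_cons]
        simp only [List.mem_cons]
        rw [h3]
      · intro e he
        rcases List.mem_cons.1 he with rfl | he
        · intro h; exact absurd h hf
        · exact h5 e he

private lemma mat_max {T : Type} [Fintype T] (Γ : SimpleGraph T) : ∃ M : List (T × T),
    MatL Γ univ M ∧ ∀ N, MatL Γ univ N → N.length ≤ M.length := by
  obtain ⟨t, ht⟩ : ∃ t, t = Fintype.card T := ⟨_, rfl⟩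
  have hb : ∀ N, MatL Γ univ N → 2 * N.length ≤ t := by
    intro N hN
    have h1 : (xcov N).Nodup := hN.nod
    rw [← xcov_length]
    have h2 := h1.length_le_card
    rwa [← ht] at h2
  obtain ⟨n, hn, hmax⟩ : ∃ n, (∃ N, MatL Γ univ N ∧ N.length = n) ∧
      ∀ m, (∃ N, MatL Γ univ N ∧ N.length = m) → m ≤ n := by
    have hex : ∃ n, ∃ N, MatL Γ univ N ∧ N.length = n :=
      ⟨0, [], ⟨by simp, by simp⟩, rfl⟩
    have hbd : ∀ m, (∃ N, MatL Γ univ N ∧ N.length = m) → m ≤ t := by
      rintro m ⟨N, hN, rfl⟩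
      have := hb N hN
      omega
    refine ⟨Nat.findGreatest (fun n => ∃ N, MatL Γ univ N ∧ N.length = n) t, ?_, ?_⟩
    · obtain ⟨m, hm⟩ := hex
      exact Nat.findGreatest_spec (P := fun n => ∃ N, MatL Γ univ N ∧ N.length = n) (hbd m hm) hm
    · intro m hm
      exact Nat.le_findGreatest (hbd m hm) hm
  obtain ⟨M, hM, rfl⟩ := hn
  exact ⟨M, hM, fun N hN => hmax _ ⟨N, hN, rfl⟩⟩

private lemma C_ad_eq {T : Type} (G : SimpleGraph T) (X Y : Finset T) :
    ad G X Y = ∑ v ∈ X, (nbs G v Y).card := by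
  unfold ad nbs
  rw [← card_sigma]
  refine card_bij (fun p _ => ⟨p.1, p.2⟩) ?_ ?_ ?_
  · intro p hp
    simp only [mem_filter, mem_product] at hp
    simp only [mem_sigma, mem_filter]
    exact ⟨hp.1.1, hp.1.2, hp.2⟩
  · intro p hp q hq h
    have h1 : p.1 = q.1 := congrArg Sigma.fst h
    have h2 : p.2 = q.2 := by
      have := (Sigma.mk.inj_iff.1 h).2
      exact eq_of_heq this
    exact Prod.ext h1 h2
  · intro b hb
    simp only [mem_sigma, mem_filter] at hb
    refine ⟨(b.1, b.2), ?_, rfl⟩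
    simp only [mem_filter, mem_product]
    exact ⟨⟨hb.1, hb.2.1⟩, hb.2.2⟩

private lemma C_ad_symm {T : Type} (G : SimpleGraph T) (X Y : Finset T) : ad G X Y = ad G Y X := by
  unfold ad
  refine card_bij (fun p _ => (p.2, p.1)) ?_ ?_ ?_
  · intro p hp
    simp only [mem_filter, mem_product] at hp ⊢
    exact ⟨⟨hp.1.2, hp.1.1⟩, hp.2.symm⟩
  · intro p _ q _ h
    have h1 : p.2 = q.2 := congrArg Prod.fst h
    have h2 : p.1 = q.1 := congrArg Prod.snd h
    exact Prod.ext h2 h1
  · intro b hb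
    simp only [mem_filter, mem_product] at hb
    refine ⟨(b.2, b.1), ?_, rfl⟩
    simp only [mem_filter, mem_product]
    exact ⟨⟨hb.1.2, hb.1.1⟩, hb.2.symm⟩

private lemma C_ad_union {T : Type} (G : SimpleGraph T) (X Y Z : Finset T) (h : Disjoint Y Z) :
    ad G X (Y ∪ Z) = ad G X Y + ad G X Z := by
  rw [C_ad_eq, C_ad_eq, C_ad_eq, ← sum_add_distrib]
  apply sum_congr rfl
  intro v _
  unfold nbs
  rw [filter_union, card_union_of_disjoint]
  exact disjoint_filter_filter h

/-- the sum over the covered vertices -/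
private lemma sum_cov {T : Type} (M : List (T × T)) (hM : (xcov M).Nodup) (f : T → ℕ) :
    ∑ x ∈ (xcov M).toFinset, f x = (M.map (fun e => f e.1 + f e.2)).sum := by
  rw [List.sum_toFinset _ hM]
  clear hM
  induction M with
  | nil => simp [xcov_nil]
  | cons e M ih =>
    rw [xcov_cons]
    simp only [List.map_cons, List.sum_cons]
    rw [ih]
    ring

theorem thm_CMat : St_CMat := by
  intro T _ Γ
  obtain ⟨t, ht⟩ : ∃ t, t = Fintype.card T := ⟨_, rfl⟩
  rw [← ht]
  obtain ⟨M₀, hM₀, hmax₀⟩ := mat_max Γ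
  set U : Finset T := univ \ (xcov M₀).toFinset with hU
  obtain ⟨M, hM, hcov, hlen, hor'⟩ := mat_orient (fun x => 2 ≤ (nbs Γ x U).card) M₀ hM₀
  have hmax : ∀ N, MatL Γ univ N → N.length ≤ M.length := by
    rw [hlen]; exact hmax₀
  have hcovF : (xcov M).toFinset = (xcov M₀).toFinset := by
    ext x
    rw [List.mem_toFinset, List.mem_toFinset, hcov]
  have hUM : U = univ \ (xcov M).toFinset := by rw [hcovF]
  have hUn : ∀ u ∈ U, u ∉ xcov M := by
    intro u hu
    rw [hUM, mem_sdiff, List.mem_toFinset] at hu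
    exact hu.2
  -- the uncovered vertices are independent
  have hind : ∀ u ∈ U, ∀ v ∈ U, ¬ Γ.Adj u v := by
    intro u hu v hv huv
    have h1 : MatL Γ univ ((u, v) :: M) := by
      rw [mat_cons]
      exact ⟨huv, hUn u hu, hUn v hv, hM⟩
    have h2 := hmax _ h1
    rw [List.length_cons] at h2
    omega
  have hpull : ∀ e ∈ M, M.Perm (e :: M.erase e) := fun e he => List.perm_cons_erase he
  -- the basic exchange
  have hex : ∀ e ∈ M, ∀ u ∈ U, ∀ v ∈ U, u ≠ v → Γ.Adj e.1 u → Γ.Adj e.2 v → False := by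
    intro e he u hu v hv huv h1 h2
    have h3 := mat_perm (hpull e he) hM
    have h4 := (xcov_perm (hpull e he))
    have hu' := hUn u hu
    have hv' := hUn v hv
    rw [h4.mem_iff] at hu' hv'
    obtain ⟨x, y⟩ := e
    have h5 : (xcov ((x, y) :: M.erase (x, y))).Nodup := h3.nod
    rw [xcov_cons] at h5 hu' hv'
    simp only [List.nodup_cons, List.mem_cons, not_or] at h5 hu' hv'
    have h6 : MatL Γ univ ((x, u) :: (y, v) :: M.erase (x, y)) := by
      rw [mat_cons, mat_cons, xcov_cons]
      simp only [List.mem_cons, not_or]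
      rw [mat_cons] at h3
      exact ⟨h1, ⟨h5.1.1, Ne.symm hv'.1, h5.1.2⟩, ⟨hu'.2.1, huv, hu'.2.2⟩, h2, h5.2.1, hv'.2.2,
        h3.2.2.2⟩
    have h7 := hmax _ h6
    have h8 := (hpull _ he).length_eq
    simp only [List.length_cons] at h7 h8
    omega
  -- orientation
  have hor : ∀ e ∈ M, 2 ≤ (nbs Γ e.2 U).card → 2 ≤ (nbs Γ e.1 U).card := hor'
  have htwo : ∀ (x y : T), 2 ≤ (nbs Γ x U).card → ∀ v ∈ U, Γ.Adj y v →
      ∃ u ∈ U, Γ.Adj x u ∧ u ≠ v := by
    intro x y h v _ _
    obtain ⟨u, hu, huv⟩ := exists_mem_ne (by omega : 1 < (nbs Γ x U).card) v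
    unfold nbs at hu
    rw [mem_filter] at hu
    exact ⟨u, hu.1, hu.2, huv⟩
  have hno : ∀ e ∈ M, 2 ≤ (nbs Γ e.1 U).card → (nbs Γ e.2 U).card = 0 := by
    intro e he h2
    rw [card_eq_zero, eq_empty_iff_forall_notMem]
    intro v hv
    unfold nbs at hv
    rw [mem_filter] at hv
    obtain ⟨u, hu, hu1, hu2⟩ := htwo e.1 e.2 h2 v hv.1 hv.2
    exact hex e he u hu v hv.1 hu2 hu1 hv.2
  set M₁ := M.filter (fun e => decide (2 ≤ (nbs Γ e.1 U).card)) with hM₁
  have hM₁sub : ∀ e ∈ M₁, e ∈ M ∧ 2 ≤ (nbs Γ e.1 U).card := by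
    intro e he
    rw [hM₁, List.mem_filter, decide_eq_true_eq] at he
    exact he
  have hnd2 : (M.map Prod.snd).Nodup := by
    have h1 : (xcov M).Nodup := hM.nod
    clear hM₁ hM₁sub hno hor hor' hex hpull hmax hlen hcovF hUM hUn hcov hM M₁
    induction M with
    | nil => simp
    | cons e M ih =>
      rw [xcov_cons] at h1
      simp only [List.nodup_cons, List.mem_cons, not_or] at h1
      rw [List.map_cons, List.nodup_cons]
      refine ⟨?_, ih h1.2.2⟩
      intro h
      rw [List.mem_map] at h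
      obtain ⟨f, hf, hfe⟩ := h
      exact h1.2.1 (xcov_mem.2 ⟨f, hf, Or.inr hfe.symm⟩)
  have hMnd : M.Nodup := List.Nodup.of_map _ hnd2
  -- the second ends of the edges of `M₁` are independent
  have hBind : ∀ e ∈ M₁, ∀ f ∈ M₁, ¬ Γ.Adj e.2 f.2 := by
    intro e he f hf hef
    obtain ⟨heM, he2⟩ := hM₁sub e he
    obtain ⟨hfM, hf2⟩ := hM₁sub f hf
    have hne : f ≠ e := by
      intro h
      rw [h] at hef
      exact hef.ne rfl
    obtain ⟨u, hu⟩ : ∃ u, u ∈ nbs Γ e.1 U := by
      have : (nbs Γ e.1 U).Nonempty := card_pos.1 (by omega)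
      exact this
    unfold nbs at hu
    rw [mem_filter] at hu
    obtain ⟨v, hv, hv1, huv⟩ := htwo f.1 e.1 hf2 u hu.1 hu.2
    have hfe : f ∈ M.erase e := (List.mem_erase_of_ne hne).2 hfM
    have hp : M.Perm (e :: f :: (M.erase e).erase f) :=
      (hpull e heM).trans (List.Perm.cons _ (List.perm_cons_erase hfe))
    have h3 := mat_perm hp hM
    have hu' := hUn u hu.1
    have hv' := hUn v hv
    rw [(xcov_perm hp).mem_iff] at hu' hv'
    have h8 := hp.length_eq
    generalize (M.erase e).erase f = N at *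
    obtain ⟨x, y⟩ := e
    obtain ⟨x', y'⟩ := f
    have h5 : (xcov ((x, y) :: (x', y') :: N)).Nodup := h3.nod
    rw [xcov_cons, xcov_cons] at h5 hu' hv'
    simp only [List.nodup_cons, List.mem_cons, not_or] at h5 hu' hv'
    rw [mat_cons, mat_cons] at h3
    have h6 : MatL Γ univ ((x, u) :: (x', v) :: (y, y') :: N) := by
      rw [mat_cons, mat_cons, mat_cons, xcov_cons, xcov_cons]
      simp only [List.mem_cons, not_or]
      refine ⟨hu.2, ⟨h5.1.2.1, Ne.symm hv'.1, h5.1.1, h5.1.2.2.1, h5.1.2.2.2⟩,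
        ⟨hu'.2.2.1, Ne.symm huv, hu'.2.1, hu'.2.2.2.1, hu'.2.2.2.2⟩, hv1,
        ⟨Ne.symm h5.2.1.1, h5.2.2.1.1, h5.2.2.1.2⟩, ⟨hv'.2.1, hv'.2.2.2.1, hv'.2.2.2.2⟩, hef,
        h5.2.1.2.2, h5.2.2.2.1, h3.2.2.2.2.2.2⟩
    have h7 := hmax _ h6
    simp only [List.length_cons] at h7 h8
    omega
  -- counting
  have hnd : (xcov M).Nodup := hM.nod
  set Cv := (xcov M).toFinset with hCv
  have hCcard : Cv.card = 2 * M.length := by
    rw [hCv, List.toFinset_card_of_nodup hnd, xcov_length]
  have hUcard : U.card = t - 2 * M.length := by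
    rw [hUM, card_sdiff_of_subset (subset_univ _), card_univ, ← ht, hCcard]
  have hle : 2 * M.length ≤ t := by
    rw [← hCcard]
    have := card_le_univ Cv
    rwa [← ht] at this
  have hsplit : (univ : Finset T) = Cv ∪ U := by
    rw [hUM, union_sdiff_of_subset (subset_univ _)]
  have hdisj : Disjoint Cv U := by
    rw [hUM]
    exact disjoint_sdiff
  have h1 : ad Γ univ univ = ad Γ Cv Cv + 2 * ad Γ Cv U := by
    have e1 : ad Γ univ univ = ad Γ univ Cv + ad Γ univ U := by
      conv_lhs => rw [hsplit]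
      rw [C_ad_union _ _ _ _ hdisj, ← hsplit]
    have e2 : ad Γ univ Cv = ad Γ Cv Cv + ad Γ Cv U := by
      rw [C_ad_symm, ← C_ad_union _ _ _ _ hdisj, ← hsplit]
    have e3 : ad Γ univ U = ad Γ Cv U + ad Γ U U := by
      rw [C_ad_symm, C_ad_symm Γ Cv U, ← C_ad_union _ _ _ _ hdisj, ← hsplit]
    have e4 : ad Γ U U = 0 := by
      unfold ad
      rw [card_eq_zero, filter_eq_empty_iff]
      intro p hp
      rw [mem_product] at hp
      exact hind _ hp.1 _ hp.2
    omega
  have h2 : ad Γ Cv U ≤ M₁.length * U.card + 2 * M.length := by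
    rw [C_ad_eq, hCv, sum_cov M hnd]
    have key : ∀ L : List (T × T), (∀ e ∈ L, e ∈ M) →
        (L.map (fun e => (nbs Γ e.1 U).card + (nbs Γ e.2 U).card)).sum ≤
          (L.filter (fun e => decide (2 ≤ (nbs Γ e.1 U).card))).length * U.card + 2 * L.length := by
      intro L
      induction L with
      | nil => intro _; simp
      | cons e L ih =>
        intro hL
        have i1 := ih (fun f hf => hL f (List.mem_cons_of_mem _ hf))
        have i2 := hL e List.mem_cons_self
        rw [List.map_cons, List.sum_cons, List.filter_cons, List.length_cons]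
        by_cases hc : 2 ≤ (nbs Γ e.1 U).card
        · rw [if_pos (by rw [decide_eq_true_eq]; exact hc), List.length_cons]
          have i3 := hno e i2 hc
          have i4 : (nbs Γ e.1 U).card ≤ U.card := card_le_card (filter_subset _ _)
          rw [Nat.add_mul, one_mul]
          omega
        · rw [if_neg (by rw [decide_eq_true_eq]; exact hc)]
          have i3 : ¬ 2 ≤ (nbs Γ e.2 U).card := fun h => hc (hor e i2 h)
          omega
    exact key M (fun e he => he)
  set B := (M₁.map Prod.snd).toFinset with hB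
  have hBcard : B.card = M₁.length := by
    rw [hB, List.toFinset_card_of_nodup, List.length_map]
    exact List.Nodup.sublist (List.Sublist.map _ List.filter_sublist) hnd2
  have hBC : B ⊆ Cv := by
    intro x hx
    rw [hB, List.mem_toFinset, List.mem_map] at hx
    obtain ⟨e, he, rfl⟩ := hx
    rw [hCv, List.mem_toFinset, xcov_mem]
    exact ⟨e, (hM₁sub e he).1, Or.inr rfl⟩
  have h3 : ad Γ Cv Cv + M₁.length ^ 2 ≤ 4 * M.length ^ 2 := by
    have e1 : ad Γ Cv Cv ≤ ((Cv ×ˢ Cv) \ (B ×ˢ B)).card := by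
      unfold ad
      apply card_le_card
      intro p hp
      rw [mem_filter] at hp
      rw [mem_sdiff]
      refine ⟨hp.1, ?_⟩
      intro hpB
      rw [mem_product, hB, List.mem_toFinset, List.mem_toFinset, List.mem_map, List.mem_map] at hpB
      obtain ⟨⟨e, he, he'⟩, ⟨f, hf, hf'⟩⟩ := hpB
      apply hBind e he f hf
      rw [he', hf']
      exact hp.2
    rw [card_sdiff_of_subset (product_subset_product hBC hBC), card_product, card_product, hCcard,
      hBcard] at e1
    have e2 : M₁.length * M₁.length ≤ (2 * M.length) * (2 * M.length) := by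
      apply Nat.mul_le_mul <;>
      · have : M₁.length ≤ M.length := List.length_filter_le _ _
        omega
    have e3 : (2 * M.length) * (2 * M.length) = 4 * M.length ^ 2 := by ring
    have e4 : M₁.length ^ 2 = M₁.length * M₁.length := by ring
    omega
  refine ⟨M, M₁.length, hM, List.length_filter_le _ _, hle, ?_⟩
  rw [h1, ← hUcard]
  have h4 : 2 * M₁.length * U.card = 2 * (M₁.length * U.card) := by ring
  rw [h4]
  omega

end Pool.CMK
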