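import Mathlib

/-!
# CMX, part C: the numbers (MP_3a51d2_co)
-/

set_option autoImplicit false

namespace Pool.CMK

private lemma C_num0 (e k N X y C u : ℝ) (he : 0 < e) (he1 : e ≤ 1 / 2) (hk : 0 < k)
    (hC : 0 < C) (hu0 : 0 < u) (hCu : C * u = e / 32)
    (hN3 : 31 * e / 32 * k ≤ N - X) (hN2 : N - X ≤ C * k) (hy : 0 ≤ y)
    (h2y : 2 * y ≤ (1 + u) * k) :
    e * 2 / 5 * k ^ 2 ≤ (N - X) * (k - 2 * y) + y ^ 2 := by
  have hk2 : 0 < k ^ 2 := by positivity
  have hek : 0 < e * k ^ 2 := by positivity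
  have i0 := mul_le_mul_of_nonneg_right he1 hek.le
  have i00 := mul_le_mul_of_nonneg_right he1 hk2.le
  rcases le_or_gt (2 * y) k with hc | hc
  · have i1 : 31 * e / 32 * k * (k - 2 * y) ≤ (N - X) * (k - 2 * y) :=
      mul_le_mul_of_nonneg_right hN3 (by linarith)
    have i2 : 0 ≤ (y - 31 * e / 32 * k) ^ 2 := sq_nonneg _
    have i5 : (y - 31 * e / 32 * k) ^ 2 =
      y ^ 2 - 31 * e / 32 * k * (2 * y) + (31 / 32) ^ 2 * (e * (e * k ^ 2)) := by ring
    have i6 : 31 * e / 32 * k * (k - 2 * y) = 31 / 32 * (e * k ^ 2) - 31 * e / 32 * k * (2 * y) := by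
      ring
    rw [i5] at i2
    rw [i6] at i1
    have i7 : e * 2 / 5 * k ^ 2 = 2 / 5 * (e * k ^ 2) := by ring
    rw [i7]
    linarith
  · have i1 : -(u * k) ≤ k - 2 * y := by linarith
    have hNX : 0 ≤ N - X := le_trans (by positivity) hN3
    have i2 : (N - X) * (-(u * k)) ≤ (N - X) * (k - 2 * y) :=
      mul_le_mul_of_nonneg_left i1 hNX
    have i3 : (N - X) * (u * k) ≤ (C * k) * (u * k) :=
      mul_le_mul_of_nonneg_right hN2 (by positivity)
    have i4 : (C * k) * (u * k) = 1 / 32 * (e * k ^ 2) := by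
      calc (C * k) * (u * k) = (C * u) * k ^ 2 := by ring
        _ = 1 / 32 * (e * k ^ 2) := by rw [hCu]; ring
    have i5 : k ^ 2 / 4 ≤ y ^ 2 := by
      have j1 : (k / 2) ^ 2 ≤ y ^ 2 := pow_le_pow_left₀ (by positivity) (by linarith) 2
      linarith [show (k / 2) ^ 2 = k ^ 2 / 4 by ring]
    have i7 : e * 2 / 5 * k ^ 2 = 2 / 5 * (e * k ^ 2) := by ring
    rw [i7]
    have i8 : (N - X) * (-(u * k)) = -((N - X) * (u * k)) := by ring
    rw [i8] at i2
    linarith

theorem C_num (C e k N x y z u : ℝ) (hC : 1 ≤ C) (he : 0 < e) (he1 : e ≤ 1 / 2) (hk : 0 < k)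
    (hN1 : (1 + e) * k ≤ N) (hN2 : N ≤ C * k) (hy : 0 ≤ y) (hyx : 2 * y ≤ x)
    (hu : u = e / (32 * C)) (hx : x ≤ (1 + u) * k) (hz : z ≤ (1 + u / 3) * N) :
    x ^ 2 - y ^ 2 + 2 * y * (z - x) < (1 - u) * (k * N) := by
  have hC0 : 0 < C := by linarith
  have hu0 : 0 < u := by rw [hu]; positivity
  have hCu : C * u = e / 32 := by
    rw [hu]
    field_simp
  have hue : u ≤ e / 32 := by
    rw [← hCu]
    exact le_mul_of_one_le_left hu0.le hC
  have hu1 : u ≤ 1 / 64 := by linarith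
  obtain ⟨X, hX⟩ : ∃ X, X = (1 + u) * k := ⟨_, rfl⟩
  have hX0 : 0 < X := by rw [hX]; positivity
  have hxX : x ≤ X := by rw [hX]; exact hx
  have hN0 : 0 < N := lt_of_lt_of_le (by positivity) hN1
  have hk2 : 0 < k ^ 2 := by positivity
  have hek : 0 < e * k ^ 2 := by positivity
  have huk : u * k ≤ 1 / 64 * k := mul_le_mul_of_nonneg_right hu1 hk.le
  have huk2 : u * k ≤ e / 32 * k := mul_le_mul_of_nonneg_right hue hk.le
  have hXk : X ≤ 65 / 64 * k := by rw [hX]; linarith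
  have huN : u * N ≤ e / 32 * k := by
    calc u * N ≤ u * (C * k) := mul_le_mul_of_nonneg_left hN2 hu0.le
      _ = (C * u) * k := by ring
      _ = e / 32 * k := by rw [hCu]
  -- monotone in `x`
  have h1 : x ^ 2 - y ^ 2 + 2 * y * (z - x) ≤ X ^ 2 - y ^ 2 + 2 * y * (z - X) := by
    have i1 := mul_nonneg (by linarith : (0:ℝ) ≤ X - x) (by linarith : (0:ℝ) ≤ X + x - 2 * y)
    have i2 : (X - x) * (X + x - 2 * y) = X ^ 2 - x ^ 2 - 2 * y * X + 2 * y * x := by ring
    rw [i2] at i1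
    linarith
  have h2 : 2 * y * z ≤ 2 * y * N + 2 * y * (u / 3 * N) := by
    have i1 := mul_le_mul_of_nonneg_left hz (by linarith : 0 ≤ 2 * y)
    linarith
  have h3 : 2 * y * (u / 3 * N) ≤ 1 / 90 * (e * k ^ 2) := by
    have i3 : 2 * y ≤ 65 / 64 * k := by linarith
    have i4 : u / 3 * N ≤ e / 96 * k := by linarith
    have i2 : 2 * y * (u / 3 * N) ≤ 65 / 64 * k * (e / 96 * k) :=
      mul_le_mul i3 i4 (by positivity) (by positivity)
    have i5 : 65 / 64 * k * (e / 96 * k) = 65 / 6144 * (e * k ^ 2) := by ring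
    linarith
  have h4 : u * (k * N) ≤ 1 / 32 * (e * k ^ 2) := by
    have i1 := mul_le_mul_of_nonneg_right huN hk.le
    linarith [show u * N * k = u * (k * N) by ring, show e / 32 * k * k = 1 / 32 * (e * k ^ 2) by
      ring]
  have h5 : -(1 / 31) * (e * k ^ 2) ≤ X * (k - X) := by
    have i1 : X * (k - X) = -(X * (u * k)) := by rw [hX]; ring
    have i2 : X * (u * k) ≤ 65 / 64 * k * (e / 32 * k) :=
      mul_le_mul hXk huk2 (by positivity) (by positivity)
    have i3 : 65 / 64 * k * (e / 32 * k) = 65 / 2048 * (e * k ^ 2) := by ring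
    rw [i1]
    linarith
  have hN3 : 31 * e / 32 * k ≤ N - X := by rw [hX]; linarith
  have h6 := C_num0 e k N X y C u he he1 hk hC0 hu0 hCu hN3 (by linarith) hy
    (by rw [← hX]; linarith)
  have h7 : e * 2 / 5 * k ^ 2 = 2 / 5 * (e * k ^ 2) := by ring
  rw [h7] at h6
  have h8 : (N - X) * (k - 2 * y) = k * N - 2 * y * N - X * k + 2 * y * X := by ring
  have h9 : X * (k - X) = X * k - X ^ 2 := by ring
  have h10 : (1 - u) * (k * N) = k * N - u * (k * N) := by ring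
  have h11 : 2 * y * (z - X) = 2 * y * z - 2 * y * X := by ring
  rw [h8] at h6
  rw [h9] at h5
  rw [h10]
  rw [h11] at h1
  linarith

end Pool.CMK
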