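import Pool.Agent.CMX.C_Reg
import Pool.Agent.CMX.C_Match
import Pool.Agent.CMX.C_Num

/-!
# CMX, part C: the size of the matching in the reduced graph (MP_3a51d2_co)
-/

set_option autoImplicit false

namespace Pool.CMK

open Finset
open scoped Classical

private lemma C_ad_le {V : Type} (G : SimpleGraph V) (X Y : Finset V) :
    ad G X Y ≤ X.card * Y.card := by
  unfold ad
  refine (card_filter_le _ _).trans ?_
  rw [card_product]

theorem C_count {V : Type} (G : SimpleGraph V) (A : Finset V) (d : ℝ) (t₀ s₀ : ℕ)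
    (P : Fin t₀ → Finset V) (bad : Finset (Fin t₀)) (Γ : SimpleGraph (Fin t₀)) (hd : 0 < d)
    (ht : 1 ≤ d * t₀) (hcov : ∀ v ∈ A, ∃ i, v ∈ P i) (hcard : ∀ i, (P i).card ≤ s₀ + 1)
    (hbad : (bad.card : ℝ) ≤ d * t₀)
    (hF : ∀ i, i ∉ bad → ∃ F : Finset (Fin t₀), (F.card : ℝ) ≤ d * t₀ ∧
      ∀ j, j ≠ i → j ∉ F → RegP G (P i) (P j) d)
    (hΓ : ∀ i j, i ≠ j → RegP G (P i) (P j) d →
      2 * d * ((P i).card * (P j).card) ≤ (ad G (P i) (P j) : ℝ) → Γ.Adj i j) :
    (ad G A A : ℝ) ≤ ((s₀ : ℝ) + 1) ^ 2 * ((ad Γ univ univ : ℝ) + 5 * d * (t₀ : ℝ) ^ 2) := by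
  obtain ⟨S, hS⟩ : ∃ S : ℝ, S = (s₀ : ℝ) + 1 := ⟨_, rfl⟩
  have hS0 : 0 < S := by rw [hS]; positivity
  rw [← hS]
  have hPS : ∀ i, ((P i).card : ℝ) ≤ S := by
    intro i
    rw [hS]
    exact_mod_cast hcard i
  have hadS : ∀ i j, (ad G (P i) (P j) : ℝ) ≤ S ^ 2 := by
    intro i j
    have h1 : (ad G (P i) (P j) : ℝ) ≤ (P i).card * (P j).card := by
      exact_mod_cast C_ad_le G (P i) (P j)
    have h2 : ((P i).card : ℝ) * (P j).card ≤ S * S :=
      mul_le_mul (hPS i) (hPS j) (Nat.cast_nonneg _) hS0.le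
    nlinarith
  have h1 : ad G A A ≤ ∑ i, ∑ j, ad G (P i) (P j) := by
    have h2 : (A ×ˢ A).filter (fun p => G.Adj p.1 p.2) ⊆
        (univ : Finset (Fin t₀)).biUnion (fun i => (univ : Finset (Fin t₀)).biUnion (fun j =>
          ((P i) ×ˢ (P j)).filter (fun p => G.Adj p.1 p.2))) := by
      intro p hp
      rw [mem_filter, mem_product] at hp
      obtain ⟨i, hi⟩ := hcov p.1 hp.1.1
      obtain ⟨j, hj⟩ := hcov p.2 hp.1.2
      rw [mem_biUnion]
      refine ⟨i, mem_univ _, ?_⟩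
      rw [mem_biUnion]
      refine ⟨j, mem_univ _, ?_⟩
      rw [mem_filter, mem_product]
      exact ⟨⟨hi, hj⟩, hp.2⟩
    have h3 := card_le_card h2
    refine h3.trans (card_biUnion_le.trans ?_)
    apply sum_le_sum
    intro i _
    exact card_biUnion_le
  have h1R : (ad G A A : ℝ) ≤ ∑ i, ∑ j, (ad G (P i) (P j) : ℝ) := by exact_mod_cast h1
  have hrow : ∀ i, ∑ j, (ad G (P i) (P j) : ℝ) ≤
      S ^ 2 * ((nbs Γ i univ).card + 1 + (if i ∈ bad then (t₀ : ℝ) else 0) + 3 * d * t₀) := by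
    intro i
    have ht0 : (0 : ℝ) ≤ t₀ := Nat.cast_nonneg _
    by_cases hi : i ∈ bad
    · rw [if_pos hi]
      have h2 : ∑ j, (ad G (P i) (P j) : ℝ) ≤ ∑ _j : Fin t₀, S ^ 2 :=
        sum_le_sum (fun j _ => hadS i j)
      rw [sum_const, card_univ, Fintype.card_fin, nsmul_eq_mul] at h2
      have h3 : (0 : ℝ) ≤ S ^ 2 * ((nbs Γ i univ).card + 1 + 3 * d * t₀) := by positivity
      have h4 : S ^ 2 * ((nbs Γ i univ).card + 1 + (t₀ : ℝ) + 3 * d * t₀) =
        t₀ * S ^ 2 + S ^ 2 * ((nbs Γ i univ).card + 1 + 3 * d * t₀) := by ring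
      linarith
    · rw [if_neg hi]
      obtain ⟨F, hF1, hF2⟩ := hF i hi
      have h2 : ∀ j, (ad G (P i) (P j) : ℝ) ≤ S ^ 2 * ((if Γ.Adj i j then (1 : ℝ) else 0) +
          (if j = i then (1 : ℝ) else 0) + (if j ∈ F then (1 : ℝ) else 0) + 2 * d) := by
        intro j
        have hS2 : 0 < S ^ 2 := by positivity
        have c1 : (0 : ℝ) ≤ (if Γ.Adj i j then (1 : ℝ) else 0) := by split_ifs <;> norm_num
        have c2 : (0 : ℝ) ≤ (if j = i then (1 : ℝ) else 0) := by split_ifs <;> norm_num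
        have c3 : (0 : ℝ) ≤ (if j ∈ F then (1 : ℝ) else 0) := by split_ifs <;> norm_num
        have hbig : 1 ≤ (if Γ.Adj i j then (1 : ℝ) else 0) +
            (if j = i then (1 : ℝ) else 0) + (if j ∈ F then (1 : ℝ) else 0) →
            (ad G (P i) (P j) : ℝ) ≤ S ^ 2 * ((if Γ.Adj i j then (1 : ℝ) else 0) +
          (if j = i then (1 : ℝ) else 0) + (if j ∈ F then (1 : ℝ) else 0) + 2 * d) := by
          intro h
          refine (hadS i j).trans ?_
          exact le_mul_of_one_le_right hS2.le (by linarith)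
        by_cases e1 : j = i
        · apply hbig
          rw [if_pos e1]
          linarith
        by_cases e2 : j ∈ F
        · apply hbig
          rw [if_pos e2]
          linarith
        by_cases e3 : Γ.Adj i j
        · apply hbig
          rw [if_pos e3]
          linarith
        have h3 : (ad G (P i) (P j) : ℝ) < 2 * d * ((P i).card * (P j).card) := by
          by_contra hcon
          exact e3 (hΓ i j (Ne.symm e1) (hF2 j e1 e2) (not_lt.1 hcon))
        have h4 : ((P i).card : ℝ) * (P j).card ≤ S * S :=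
          mul_le_mul (hPS i) (hPS j) (Nat.cast_nonneg _) hS0.le
        have h5 : 2 * d * (((P i).card : ℝ) * (P j).card) ≤ 2 * d * (S * S) :=
          mul_le_mul_of_nonneg_left h4 (by positivity)
        rw [if_neg e1, if_neg e2, if_neg e3]
        have h6 : S ^ 2 * ((0 : ℝ) + 0 + 0 + 2 * d) = 2 * d * (S * S) := by ring
        rw [h6]
        linarith
      refine (sum_le_sum (fun j _ => h2 j)).trans ?_
      rw [← mul_sum, sum_add_distrib, sum_add_distrib, sum_add_distrib, sum_const, card_univ,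
        Fintype.card_fin, nsmul_eq_mul]
      have e1 : ∑ j, (if Γ.Adj i j then (1 : ℝ) else 0) = (nbs Γ i univ).card := by
        unfold nbs
        rw [sum_boole]
      have e2 : ∑ j, (if j = i then (1 : ℝ) else 0) = 1 := by
        rw [sum_ite_eq' univ i (fun _ => (1 : ℝ)), if_pos (mem_univ _)]
      have e3 : ∑ j, (if j ∈ F then (1 : ℝ) else 0) = F.card := by
        rw [sum_boole, filter_mem_eq_inter, univ_inter]
      rw [e1, e2, e3]
      apply mul_le_mul_of_nonneg_left _ (by positivity)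
      linarith
  have h3 : (ad G A A : ℝ) ≤ ∑ i, S ^ 2 * ((nbs Γ i univ).card + 1 +
      (if i ∈ bad then (t₀ : ℝ) else 0) + 3 * d * t₀) := h1R.trans (sum_le_sum (fun i _ => hrow i))
  rw [← mul_sum, sum_add_distrib, sum_add_distrib, sum_add_distrib, sum_const, sum_const,
    card_univ, Fintype.card_fin, nsmul_eq_mul, nsmul_eq_mul] at h3
  have e1 : ∑ i, ((nbs Γ i univ).card : ℝ) = (ad Γ univ univ : ℝ) := by
    rw [C_ad_eq]
    push_cast
    rfl
  have e2 : ∑ i, (if i ∈ bad then (t₀ : ℝ) else 0) = bad.card * t₀ := by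
    rw [← sum_filter, filter_mem_eq_inter, univ_inter, sum_const, nsmul_eq_mul]
  rw [e1, e2] at h3
  refine h3.trans ?_
  apply mul_le_mul_of_nonneg_left _ (by positivity)
  have ht0 : (0 : ℝ) ≤ t₀ := Nat.cast_nonneg _
  have i1 : (bad.card : ℝ) * t₀ ≤ d * t₀ * t₀ := mul_le_mul_of_nonneg_right hbad ht0
  have i2 : (1 : ℝ) * t₀ ≤ d * t₀ * t₀ := mul_le_mul_of_nonneg_right ht ht0
  nlinarith

/-- the matching is large -/
theorem C_big (C e u d k N S x y z g ad' m ν t s M : ℝ) (hC : 1 ≤ C) (he : 0 < e)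
    (he1 : e ≤ 1 / 2) (hu : u = e / (32 * C)) (hd : d = u / (30 * C)) (hk : 0 < k)
    (hN1 : (1 + e) * k ≤ N) (hN2 : N ≤ C * k) (hM : 4 * M ≤ d * k) (hS : S = s + 1)
    (hs : 0 ≤ s) (a1 : k * N ≤ ad' + 4 * M * N)
    (a2 : ad' ≤ S ^ 2 * (g + 5 * d * t ^ 2))
    (a3 : g + m ^ 2 ≤ 4 * ν ^ 2 + 2 * m * (t - 2 * ν) + 4 * ν) (hm0 : 0 ≤ m) (hmν : m ≤ ν)
    (hνt : 2 * ν ≤ t) (a4 : t * s ≤ N) (a5 : 1 ≤ d * t) (a6 : t ≤ d * k)
    (hx : x = 2 * ν * S) (hy : y = m * S) (hz : z = t * S) : (1 + u) * k ≤ x := by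
  by_contra hcon
  push Not at hcon
  have hC0 : 0 < C := by linarith
  have hu0 : 0 < u := by rw [hu]; positivity
  have hd0 : 0 < d := by rw [hd]; positivity
  have hCu : C * u = e / 32 := by
    rw [hu]
    field_simp
  have hue : u ≤ e / 32 := by
    rw [← hCu]
    exact le_mul_of_one_le_left hu0.le hC
  have hu1 : u ≤ 1 / 64 := by linarith
  have hCd : C * d = u / 30 := by
    rw [hd]
    field_simp
  have hdu : d ≤ u / 30 := by
    rw [← hCd]
    exact le_mul_of_one_le_left hd0.le hC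
  have hd1 : d ≤ 1 / 1920 := by linarith
  have hS0 : 0 < S := by rw [hS]; linarith
  have hN0 : 0 < N := lt_of_lt_of_le (by positivity) hN1
  have hkN0 : 0 < k * N := mul_pos hk hN0
  have ht0 : 0 < t := by
    by_contra hc
    push Not at hc
    have := mul_nonpos_of_nonneg_of_nonpos hd0.le hc
    linarith
  have hkN : k ≤ N := by
    have : 0 < e * k := by positivity
    linarith
  have hdkN : d * k ≤ d * N := mul_le_mul_of_nonneg_left hkN hd0.le
  have hzN : z ≤ (1 + d) * N := by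
    rw [hz, hS]
    linarith
  have hz0 : 0 < z := by rw [hz]; positivity
  have hzN2 : z ≤ (1 + u / 3) * N := by
    have : d * N ≤ u / 30 * N := mul_le_mul_of_nonneg_right hdu hN0.le
    have h2 : 0 < u * N := by positivity
    linarith
  have hx0 : 0 ≤ x := by
    rw [hx]
    have : 0 ≤ ν := le_trans hm0 hmν
    positivity
  have hy0 : 0 ≤ y := by rw [hy]; positivity
  have hyx : 2 * y ≤ x := by
    rw [hy, hx]
    have := mul_le_mul_of_nonneg_right hmν hS0.le
    linarith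
  have h1 := C_num C e k N x y z u hC he he1 hk hN1 hN2 hy0 hyx hu hcon.le hzN2
  -- `S ^ 2 g`
  have h2 : S ^ 2 * g ≤ x ^ 2 - y ^ 2 + 2 * y * (z - x) + 2 * x * S := by
    have i1 := mul_le_mul_of_nonneg_left a3 (by positivity : (0 : ℝ) ≤ S ^ 2)
    rw [hx, hy, hz]
    nlinarith [i1]
  have hN20 : N * N ≤ C * (k * N) := by
    have := mul_le_mul_of_nonneg_right hN2 hN0.le
    linarith
  have h3 : S ^ 2 * (5 * d * t ^ 2) ≤ 10 * (C * d) * (k * N) := by
    have i1 : S ^ 2 * (5 * d * t ^ 2) = 5 * d * z ^ 2 := by rw [hz]; ring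
    rw [i1]
    have i2 : z ^ 2 ≤ 2 * (N * N) := by
      have j1 : z ^ 2 ≤ ((1 + d) * N) ^ 2 := pow_le_pow_left₀ hz0.le hzN 2
      have j2 : ((1 + d) * N) ^ 2 = (1 + d) ^ 2 * (N * N) := by ring
      have j3 : (1 + d) ^ 2 ≤ 2 := by nlinarith
      have j4 := mul_le_mul_of_nonneg_right j3 (by positivity : (0 : ℝ) ≤ N * N)
      linarith
    have i3 : 5 * d * z ^ 2 ≤ 5 * d * (2 * (C * (k * N))) :=
      mul_le_mul_of_nonneg_left (by linarith) (by positivity)
    linarith [show 5 * d * (2 * (C * (k * N))) = 10 * (C * d) * (k * N) by ring]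
  have h4 : 2 * x * S ≤ 8 * d * (k * N) := by
    have i1 : S ≤ 2 * d * N := by
      have j1 : S * 1 ≤ S * (d * t) := mul_le_mul_of_nonneg_left a5 hS0.le
      have j2 : S * (d * t) = d * z := by rw [hz]; ring
      have j3 : d * z ≤ d * ((1 + d) * N) := mul_le_mul_of_nonneg_left hzN hd0.le
      have j4 : d * ((1 + d) * N) ≤ d * (2 * N) :=
        mul_le_mul_of_nonneg_left (mul_le_mul_of_nonneg_right (by linarith) hN0.le) hd0.le
      linarith
    have i2 : x ≤ 2 * k := by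
      have : u * k ≤ 1 * k := mul_le_mul_of_nonneg_right (by linarith) hk.le
      linarith
    have i3 : x * S ≤ 2 * k * (2 * d * N) := mul_le_mul i2 i1 hS0.le (by positivity)
    linarith [show 2 * k * (2 * d * N) = 4 * d * (k * N) by ring]
  have h5 : 4 * M * N ≤ d * (k * N) := by
    have := mul_le_mul_of_nonneg_right hM hN0.le
    linarith
  have h6 : S ^ 2 * (g + 5 * d * t ^ 2) = S ^ 2 * g + S ^ 2 * (5 * d * t ^ 2) := by ring
  rw [h6] at a2
  rw [hCd] at h3
  have h7 : d * (k * N) ≤ u / 30 * (k * N) := mul_le_mul_of_nonneg_right hdu hkN0.le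
  have h8 : 0 < u * (k * N) := by positivity
  have h9 : (1 - u) * (k * N) = k * N - u * (k * N) := by ring
  rw [h9] at h1
  linarith

end Pool.CMK
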