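import Pool.Agent.CMX.Top
import Pool.Agent.CMK.StS

/-!
# CMX, part C: regularity inside a set of vertices, and clean pairs (MP_3a51d2_co)
-/

set_option autoImplicit false

namespace Pool.CMK

open Finset
open scoped Classical

/-- a regular pair -/
def RegP {V : Type} (G : SimpleGraph V) (P Q : Finset V) (κ : ℝ) : Prop :=
  ∀ X Y : Finset V, X ⊆ P → Y ⊆ Q → κ ^ 2 * P.card ≤ X.card → κ ^ 2 * Q.card ≤ Y.card →
    (ad G P Q : ℝ) * (X.card * Y.card) ≤ (ad G X Y : ℝ) * (P.card * Q.card) +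
      κ ^ 2 * (X.card * Y.card) * (P.card * Q.card)

theorem C_ad_eq {T : Type} (G : SimpleGraph T) (X Y : Finset T) :
    ad G X Y = ∑ v ∈ X, (nbs G v Y).card := by
  unfold ad nbs
  rw [← card_sigma]
  refine card_bij (fun p _ => ⟨p.1, p.2⟩) ?_ ?_ ?_
  · intro p hp
    simp only [mem_filter, mem_product] at hp
    simp only [mem_sigma, mem_filter]
    exact ⟨hp.1.1, hp.1.2, hp.2⟩
  · intro p hp q hq h
    have h1 : p.1 = q.1 := congrArg Sigma.fst h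
    have h2 : p.2 = q.2 := by
      have := (Sigma.mk.inj_iff.1 h).2
      exact eq_of_heq this
    exact Prod.ext h1 h2
  · intro b hb
    simp only [mem_sigma, mem_filter] at hb
    refine ⟨(b.1, b.2), ?_, rfl⟩
    simp only [mem_filter, mem_product]
    exact ⟨⟨hb.1, hb.2.1⟩, hb.2.2⟩

theorem C_ad_symm {T : Type} (G : SimpleGraph T) (X Y : Finset T) : ad G X Y = ad G Y X := by
  unfold ad
  refine card_bij (fun p _ => (p.2, p.1)) ?_ ?_ ?_
  · intro p hp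
    simp only [mem_filter, mem_product] at hp ⊢
    exact ⟨⟨hp.1.2, hp.1.1⟩, hp.2.symm⟩
  · intro p _ q _ h
    have h1 : p.2 = q.2 := congrArg Prod.fst h
    have h2 : p.1 = q.1 := congrArg Prod.snd h
    exact Prod.ext h2 h1
  · intro b hb
    simp only [mem_filter, mem_product] at hb
    refine ⟨(b.2, b.1), ?_, rfl⟩
    simp only [mem_filter, mem_product]
    exact ⟨⟨hb.1.2, hb.1.1⟩, hb.2.symm⟩

theorem RegP_symm {V : Type} {G : SimpleGraph V} {P Q : Finset V} {κ : ℝ} (h : RegP G P Q κ) :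
    RegP G Q P κ := by
  intro X Y hX hY h1 h2
  have h3 := h Y X hY hX h2 h1
  rw [C_ad_symm G Q P, C_ad_symm G X Y]
  nlinarith [h3]

/-- regularity inside `A` -/
def St_RegS : Prop := ∀ κ : ℝ, 0 < κ → κ ≤ 1 → ∀ l : ℕ, 1 ≤ l → ∃ b : ℕ, ∀ (V : Type) [Fintype V]
  (G : SimpleGraph V) (A : Finset V), l ≤ A.card → ∃ (t₀ s₀ : ℕ) (P : Fin t₀ → Finset V)
  (bad : Finset (Fin t₀)), l ≤ t₀ ∧ t₀ ≤ b ∧ (∀ i j, i ≠ j → Disjoint (P i) (P j)) ∧
    (∀ i, P i ⊆ A) ∧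
    (∀ v ∈ A, ∃ i, v ∈ P i) ∧ (∀ i, s₀ ≤ (P i).card ∧ (P i).card ≤ s₀ + 1) ∧
    (bad.card : ℝ) ≤ κ * t₀ ∧
    ∀ i, i ∉ bad → ∃ F : Finset (Fin t₀), (F.card : ℝ) ≤ κ * t₀ ∧
      ∀ j, j ≠ i → j ∉ F → RegP G (P i) (P j) κ

private lemma C_ad_map {V : Type} (G : SimpleGraph V) (A : Finset V)
    (X Y : Finset {v // v ∈ A}) :
    ad G (X.map (Function.Embedding.subtype _)) (Y.map (Function.Embedding.subtype _)) =
      ad (G.comap (Subtype.val : {v // v ∈ A} → V)) X Y := by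
  symm
  unfold ad
  refine card_bij (fun p _ => ((p.1 : V), (p.2 : V))) ?_ ?_ ?_
  · intro p hp
    simp only [mem_filter, mem_product] at hp ⊢
    refine ⟨⟨?_, ?_⟩, hp.2⟩
    · exact mem_map_of_mem (Function.Embedding.subtype _) hp.1.1
    · exact mem_map_of_mem (Function.Embedding.subtype _) hp.1.2
  · intro p _ q _ h
    have h1 : (p.1 : V) = q.1 := congrArg Prod.fst h
    have h2 : (p.2 : V) = q.2 := congrArg Prod.snd h
    exact Prod.ext (Subtype.ext h1) (Subtype.ext h2)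
  · intro b hb
    simp only [mem_filter, mem_product, mem_map, Function.Embedding.subtype_apply] at hb
    obtain ⟨⟨⟨x, hx, hx'⟩, ⟨y, hy, hy'⟩⟩, h⟩ := hb
    refine ⟨(x, y), ?_, ?_⟩
    · simp only [mem_filter, mem_product]
      refine ⟨⟨hx, hy⟩, ?_⟩
      show G.Adj (x : V) (y : V)
      rw [hx', hy']
      exact h
    · exact Prod.ext hx' hy'

theorem thm_RegS (hRegU : St_RegU) : St_RegS := by
  intro κ hκ hκ1 l hl
  obtain ⟨b, hb⟩ := hRegU κ hκ hκ1 l hl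
  refine ⟨b, ?_⟩
  intro V _ G A hA
  obtain ⟨t₀, s₀, P, bad, h1, h2, h3, h4, h5, h6, h7⟩ := hb {v // v ∈ A}
    (G.comap (Subtype.val : {v // v ∈ A} → V)) (by rw [Fintype.card_coe]; exact hA)
  obtain ⟨P', hP'⟩ : ∃ P' : Fin t₀ → Finset V, ∀ i, P' i = (P i).map (Function.Embedding.subtype _) :=
    ⟨_, fun _ => rfl⟩
  have q3 : ∀ i j, i ≠ j → Disjoint (P' i) (P' j) := by
    intro i j hij
    rw [hP', hP']
    exact (disjoint_map _).2 (h3 i j hij)
  have q4 : ∀ i, P' i ⊆ A := by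
    intro i v hv
    rw [hP', mem_map] at hv
    obtain ⟨w, _, rfl⟩ := hv
    exact w.2
  have q5 : ∀ v ∈ A, ∃ i, v ∈ P' i := by
    intro v hv
    obtain ⟨i, hi⟩ := h4 ⟨v, hv⟩
    refine ⟨i, ?_⟩
    rw [hP', mem_map]
    exact ⟨⟨v, hv⟩, hi, rfl⟩
  have q6 : ∀ i, s₀ ≤ (P' i).card ∧ (P' i).card ≤ s₀ + 1 := by
    intro i
    rw [hP', card_map]
    exact h5 i
  refine ⟨t₀, s₀, P', bad, h1, h2, q3, q4, q5, q6, h6, ?_⟩
  · intro i hi
    refine ⟨_, h7 i hi, ?_⟩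
    intro j hji hj
    simp only [mem_filter, mem_univ, true_and, not_and, not_not] at hj
    have hreg := hj hji
    rw [hP', hP']
    intro X Y hX hY hXc hYc
    have hpull : ∀ (Z : Finset V) (i : Fin t₀), Z ⊆ (P i).map (Function.Embedding.subtype _) →
        ∃ Z' : Finset {v // v ∈ A}, Z' ⊆ P i ∧ Z = Z'.map (Function.Embedding.subtype _) := by
      intro Z i hZ
      refine ⟨(P i).filter (fun v => (v : V) ∈ Z), filter_subset _ _, ?_⟩
      ext v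
      rw [mem_map]
      constructor
      · intro hv
        have h := hZ hv
        rw [mem_map] at h
        obtain ⟨w, hw, rfl⟩ := h
        exact ⟨w, mem_filter.2 ⟨hw, hv⟩, rfl⟩
      · rintro ⟨w, hw, rfl⟩
        exact (mem_filter.1 hw).2
    obtain ⟨X', hX', rfl⟩ := hpull X i hX
    obtain ⟨Y', hY', rfl⟩ := hpull Y j hY
    rw [C_ad_map, C_ad_map]
    simp only [card_map] at hXc hYc ⊢
    exact hreg X' Y' hX' hY' hXc hYc

private lemma C_bad {V : Type} (G : SimpleGraph V) (P Q : Finset V) (d : ℝ) (hd : 0 < d)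
    (hd1 : d ≤ 1 / 256) (h : RegP G P Q d) (hP : 0 < P.card) (hQ : 0 < Q.card)
    (hden : 2 * d * (P.card * Q.card) ≤ (ad G P Q : ℝ)) :
    ((P.filter (fun v => ((nbs G v Q).card : ℝ) < d * Q.card)).card : ℝ) < d ^ 2 * P.card := by
  by_contra hcon
  push Not at hcon
  set X := P.filter (fun v => ((nbs G v Q).card : ℝ) < d * Q.card) with hX
  have hPR : (0 : ℝ) < P.card := by exact_mod_cast hP
  have hQR : (0 : ℝ) < Q.card := by exact_mod_cast hQ
  have hX0 : (0 : ℝ) < X.card := lt_of_lt_of_le (by positivity) hcon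
  have hd2 : d ^ 2 ≤ 1 := by nlinarith
  have h1 := h X Q (filter_subset _ _) (Subset.refl _) hcon (mul_le_of_le_one_left hQR.le hd2)
  have h2 : (ad G X Q : ℝ) < d * Q.card * X.card := by
    rw [C_ad_eq]
    push_cast
    have hne : X.Nonempty := by
      rw [← card_pos]
      exact_mod_cast hX0
    have h3 : ∑ v ∈ X, ((nbs G v Q).card : ℝ) < ∑ _v ∈ X, d * (Q.card : ℝ) := by
      apply sum_lt_sum_of_nonempty hne
      intro v hv
      exact (mem_filter.1 hv).2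
    rw [sum_const, nsmul_eq_mul] at h3
    linarith
  have hPQ : (0 : ℝ) < P.card * Q.card := mul_pos hPR hQR
  have hXQ : (0 : ℝ) < X.card * Q.card := mul_pos hX0 hQR
  have h4 : 2 * d * (P.card * Q.card) * (X.card * Q.card) ≤
      (ad G P Q : ℝ) * (X.card * Q.card) := mul_le_mul_of_nonneg_right hden hXQ.le
  have h5 : (ad G X Q : ℝ) * (P.card * Q.card) < d * Q.card * X.card * (P.card * Q.card) :=
    mul_lt_mul_of_pos_right h2 hPQ
  have h6 : 0 < (P.card * Q.card : ℝ) * (X.card * Q.card) := mul_pos hPQ hXQ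
  have h7 : d * ((P.card * Q.card : ℝ) * (X.card * Q.card)) <
      d ^ 2 * ((P.card * Q.card : ℝ) * (X.card * Q.card)) := by linarith
  have h8 := lt_of_mul_lt_mul_right h7 h6.le
  nlinarith

private lemma C_nbs_sub {V : Type} (G : SimpleGraph V) (v : V) (W U : Finset V) (hU : U ⊆ W) :
    ((nbs G v W).card : ℝ) - ((W.card : ℝ) - U.card) ≤ (nbs G v U).card := by
  have h1 : nbs G v W ⊆ nbs G v U ∪ (W \ U) := by
    intro w hw
    unfold nbs at hw ⊢
    rw [mem_filter] at hw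
    rw [mem_union, mem_filter, mem_sdiff]
    by_cases h : w ∈ U
    · exact Or.inl ⟨h, hw.2⟩
    · exact Or.inr ⟨hw.1, h⟩
  have h2 := (card_le_card h1).trans (card_union_le _ _)
  have h3 : (W \ U).card + U.card = W.card := card_sdiff_add_card_eq_card hU
  have h4 : ((nbs G v W).card : ℝ) ≤ (nbs G v U).card + (W \ U).card := by exact_mod_cast h2
  have h5 : ((W \ U).card : ℝ) + U.card = W.card := by exact_mod_cast h3
  linarith

private lemma C_num1 (d : ℝ) (s₀ m : ℕ) (hd : 0 < d) (hd1 : d ≤ 1 / 256) (hs : 1 ≤ d ^ 2 * s₀)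
    (hm1 : (m : ℝ) ≤ (1 - 2 * d ^ 2) * s₀) (hm2 : (1 - 2 * d ^ 2) * s₀ < m + 1) :
    (1 - 3 * d ^ 2) * s₀ ≤ m ∧ (m : ℝ) ≤ s₀ ∧ (s₀ : ℝ) / 2 ≤ m ∧ (0 : ℝ) < m ∧
      d ^ 2 * (s₀ + 1) ≤ d / 64 * m ∧ d / 16 * m ≤ d * s₀ - (s₀ + 1 - m) := by
  have hd3 : d ^ 2 ≤ d / 256 := by nlinarith
  have hd4 : d ^ 2 ≤ 1 / 65536 := by nlinarith
  have hs0 : (0 : ℝ) < s₀ := by
    by_contra hc
    push Not at hc
    nlinarith
  have hs0' : 0 < s₀ := by exact_mod_cast hs0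
  have hs1 : (1 : ℝ) ≤ s₀ := by exact_mod_cast hs0'
  have e1 : d ^ 2 * s₀ ≤ d / 256 * s₀ := mul_le_mul_of_nonneg_right hd3 hs0.le
  have e2 : d ^ 2 * s₀ ≤ 1 / 65536 * s₀ := mul_le_mul_of_nonneg_right hd4 hs0.le
  have e3 : (1 - 3 * d ^ 2) * s₀ ≤ m := by nlinarith
  have e4 : (m : ℝ) ≤ s₀ := by nlinarith
  have e5 : (s₀ : ℝ) / 2 ≤ m := by nlinarith
  have e6 : d / 64 * (s₀ / 2) ≤ d / 64 * m := mul_le_mul_of_nonneg_left e5 (by positivity)
  have e7 : d ^ 2 * 1 ≤ d ^ 2 * s₀ := mul_le_mul_of_nonneg_left hs1 (by positivity)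
  have e8 : d / 16 * m ≤ d / 16 * s₀ := mul_le_mul_of_nonneg_left e4 (by positivity)
  refine ⟨e3, e4, e5, by linarith, by nlinarith, by nlinarith⟩

/-- CLEAN.  A dense regular pair contains a clean pair. -/
theorem thm_Clean {V : Type} (G : SimpleGraph V) (P Q : Finset V) (d : ℝ) (s₀ : ℕ) (hd : 0 < d)
    (hd1 : d ≤ 1 / 256) (hPQ : Disjoint P Q) (h : RegP G P Q d)
    (hP : s₀ ≤ P.card ∧ P.card ≤ s₀ + 1) (hQ : s₀ ≤ Q.card ∧ Q.card ≤ s₀ + 1)
    (hs : 1 ≤ d ^ 2 * s₀) (hden : 2 * d * (P.card * Q.card) ≤ (ad G P Q : ℝ)) :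
    ∃ A B : Finset V, A ⊆ P ∧ B ⊆ Q ∧ Pr G A B (d / 64) (d / 16) ∧
      (1 - 3 * d ^ 2) * s₀ ≤ (A.card : ℝ) := by
  have hd2 : 0 < d ^ 2 := by positivity
  have hs0 : (0 : ℝ) < s₀ := by
    by_contra hc
    push Not at hc
    nlinarith
  have hs0' : 0 < s₀ := by exact_mod_cast hs0
  have hs1 : (1 : ℝ) ≤ s₀ := by exact_mod_cast hs0'
  have hP1 : (s₀ : ℝ) ≤ P.card := by exact_mod_cast hP.1
  have hP2 : (P.card : ℝ) ≤ s₀ + 1 := by exact_mod_cast hP.2
  have hQ1 : (s₀ : ℝ) ≤ Q.card := by exact_mod_cast hQ.1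
  have hQ2 : (Q.card : ℝ) ≤ s₀ + 1 := by exact_mod_cast hQ.2
  have hden' : 2 * d * (Q.card * P.card) ≤ (ad G Q P : ℝ) := by
    rw [C_ad_symm, mul_comm (Q.card : ℝ)]
    exact hden
  have b1 := C_bad G P Q d hd hd1 h (by omega) (by omega) hden
  have b2 := C_bad G Q P d hd hd1 (RegP_symm h) (by omega) (by omega) hden'
  obtain ⟨X, hX⟩ : ∃ X, X = P.filter (fun v => ((nbs G v Q).card : ℝ) < d * Q.card) := ⟨_, rfl⟩
  obtain ⟨Y, hY⟩ : ∃ Y, Y = Q.filter (fun v => ((nbs G v P).card : ℝ) < d * P.card) := ⟨_, rfl⟩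
  rw [← hX] at b1
  rw [← hY] at b2
  obtain ⟨m, hm⟩ : ∃ m : ℕ, m = ⌊(1 - 2 * d ^ 2) * s₀⌋₊ := ⟨_, rfl⟩
  have hd4 : d ^ 2 ≤ 1 / 65536 := by nlinarith
  have hm0 : (0 : ℝ) ≤ (1 - 2 * d ^ 2) * s₀ := by
    apply mul_nonneg _ hs0.le
    linarith
  have hm1 : (m : ℝ) ≤ (1 - 2 * d ^ 2) * s₀ := by rw [hm]; exact Nat.floor_le hm0
  have hm2 : (1 - 2 * d ^ 2) * s₀ < m + 1 := by rw [hm]; exact Nat.lt_floor_add_one _
  obtain ⟨n1, n2, n3, n4, n5, n6⟩ := C_num1 d s₀ m hd hd1 hs hm1 hm2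
  clear hm
  have hXP : X ⊆ P := by rw [hX]; exact filter_subset _ _
  have hYQ : Y ⊆ Q := by rw [hY]; exact filter_subset _ _
  have hXsR : ((P \ X).card : ℝ) + X.card = P.card := by
    exact_mod_cast card_sdiff_add_card_eq_card hXP
  have hYsR : ((Q \ Y).card : ℝ) + Y.card = Q.card := by
    exact_mod_cast card_sdiff_add_card_eq_card hYQ
  have hdP : d ^ 2 * P.card ≤ d ^ 2 * (s₀ + 1) := mul_le_mul_of_nonneg_left hP2 hd2.le
  have hdQ : d ^ 2 * Q.card ≤ d ^ 2 * (s₀ + 1) := mul_le_mul_of_nonneg_left hQ2 hd2.le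
  have hds : d ^ 2 * 1 ≤ d ^ 2 * s₀ := mul_le_mul_of_nonneg_left hs1 hd2.le
  have hmX : m ≤ (P \ X).card := by
    have : (m : ℝ) ≤ (P \ X).card := by linarith
    exact_mod_cast this
  have hmY : m ≤ (Q \ Y).card := by
    have : (m : ℝ) ≤ (Q \ Y).card := by linarith
    exact_mod_cast this
  obtain ⟨A, hA, hAc⟩ := exists_subset_card_eq hmX
  obtain ⟨B, hB, hBc⟩ := exists_subset_card_eq hmY
  have hAP : A ⊆ P := hA.trans sdiff_subset
  have hBQ : B ⊆ Q := hB.trans sdiff_subset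
  have hdeg : ∀ (Z W : Finset V) (v : V), W ⊆ Z → (W.card = m) → ((Z.card : ℝ) ≤ s₀ + 1) →
      ((s₀ : ℝ) ≤ Z.card) → (d * Z.card ≤ ((nbs G v Z).card : ℝ)) →
      d / 16 * m ≤ ((nbs G v W).card : ℝ) := by
    intro Z W v hWZ hWc hZ1 hZ2 hv
    have h1 := C_nbs_sub G v Z W hWZ
    rw [hWc] at h1
    have h2 : d * s₀ ≤ d * Z.card := mul_le_mul_of_nonneg_left hZ2 hd.le
    linarith
  have hp1 : P1 G A B ⌈(d / 64) * A.card⌉₊ := by
    intro X' Y' hX' hY' hXc hYc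
    by_contra hno
    push Not at hno
    have hz : ad G X' Y' = 0 := by
      unfold ad
      rw [card_eq_zero, filter_eq_empty_iff]
      intro p hp
      rw [mem_product] at hp
      exact hno _ hp.1 _ hp.2
    rw [hAc] at hXc hYc
    have h1 : d / 64 * m ≤ (X'.card : ℝ) := (Nat.le_ceil _).trans (by exact_mod_cast hXc)
    have h2 : d / 64 * m ≤ (Y'.card : ℝ) := (Nat.le_ceil _).trans (by exact_mod_cast hYc)
    have h4 := h X' Y' (hX'.trans hAP) (hY'.trans hBQ) (by linarith) (by linarith)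
    rw [hz, Nat.cast_zero, zero_mul, zero_add] at h4
    have hx : 0 < (X'.card : ℝ) := lt_of_lt_of_le (mul_pos (by positivity) n4) h1
    have hy : 0 < (Y'.card : ℝ) := lt_of_lt_of_le (mul_pos (by positivity) n4) h2
    have hxy : (0 : ℝ) < X'.card * Y'.card := mul_pos hx hy
    have hpq : (0 : ℝ) < P.card * Q.card := mul_pos (by linarith) (by linarith)
    have h5 : 2 * d * (P.card * Q.card) * (X'.card * Y'.card) ≤
      (ad G P Q : ℝ) * (X'.card * Y'.card) := mul_le_mul_of_nonneg_right hden hxy.le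
    have h6 : 0 < (P.card * Q.card : ℝ) * (X'.card * Y'.card) := mul_pos hpq hxy
    have h7 : 2 * d * ((P.card * Q.card : ℝ) * (X'.card * Y'.card)) ≤
        d ^ 2 * ((P.card * Q.card : ℝ) * (X'.card * Y'.card)) := by linarith
    have h8 := le_of_mul_le_mul_right h7 h6
    nlinarith
  have hdA : ∀ a ∈ A, d / 16 * A.card ≤ ((nbs G a B).card : ℝ) := by
    intro a ha
    rw [hAc]
    apply hdeg Q B a hBQ hBc hQ2 hQ1
    have h1 := (mem_sdiff.1 (hA ha)).2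
    rw [hX, mem_filter, not_and] at h1
    exact not_lt.1 (h1 (hAP ha))
  have hdB : ∀ b ∈ B, d / 16 * A.card ≤ ((nbs G b A).card : ℝ) := by
    intro b hb
    rw [hAc]
    apply hdeg P A b hAP hAc hP2 hP1
    have h1 := (mem_sdiff.1 (hB hb)).2
    rw [hY, mem_filter, not_and] at h1
    exact not_lt.1 (h1 (hBQ hb))
  refine ⟨A, B, hAP, hBQ, ⟨?_, ?_, hp1, hdA, hdB⟩, ?_⟩
  · exact disjoint_of_subset_left hAP (disjoint_of_subset_right hBQ hPQ)
  · rw [hAc, hBc]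
  · rw [hAc]
    exact n1

end Pool.CMK
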