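import Pool.Agent.CMX.StD
import Pool.Agent.CMK.Lib

/-!
# CMX: module DPATH, paths with a prescribed number of vertices in a nearly complete graph
-/

set_option autoImplicit false

namespace Pool.CMK

open Finset
open scoped Classical

private theorem DPath_pick {V : Type} {W S T : Finset V} {n : ℕ} (hS : S ⊆ W)
    (hT : (T ∩ W).card ≤ n) (hn : n < S.card) : ∃ s ∈ S, s ∉ T := by
  obtain ⟨e, he, he2⟩ := exists_mem_notMem_of_card_lt_card (lt_of_le_of_lt hT hn)
  exact ⟨e, he, fun h => he2 (mem_inter.2 ⟨h, hS he⟩)⟩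

private theorem DPath_card {V : Type} (F W : Finset V) (l : List V) (n : ℕ)
    (hF : (F ∩ W).card ≤ n) : ((F ∪ l.toFinset) ∩ W).card ≤ n + l.length := by
  rw [union_inter_distrib_right]
  calc ((F ∩ W) ∪ (l.toFinset ∩ W)).card ≤ (F ∩ W).card + (l.toFinset ∩ W).card :=
        card_union_le _ _
    _ ≤ n + l.length := Nat.add_le_add hF
        ((card_le_card inter_subset_left).trans (List.toFinset_card_le l))

private theorem DPath_greedy {V : Type} (G : SimpleGraph V) (W F : Finset V) (h n : ℕ)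
    (hW : ∀ w ∈ W, W.card ≤ (nbs G w W).card + h) (hF : (F ∩ W).card ≤ n) (a : V) (haW : a ∈ W)
    (haF : a ∉ F) : ∀ s : ℕ, s + 1 + n + h ≤ W.card → ∃ (p : V) (l : List V),
    (p :: l).length = s + 1 ∧ (p :: l).Nodup ∧ (p :: l).IsChain G.Adj ∧
    (∀ w ∈ p :: l, w ∈ W ∧ w ∉ F) ∧ (p :: l).getLast? = some a := by
  intro s
  induction s with
  | zero =>
    intro _
    refine ⟨a, [], rfl, List.nodup_singleton a, List.isChain_singleton a, ?_, rfl⟩
    intro w hw
    rw [List.mem_singleton] at hw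
    rw [hw]
    exact ⟨haW, haF⟩
  | succ s ih =>
    intro hs
    obtain ⟨p, l, h1, h2, h3, h4, h5⟩ := ih (by omega)
    have hpW := (h4 p List.mem_cons_self).1
    obtain ⟨p', hp', hp'F⟩ := DPath_pick (S := nbs G p W) (filter_subset _ _)
      (DPath_card F W (p :: l) n hF) (by
        have := hW p hpW
        omega)
    rw [lib_mem_nbs] at hp'
    have hF' : p' ∉ F ∧ p' ∉ p :: l := by
      constructor
      · exact fun h => hp'F (mem_union_left _ h)
      · exact fun h => hp'F (mem_union_right _ (List.mem_toFinset.2 h))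
    refine ⟨p', p :: l, ?_, ?_, ?_, ?_, ?_⟩
    · rw [List.length_cons, h1]
    · exact List.nodup_cons.2 ⟨hF'.2, h2⟩
    · exact List.isChain_cons_cons.2 ⟨hp'.2.symm, h3⟩
    · intro w hw
      rcases List.mem_cons.1 hw with hw | hw
      · rw [hw]
        exact ⟨hp'.1, hF'.1⟩
      · exact h4 w hw
    · rw [List.getLast?_cons_cons]
      exact h5

theorem thm_DPath : St_DPath := by
  intro V G W U h u t x y hW hU hxy hx hy ht htW
  -- the last vertex
  obtain ⟨b, hb, hbF⟩ := DPath_pick (S := nbs G y W) (T := U ∪ [x].toFinset)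
    (filter_subset _ _) (DPath_card U W [x] u hU) (by
      simp only [List.length_cons, List.length_nil]
      omega)
  rw [lib_mem_nbs] at hb
  have hbU : b ∉ U := fun h => hbF (mem_union_left _ h)
  have hbx : b ≠ x := by
    intro h
    exact hbF (mem_union_right _ (by simp [h]))
  have hby : b ≠ y := hb.2.ne'
  -- the first vertex
  obtain ⟨a, ha, haF⟩ := DPath_pick (S := nbs G x W) (T := U ∪ [y, b].toFinset)
    (filter_subset _ _) (DPath_card U W [y, b] u hU) (by
      simp only [List.length_cons, List.length_nil]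
      omega)
  rw [lib_mem_nbs] at ha
  have haU : a ∉ U := fun h => haF (mem_union_left _ h)
  have hay : a ≠ y := by
    intro h
    exact haF (mem_union_right _ (by simp [h]))
  have hab : a ≠ b := by
    intro h
    exact haF (mem_union_right _ (by simp [h]))
  have hax : a ≠ x := ha.2.ne'
  -- the greedy path
  obtain ⟨F, hF⟩ : ∃ F : Finset V, F = U ∪ [x, y, b].toFinset := ⟨_, rfl⟩
  have hFW : (F ∩ W).card ≤ u + 3 := by
    rw [hF]
    exact DPath_card U W [x, y, b] u hU
  have hmF : ∀ w, w ∉ F → w ∉ U ∧ w ≠ x ∧ w ≠ y ∧ w ≠ b := by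
    intro w hw
    rw [hF] at hw
    simp only [mem_union, List.mem_toFinset, List.mem_cons, List.not_mem_nil, or_false,
      not_or] at hw
    exact hw
  have haF' : a ∉ F := by
    rw [hF]
    simp only [mem_union, List.mem_toFinset, List.mem_cons, List.not_mem_nil, or_false, not_or]
    exact ⟨haU, hax, hay, hab⟩
  obtain ⟨s, rfl⟩ : ∃ s, t = s + 3 := ⟨t - 3, by omega⟩
  obtain ⟨p, l, h1, h2, h3, h4, h5⟩ := DPath_greedy G W F h (u + 3) hW hFW a ha.1 haF' s
    (by omega)
  have hpW := (h4 p List.mem_cons_self).1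
  -- the common neighbour
  have hcn : W.card ≤ (nbs G p W ∩ nbs G b W).card + 2 * h := by
    have e1 := hW p hpW
    have e2 := hW b hb.1
    have e3 := card_union_add_card_inter (nbs G p W) (nbs G b W)
    have e4 : (nbs G p W ∪ nbs G b W).card ≤ W.card :=
      card_le_card (union_subset (filter_subset _ _) (filter_subset _ _))
    omega
  obtain ⟨c, hc, hcF⟩ := DPath_pick (S := nbs G p W ∩ nbs G b W) (T := F ∪ (p :: l).toFinset)
    (inter_subset_left.trans (filter_subset _ _)) (DPath_card F W (p :: l) (u + 3) hFW) (by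
      rw [h1]
      omega)
  rw [mem_inter, lib_mem_nbs, lib_mem_nbs] at hc
  obtain ⟨⟨hcW, hpc⟩, -, hbc⟩ := hc
  have hcF1 : c ∉ F := fun h => hcF (mem_union_left _ h)
  have hcl : c ∉ p :: l := fun h => hcF (mem_union_right _ (List.mem_toFinset.2 h))
  obtain ⟨hcU, hcx, hcy, hcb⟩ := hmF c hcF1
  have hbl : b ∉ p :: l := fun hm => (hmF b (h4 b hm).2).2.2.2 rfl
  have hn : (b :: c :: p :: l).Nodup := by
    refine List.nodup_cons.2 ⟨?_, List.nodup_cons.2 ⟨hcl, h2⟩⟩
    intro hm
    rcases List.mem_cons.1 hm with hm | hm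
    · exact hcb hm.symm
    · exact hbl hm
  have hch : (b :: c :: p :: l).IsChain G.Adj :=
    List.isChain_cons_cons.2 ⟨hbc, List.isChain_cons_cons.2 ⟨hpc.symm, h3⟩⟩
  refine ⟨(b :: c :: p :: l).reverse, ?_, List.nodup_reverse.2 hn, ?_, ?_, ?_, ?_⟩
  · rw [List.length_reverse, List.length_cons, List.length_cons, h1]
  · rw [List.isChain_reverse]
    exact hch.imp (fun _ _ h => h.symm)
  · intro w hw
    rw [List.mem_reverse] at hw
    rcases List.mem_cons.1 hw with hw | hw
    · rw [hw]
      exact ⟨hb.1, hbU, hbx, hby⟩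
    · rcases List.mem_cons.1 hw with hw | hw
      · rw [hw]
        exact ⟨hcW, hcU, hcx, hcy⟩
      · obtain ⟨q1, q2, q3, -⟩ := hmF w (h4 w hw).2
        exact ⟨(h4 w hw).1, q1, q2, q3⟩
  · refine ⟨a, ?_, ha.2⟩
    rw [List.head?_reverse, List.getLast?_cons_cons, List.getLast?_cons_cons]
    exact h5
  · refine ⟨b, ?_, hb.2.symm⟩
    rw [List.getLast?_reverse]
    rfl

end Pool.CMK
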