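import Pool.Agent.CMX.Top
import Pool.Agent.CMK.Lib

/-!
# CMX, part F: connected sets, blocks, gluing at a vertex
-/

set_option autoImplicit false

namespace Pool.CMK

open Finset
open scoped Classical

variable {V : Type}

/-- the set `U` is connected or empty -/
def FX_Cf (G : SimpleGraph V) (U : Finset V) : Prop :=
  ∀ A B : Finset V, A.Nonempty → B.Nonempty → Disjoint A B → A ∪ B = U →
    ∃ a ∈ A, ∃ b ∈ B, G.Adj a b

/-- nonempty, connected, without a cut vertex -/
def FX_NC (G : SimpleGraph V) (U : Finset V) : Prop :=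
  U.Nonempty ∧ FX_Cf G U ∧ ∀ v ∈ U, FX_Cf G (U.erase v)

/-- `U` is a block of `W` -/
def FX_Bf (G : SimpleGraph V) (W U : Finset V) : Prop :=
  U ⊆ W ∧ FX_NC G U ∧ ∀ U' : Finset V, U' ⊆ W → FX_NC G U' → U ⊆ U' → U' = U

/-- `U` is a clique with `k` elements -/
def FX_Kq (G : SimpleGraph V) (k : ℕ) (U : Finset V) : Prop :=
  U.card = k ∧ ∀ a ∈ U, ∀ b ∈ U, a ≠ b → G.Adj a b

/-- `W` is connected and all its blocks are cliques with `k` elements -/
def FX_St (G : SimpleGraph V) (k : ℕ) (W : Finset V) : Prop :=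
  W.Nonempty ∧ FX_Cf G W ∧ ∀ U, FX_Bf G W U → FX_Kq G k U

/-- `P` and `Q` have only `v` in common, and there are no other edges between them -/
def FX_Gl (G : SimpleGraph V) (P Q : Finset V) (v : V) : Prop :=
  P ∩ Q = {v} ∧ ∀ a ∈ P, ∀ b ∈ Q, a ≠ v → b ≠ v → ¬ G.Adj a b

theorem FX_Gl_symm {G : SimpleGraph V} {P Q : Finset V} {v : V} (h : FX_Gl G P Q v) :
    FX_Gl G Q P v := by
  refine ⟨by rw [inter_comm]; exact h.1, fun a ha b hb h1 h2 h3 => ?_⟩
  exact h.2 b hb a ha h2 h1 h3.symm

theorem FX_Gl_mem {G : SimpleGraph V} {P Q : Finset V} {v : V} (h : FX_Gl G P Q v) :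
    v ∈ P ∧ v ∈ Q := by
  have : v ∈ P ∩ Q := by rw [h.1]; exact mem_singleton_self v
  exact mem_inter.mp this

theorem FX_Gl_eq {G : SimpleGraph V} {P Q : Finset V} {v : V} (h : FX_Gl G P Q v) {w : V}
    (hP : w ∈ P) (hQ : w ∈ Q) : w = v := by
  have : w ∈ P ∩ Q := mem_inter.mpr ⟨hP, hQ⟩
  rw [h.1] at this
  exact mem_singleton.mp this

/-- a union of two connected sets with a common element is connected -/
theorem FX_Cf_union {G : SimpleGraph V} {X Y : Finset V} (hX : FX_Cf G X) (hY : FX_Cf G Y) {v : V}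
    (hvX : v ∈ X) (hvY : v ∈ Y) : FX_Cf G (X ∪ Y) := by
  -- if `v ∈ A`
  have key : ∀ A B : Finset V, B.Nonempty → Disjoint A B → A ∪ B = X ∪ Y → v ∈ A →
      ∃ a ∈ A, ∃ b ∈ B, G.Adj a b := by
    intro A B hB hd hAB hv
    obtain ⟨b, hb⟩ := hB
    have hbXY : b ∈ X ∪ Y := by rw [← hAB]; exact mem_union_right _ hb
    have gen : ∀ Z : Finset V, FX_Cf G Z → v ∈ Z → b ∈ Z → Z ⊆ X ∪ Y →
        ∃ a ∈ A, ∃ b ∈ B, G.Adj a b := by
      intro Z hZ hvZ hbZ hZs
      obtain ⟨a, ha, c, hc, hac⟩ := hZ (A ∩ Z) (B ∩ Z) ⟨v, mem_inter.mpr ⟨hv, hvZ⟩⟩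
        ⟨b, mem_inter.mpr ⟨hb, hbZ⟩⟩ (hd.mono inter_subset_left inter_subset_left)
        (by rw [← union_inter_distrib_right, hAB]; exact inter_eq_right.mpr hZs)
      exact ⟨a, (mem_inter.mp ha).1, c, (mem_inter.mp hc).1, hac⟩
    rcases mem_union.mp hbXY with h | h
    · exact gen X hX hvX h subset_union_left
    · exact gen Y hY hvY h subset_union_right
  intro A B hA hB hd hAB
  have hv : v ∈ A ∪ B := by rw [hAB]; exact mem_union_left _ hvX
  rcases mem_union.mp hv with h | h
  · exact key A B hB hd hAB h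
  · obtain ⟨b, hb, a, ha, hab⟩ := key B A hA hd.symm (by rw [union_comm]; exact hAB) h
    exact ⟨a, ha, b, hb, hab.symm⟩

/-- a clique is connected -/
theorem FX_Cf_clique {G : SimpleGraph V} {U : Finset V}
    (h : ∀ a ∈ U, ∀ b ∈ U, a ≠ b → G.Adj a b) : FX_Cf G U := by
  intro A B hA hB hd hAB
  obtain ⟨a, ha⟩ := hA
  obtain ⟨b, hb⟩ := hB
  refine ⟨a, ha, b, hb, h a ?_ b ?_ fun hab => ?_⟩
  · rw [← hAB]; exact mem_union_left _ ha
  · rw [← hAB]; exact mem_union_right _ hb
  · rw [hab] at ha
    exact (disjoint_left.mp hd ha) hb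

/-- a clique has no cut vertex -/
theorem FX_NC_clique {G : SimpleGraph V} {U : Finset V} (hne : U.Nonempty)
    (h : ∀ a ∈ U, ∀ b ∈ U, a ≠ b → G.Adj a b) : FX_NC G U :=
  ⟨hne, FX_Cf_clique h, fun _ _ => FX_Cf_clique fun a ha b hb hab =>
    h a (mem_of_mem_erase ha) b (mem_of_mem_erase hb) hab⟩

/-- sets without a cut vertex are on one side -/
theorem FX_sep {G : SimpleGraph V} {P Q U : Finset V} {v : V} (hG : FX_Gl G P Q v)
    (hU : FX_NC G U) (hs : U ⊆ P ∪ Q) : U ⊆ P ∨ U ⊆ Q := by
  by_contra hcon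
  rw [not_or] at hcon
  obtain ⟨b, hbU, hbP⟩ := not_subset.mp hcon.1
  obtain ⟨a, haU, haQ⟩ := not_subset.mp hcon.2
  have hbQ : b ∈ Q := (mem_union.mp (hs hbU)).resolve_left hbP
  have haP : a ∈ P := (mem_union.mp (hs haU)).resolve_right haQ
  have hv := FX_Gl_mem hG
  have hbv : b ≠ v := fun h => hbP (h ▸ hv.1)
  have hav : a ≠ v := fun h => haQ (h ▸ hv.2)
  have hc : FX_Cf G (U.erase v) := by
    by_cases h : v ∈ U
    · exact hU.2.2 v h
    · rw [erase_eq_of_notMem h]
      exact hU.2.1
  obtain ⟨x, hx, y, hy, hxy⟩ := hc (U.erase v ∩ P) (U.erase v ∩ Q)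
    ⟨a, mem_inter.mpr ⟨mem_erase.mpr ⟨hav, haU⟩, haP⟩⟩
    ⟨b, mem_inter.mpr ⟨mem_erase.mpr ⟨hbv, hbU⟩, hbQ⟩⟩
    (by
      rw [disjoint_left]
      intro w hw hw'
      rw [mem_inter] at hw hw'
      exact (mem_erase.mp hw.1).1 (FX_Gl_eq hG hw.2 hw'.2))
    (by
      rw [← inter_union_distrib_left]
      exact inter_eq_left.mpr ((erase_subset _ _).trans hs))
  rw [mem_inter, mem_erase] at hx hy
  exact hG.2 x hx.2 y hy.2 hx.1.1 hy.1.1 hxy

/-- gluing -/
theorem FX_glue {G : SimpleGraph V} {k : ℕ} {P Q : Finset V} {v : V} (hG : FX_Gl G P Q v)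
    (hP : FX_St G k P) (hQ : FX_St G k Q) : FX_St G k (P ∪ Q) := by
  have hv := FX_Gl_mem hG
  refine ⟨⟨v, mem_union_left _ hv.1⟩, FX_Cf_union hP.2.1 hQ.2.1 hv.1 hv.2, ?_⟩
  intro U hU
  rcases FX_sep hG hU.2.1 hU.1 with h | h
  · exact hP.2.2 U ⟨h, hU.2.1, fun U' h1 h2 h3 => hU.2.2 U' (h1.trans subset_union_left) h2 h3⟩
  · exact hQ.2.2 U ⟨h, hU.2.1, fun U' h1 h2 h3 => hU.2.2 U' (h1.trans subset_union_right) h2 h3⟩

theorem FX_glue' {G : SimpleGraph V} {k : ℕ} {P Q S : Finset V} {v : V} (hG : FX_Gl G P Q v)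
    (hP : FX_St G k P) (hQ : FX_St G k Q) (hS : ∀ w, w ∈ S ↔ w ∈ P ∨ w ∈ Q) : FX_St G k S := by
  have h : S = P ∪ Q := by
    ext w
    rw [hS w, mem_union]
  rw [h]
  exact FX_glue hG hP hQ

theorem FX_ad_single (G : SimpleGraph V) (v : V) : ad G {v} {v} = 0 := by
  unfold ad
  rw [card_eq_zero, filter_eq_empty_iff]
  intro p hp
  rw [mem_product, mem_singleton, mem_singleton] at hp
  rw [hp.1, hp.2]
  exact G.loopless.irrefl v

theorem FX_ad_zero {G : SimpleGraph V} {X Y : Finset V} (h : ∀ x ∈ X, ∀ y ∈ Y, ¬ G.Adj x y) :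
    ad G X Y = 0 := by
  unfold ad
  rw [card_eq_zero, filter_eq_empty_iff]
  intro p hp
  rw [mem_product] at hp
  exact h _ hp.1 _ hp.2

/-- the pairs of a union of two sets without edges between them -/
theorem FX_ad_disj {G : SimpleGraph V} {X Y : Finset V} (hd : Disjoint X Y)
    (h : ∀ x ∈ X, ∀ y ∈ Y, ¬ G.Adj x y) :
    ad G (X ∪ Y) (X ∪ Y) = ad G X X + ad G Y Y := by
  rw [lib_ad_union_left G hd, lib_ad_union_right G hd, lib_ad_union_right G hd, FX_ad_zero h,
    lib_ad_comm G Y X, FX_ad_zero h]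
  omega

/-- the pairs of a union at a vertex -/
theorem FX_ad_glue {G : SimpleGraph V} {P Q : Finset V} {v : V} (hG : FX_Gl G P Q v) :
    ad G (P ∪ Q) (P ∪ Q) = ad G P P + ad G Q Q := by
  have hv := FX_Gl_mem hG
  set Q' := Q.erase v with hQ'
  have hPQ : P ∪ Q = P ∪ Q' := by
    ext w
    simp only [mem_union, hQ', mem_erase]
    constructor
    · rintro (h | h)
      · exact Or.inl h
      · by_cases hw : w = v
        · exact Or.inl (hw ▸ hv.1)
        · exact Or.inr ⟨hw, h⟩
    · rintro (h | h)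
      · exact Or.inl h
      · exact Or.inr h.2
  have hd : Disjoint P Q' := by
    rw [disjoint_left]
    intro w hw hw'
    rw [hQ', mem_erase] at hw'
    exact hw'.1 (FX_Gl_eq hG hw hw'.2)
  have hdv : Disjoint ({v} : Finset V) Q' := by
    rw [disjoint_singleton_left, hQ']
    exact notMem_erase v Q
  have hQv : Q = {v} ∪ Q' := by
    ext w
    simp only [mem_union, mem_singleton, hQ', mem_erase]
    constructor
    · intro h
      by_cases hw : w = v
      · exact Or.inl hw
      · exact Or.inr ⟨hw, h⟩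
    · rintro (h | h)
      · rw [h]; exact hv.2
      · exact h.2
  have hPv : P = {v} ∪ P.erase v := by
    ext w
    simp only [mem_union, mem_singleton, mem_erase]
    constructor
    · intro h
      by_cases hw : w = v
      · exact Or.inl hw
      · exact Or.inr ⟨hw, h⟩
    · rintro (h | h)
      · rw [h]; exact hv.1
      · exact h.2
  have h0 : ad G P Q' = ad G {v} Q' := by
    conv_lhs => rw [hPv]
    rw [lib_ad_union_left G (by
      rw [disjoint_singleton_left]
      exact notMem_erase v P)]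
    have : ad G (P.erase v) Q' = 0 := FX_ad_zero fun x hx y hy => by
      rw [mem_erase] at hx
      rw [hQ', mem_erase] at hy
      exact hG.2 x hx.2 y hy.2 hx.1 hy.1
    omega
  have h1 : ad G Q Q = 2 * ad G {v} Q' + ad G Q' Q' := by
    rw [hQv, lib_ad_union_left G hdv, lib_ad_union_right G hdv, lib_ad_union_right G hdv,
      FX_ad_single, lib_ad_comm G Q' {v}]
    omega
  rw [hPQ, lib_ad_union_left G hd, lib_ad_union_right G hd, lib_ad_union_right G hd,
    lib_ad_comm G Q' P, h0, h1]
  omega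

theorem FX_card_glue {G : SimpleGraph V} {P Q : Finset V} {v : V} (hG : FX_Gl G P Q v) :
    (P ∪ Q).card + 1 = P.card + Q.card := by
  have h := card_union_add_card_inter P Q
  rw [hG.1, card_singleton] at h
  exact h

/-- the number of adjacent pairs inside a clique -/
theorem FX_ad_clique {G : SimpleGraph V} {U : Finset V}
    (h : ∀ a ∈ U, ∀ b ∈ U, a ≠ b → G.Adj a b) : ad G U U = U.card * (U.card - 1) := by
  rw [lib_ad_eq_sum, ← smul_eq_mul, ← Finset.sum_const]
  refine Finset.sum_congr rfl fun x hx => ?_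
  rw [← card_erase_of_mem hx]
  congr 1
  ext w
  rw [lib_mem_nbs, mem_erase]
  constructor
  · rintro ⟨h1, h2⟩
    exact ⟨h2.ne', h1⟩
  · rintro ⟨h1, h2⟩
    exact ⟨h2, h x hx w h2 (Ne.symm h1)⟩

theorem FX_nbs_le (G : SimpleGraph V) {U : Finset V} {x : V} (hx : x ∈ U) :
    (nbs G x U).card ≤ U.card - 1 := by
  rw [← card_erase_of_mem hx]
  refine card_le_card fun w hw => ?_
  rw [lib_mem_nbs] at hw
  exact mem_erase.mpr ⟨hw.2.ne', hw.1⟩

theorem FX_ad_le (G : SimpleGraph V) (U : Finset V) : ad G U U ≤ U.card * (U.card - 1) := by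
  rw [lib_ad_eq_sum, ← smul_eq_mul, ← Finset.sum_const]
  exact Finset.sum_le_sum fun x hx => FX_nbs_le G hx

/-- a set with all possible edges is a clique -/
theorem FX_clique_of_ad {G : SimpleGraph V} {U : Finset V}
    (h : U.card * (U.card - 1) ≤ ad G U U) : ∀ a ∈ U, ∀ b ∈ U, a ≠ b → G.Adj a b := by
  intro a ha b hb hab
  by_contra hcon
  have hlt : (nbs G a U).card < U.card - 1 := by
    rw [← card_erase_of_mem ha]
    refine card_lt_card ⟨fun w hw => ?_, fun hsub => ?_⟩
    · rw [lib_mem_nbs] at hw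
      exact mem_erase.mpr ⟨hw.2.ne', hw.1⟩
    · have := hsub (mem_erase.mpr ⟨Ne.symm hab, hb⟩)
      rw [lib_mem_nbs] at this
      exact hcon this.2
  have hs : ad G U U < U.card * (U.card - 1) := by
    rw [lib_ad_eq_sum, ← smul_eq_mul, ← Finset.sum_const]
    exact Finset.sum_lt_sum (fun x hx => FX_nbs_le G hx) ⟨a, ha, hlt⟩
  omega

/-- a clique with `k ≥ 1` elements has the structure -/
theorem FX_St_clique {G : SimpleGraph V} {k : ℕ} {W : Finset V} (hk : 1 ≤ k)
    (h : FX_Kq G k W) : FX_St G k W := by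
  have hne : W.Nonempty := card_pos.mp (by rw [h.1]; exact hk)
  refine ⟨hne, FX_Cf_clique h.2, fun U hU => ?_⟩
  have := hU.2.2 W (Subset.refl W) (FX_NC_clique hne h.2) hU.1
  rw [← this]
  exact h

/-- splitting at a cut vertex -/
theorem FX_split {G : SimpleGraph V} {k : ℕ} {W : Finset V} (hW : FX_St G k W)
    (hn : ¬ FX_NC G W) : ∃ (P Q : Finset V) (v : V), FX_Gl G P Q v ∧ W = P ∪ Q ∧
      P.card < W.card ∧ Q.card < W.card ∧ FX_St G k P ∧ FX_St G k Q := by
  obtain ⟨v, hv, hcut⟩ : ∃ v ∈ W, ¬ FX_Cf G (W.erase v) := by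
    by_contra hcon
    push Not at hcon
    exact hn ⟨hW.1, hW.2.1, hcon⟩
  unfold FX_Cf at hcut
  push Not at hcut
  obtain ⟨A, B, hA, hB, hd, hAB, hno⟩ := hcut
  -- one half
  have half : ∀ A B : Finset V, A.Nonempty → B.Nonempty → Disjoint A B → A ∪ B = W.erase v →
      (∀ a ∈ A, ∀ b ∈ B, ¬ G.Adj a b) →
      FX_Gl G (insert v A) (insert v B) v ∧ W = insert v A ∪ insert v B ∧
        (insert v A).card < W.card ∧ FX_St G k (insert v A) := by
    intro A B hA hB hd hAB hno
    have hvA : v ∉ A := fun h => notMem_erase v W (hAB ▸ mem_union_left B h)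
    have hvB : v ∉ B := fun h => notMem_erase v W (hAB ▸ mem_union_right A h)
    have hAW : A ⊆ W := (subset_union_left.trans hAB.subset).trans (erase_subset _ _)
    have hBW : B ⊆ W := (subset_union_right.trans hAB.subset).trans (erase_subset _ _)
    have hWe : W = insert v A ∪ insert v B := by
      have : W = insert v (A ∪ B) := by rw [hAB, insert_erase hv]
      rw [this]
      ext w
      simp only [mem_insert, mem_union]
      tauto
    have hG : FX_Gl G (insert v A) (insert v B) v := by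
      constructor
      · rw [← insert_inter_distrib, disjoint_iff_inter_eq_empty.mp hd, insert_empty_eq]
      · intro a ha b hb hav hbv
        rw [mem_insert] at ha hb
        exact hno a (ha.resolve_left hav) b (hb.resolve_left hbv)
    have hcard : (insert v A).card < W.card := by
      refine card_lt_card ⟨insert_subset hv hAW, fun hsub => ?_⟩
      obtain ⟨b, hb⟩ := hB
      have := hsub (hBW hb)
      rw [mem_insert] at this
      rcases this with h | h
      · exact hvB (h ▸ hb)
      · exact disjoint_left.mp hd h hb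
    -- connected
    have hcon : FX_Cf G (insert v A) := by
      -- a part which does not contain `v`
      have key : ∀ X Y : Finset V, X.Nonempty → Y.Nonempty → Disjoint X Y →
          X ∪ Y = insert v A → v ∈ X → ∃ x ∈ X, ∃ y ∈ Y, G.Adj x y := by
        intro X Y hX hY hXY hXYu hvX
        have hvY : v ∉ Y := fun h => disjoint_left.mp hXY hvX h
        have hYA : Y ⊆ A := by
          intro y hy
          have : y ∈ insert v A := by rw [← hXYu]; exact mem_union_right _ hy
          rw [mem_insert] at this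
          exact this.resolve_left fun h => hvY (h ▸ hy)
        obtain ⟨a, ha, b, hb, hab⟩ := hW.2.1 (W \ Y) Y
          ⟨v, mem_sdiff.mpr ⟨hv, hvY⟩⟩ hY sdiff_disjoint
          (by rw [sdiff_union_of_subset (hYA.trans hAW)])
        refine ⟨a, ?_, b, hb, hab⟩
        rw [mem_sdiff] at ha
        have haW := ha.1
        rw [hWe, mem_union, mem_insert, mem_insert] at haW
        by_contra haX
        have haA : a ∉ A := fun h => by
          have : a ∈ X ∪ Y := by rw [hXYu]; exact mem_insert_of_mem h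
          rcases mem_union.mp this with h' | h'
          · exact haX h'
          · exact ha.2 h'
        have hav : a ≠ v := fun h => haX (h ▸ hvX)
        have haB : a ∈ B := by tauto
        exact hno b (hYA hb) a haB hab.symm
      intro X Y hX hY hXY hXYu
      have hvXY : v ∈ X ∪ Y := by rw [hXYu]; exact mem_insert_self v A
      rcases mem_union.mp hvXY with h | h
      · exact key X Y hX hY hXY hXYu h
      · obtain ⟨y, hy, x, hx, hxy⟩ := key Y X hY hX hXY.symm (by rw [union_comm]; exact hXYu) h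
        exact ⟨x, hx, y, hy, hxy.symm⟩
    refine ⟨hG, hWe, hcard, ⟨v, mem_insert_self v A⟩, hcon, fun U hU => ?_⟩
    apply hW.2.2 U
    refine ⟨hU.1.trans (insert_subset hv hAW), hU.2.1, fun U' h1 h2 h3 => ?_⟩
    rcases FX_sep hG h2 (h1.trans hWe.subset) with h | h
    · exact hU.2.2 U' h h2 h3
    · exfalso
      -- `U = {v}`
      have hUv : U = {v} := by
        apply Subset.antisymm
        · intro w hw
          have h4 : w ∈ insert v A ∩ insert v B := mem_inter.mpr ⟨hU.1 hw, h (h3 hw)⟩
          rw [hG.1] at h4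
          exact h4
        · obtain ⟨u, hu⟩ := hU.2.1.1
          have h4 : u ∈ insert v A ∩ insert v B := mem_inter.mpr ⟨hU.1 hu, h (h3 hu)⟩
          rw [hG.1, mem_singleton] at h4
          rw [singleton_subset_iff, ← h4]
          exact hu
      obtain ⟨x, hx, a, ha, hxa⟩ := hcon {v} A (singleton_nonempty v) hA
        (disjoint_singleton_left.mpr hvA) rfl
      rw [mem_singleton] at hx
      rw [hx] at hxa
      have hNC : FX_NC G ({v, a} : Finset V) := by
        apply FX_NC_clique ⟨v, mem_insert_self v _⟩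
        intro x hx y hy hxy
        simp only [mem_insert, mem_singleton] at hx hy
        rcases hx with rfl | rfl <;> rcases hy with rfl | rfl
        · exact absurd rfl hxy
        · exact hxa
        · exact hxa.symm
        · exact absurd rfl hxy
      have h5 := hU.2.2 {v, a} (by
        intro w hw
        simp only [mem_insert, mem_singleton] at hw
        rcases hw with rfl | rfl
        · exact mem_insert_self _ _
        · exact mem_insert_of_mem ha) hNC (by
          rw [hUv]
          intro w hw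
          rw [mem_singleton] at hw
          rw [hw]
          exact mem_insert_self _ _)
      have h6 : a ∈ U := by
        rw [← h5]
        simp
      rw [hUv, mem_singleton] at h6
      exact hvA (h6 ▸ ha)
  obtain ⟨g1, g2, g3, g4⟩ := half A B hA hB hd hAB hno
  obtain ⟨-, -, g7, g8⟩ := half B A hB hA hd.symm (by rw [union_comm]; exact hAB)
    (fun b hb a ha h => hno a ha b hb h.symm)
  exact ⟨insert v A, insert v B, v, g1, g2, g3, g7, g4, g8⟩

/-- the number of edges of a set all whose blocks are `K_k` -/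
theorem FX_count {G : SimpleGraph V} {k : ℕ} : ∀ (n : ℕ) (W : Finset V), W.card = n →
    FX_St G k W → ad G W W = k * (W.card - 1) := by
  intro n
  induction n using Nat.strong_induction_on with
  | _ n ih =>
    intro W hWn hW
    by_cases hNC : FX_NC G W
    · have hK := hW.2.2 W ⟨Subset.refl W, hNC, fun U' h1 _ h3 => Subset.antisymm h1 h3⟩
      rw [FX_ad_clique hK.2, hK.1]
    · obtain ⟨P, Q, v, hG, hPQ, hP, hQ, hSP, hSQ⟩ := FX_split hW hNC
      have h1 := ih P.card (by omega) P rfl hSP
      have h2 := ih Q.card (by omega) Q rfl hSQ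
      have h3 := FX_card_glue hG
      have h4 := FX_ad_glue hG
      have h5 : 1 ≤ P.card := card_pos.mpr hSP.1
      have h6 : 1 ≤ Q.card := card_pos.mpr hSQ.1
      rw [hPQ, h4, h1, h2, ← mul_add]
      congr 1
      omega

/-- a chain is connected -/
theorem FX_Cf_chain {G : SimpleGraph V} : ∀ l : List V, l.IsChain G.Adj → FX_Cf G l.toFinset := by
  intro l
  induction l with
  | nil =>
    intro _ A B hA _ _ hAB
    obtain ⟨a, ha⟩ := hA
    have : a ∈ (([] : List V).toFinset) := by rw [← hAB]; exact mem_union_left _ ha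
    simp at this
  | cons x l ih =>
    intro hc
    cases l with
    | nil =>
      refine FX_Cf_clique fun a ha b hb hab => ?_
      simp only [List.toFinset_cons, List.toFinset_nil, insert_empty_eq, mem_singleton] at ha hb
      exact absurd (ha.trans hb.symm) hab
    | cons y l =>
      rw [List.isChain_cons_cons] at hc
      have h1 : FX_Cf G ({x, y} : Finset V) := by
        refine FX_Cf_clique fun a ha b hb hab => ?_
        simp only [mem_insert, mem_singleton] at ha hb
        rcases ha with rfl | rfl <;> rcases hb with rfl | rfl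
        · exact absurd rfl hab
        · exact hc.1
        · exact hc.1.symm
        · exact absurd rfl hab
      have h2 := FX_Cf_union h1 (ih hc.2) (v := y) (by simp) (by simp)
      have h3 : (x :: y :: l).toFinset = {x, y} ∪ (y :: l).toFinset := by
        ext w
        simp only [List.toFinset_cons, mem_insert, mem_union, mem_singleton]
        tauto
      rw [h3]
      exact h2

/-- the set of the vertices of a cycle has no cut vertex -/
theorem FX_NC_cyc {G : SimpleGraph V} {l : List V} (h : CycL G l) : FX_NC G l.toFinset := by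
  have h3 := h.1
  refine ⟨?_, FX_Cf_chain l h.2.2.1, fun v hv => ?_⟩
  · have hne : l ≠ [] := by
      intro h0
      rw [h0] at h3
      simp at h3
    obtain ⟨a, ha⟩ := List.exists_mem_of_ne_nil l hne
    exact ⟨a, List.mem_toFinset.mpr ha⟩
  · rw [List.mem_toFinset] at hv
    obtain ⟨n, l', -, h2, h4, -⟩ := lib_cyc_start h hv
    have h5 : l.toFinset.erase v = l'.toFinset := by
      have hnd := h2.2.1
      rw [List.nodup_cons] at hnd
      ext w
      rw [mem_erase, List.mem_toFinset, List.mem_toFinset, ← h4 w, List.mem_cons]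
      constructor
      · rintro ⟨a, b⟩
        exact b.resolve_left a
      · intro hw
        exact ⟨fun h => hnd.1 (h ▸ hw), Or.inr hw⟩
    rw [h5]
    exact FX_Cf_chain l' (h2.2.2.1.tail)

/-- the length of a cycle is bounded by the order of the blocks -/
theorem FX_cyc_le {G : SimpleGraph V} {k : ℕ} {W : Finset V} (hW : FX_St G k W) {l : List V}
    (h : CycL G l) (hl : ∀ v ∈ l, v ∈ W) : l.length ≤ k := by
  have hNC := FX_NC_cyc h
  have hsub : l.toFinset ⊆ W := fun v hv => hl v (List.mem_toFinset.mp hv)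
  obtain ⟨U, hU, hmax⟩ := Finset.exists_max_image
    (W.powerset.filter fun U => FX_NC G U ∧ l.toFinset ⊆ U) card
    ⟨l.toFinset, mem_filter.mpr ⟨mem_powerset.mpr hsub, hNC, Subset.refl _⟩⟩
  rw [mem_filter, mem_powerset] at hU
  have hK := hW.2.2 U ⟨hU.1, hU.2.1, fun U' h1 h2 h3 => by
    have := hmax U' (mem_filter.mpr ⟨mem_powerset.mpr h1, h2, hU.2.2.trans h3⟩)
    exact (eq_of_subset_of_card_le h3 this).symm⟩
  rw [← List.toFinset_card_of_nodup h.2.1, ← hK.1]
  exact card_le_card hU.2.2

end Pool.CMK
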