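import Pool.Agent.CMX.F_Base

/-!
# CMX, part F: the upper bound and the structure in the case of equality
-/

set_option autoImplicit false

namespace Pool.CMK

open Finset
open scoped Classical

variable {V : Type}

theorem FX_ad_map (G : SimpleGraph V) (W : Finset V) (X Y : Finset {x // x ∈ W}) :
    ad (G.comap (Subtype.val : {x // x ∈ W} → V)) X Y =
      ad G (X.map (Function.Embedding.subtype _)) (Y.map (Function.Embedding.subtype _)) := by
  rw [lib_ad_eq_sum, lib_ad_eq_sum, Finset.sum_map]
  refine Finset.sum_congr rfl fun x _ => ?_
  unfold nbs
  rw [Finset.filter_map, Finset.card_map]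
  rfl

theorem FX_cyc_map (G : SimpleGraph V) (W : Finset V)
    (l : List {x // x ∈ W}) (h : CycL (G.comap (Subtype.val : {x // x ∈ W} → V)) l) :
    CycL G (l.map Subtype.val) := by
  obtain ⟨h3, hnd, hch, a, b, ha, hb, hab⟩ := h
  refine ⟨by rw [List.length_map]; exact h3, hnd.map Subtype.val_injective, ?_, a.1, b.1, ?_, ?_,
    hab⟩
  · rw [List.isChain_map]
    exact hch
  · rw [List.head?_map, ha]
    rfl
  · rw [List.getLast?_map, hb]
    rfl

/-- the edges of `W` -/
theorem FX_ad_compl (G : SimpleGraph V) {W A : Finset V} (hA : A ⊆ W) :
    ad G W W = ad G A A + 2 * ad G A (W \ A) + ad G (W \ A) (W \ A) := by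
  have hd : Disjoint A (W \ A) := disjoint_sdiff
  have hW : W = A ∪ (W \ A) := (union_sdiff_of_subset hA).symm
  have h : ad G W W = ad G (A ∪ (W \ A)) (A ∪ (W \ A)) := by rw [← hW]
  rw [h, lib_ad_union_left G hd, lib_ad_union_right G hd, lib_ad_union_right G hd,
    lib_ad_comm G (W \ A) A]
  omega

theorem FX_up (G : SimpleGraph V) (k : ℕ) (hk : 2 ≤ k)
    (hB : ∀ (V : Type) [Fintype V] (G : SimpleGraph V),
      SC G 2 → k + 1 ≤ Fintype.card V → k * (Fintype.card V - 1) ≤ ad G univ univ →
      (∀ A : Finset V, A.Nonempty → A ≠ univ → k * A.card ≤ ad G A A + 2 * ad G A Aᶜ) →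
      ∃ l, CycL G l ∧ l.length % k = 1) :
    ∀ (n : ℕ) (W : Finset V), W.card = n → W.Nonempty →
      (∀ l, CycL G l → (∀ v ∈ l, v ∈ W) → l.length % k ≠ 1) →
      ad G W W ≤ k * (W.card - 1) ∧
        (ad G W W = k * (W.card - 1) → W.card = 1 ∨ FX_St G k W) := by
  have hB' : ∀ (V : Type) [Fintype V] (G : SimpleGraph V),
      (3 ≤ Fintype.card V ∧ ∀ A B C : Finset V, A.Nonempty → B.Nonempty → Disjoint A B →
        (∀ a ∈ A, ∀ b ∈ B, ¬ G.Adj a b) → (∀ x, x ∈ C ↔ x ∉ A ∧ x ∉ B) → 2 ≤ C.card) →
      k + 1 ≤ Fintype.card V → k * (Fintype.card V - 1) ≤ ad G univ univ →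
      (∀ A C : Finset V, A.Nonempty → C.Nonempty → (∀ x, x ∈ C ↔ x ∉ A) →
        k * A.card ≤ ad G A A + 2 * ad G A C) →
      ∃ l, CycL G l ∧ l.length % k = 1 := by
    intro V _ G h1 h2 h3 h4
    refine hB V G ⟨h1.1, fun A B hA hB' hd hno => h1.2 A B _ hA hB' hd hno fun x => ?_⟩ h2 h3
      fun A hA hAu => h4 A Aᶜ hA ?_ fun x => mem_compl
    · rw [mem_compl, mem_union, not_or]
    · rw [nonempty_iff_ne_empty]
      exact fun h => hAu (compl_eq_empty_iff A |>.mp h)
  clear hB
  intro n
  induction n using Nat.strong_induction_on with
  | _ n ih =>
    intro W hWn hne hcyc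
    have hW1 : 1 ≤ W.card := card_pos.mpr hne
    by_cases hle : W.card ≤ k
    · have h1 := FX_ad_le G W
      have h2 : W.card * (W.card - 1) ≤ k * (W.card - 1) := Nat.mul_le_mul_right _ hle
      refine ⟨h1.trans h2, fun heq => ?_⟩
      by_cases h3 : W.card = 1
      · exact Or.inl h3
      · right
        have h4 : 1 ≤ W.card - 1 := by omega
        have h5 : k * (W.card - 1) ≤ W.card * (W.card - 1) := by omega
        have h6 : k ≤ W.card := Nat.le_of_mul_le_mul_right h5 h4
        have h7 : W.card = k := by omega
        exact FX_St_clique (by omega) ⟨h7, FX_clique_of_ad (by omega)⟩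
    · by_contra hcon
      have hge : k * (W.card - 1) ≤ ad G W W := by
        by_contra h
        apply hcon
        exact ⟨by omega, fun h' => by omega⟩
      -- subsets satisfy the statement
      have hsub : ∀ P : Finset V, P ⊆ W → P.Nonempty → P.card < W.card →
          ad G P P ≤ k * (P.card - 1) ∧
            (ad G P P = k * (P.card - 1) → P.card = 1 ∨ FX_St G k P) := by
        intro P hP hPn hPc
        exact ih P.card (by omega) P rfl hPn fun l hl hlP => hcyc l hl fun v hv => hP (hlP v hv)
      -- no separation
      have hsep : ∀ A B : Finset V, A.Nonempty → B.Nonempty → Disjoint A B → A ⊆ W → B ⊆ W →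
          (∀ a ∈ A, ∀ b ∈ B, ¬ G.Adj a b) → (W \ (A ∪ B)).card ≤ 1 → False := by
        intro A B hA hB hd hAW hBW hno hS
        have hA1 : 1 ≤ A.card := card_pos.mpr hA
        have hB1 : 1 ≤ B.card := card_pos.mpr hB
        have hcU : (A ∪ B).card = A.card + B.card := card_union_of_disjoint hd
        have hUW : A ∪ B ⊆ W := union_subset hAW hBW
        have hcS : (W \ (A ∪ B)).card + (A ∪ B).card = W.card := card_sdiff_add_card_eq_card hUW
        rcases Nat.le_one_iff_eq_zero_or_eq_one.mp hS with h0 | h1
        · have hWe : W = A ∪ B := by
            have := sdiff_eq_empty_iff_subset.mp (card_eq_zero.mp h0)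
            exact Subset.antisymm this hUW
          have g1 := (hsub A hAW hA (by omega)).1
          have g2 := (hsub B hBW hB (by omega)).1
          have g3 : ad G W W = ad G A A + ad G B B := by
            rw [hWe]
            exact FX_ad_disj hd hno
          have g4 : k * (A.card - 1) + k * (B.card - 1) < k * (W.card - 1) := by
            rw [← mul_add]
            exact Nat.mul_lt_mul_of_pos_left (by omega) (by omega)
          omega
        · obtain ⟨v, hv⟩ := card_eq_one.mp h1
          have hvS : v ∈ W \ (A ∪ B) := by rw [hv]; exact mem_singleton_self v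
          rw [mem_sdiff, mem_union, not_or] at hvS
          obtain ⟨hvW, hvA, hvB⟩ := hvS
          have hWe : W = insert v A ∪ insert v B := by
            ext w
            simp only [mem_union, mem_insert]
            constructor
            · intro hw
              by_cases hw' : w ∈ W \ (A ∪ B)
              · rw [hv, mem_singleton] at hw'
                exact Or.inl (Or.inl hw')
              · rw [mem_sdiff, not_and, not_not, mem_union] at hw'
                rcases hw' hw with h | h
                · exact Or.inl (Or.inr h)
                · exact Or.inr (Or.inr h)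
            · rintro ((h | h) | (h | h))
              · rw [h]; exact hvW
              · exact hAW h
              · rw [h]; exact hvW
              · exact hBW h
          have hG : FX_Gl G (insert v A) (insert v B) v := by
            constructor
            · rw [← insert_inter_distrib, disjoint_iff_inter_eq_empty.mp hd, insert_empty_eq]
            · intro a ha b hb hav hbv
              rw [mem_insert] at ha hb
              exact hno a (ha.resolve_left hav) b (hb.resolve_left hbv)
          have hcA : (insert v A).card = A.card + 1 := card_insert_of_notMem hvA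
          have hcB : (insert v B).card = B.card + 1 := card_insert_of_notMem hvB
          have g1 := hsub (insert v A) (insert_subset hvW hAW) (insert_nonempty v A) (by omega)
          have g2 := hsub (insert v B) (insert_subset hvW hBW) (insert_nonempty v B) (by omega)
          have g3 : ad G W W = ad G (insert v A) (insert v A) + ad G (insert v B) (insert v B) := by
            conv_lhs => rw [hWe]
            exact FX_ad_glue hG
          have g4 : k * ((insert v A).card - 1) + k * ((insert v B).card - 1) =
              k * (W.card - 1) := by
            rw [← mul_add]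
            congr 1
            omega
          have e1 : ad G (insert v A) (insert v A) = k * ((insert v A).card - 1) := by
            have := g1.1
            have := g2.1
            omega
          have e2 : ad G (insert v B) (insert v B) = k * ((insert v B).card - 1) := by
            have := g1.1
            have := g2.1
            omega
          have s1 : FX_St G k (insert v A) := (g1.2 e1).resolve_left (by omega)
          have s2 : FX_St G k (insert v B) := (g2.2 e2).resolve_left (by omega)
          have s3 := FX_glue hG s1 s2
          rw [← hWe] at s3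
          exact hcon ⟨by omega, fun _ => Or.inr s3⟩
      -- the subgraph
      set e : {x // x ∈ W} ↪ V := Function.Embedding.subtype _ with he
      have hmap : ∀ X : Finset {x // x ∈ W}, X.map e ⊆ W := by
        intro X w hw
        rw [mem_map] at hw
        obtain ⟨x, -, rfl⟩ := hw
        exact x.2
      have huniv : (univ : Finset {x // x ∈ W}).map e = W := by
        apply Subset.antisymm (hmap _)
        intro w hw
        exact mem_map.mpr ⟨⟨w, hw⟩, mem_univ _, rfl⟩
      have hcompl : ∀ X Y : Finset {x // x ∈ W}, (∀ x, x ∈ Y ↔ x ∉ X) →
          Y.map e = W \ X.map e := by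
        intro X Y hXY
        ext w
        simp only [mem_map, mem_sdiff]
        constructor
        · rintro ⟨x, hx, rfl⟩
          refine ⟨x.2, ?_⟩
          rintro ⟨y, hy, hxy⟩
          exact (hXY x).mp hx (e.injective hxy ▸ hy)
        · rintro ⟨hw, hn⟩
          exact ⟨⟨w, hw⟩, (hXY _).mpr fun h => hn ⟨⟨w, hw⟩, h, rfl⟩, rfl⟩
      have hcW : Fintype.card {x // x ∈ W} = W.card := Fintype.card_coe W
      obtain ⟨l, hl, hmod⟩ := hB' {x // x ∈ W} (G.comap (Subtype.val : {x // x ∈ W} → V))
        (by
          refine ⟨by rw [hcW]; omega, fun A B C hA hB' hd hno hC => ?_⟩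
          by_contra hlt
          refine hsep (A.map e) (B.map e) (hA.map) (hB'.map)
            ((disjoint_map e).mpr hd) (hmap A) (hmap B) ?_ ?_
          · intro a ha b hb
            rw [mem_map] at ha hb
            obtain ⟨a', ha', rfl⟩ := ha
            obtain ⟨b', hb', rfl⟩ := hb
            exact hno a' ha' b' hb'
          · have h1 : W \ (A.map e ∪ B.map e) ⊆ C.map e := by
              intro w hw
              rw [mem_sdiff, mem_union, not_or] at hw
              refine mem_map.mpr ⟨⟨w, hw.1⟩, (hC _).mpr ⟨fun h => hw.2.1 ?_, fun h => hw.2.2 ?_⟩,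
                rfl⟩
              · exact mem_map.mpr ⟨⟨w, hw.1⟩, h, rfl⟩
              · exact mem_map.mpr ⟨⟨w, hw.1⟩, h, rfl⟩
            have h2 := card_le_card h1
            rw [card_map] at h2
            omega)
        (by rw [hcW]; omega)
        (by
          rw [hcW, FX_ad_map, ← he, huniv]
          exact hge)
        (by
          intro A C hA hCn hC
          rw [FX_ad_map, FX_ad_map, ← he, hcompl A C hC]
          have hAW := hmap A
          have hcA : (A.map e).card = A.card := card_map e
          have hne' : (W \ A.map e).Nonempty := by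
            rw [← hcompl A C hC]
            exact hCn.map
          have hA1 : 1 ≤ A.card := card_pos.mpr hA
          have hcS : (W \ A.map e).card + (A.map e).card = W.card :=
            card_sdiff_add_card_eq_card hAW
          have hS1 : 1 ≤ (W \ A.map e).card := card_pos.mpr hne'
          have g1 := (hsub (W \ A.map e) sdiff_subset hne' (by omega)).1
          have g2 := FX_ad_compl G hAW
          have g3 : k * (W.card - 1) = k * ((W \ A.map e).card - 1) + k * A.card := by
            rw [← mul_add]
            congr 1
            omega
          omega)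
      refine hcyc (l.map Subtype.val) (FX_cyc_map G W l hl) ?_ (by
        rw [List.length_map]
        exact hmod)
      intro v hv
      rw [List.mem_map] at hv
      obtain ⟨x, -, rfl⟩ := hv
      exact x.2

end Pool.CMK
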