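import Pool.Agent.CMX.StB
import Pool.Agent.CMK.Lib

/-!
# CMX, LEMB: a cycle through all typical vertices and given segments (MP_3a51d2_co)
-/

set_option autoImplicit false

namespace Pool.CMK

open Finset
open scoped Classical

/-- a vertex of `S` outside of `F` -/
private lemma L_choose {V : Type} (S F : Finset V) (h : F.card < S.card) : ∃ r ∈ S, r ∉ F := by
  by_contra hcon
  push Not at hcon
  have := card_le_card (fun x hx => hcon x hx : S ⊆ F)
  omega

/-- the blocks are joined by common neighbours in `R` -/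
theorem L_join {V : Type} (G : SimpleGraph V) (R T : Finset V) (N : ℕ)
    (hN : ∀ x ∈ T, ∀ y ∈ T, N ≤ (R.filter (fun r => G.Adj x r ∧ G.Adj y r)).card) (F : Finset V) :
    ∀ Bs : List (List V), Bs ≠ [] → (∀ B ∈ Bs, ∃ x y, x ∈ T ∧ y ∈ T ∧ PathFT G x y B) →
      Bs.flatten.Nodup → (∀ v ∈ Bs.flatten, v ∈ F) →
      F.card + (Bs.flatten.length + Bs.length) ≤ N →
      ∃ (x y : V) (P : List V), x ∈ T ∧ y ∈ T ∧ PathFT G x y P ∧
        P.length + 1 = Bs.flatten.length + Bs.length ∧
        ∀ v ∈ P, v ∈ Bs.flatten ∨ (v ∈ R ∧ v ∉ F) := by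
  intro Bs
  induction Bs with
  | nil => intro h; exact absurd rfl h
  | cons B Bs ih =>
    intro _ hB hnd hF hcard
    obtain ⟨x, y, hx, hy, hp⟩ := hB B List.mem_cons_self
    rcases Bs with _ | ⟨B', Bs'⟩
    · refine ⟨x, y, B, hx, hy, hp, by simp, ?_⟩
      intro v hv
      left
      simpa using hv
    · obtain ⟨Bs, hBs⟩ : ∃ Bs, Bs = B' :: Bs' := ⟨_, rfl⟩
      rw [← hBs] at ih hB hnd hF hcard ⊢
      rw [List.flatten_cons] at hnd hF hcard ⊢
      rw [List.nodup_append] at hnd
      rw [List.length_append, List.length_cons] at hcard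
      obtain ⟨x', y', P', hx', hy', hp', hl', hv'⟩ := ih (by rw [hBs]; simp)
        (fun C hC => hB C (List.mem_cons_of_mem _ hC)) hnd.2.1
        (fun v hv => hF v (List.mem_append_right _ hv)) (by omega)
      obtain ⟨r, hr, hrF⟩ := L_choose (R.filter (fun r => G.Adj y r ∧ G.Adj x' r))
        (F ∪ P'.toFinset) (by
          have h1 := card_union_le F P'.toFinset
          have h2 := List.toFinset_card_le P'
          have h3 := hN y hy x' hx'
          omega)
      rw [mem_filter] at hr
      rw [mem_union, List.mem_toFinset, not_or] at hrF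
      have hpr : PathFT G r r [r] := ⟨⟨by simp, by simp, by simp⟩, by simp, by simp⟩
      have hq : PathFT G r y' ([r] ++ P') := lib_path_append hpr hp' (by
        intro w hw
        rw [List.mem_singleton] at hw
        rw [hw]
        exact hrF.2) hr.2.2.symm
      have hd : ∀ w ∈ B, w ∉ [r] ++ P' := by
        intro w hw hw'
        have hwF := hF w (List.mem_append_left _ hw)
        rw [List.mem_append, List.mem_singleton] at hw'
        rcases hw' with rfl | hw'
        · exact hrF.1 hwF
        · rcases hv' w hw' with h | h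
          · exact hnd.2.2 w hw w h rfl
          · exact h.2 hwF
      refine ⟨x, y', B ++ ([r] ++ P'), hx, hy', lib_path_append hp hq hd hr.2.1, ?_, ?_⟩
      · simp only [List.length_append, List.length_cons, List.length_nil]
        omega
      · intro v hv
        rw [List.mem_append, List.mem_append, List.mem_singleton] at hv
        rcases hv with hv | rfl | hv
        · exact Or.inl (List.mem_append_left _ hv)
        · exact Or.inr ⟨hr.1, hrF.1⟩
        · rcases hv' v hv with h | h
          · exact Or.inl (List.mem_append_right _ h)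
          · exact Or.inr h

theorem L_close {V : Type} (G : SimpleGraph V) (R T : Finset V) (N : ℕ)
    (hN : ∀ x ∈ T, ∀ y ∈ T, N ≤ (R.filter (fun r => G.Adj x r ∧ G.Adj y r)).card)
    (Bs : List (List V)) (h3 : 3 ≤ Bs.flatten.length + Bs.length)
    (hB : ∀ B ∈ Bs, ∃ x y, x ∈ T ∧ y ∈ T ∧ PathFT G x y B) (hnd : Bs.flatten.Nodup)
    (hcard : 2 * Bs.flatten.length + Bs.length ≤ N) :
    ∃ l, CycL G l ∧ l.length = Bs.flatten.length + Bs.length := by
  have hne : Bs ≠ [] := by
    rintro rfl
    simp at h3
  have hFc : Bs.flatten.toFinset.card = Bs.flatten.length := List.toFinset_card_of_nodup hnd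
  obtain ⟨x, y, P, hx, hy, hp, hl, hv⟩ := L_join G R T N hN Bs.flatten.toFinset Bs hne hB hnd
    (fun v hv => List.mem_toFinset.2 hv) (by omega)
  obtain ⟨r, hr, hrF⟩ := L_choose (R.filter (fun r => G.Adj y r ∧ G.Adj x r)) P.toFinset (by
    have h2 := List.toFinset_card_le P
    have h3 := hN y hy x hx
    omega)
  rw [mem_filter] at hr
  rw [List.mem_toFinset] at hrF
  have hpr : PathFT G r r [r] := ⟨⟨by simp, by simp, by simp⟩, by simp, by simp⟩
  refine ⟨P ++ [r], lib_cyc_of_paths hp hpr ?_ hr.2.1 hr.2.2.symm ?_, ?_⟩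
  · intro w hw hw'
    rw [List.mem_singleton] at hw'
    rw [hw'] at hw
    exact hrF hw
  · simp only [List.length_cons, List.length_nil]
    omega
  · simp only [List.length_append, List.length_cons, List.length_nil]
    omega

private lemma L_flat_single {V : Type} (l : List V) : (l.map (fun x => [x])).flatten = l := by
  induction l with
  | nil => rfl
  | cons a l ih => simp only [List.map_cons, List.flatten_cons, ih, List.cons_append, List.nil_append]

/-- every segment gets two private typical vertices -/
theorem L_blocks {V : Type} (G : SimpleGraph V) : ∀ (Es : List (List V)) (X : Finset V) (D : ℕ),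
    (∀ E ∈ Es, ∃ a b, PathFT G a b E ∧ D ≤ (nbs G a X).card ∧ D ≤ (nbs G b X).card) →
    Es.flatten.Nodup → (∀ v ∈ Es.flatten, v ∉ X) → 2 * Es.length ≤ D →
    ∃ Bs : List (List V), (∀ B ∈ Bs, ∃ x y, x ∈ X ∧ y ∈ X ∧ PathFT G x y B) ∧
      Bs.flatten.Nodup ∧ (∀ v ∈ Bs.flatten, v ∈ X ∨ v ∈ Es.flatten) ∧
      Bs.flatten.length = X.card + Es.flatten.length ∧ Bs.length + Es.length = X.card := by
  intro Es
  induction Es with
  | nil =>
    intro X D _ _ _ _
    refine ⟨X.toList.map (fun x => [x]), ?_, ?_, ?_, ?_, ?_⟩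
    · intro B hB
      rw [List.mem_map] at hB
      obtain ⟨x, hx, rfl⟩ := hB
      rw [mem_toList] at hx
      exact ⟨x, x, hx, hx, ⟨by simp, by simp, by simp⟩, by simp, by simp⟩
    · rw [L_flat_single]
      exact nodup_toList _
    · intro v hv
      rw [L_flat_single, mem_toList] at hv
      exact Or.inl hv
    · rw [L_flat_single, length_toList]
      simp
    · rw [List.length_map, length_toList]
      simp
  | cons E Es ih =>
    intro X D hE hnd hX hD
    rw [List.length_cons] at hD
    obtain ⟨a, b, hab, ha, hb⟩ := hE E List.mem_cons_self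
    rw [List.flatten_cons] at hnd hX
    rw [List.nodup_append] at hnd
    obtain ⟨x, hx, -⟩ := L_choose (nbs G a X) ∅ (by rw [card_empty]; omega)
    obtain ⟨y, hy, hyx⟩ := L_choose (nbs G b X) {x} (by rw [card_singleton]; omega)
    rw [mem_singleton] at hyx
    rw [lib_mem_nbs] at hx hy
    obtain ⟨X', hX'⟩ : ∃ X', X' = (X.erase x).erase y := ⟨_, rfl⟩
    have hX'c : X'.card + 2 = X.card := by
      rw [hX', card_erase_of_mem (mem_erase.2 ⟨hyx, hy.1⟩), card_erase_of_mem hx.1]
      have h1 : 1 < X.card := one_lt_card.2 ⟨x, hx.1, y, hy.1, fun h => hyx h.symm⟩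
      omega
    have hX'X : ∀ v ∈ X', v ∈ X ∧ v ≠ x ∧ v ≠ y := by
      intro v hv
      rw [hX', mem_erase, mem_erase] at hv
      exact ⟨hv.2.2, hv.2.1, hv.1⟩
    have hdeg : ∀ c : V, D ≤ (nbs G c X).card → D - 2 ≤ (nbs G c X').card := by
      intro c hc
      have h1 : nbs G c X ⊆ nbs G c X' ∪ {x, y} := by
        intro w hw
        rw [lib_mem_nbs] at hw
        rw [mem_union, mem_insert, mem_singleton, lib_mem_nbs, hX', mem_erase, mem_erase]
        by_cases h2 : w = x
        · exact Or.inr (Or.inl h2)
        by_cases h3 : w = y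
        · exact Or.inr (Or.inr h3)
        exact Or.inl ⟨⟨h3, h2, hw.1⟩, hw.2⟩
      have h2 := (card_le_card h1).trans (card_union_le _ _)
      have h3 : ({x, y} : Finset V).card ≤ 2 := card_le_two
      omega
    obtain ⟨Bs, b1, b2, b3, b4, b5⟩ := ih X' (D - 2)
      (by
        intro E' hE'
        obtain ⟨a', b', h1, h2, h3⟩ := hE E' (List.mem_cons_of_mem _ hE')
        exact ⟨a', b', h1, hdeg a' h2, hdeg b' h3⟩) hnd.2.1
      (by
        intro v hv hv'
        exact hX v (List.mem_append_right _ hv) (hX'X v hv').1) (by omega)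
    have hpx : PathFT G x x [x] := ⟨⟨by simp, by simp, by simp⟩, by simp, by simp⟩
    have hpy : PathFT G y y [y] := ⟨⟨by simp, by simp, by simp⟩, by simp, by simp⟩
    have hxE : x ∉ E := fun h => hX x (List.mem_append_left _ h) hx.1
    have hyE : y ∉ E := fun h => hX y (List.mem_append_left _ h) hy.1
    have hq1 : PathFT G x b ([x] ++ E) := lib_path_append hpx hab (by
      intro w hw
      rw [List.mem_singleton] at hw
      rw [hw]
      exact hxE) hx.2.symm
    have hq2 : PathFT G x y (([x] ++ E) ++ [y]) := lib_path_append hq1 hpy (by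
      intro w hw hw'
      rw [List.mem_singleton] at hw'
      rw [hw', List.mem_append, List.mem_singleton] at hw
      rcases hw with h | h
      · exact hyx h
      · exact hyE h) hy.2
    refine ⟨(([x] ++ E) ++ [y]) :: Bs, ?_, ?_, ?_, ?_, ?_⟩
    · intro B hB
      rcases List.mem_cons.1 hB with rfl | hB
      · exact ⟨x, y, hx.1, hy.1, hq2⟩
      · obtain ⟨x', y', h1, h2, h3⟩ := b1 B hB
        exact ⟨x', y', (hX'X _ h1).1, (hX'X _ h2).1, h3⟩
    · rw [List.flatten_cons, List.nodup_append]
      refine ⟨hq2.1.2.1, b2, ?_⟩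
      intro u hu w hw huw
      subst huw
      rw [List.mem_append, List.mem_append, List.mem_singleton, List.mem_singleton] at hu
      rcases b3 u hw with h | h
      · obtain ⟨h1, h2, h3⟩ := hX'X u h
        rcases hu with (hu | hu) | hu
        · exact h2 hu
        · exact hX u (List.mem_append_left _ hu) h1
        · exact h3 hu
      · rcases hu with (hu | hu) | hu
        · rw [hu] at h
          exact hX x (List.mem_append_right _ h) hx.1
        · exact hnd.2.2 u hu u h rfl
        · rw [hu] at h
          exact hX y (List.mem_append_right _ h) hy.1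
    · intro v hv
      rw [List.flatten_cons, List.mem_append, List.mem_append, List.mem_append,
        List.mem_singleton, List.mem_singleton] at hv
      rw [List.flatten_cons, List.mem_append]
      rcases hv with ((rfl | hv) | rfl) | hv
      · exact Or.inl hx.1
      · exact Or.inr (Or.inl hv)
      · exact Or.inl hy.1
      · rcases b3 v hv with h | h
        · exact Or.inl (hX'X v h).1
        · exact Or.inr (Or.inr h)
    · rw [List.flatten_cons, List.flatten_cons]
      simp only [List.length_append, List.length_cons, List.length_nil]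
      omega
    · rw [List.length_cons, List.length_cons]
      omega

/-- A cycle through all of `X` and all segments. -/
theorem L_cyc {V : Type} (G : SimpleGraph V) (R X : Finset V) (N D : ℕ) (Es : List (List V))
    (hN : ∀ x ∈ X, ∀ y ∈ X, N ≤ (R.filter (fun r => G.Adj x r ∧ G.Adj y r)).card)
    (hE : ∀ E ∈ Es, ∃ a b, PathFT G a b E ∧ D ≤ (nbs G a X).card ∧ D ≤ (nbs G b X).card)
    (hnd : Es.flatten.Nodup) (hX : ∀ v ∈ Es.flatten, v ∉ X) (hD : 2 * Es.length ≤ D)
    (hX2 : 2 ≤ X.card) (hcard : 3 * X.card + 2 * Es.flatten.length ≤ N) :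
    ∃ l, CycL G l ∧ l.length + Es.length = 2 * X.card + Es.flatten.length := by
  obtain ⟨Bs, b1, b2, b3, b4, b5⟩ := L_blocks G Es X D hE hnd hX hD
  have hpos : 0 < Bs.length := by
    rw [List.length_pos_iff]
    rintro rfl
    rw [List.flatten_nil, List.length_nil] at b4
    omega
  obtain ⟨l, hl, hl'⟩ := L_close G R X N hN Bs (by omega) b1 b2 (by omega)
  exact ⟨l, hl, by omega⟩

end Pool.CMK
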