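import Pool.Agent.CMX.StB

/-!
# CMX, module Large: a large region contains a cycle of length `1` modulo `k`
-/

set_option autoImplicit false

namespace Pool.CMK

open Finset
open scoped Classical

theorem thm_Large (hLemB : St_LemB) (hStruct : St_Struct) : St_Large := by
  obtain ⟨ζ, C₀, hζ, hζ1, hB⟩ := hLemB
  obtain ⟨C, M₀, hS⟩ := hStruct ζ C₀ hζ hζ1
  refine ⟨C, M₀, fun M hM => ?_⟩
  obtain ⟨k₁, h1⟩ := hB M
  obtain ⟨k₂, h2⟩ := hS M hM
  refine ⟨k₁ + k₂ + 2, fun k hk hodd V _ G A hA hC => ?_⟩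
  rcases h2 k (by omega) hodd V G A hA hC with h | ⟨R, X, h3, h4, h5, h6, h7, h8, h9⟩
  · exact h
  · obtain ⟨l, hl, hlen⟩ := h1 k (by omega) hodd V G A R X hA.deg hA.bd h3 h4 h5 h6 h7 h8 h9
    refine ⟨l, hl, ?_⟩
    rw [hlen, Nat.add_mod_left, Nat.mod_eq_of_lt (by omega)]

end Pool.CMK
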