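import Pool.Agent.CMX.Top
import Pool.Agent.CMK.St1
import Pool.Agent.CMK.StS

/-!
# CMX part A: `St_TFour` (disjoint pairs of total size `(1 + 2 ε) k`), statements with complete proofs

Every module is one file `Pool/Agent/CMX/X.lean` with `import Pool.Agent.CMX.StA`, namespace `Pool.CMK`, and the theorem
`thm_X` with exactly the signature given in the docstring (earlier statements are hypotheses).  Own lemmas `private`
or with names starting with `X_`.  Put `open Finset` and `open scoped Classical`.  No sorry, no forbidden words.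
Library: `Pool/Agent/CMK/Lib.lean` (paths and cycles as lists), definitions: `Pool/Agent/CMK/Defs.lean`, `Pool/Agent/CMX/Top.lean`.
-/

set_option autoImplicit false

namespace Pool.CMK

open Finset
open scoped Classical

/-- ARITH (file `Arith.lean`, `thm_Arith : St_Arith`).  Choosing groups of routes.

Proof. We may assume `ε ≤ 1/4`. `L = ⌈1 / ε⌉₊ + 3`, `q = ⌈8 L / ε⌉₊`, `M' = L q`. Let `h = (k + 1) / 2`, so `2 h ≡ 1` mod `k`, and for `a : Fin M'` let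
`y_a ∈ [0, k)` be the residue of `h w_a`. Divide `[0, k)` into `q` intervals of length `k / q ≤ ε k / (8 L)`: at least `L` of the `y_a` (`a ∈ F₀`) lie in one
interval `[y, y + ε k / (8 L))` (`y` an integer: take the smallest `y_a`, `a ∈ F₀`). Let `σ ≡ - y` mod `k` with `- k / 2 < σ ≤ k / 2`, `J = [ε k / 4, (1/2 + ε) k]`.
Claim: there is `1 ≤ m ≤ L` such that `h + m σ` is congruent mod `k` to an integer `j₀ ∈ J`. (1) `h + σ ∈ J`: `m = 1`. (2) `h + σ > (1/2 + ε) k`: then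
`σ > ε k - 1/2 ≥ ε k / 2` (`k` large). Let `m` be minimal with `h + m σ ≥ k + ε k / 4`. Since `σ ≤ k / 2`, `h + m σ < (3/2 + ε/4) k`, so `j₀ = h + m σ - k ∈ J`; and
`(m - 1) σ < k + ε k / 4 - h ≤ (1/2 + ε/4) k`, so `m - 1 < 1/ε + 1/2`, `m ≤ L`. (3) `h + σ < ε k / 4`: then `- k/2 < σ < ε k / 4 - h ≤ (ε/4 - 1/2) k`, and
`j₀ = h + 2 σ + k` satisfies `h < j₀ < h + ε k / 2 ≤ (1/2 + ε) k` (`m = 2`).
Let `F ⊆ F₀`, `|F| = m`, `∑_(a ∈ F) y_a = m y + θ`, `0 ≤ θ ≤ m ε k / (8 L) ≤ ε k / 8`. For even `e ≤ E₀` put `t = j₀ - θ - e / 2`: an integer,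
`t ≥ ε k / 4 - ε k / 8 - E₀ / 2 ≥ 0` for `k ≥ 4 E₀ / ε`, `t ≤ (1/2 + ε) k`. With `W = ∑_(a ∈ F) w_a`: `2 t ≡ 2 (h - ∑ y_a) - e ≡ 1 - W - e` mod `k` (`2 y_a ≡ w_a`). -/
def St_Arith : Prop := ∀ ε : ℝ, 0 < ε → ∃ M' : ℕ, 1 ≤ M' ∧ ∀ E₀ : ℕ, ∃ k₀ : ℕ, ∀ k ≥ k₀, Odd k →
  ∀ w : Fin M' → ℕ, ∃ F : Finset (Fin M'), F.Nonempty ∧ ∀ e : ℕ, Even e → e ≤ E₀ →
    ∃ t : ℕ, (t : ℝ) ≤ (1 / 2 + ε) * k ∧ (∑ a ∈ F, w a + e + 2 * t) % k = 1

/-- ROUTES (file `Routes.lean`, `thm_Routes : St_Routes`).  Disjoint routes from `D j₀` to all the other sets.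

Proof. Let `W` be the vertex set `V` with additional vertices: a node `(j, a)` for all `j ≠ j₀`, `a : Fin N`, adjacent to all of `D j`; a source
`s`, adjacent to all of `D j₀`; a sink `z`, adjacent to all nodes (e.g. the type `V ⊕ (Fin r × Fin N) ⊕ Bool`). Menger's theorem
(`Pool.Agent.Helper37.Mader.paths_of_lb`, file `Pool/Agent/Helper37/Mader/Menger.lean`): if there are not `K = (r - 1) N` internally disjoint paths
from `s` to `z`, there is a separator `S'` with fewer than `K ≤ M` elements, `s, z ∉ S'`. Some node `(j, a)` is not in `S'`; there are `d ∈ D j \ S'` and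
`d₀ ∈ D j₀ \ S'` (`|D j| ≥ M`). Let `P` be the set of the vertices in `V \ S'` which can be reached from `D j₀ \ S'` in `G` without `S'`, `Q = V \ (S' ∪ P)`. There are no
edges between `P` and `Q`, `d₀ ∈ P`, and `d ∈ Q` (otherwise `s, d', ..., d, (j, a), z` avoids `S'`). `|(P ∪ Q)ᶜ| ≤ |S'| < M`: against `Ins`. The `K`
paths have `K` different vertices before `z`, which are nodes; there are only `K` nodes, so every path contains exactly one node, the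
vertex before `z`. The part between `s` and the node `(j, a)` is a path of `G` from `D j₀` to `D j`. -/
def St_Routes : Prop := ∀ (V : Type) [Fintype V] (G : SimpleGraph V) (r N M : ℕ)
  (D : Fin r → Finset V) (j₀ : Fin r), r * N ≤ M → (∀ j, M ≤ (D j).card) →
  Ins G (univ.biUnion D) M → ∃ p : Fin r → Fin N → List V,
    (∀ j, j ≠ j₀ → ∀ a, PathL G (p j a) ∧ (∃ x ∈ D j₀, (p j a).head? = some x) ∧
      ∃ y ∈ D j, (p j a).getLast? = some y) ∧
    ∀ j a j' a', j ≠ j₀ → j' ≠ j₀ → (j, a) ≠ (j', a') → ∀ v ∈ p j a, v ∉ p j' a'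

/-- SHRB (file `ShrB.lean`, `thm_ShrB (hShrA : St_ShrA) : St_ShrB`).  Shortening a family of disjoint paths.

Proof. As for `St_Shrt` (file `CMK/St1.lean`, and see the finished module `CMK/Shrt.lean`): among all families `p'` with the required
properties choose one with `∑ |p' i|` minimal. Fix `j`, `D = A j ∪ B j`, `I` = the set of the `i` such that `p' i` meets `D` in at least two vertices;
`x_i`, `y_i` the first and the last one, `p' i = pre_i ++ mid_i ++ post_i`, `mid_i` from `x_i` to `y_i`. `hShrA` (with `r := N = |ι|`, `U` = all first and last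
vertices in `D` of the paths which meet `D`, at most `2 N`) gives `q_i`, `|q_i| ≤ 4`, and `mid_i` is replaced by `x_i, q_i, y_i`, for all `i ∈ I` at
the same time. The sum of the lengths changes by at most `∑_(i ∈ I) (6 - |mid_i|)`, and by minimality this is `≥ 0`; the
number of vertices of the paths in `D` is at most `∑_(i ∈ I) |mid_i| + (N - |I|) ≤ 6 |I| + (N - |I|) ≤ 6 N`. -/
def St_ShrB : Prop := ∀ (V : Type) [Fintype V] (G : SimpleGraph V) (r : ℕ) (ι : Type) [Fintype ι]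
  (A B : Fin r → Finset V) (m g w : Fin r → ℕ) (s e : ι → Fin r) (p : ι → List V),
  (∀ j, Disjoint (A j) (B j) ∧ (A j).card = m j ∧ (B j).card = m j ∧ 1 ≤ g j ∧
    P1 G (A j) (B j) (g j) ∧ (∀ a ∈ A j, w j ≤ (nbs G a (B j)).card) ∧
    (∀ b ∈ B j, w j ≤ (nbs G b (A j)).card) ∧ 6 * Fintype.card ι + 2 * g j + 2 ≤ w j ∧
    4 + 12 * Fintype.card ι + 12 * g j ≤ 2 * m j) →
  (∀ i j, i ≠ j → Disjoint (A i ∪ B i) (A j ∪ B j)) → (∀ i, s i ≠ e i) →
  (∀ i, PathL G (p i) ∧ (∃ x ∈ A (s i) ∪ B (s i), (p i).head? = some x) ∧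
    ∃ y ∈ A (e i) ∪ B (e i), (p i).getLast? = some y) →
  (∀ i j, i ≠ j → ∀ v ∈ p i, v ∉ p j) →
  ∃ p' : ι → List V, (∀ i, PathL G (p' i) ∧ (∃ x ∈ A (s i) ∪ B (s i), (p' i).head? = some x) ∧
    ∃ y ∈ A (e i) ∪ B (e i), (p' i).getLast? = some y) ∧
    (∀ i j, i ≠ j → ∀ v ∈ p' i, v ∉ p' j) ∧
    ∀ j, ((A j ∪ B j).filter (fun v => ∃ i, v ∈ p' i)).card ≤ 6 * Fintype.card ι

/-- the number of the ends of `l` which are in `⋃ A j` -/
noncomputable def sdE {V : Type} {r : ℕ} (A : Fin r → Finset V) (l : List V) : ℕ :=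
  (if ∃ j, ∃ x ∈ A j, l.head? = some x then 1 else 0) +
    (if ∃ j, ∃ y ∈ A j, l.getLast? = some y then 1 else 0)

/-- CYCB (file `CycB.lean`, `thm_CycB (hPP : St_PP) (hCycJ : St_CycJ) : St_CycB`).  Cycles from a closed sequence of paths between the pairs; a pair
may be visited several times.

Proof. For `i : Fin N` let `x_i` = the last vertex of `p i`, `y_i` = the first vertex of `p (finRotate N i)`, both in `D = A (τ i) ∪ B (τ i)`;
`x_i ≠ y_i` (`2 ≤ |p i|`, the paths are disjoint). `a_i = 3` if `x_i`, `y_i` are on the same side, `a_i = 4` otherwise; `b = ∑ (|p i| + a_i)`. The parity: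
`a_i ≡ 1 + [x_i ∈ A (τ i)] + [y_i ∈ A (τ i)]` mod 2, and a vertex of `A (τ i) ∪ B (τ i)` which is in some `A j` is in `A (τ i)`; every end of every path
occurs exactly once. For every `j` choose `i_j` with `τ i_j = j`. Let `u' = u + 4 N`, `T_j = m j - u' - 6 g j - 2`, `t = ∑ t_j` with `t_j ≤ T_j`. Choose disjoint lists
`q_i` in `A (τ i) ∪ B (τ i)`, which avoid all the `p`, lead from `x_i` to `y_i` (in the sense of `hPP`), of length `a_i` (`i` is not one of the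
`i_j`), one after the other, and then for every `j` a list `q_(i_j)` of length `a_(i_j) + 2 t_j`: `hPP` with `u'`, `U` = all vertices of the paths `p` and of
the lists chosen before (those in other pairs do not matter: at most `u + 4 N` of them are in `A j ∪ B j`), `sx = false` if `x_i ∈ A (τ i)`
and `sx = true` otherwise, in the same way `sy`; `L + 2 u' + 12 g ≤ 2 m` for `L ≤ 4 + 2 T_j`. `hCycJ` with `P i = p i ++ q_i`. -/
def St_CycB : Prop := ∀ (V : Type) [Fintype V] (G : SimpleGraph V) (r N u : ℕ)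
  (A B : Fin r → Finset V) (m g w : Fin r → ℕ) (τ : Fin N → Fin r) (p : Fin N → List V),
  1 ≤ N → Function.Surjective τ →
  (∀ j, Disjoint (A j) (B j) ∧ (A j).card = m j ∧ (B j).card = m j ∧ 1 ≤ g j ∧
    P1 G (A j) (B j) (g j) ∧ (∀ a ∈ A j, w j ≤ (nbs G a (B j)).card) ∧
    (∀ b ∈ B j, w j ≤ (nbs G b (A j)).card) ∧ u + 4 * N + 2 * g j + 2 ≤ w j ∧
    u + 4 * N + 6 * g j + 2 ≤ m j) →
  (∀ i j, i ≠ j → Disjoint (A i ∪ B i) (A j ∪ B j)) →
  (∀ i, PathL G (p i) ∧ 2 ≤ (p i).length) → (∀ i j, i ≠ j → ∀ v ∈ p i, v ∉ p j) →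
  (∀ i, (∃ x ∈ A (τ i) ∪ B (τ i), (p i).getLast? = some x) ∧
    ∃ y ∈ A (τ i) ∪ B (τ i), (p (finRotate N i)).head? = some y) →
  (∀ j, ((A j ∪ B j).filter (fun v => ∃ i, v ∈ p i)).card ≤ u) →
  ∃ b : ℕ, ∑ i, (p i).length + 3 * N ≤ b ∧ b ≤ ∑ i, (p i).length + 4 * N ∧
    (b + N + ∑ i, ((p i).length + sdE A (p i))) % 2 = 0 ∧
    ∀ t : ℕ, t + ∑ j, (u + 4 * N + 6 * g j + 2) ≤ ∑ j, m j → ∃ l, CycL G l ∧ l.length = b + 2 * t

/-- EARS (file `Ears.lean`, `thm_Ears (hCycB : St_CycB) : St_Ears`).  The same for ears at the pair with the index `j₀`: `P l` and `P' l` both lead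
from the pair `j₀` to the pair `jj l ≠ j₀`.

Proof. `hCycB` with `N = 2 n`, `p (2 l) = P l`, `p (2 l + 1) = (P' l).reverse`, `τ (2 l) = jj l`, `τ (2 l + 1) = j₀`. The paths have at least two vertices, because their
ends are in different pairs. `sdE` does not change under reversal. -/
def St_Ears : Prop := ∀ (V : Type) [Fintype V] (G : SimpleGraph V) (r n u : ℕ)
  (A B : Fin r → Finset V) (m g w : Fin r → ℕ) (j₀ : Fin r) (jj : Fin n → Fin r)
  (P P' : Fin n → List V), 1 ≤ n → (∀ l, jj l ≠ j₀) → (∀ j, j ≠ j₀ → ∃ l, jj l = j) →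
  (∀ j, Disjoint (A j) (B j) ∧ (A j).card = m j ∧ (B j).card = m j ∧ 1 ≤ g j ∧
    P1 G (A j) (B j) (g j) ∧ (∀ a ∈ A j, w j ≤ (nbs G a (B j)).card) ∧
    (∀ b ∈ B j, w j ≤ (nbs G b (A j)).card) ∧ u + 8 * n + 2 * g j + 2 ≤ w j ∧
    u + 8 * n + 6 * g j + 2 ≤ m j) →
  (∀ i j, i ≠ j → Disjoint (A i ∪ B i) (A j ∪ B j)) →
  (∀ l, (PathL G (P l) ∧ (∃ x ∈ A j₀ ∪ B j₀, (P l).head? = some x) ∧
      ∃ y ∈ A (jj l) ∪ B (jj l), (P l).getLast? = some y) ∧
    (PathL G (P' l) ∧ (∃ x ∈ A j₀ ∪ B j₀, (P' l).head? = some x) ∧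
      ∃ y ∈ A (jj l) ∪ B (jj l), (P' l).getLast? = some y)) →
  (∀ l l', l ≠ l' → (∀ v ∈ P l, v ∉ P l') ∧ (∀ v ∈ P' l, v ∉ P' l')) →
  (∀ l l', ∀ v ∈ P l, v ∉ P' l') →
  (∀ j, ((A j ∪ B j).filter (fun v => ∃ l, v ∈ P l ∨ v ∈ P' l)).card ≤ u) →
  ∃ b : ℕ, ∑ l, ((P l).length + (P' l).length) + 6 * n ≤ b ∧
    b ≤ ∑ l, ((P l).length + (P' l).length) + 8 * n ∧
    (b + ∑ l, ((P l).length + sdE A (P l) + ((P' l).length + sdE A (P' l)))) % 2 = 0 ∧
    ∀ t : ℕ, t + ∑ j, (u + 8 * n + 6 * g j + 2) ≤ ∑ j, m j → ∃ l, CycL G l ∧ l.length = b + 2 * t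

/-- TONE (file `TOne.lean`, `thm_TOne (hPP : St_PP) : St_TOne`).  One large pair.

Proof. Take `x ∈ A` and a neighbour `y ∈ B` of `x`. `hPP` with `u = 0`, `U = ∅`, `sx = false`, `sy = true`, `L = k - 1` (even, `≥ 4`): `q`; the cycle `x :: (q ++ [y])` has
`k + 1` vertices. -/
def St_TOne : Prop := ∀ (V : Type) [Fintype V] (G : SimpleGraph V) (A B : Finset V) (m g k : ℕ),
  Disjoint A B → A.card = m → B.card = m → 1 ≤ g → P1 G A B g →
  (∀ a ∈ A, 2 * g + 2 ≤ (nbs G a B).card) → (∀ b ∈ B, 2 * g + 2 ≤ (nbs G b A).card) → Odd k →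
  5 ≤ k → k - 1 + 12 * g ≤ 2 * m → ∃ l, CycL G l ∧ l.length = k + 1

/-! TFOUR (file `TFour.lean`, `thm_TFour (hArith : St_Arith) (hRoutes : St_Routes) (hShrB : St_ShrB) (hEars : St_Ears) (hTOne : St_TOne) : St_TFour`; the
statement `St_TFour` is in `CMX/Top.lean`).

Proof. `M'` from `hArith` for `ε / 2`; `N₁ = 2 R M'`, `M = N₁`, `E₀ = 8 R M'`, `k` large. `m j = |A j|`, `g j = ⌈4 γ m j⌉₊ ≤ 4 γ m j + 1`, `w j = ⌈(ρ/16) m j⌉₊`. With
the constant `K₁ = 6 N₁ + 8 R M' + 8`: `K₁ + 2 g j ≤ w j`, `K₁ + 6 g j ≤ m j` and `2 K₁ + 12 g j ≤ 2 m j` for large `k` (`8 γ ≤ ρ / 32`, `m j ≥ c k`).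
`r = 1`: `hTOne` (`k - 1 + 12 g ≤ 2 m`, because `(1 - 24 γ) 2 m ≥ (1 - 24 γ) (1 + 2 ε) k ≥ k + 12`; `(k + 1) % k = 1`).
`r ≥ 2`: `j₀ = 0`. `hRoutes` with `N = 2 M'` (`r N ≤ M ≤ |D j|`), then `hShrB` with the index type `{(j, a) // j ≠ j₀}` (at most `N₁` elements): routes
`p j a`, `j ≠ j₀`, `a : Fin (2 M')`, at most `6 N₁` of their vertices in each pair. For `a : Fin M'` let `w_a` be the sum of
`|p j (2 a)| + sdE (p j (2 a)) + |p j (2 a + 1)| + sdE (p j (2 a + 1))` over all `j ≠ j₀`. `hArith`: `F`. `hEars` with the ears `(j, a)`, `j ≠ j₀`, `a ∈ F`,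
`n = (r - 1) |F| ≤ R M'`, `P = p j (2 a)`, `P' = p j (2 a + 1)`, `u = 6 N₁`: `b`. With `W = ∑_(a ∈ F) w_a = ∑ (|P| + |P'| + sdE P + sdE P')`, `sdE ≤ 2`:
`W ≤ ∑ (|P| + |P'|) + 4 n ≤ b`, and `e = b - W ≤ 8 n ≤ E₀` is even. Let `t` be as in `hArith`, `t ≤ (1/2 + ε/2) k`; then
`t + ∑ (u + 8 n + 6 g j + 2) ≤ (1/2 + ε/2) k + R K₁ + 6 R + 24 γ ∑ m j ≤ ∑ m j`, because `24 γ ≤ 0.24 ε` and `(1 - 0.24 ε) (1/2 + ε) ≥ 1/2 + 0.8 ε` for `ε ≤ 1/10`.
The cycle of length `b + 2 t = W + e + 2 t` has length `1` mod `k`. -/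

end Pool.CMK
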