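import Pool.Agent.CMX.Top
import Pool.Agent.CMK.St2

/-!
# CMX part B: a large region (`St_Large`), statements with complete proofs

Every module is one file `Pool/Agent/CMX/X.lean` with `import Pool.Agent.CMX.StB`, namespace `Pool.CMK`, and the theorem
`thm_X` with exactly the signature given in the docstring (earlier statements are hypotheses).  Own lemmas `private`
or with names starting with `X_`.  Put `open Finset` and `open scoped Classical`.  No sorry, no forbidden words.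
Library: `Pool/Agent/CMK/Lib.lean` (paths and cycles as lists), definitions: `Pool/Agent/CMK/Defs.lean`, `Pool/Agent/CMX/Top.lean`.
-/

set_option autoImplicit false

namespace Pool.CMK

open Finset
open scoped Classical

/-- LEMB (architect helper62; `thm_LemB : St_LemB`).  An almost complete pair `(X, R)` with `|X|` about `k / 2`, `R` very large, all degrees
of the vertices of `A ⊇ R` larger than `k / 2`: a cycle of length exactly `k + 1`. -/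
def St_LemB : Prop := ∃ (ζ : ℝ) (C₀ : ℕ), 0 < ζ ∧ ζ ≤ 1 / 100 ∧ ∀ M : ℕ, ∃ k₀ : ℕ, ∀ k ≥ k₀, Odd k →
  ∀ (V : Type) [Fintype V] (G : SimpleGraph V) (A R X : Finset V),
  (∀ v ∈ A, k < 2 * (nbs G v univ).card) → (bdr G A).card < 2 * M → R ⊆ A → Disjoint R X →
  C₀ * k ≤ R.card → 2 * A.card ≤ 3 * R.card → (1 / 2 - ζ) * k ≤ (X.card : ℝ) →
  (∀ v ∈ R, ((X \ nbs G v X).card : ℝ) ≤ ζ * k) → (∀ v ∈ R, (nbs G v R).card ≤ k) →
  ∃ l, CycL G l ∧ l.length = k + 1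

/-- STRUCT (`thm_Struct : ... St_Struct`, see below).  The structure of a large region. -/
def St_Struct : Prop := ∀ (ζ : ℝ) (C₀ : ℕ), 0 < ζ → ζ ≤ 1 / 100 → ∃ C M₀ : ℕ, ∀ M ≥ M₀, ∃ k₀ : ℕ,
  ∀ k ≥ k₀, Odd k → ∀ (V : Type) [Fintype V] (G : SimpleGraph V) (A : Finset V), Rgn G k M A →
  C * k ≤ A.card → (∃ l, CycL G l ∧ l.length % k = 1) ∨ ∃ R X : Finset V, R ⊆ A ∧ Disjoint R X ∧
    C₀ * k ≤ R.card ∧ 2 * A.card ≤ 3 * R.card ∧ (1 / 2 - ζ) * k ≤ (X.card : ℝ) ∧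
    (∀ v ∈ R, ((X \ nbs G v X).card : ℝ) ≤ ζ * k) ∧ (∀ v ∈ R, (nbs G v R).card ≤ k)

/-- GRP (file `Grp.lean`, `thm_Grp : St_Grp`).  Paths in a nearly complete graph.

Proof. Start with `x` and choose one after the other `v_2, ..., v_(p-2)` in `N`, different from `y` and from the earlier vertices, adjacent to
the previous one: at most `b` vertices are not adjacent, at most `p - 1` are used, `|N| ≥ p + 2 b`. Finally `v_(p-1)`, unused, different from `y`,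
adjacent to `v_(p-2)` and to `y` (at most `2 b` excluded, at most `p - 1` used). (`p = 3`: `v_(p-2) = x`.) -/
def St_Grp : Prop := ∀ (T : Type) (H : SimpleGraph T) (N : Finset T) (b p : ℕ) (x y : T),
  (∀ v ∈ N, (N.filter (fun w => w ≠ v ∧ ¬ H.Adj v w)).card ≤ b) → x ∈ N → y ∈ N → x ≠ y →
  3 ≤ p → p + 2 * b ≤ N.card → ∃ l, PathFT H x y l ∧ l.length = p ∧ ∀ v ∈ l, v ∈ N

/-- REAL (file `Real.lean`, `thm_Real : St_Real`).  From a cycle in the codegree graph to a cycle of twice the length.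

Proof. `l = z_1, ..., z_c`. Choose different `r_1, ..., r_c ∈ R`, `r_i` a common neighbour of `z_i` and `z_(i+1)` (`z_(c+1) = z_1`), one after the other:
there are at least `c` candidates. They are not in `l`, since `l ⊆ Q` and `Q`, `R` are disjoint. The cycle `z_1, r_1, z_2, r_2, ..., z_c, r_c`. -/
def St_Real : Prop := ∀ (V : Type) (G H : SimpleGraph V) (Q R : Finset V) (l : List V),
  Disjoint Q R → (∀ v ∈ l, v ∈ Q) → CycL H l →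
  (∀ z z', H.Adj z z' → l.length ≤ (R.filter (fun r => G.Adj z r ∧ G.Adj z' r)).card) →
  ∃ l', CycL G l' ∧ l'.length = 2 * l.length

/-- ZLEM (file `ZLem.lean`, `thm_ZLem (hGrp : St_Grp) : St_ZLem`).  Two nearly complete overlapping sets contain a cycle of length `c`.

Proof. For `i = 1, 2` let `Z_i'` be the set of the `z ∈ Z_i` with at most `b` partners `w ∈ Z_i`, `w ≠ z`, not adjacent to `z`; by assumption
`|Z_i \ Z_i'| ≤ b`. (1) If `|Z_1'| ≥ c + 2 b`: let `x ∈ Z_1'`, `y ∈ Z_1'` adjacent to `x`; `hGrp` with `N = Z_1'`, `p = c`: a path with `c` vertices from `x` to `y`, a cycle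
(`lib_cyc_of_path`; `c ≥ 3`). In the same way if `|Z_2'| ≥ c + 2 b`. (2) Let both be smaller than `c + 2 b`. `|Z_1' ∩ Z_2'| ≥ |Z_1 ∩ Z_2| - 2 b ≥ 2`:
`o_1 ≠ o_2` in it. `p_1 = |Z_1'| - 2 b` (`3 ≤ p_1 ≤ c - 1`), path from `o_1` to `o_2` in `Z_1'` with `p_1` vertices (`hGrp`). `N_2 = (Z_2' \ Z_1') ∪ {o_1, o_2}`,
`p_2 = c + 2 - p_1 ≥ 3`; `p_2 + 2 b = c + 2 + 4 b - |Z_1'| ≤ |Z_2' \ Z_1'| + 2 = |N_2|`, because `|Z_1' ∪ Z_2'| ≥ |Z_1 ∪ Z_2| - 2 b ≥ c + 4 b`. `hGrp`: path from `o_2` to `o_1`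
in `N_2` with `p_2` vertices. Together: a cycle with `p_1 + p_2 - 2 = c` vertices. -/
def St_ZLem : Prop := ∀ (T : Type) (H : SimpleGraph T) (Z₁ Z₂ : Finset T) (b c : ℕ), 3 ≤ c →
  (Z₁.filter (fun z => b < (Z₁.filter (fun w => w ≠ z ∧ ¬ H.Adj z w)).card)).card ≤ b →
  (Z₂.filter (fun z => b < (Z₂.filter (fun w => w ≠ z ∧ ¬ H.Adj z w)).card)).card ≤ b →
  3 * b + 3 ≤ Z₁.card → 2 * b + 2 ≤ (Z₁ ∩ Z₂).card → c + 6 * b ≤ (Z₁ ∪ Z₂).card →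
  ∃ l, CycL H l ∧ l.length = c ∧ ∀ v ∈ l, v ∈ Z₁ ∪ Z₂

/-- DICH (file `Dich.lean`, `thm_Dich (hZLem : St_ZLem) (hReal : St_Real) : St_Dich`).

Proof. `hZLem` with `c = (k + 1) / 2` for `H` gives a cycle of `H` with `c` vertices in `Z₁ ∪ Z₂ ⊆ Q`; `hReal` (`c ≤ k ≤` codegree) a cycle of length
`2 c = k + 1`. -/
def St_Dich : Prop := ∀ (V : Type) (G H : SimpleGraph V) (Q R' Z₁ Z₂ : Finset V) (b k : ℕ), Odd k →
  5 ≤ k → Disjoint Q R' → Z₁ ⊆ Q → Z₂ ⊆ Q →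
  (∀ z z', H.Adj z z' → k ≤ (R'.filter (fun r => G.Adj z r ∧ G.Adj z' r)).card) →
  (Z₁.filter (fun z => b < (Z₁.filter (fun w => w ≠ z ∧ ¬ H.Adj z w)).card)).card ≤ b →
  (Z₂.filter (fun z => b < (Z₂.filter (fun w => w ≠ z ∧ ¬ H.Adj z w)).card)).card ≤ b →
  3 * b + 3 ≤ Z₁.card → 2 * b + 2 ≤ (Z₁ ∩ Z₂).card → (k + 1) / 2 + 6 * b ≤ (Z₁ ∪ Z₂).card →
  ∃ l, CycL G l ∧ l.length = k + 1

/-- SPQ (file `SpQ.lean`, `thm_SpQ (hTFour : St_TFour) (hPair : St_Pair) (hLsp : St_Lsp) : St_SpQ`).  Covering the dense parts of `A` by disjoint pairs.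

Proof. `η = θ^2 / 48`, `ρ = 2 η / 3`, `γ = min(ρ / 256, θ / 100)`; `c, n₀` from `hPair` for `ρ, γ`; `c' = 2 c η`; `R = ⌈1 / c'⌉₊ + 1`; `M₀, k₀` from `hTFour` for
`θ, ρ, γ, c', R`. Call a family `A_j, B_j` (`j : Fin r`) admissible if all `Pr G (A_j) (B_j) (4 γ) (ρ/16)`, `|A_j| ≥ c' k`, `A_j ∪ B_j ⊆ A`, and the sets
`A_j ∪ B_j` are pairwise disjoint. If some admissible family with `1 ≤ r ≤ R` has `∑ |A_j| ≥ (1/2 + θ) k`, `hTFour` gives a cycle (`Ins` for a subset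
of `A`, and for `M ≥ M₀`, follows from `Ins G A M`). Otherwise every admissible family with `r ≤ R` has `r c' k ≤ ∑ |A_j| < (1/2 + θ) k`, `r < 1 / c'`, so
`r + 1 ≤ R` (`r = 0` is allowed). Take one with `r ≤ R` maximal, `Q = ⋃ (A_j ∪ B_j)`, `|Q| = 2 ∑ |A_j| ≤ (1 + 2 θ) k`. Suppose `Y' ⊆ A \ Q` is nonempty
and `ad G Y' Y' ≥ θ^2 k |Y'| = 48 (η k) |Y'|`. `hLsp` for the graph induced on `Y'` (type `{v // v ∈ Y'}`) with `D = η k ≥ 1`: either cycles of all lengths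
`2 h + 2 j`, `1 ≤ j ≤ k`, one of which is `≡ 1` mod `k` (`k` is odd); or there is `S ⊆ Y'`, nonempty, `|S| ≤ 2 k + 1`, `ad G S S ≥ 2 η k |S|`. Then `|S| ≥ 2 η k ≥ n₀`
(`ad G S S ≤ |S|^2`) and `ad G S S ≥ ρ |S|^2` (`|S| ≤ 3 k`), so `hPair` gives a pair inside `S` with `|A'| ≥ c |S| ≥ c' k`, and the family with this pair
added is admissible with `r + 1 ≤ R` members: contradiction to the maximality. (Compare `CMK/HCF.lean`, `CMK/HCB.lean`, `CMK/HC.lean`.) -/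
def St_SpQ : Prop := ∀ θ : ℝ, 0 < θ → θ ≤ 1 / 10 → ∃ M₀ : ℕ, ∀ M ≥ M₀, ∃ k₀ : ℕ, ∀ k ≥ k₀, Odd k →
  ∀ (V : Type) [Fintype V] (G : SimpleGraph V) (A : Finset V), Ins G A M →
  (∃ l, CycL G l ∧ l.length % k = 1) ∨ ∃ Q : Finset V, Q ⊆ A ∧ (Q.card : ℝ) ≤ (1 + 2 * θ) * k ∧
    ∀ Y' ⊆ A \ Q, Y'.Nonempty → (ad G Y' Y' : ℝ) < θ ^ 2 * k * Y'.card

/-- TYP (file `Typ.lean`, `thm_Typ : St_Typ`).  Typical vertices.

Proof. `Y = A \ Q`, `R' = {v ∈ Y : |nbs v Y| ≤ θ k}`: `|Y \ R'| θ k ≤ ad G Y Y ≤ θ^2 k |Y|` (`Y` is nonempty), so `|R'| ≥ (1 - θ) |Y|`. All neighbours of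
`v ∈ A` are in `A ∪ bdr G A`, so `v ∈ R'` has at least `k / 2 - θ k - 2 M ≥ (1/2 - 2 θ) k` neighbours in `Q`. `ν = θ^3 / 8`, `b = ⌊θ k⌋₊ ≥ θ k / 2 > 0`. `H`: `z ~ z'` iff `z ≠ z'` and
the number of common neighbours of `z, z'` in `R'` is at least `ν |R'|`. For `v ∈ R'` let `bad v` be the number of ordered pairs of different non-adjacent
(in `H`) elements of `nbs v Q`. `∑_(v ∈ R') bad v` = the sum of the numbers of common neighbours in `R'` over the non-adjacent pairs in `Q`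
`≤ |Q|^2 ν |R'|`. `R = {v ∈ R' : bad v ≤ b^2}`: `|R' \ R| b^2 ≤ |Q|^2 ν |R'| ≤ (5/4) k^2 (θ^3 / 8) |R'|`, and `b^2 ≥ θ^2 k^2 / 4`, so `|R' \ R| ≤ θ |R'|`. For `v ∈ R`, if more than
`b` elements of `nbs v Q` had more than `b` non-adjacent partners, then `bad v > b^2`. -/
def St_Typ : Prop := ∀ θ : ℝ, 0 < θ → θ ≤ 1 / 1000 → ∃ ν : ℝ, 0 < ν ∧ ∀ M : ℕ, ∃ k₀ : ℕ, ∀ k ≥ k₀,
  ∀ (V : Type) [Fintype V] (G : SimpleGraph V) (A Q : Finset V),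
  (∀ v ∈ A, k < 2 * (nbs G v univ).card) → (bdr G A).card < 2 * M → Q ⊆ A →
  (Q.card : ℝ) ≤ (1 + 2 * θ) * k → (A \ Q).Nonempty →
  (∀ Y' ⊆ A \ Q, Y'.Nonempty → (ad G Y' Y' : ℝ) < θ ^ 2 * k * Y'.card) →
  ∃ (R' R : Finset V) (H : SimpleGraph V), R ⊆ R' ∧ R' ⊆ A \ Q ∧
    (1 - 2 * θ) * ((A \ Q).card : ℝ) ≤ (R.card : ℝ) ∧
    (∀ v ∈ R', ((nbs G v (A \ Q)).card : ℝ) ≤ θ * k) ∧
    (∀ v ∈ R', (1 / 2 - 2 * θ) * k ≤ ((nbs G v Q).card : ℝ)) ∧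
    (∀ z z', H.Adj z z' →
      ν * R'.card ≤ ((R'.filter (fun r => G.Adj z r ∧ G.Adj z' r)).card : ℝ)) ∧
    ∀ v ∈ R, ((nbs G v Q).filter (fun z => ⌊θ * k⌋₊ <
      ((nbs G v Q).filter (fun w => w ≠ z ∧ ¬ H.Adj z w)).card)).card ≤ ⌊θ * k⌋₊

/-- PRX (file `PrX.lean`, `thm_PrX : St_PrX`).  An almost complete pair contains a balanced dense pair.

Proof. `B₀ ⊆ R` with `|B₀| = |X|`. There are at most `|X| k / 1000` non-adjacent pairs between `X` and `B₀`. `A = {x ∈ X : |nbs x B₀| ≥ |X| / 2}`: `|X \ A| ≤ k / 500`.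
`B ⊆ B₀` with `|B| = |A| ≥ (9/20) k - k / 500 ≥ (2/5) k`. (P1) `|X'| ≥ ⌈|A| / 250⌉ > k / 1000` (`0.448 / 250 > 0.00179`), `Y'` nonempty, `v ∈ Y'`: `v` has at most `k / 1000`
non-neighbours in `X`, so it has a neighbour in `X'`. Degrees: `|nbs x B| ≥ |X| / 2 - (|X| - |A|) ≥ |A| / 16` for `x ∈ A`, `|nbs v A| ≥ |A| - k / 1000 ≥ |A| / 16` for
`v ∈ B`. -/
def St_PrX : Prop := ∃ k₀ : ℕ, ∀ k ≥ k₀, ∀ (V : Type) (G : SimpleGraph V) (X R : Finset V),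
  Disjoint X R → (9 / 20 : ℝ) * k ≤ (X.card : ℝ) → X.card ≤ R.card →
  (∀ v ∈ R, ((X \ nbs G v X).card : ℝ) ≤ (k : ℝ) / 1000) → ∃ A B : Finset V, A ⊆ X ∧ B ⊆ R ∧
    Pr G A B (4 * (1 / 1000)) (1 / 16) ∧ (2 / 5 : ℝ) * k ≤ (A.card : ℝ)

/-! STRUCT (file `Struct.lean`, `thm_Struct (hTFour : St_TFour) (hSpQ : St_SpQ) (hTyp : St_Typ) (hDich : St_Dich) (hPrX : St_PrX) : St_Struct`).

Proof. `θ = min(ζ, 1/1000) / 20`. `M₁` from `hSpQ` (`θ`), `ν` from `hTyp` (`θ`), `M₂, k₂` from `hTFour` for `ε = 1/10`, `ρ = 1`, `γ = 1/1000`, `c = 2/5`, `R = 2`.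
`M₀ = max M₁ M₂`, `C` a natural number `≥ 4 C₀ + 100 + 2 / ν`. Let `M ≥ M₀`, `k` large, `A` a region with `|A| ≥ C k`. `hSpQ`: a cycle, or `Q`, `|Q| ≤ (1 + 2 θ) k ≤ |A| / 50`.
`hTyp`: `R'`, `R`, `H`; `|R| ≥ (1 - 2 θ) |A \ Q| ≥ (19/20) |A|`; `ν |R'| ≥ k`. `b = ⌊θ k⌋₊`, `c = (k + 1) / 2`. Suppose there is no cycle of length `k + 1`
(`(k + 1) % k = 1`). By `hDich` for `v, v' ∈ R`, `Z₁ = nbs v Q`, `Z₂ = nbs v' Q` (`Z₁` has at least `(1/2 - 2 θ) k ≥ 3 b + 3` elements): `|Z₁ ∩ Z₂| < 2 b + 2` or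
`|Z₁ ∪ Z₂| < c + 6 b`. Let `v₁ ∈ R`, `X₁ = nbs v₁ Q`, `R₁ = {v ∈ R : |nbs v Q ∩ X₁| ≥ 2 b + 2}`, `R₂ = R \ R₁`. For `v ∈ R₁`:
`|X₁ \ nbs v Q| = |nbs v Q ∪ X₁| - |nbs v Q| ≤ c + 6 b - (1/2 - 2 θ) k ≤ 8 θ k + 1 ≤ min(ζ k, k / 1000)`. For `v ∈ R₂` and `X₂ = Q \ X₁`: `|X₂| ≤ (1/2 + 4 θ) k`, and `v` has at least
`(1/2 - 2 θ) k - 2 b - 2` neighbours in `X₂`, so at most `8 θ k + 2 ≤ min(ζ k, k / 1000)` non-neighbours. (`X \ nbs v X = X \ nbs v Q` for `X ⊆ Q`.)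
(i) `|R₂| ≤ |A| / 4`: `R := R₁`, `X := X₁` (`|R₁| ≥ (19/20 - 1/4) |A| ≥ (2/3) |A|`, `|X₁| ≥ (1/2 - 2 θ) k`, `R ⊆ A \ Q` is disjoint from `X ⊆ Q`, `nbs v R ⊆ nbs v (A \ Q)`).
(ii) `|R₁| ≤ |A| / 4`: `R := R₂`, `X := X₂` (`|X₂| ≥ (1/2 - 4 θ) k - 2 ≥ (1/2 - ζ) k`, since there is some `v ∈ R₂`). (iii) Both are larger than `|A| / 4 ≥ k`: `hPrX` for
`(X₁, R₁)` and for `(X₂, R₂)` (`|Xᵢ| ≤ k ≤ |Rᵢ|`) gives two disjoint pairs with `|A_1| + |A_2| ≥ (4/5) k ≥ (1/2 + 1/10) k` in `A`: `hTFour` (`r = 2`) gives a cycle.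

LARGE (file `Large.lean`, `thm_Large (hLemB : St_LemB) (hStruct : St_Struct) : St_Large`; the statement `St_Large` is in `CMX/Top.lean`).

Proof. `ζ, C₀` from `hLemB`, `C, M₀` from `hStruct`. `(k + 1) % k = 1`. -/

end Pool.CMK
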