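import Pool.Agent.CMX.Top
import Pool.Agent.CMK.St1

/-!
# CMX part D: `St_SmallV` and `St_SmallT` (nearly complete graphs), statements with complete proofs

Architect helper23.  Every module is one file `Pool/Agent/CMX/X.lean` with `import Pool.Agent.CMX.StD` (and
`import Pool.Agent.CMK.Lib`, the library on paths and cycles as lists), namespace `Pool.CMK`, and the theorem `thm_X` with exactly the
signature given in the docstring (earlier statements are hypotheses).  Own lemmas `private` or with names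
starting with `X_`.  Put `open Finset` and `open scoped Classical`.  No sorry, no forbidden words.
-/

set_option autoImplicit false

namespace Pool.CMK

open Finset
open scoped Classical

/-- DPATH (file `DPath.lean`, `thm_DPath : St_DPath`).  Paths with a prescribed number of vertices in a nearly complete graph: every vertex of
`W` has at most `h` non-neighbours in `W` (itself included). `q` is the list of the inner vertices of a path from `x` to `y`.

Proof. Choose `b ∈ N(y) ∩ W` outside `U ∪ {x, y}` and then `a ∈ N(x) ∩ W` outside `U ∪ {x, y, b}` (at most `u + 1`, respectively `u + 2`, elements are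
forbidden, because `y ∉ N(y)`, `x ∉ N(x)`). Greedy path: for `s = 1, ..., t - 2` there is a path `p_1 = a, p_2, ..., p_s` with vertices in
`W` outside `U ∪ {x, y, b}`: `p_s` has at least `|W| - h` neighbours in `W`, and at most `u + 3 + s < |W| - h` vertices are forbidden (`U ∩ W`, `x`, `y`, `b`,
`p_1, ..., p_s`). At the end there is a common neighbour `c ∈ W` of `p_(t-2)` and `b` outside `U ∪ {x, y, b, p_1, ..., p_(t-2)}`:
at least `|W| - 2 h` common neighbours in `W`, at most `u + 3 + (t - 2)` forbidden. `q = p_1, ..., p_(t-2), c, b`. -/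
def St_DPath : Prop := ∀ (V : Type) (G : SimpleGraph V) (W U : Finset V) (h u t : ℕ) (x y : V),
  (∀ w ∈ W, W.card ≤ (nbs G w W).card + h) → (U ∩ W).card ≤ u → x ≠ y →
  u + 3 ≤ (nbs G x W).card → u + 3 ≤ (nbs G y W).card → 3 ≤ t → t + u + 2 * h + 6 ≤ W.card →
  ∃ q : List V, q.length = t ∧ q.Nodup ∧ q.IsChain G.Adj ∧
    (∀ w ∈ q, w ∈ W ∧ w ∉ U ∧ w ≠ x ∧ w ≠ y) ∧
    (∃ a, q.head? = some a ∧ G.Adj x a) ∧ (∃ b, q.getLast? = some b ∧ G.Adj b y)

/-- DCYC (file `DCyc.lean`, `thm_DCyc (hDPath : St_DPath) : St_DCyc`).  A cycle through given vertices.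

Proof. `Z = {z_1, ..., z_N}`. Claim: for `1 ≤ i ≤ N` there is a path `P_i` from `z_1` to `z_i` with `4 (i - 1) + 1` vertices, which contains
`z_1, ..., z_i`, no other vertex of `Z`, and whose other vertices are in `W` (induction over a list; a list induction over
`Z.toList = z_1 :: (zs ++ ...)` may be convenient). Step: `hDPath` with `x = z_i`, `y = z_(i+1)`, `t = 3`, `U = P_i ∪ Z` (at most `4 (N - 1) + 1 + N ≤ 5 N = u` elements) gives
`q`, and `P_(i+1) = P_i ++ q ++ [z_(i+1)]`. Finally `hDPath` with `x = z_N`, `y = z_1`, `t = 3`, `U = P_N ∪ Z` gives `q`; the cycle `P_N ++ q` has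
`4 (N - 1) + 1 + 3 = 4 N` vertices. (`3 + 5 N + 2 h + 6 ≤ |W|`.) -/
def St_DCyc : Prop := ∀ (V : Type) (G : SimpleGraph V) (W Z : Finset V) (h : ℕ),
  (∀ w ∈ W, W.card ≤ (nbs G w W).card + h) → 2 ≤ Z.card →
  (∀ z ∈ Z, 5 * Z.card + 3 ≤ (nbs G z W).card) → 5 * Z.card + 2 * h + 9 ≤ W.card →
  ∃ l, CycL G l ∧ l.length = 4 * Z.card ∧ (∀ z ∈ Z, z ∈ l) ∧ ∀ v ∈ l, v ∈ Z ∨ v ∈ W

/-- DGROW (file `DGrow.lean`, `thm_DGrow : St_DGrow`).  Extending a cycle by single vertices.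

Proof. Induction on `t` (for all `l`). Step: `t ≥ 1`, so there is `w ∈ W`, `w ∉ l`. `w` has at most `h` non-neighbours, so among the `|l|` cyclically
consecutive pairs of vertices of `l` at most `2 h < |l|` contain a non-neighbour of `w` (every vertex is in two of the pairs): there is a pair `x, y` with
both vertices adjacent to `w`. Insert `w` between `x` and `y` (use `lib_cyc_iff` for the places; rotate the cycle such that `x` is the last and `y` the first
vertex, `lib_cyc_rotate`, and append `w`): a cycle `l₁` with the vertices of `l` and `w`, `|l₁| = |l| + 1`,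
`|W \ l₁| = |W \ l| - 1 ≥ t - 1`. -/
def St_DGrow : Prop := ∀ (V : Type) [Fintype V] (G : SimpleGraph V) (W : Finset V) (h t : ℕ)
  (l : List V), CycL G l → (∀ w ∈ W, (univ.filter (fun z => ¬ G.Adj w z)).card ≤ h) →
  2 * h < l.length → t ≤ (W \ l.toFinset).card → ∃ l', CycL G l' ∧ l'.length = l.length + t

/-! SMALLV (file `SmallVA.lean`, `thm_SmallVA (hDCyc : St_DCyc) (hDGrow : St_DGrow) : St_SmallV`; the statement `St_SmallV` is in `CMX/Top.lean`).

Proof. `e = 1/10000`, `k ≥ 10000`, `n = |V|`, `k + 1 ≤ n ≤ (1 + e) k`. `∑ (n - 1 - deg v) = n (n - 1) - ad ≤ (n - 1) (n - k) ≤ (n - 1) k / 10000`. Let `B` be the set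
of the vertices `v` with `n - 1 - deg v > k / 100` (`deg v = |nbs G v univ| ≤ n - 1`): `|B| k / 100 ≤ (n - 1) k / 10000`, so
`|B| ≤ (n - 1) / 100 ≤ k / 50`. `W = Bᶜ`, `h = k / 100 + 1` (natural division): every `w ∈ W` has at most `h` non-neighbours in `V` (itself included), in particular
`|W| ≤ |nbs G w W| + h`. `b = k + 1 - |W|` (truncated), `b ≤ |B|` because `|W| + |B| = n ≥ k + 1`. Choose `B' ⊆ B`, `|B'| = b`, and `W' ⊆ W`, `|W'| = h + 2`,
and `Z = B' ∪ W'`, `N = |Z| = b + h + 2 ≤ 3 k / 100 + 3`. Every vertex has degree `≥ k / 2`, so at least `k / 2 - |B| ≥ 48 k / 100` neighbours in `W`, and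
`5 N + 3 ≤ 15 k / 100 + 18 ≤ 48 k / 100`; `|W| ≥ k + 1 - k / 50`, `5 N + 2 h + 9 ≤ 17 k / 100 + 26 ≤ |W|`. `hDCyc`: a cycle `l` with `4 N ≤ 12 k / 100 + 12 ≤ k` vertices, which
contains `Z`, and `l ⊆ Z ∪ W = B' ∪ W`. So `l` has exactly `b` vertices outside `W`, `|W \ l| = |W| - (4 N - b) ≥ k + 1 - 4 N`
(`|W| + b ≥ k + 1`). `2 h < 4 N`. `hDGrow` with `t = k + 1 - 4 N`: a cycle with `k + 1` vertices. -/

/-- DNEAR (file `DNear.lean`, `thm_DNear (hDPath : St_DPath) : St_DNear`).  Paths in a small region.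

Proof. `e = 1/10000`; `k ≥ 40000 (M + 1)`. Let `a = |A|`, `deg_A v = |nbs G v A|`. `dens`, `ad = ∑ deg_A v` (`lib_ad_eq_sum`) and `deg_A v ≤ a` give
`k a ≤ a^2 + 4 M a`, so `a ≥ k - 4 M`, and `∑ (a - deg_A v) = a^2 - ad ≤ a (a - k + 4 M) ≤ a (k / 10000 + 4 M) ≤ a k / 5000`. `B` = the set of the `v ∈ A` with
`a - deg_A v > k / 50`: `|B| k / 50 ≤ a k / 5000`, so `|B| ≤ a / 100 ≤ k / 50`. `W = A \ B`, `h = k / 50` (natural division): every `w ∈ W` has at most `h`
non-neighbours in `A` (itself included), so `|W| ≤ |nbs G w W| + h`. Let `x, y ∈ A`. All neighbours of `x` are in `A ∪ bdr G A`, so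
`deg_A x ≥ k / 2 - 2 M` and `|nbs G x W| ≥ k / 2 - 2 M - k / 50 ≥ 3`; the same for `y`. `t + 2 h + 6 ≤ 90 k / 100 + 4 k / 100 + 6 ≤ k - 4 M - k / 50 ≤ |W|`.
`hDPath` with `U = ∅`, `u = 0`. -/
def St_DNear : Prop := ∃ e : ℝ, 0 < e ∧ ∀ M : ℕ, ∃ k₀ : ℕ, ∀ k ≥ k₀, ∀ (V : Type) [Fintype V]
  (G : SimpleGraph V) (A : Finset V), Rgn G k M A → (A.card : ℝ) ≤ (1 + e) * k →
  2 ≤ A.card ∧ ∀ x ∈ A, ∀ y ∈ A, x ≠ y → ∀ t : ℕ, 3 ≤ t → 10 * t ≤ 9 * k →
    ∃ q : List V, q.length = t ∧ q.Nodup ∧ q.IsChain G.Adj ∧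
      (∀ w ∈ q, w ∈ A ∧ w ≠ x ∧ w ≠ y) ∧
      (∃ a, q.head? = some a ∧ G.Adj x a) ∧ (∃ b, q.getLast? = some b ∧ G.Adj b y)

/-! SMALLT (file `SmallTA.lean`, `thm_SmallTA (hTwo : St_Two) (hDNear : St_DNear) : St_SmallT`; the statement `St_SmallT` is in `CMX/Top.lean`).

Proof. `e` from `hDNear`; `k₀` the maximum of the `k₀` from `hDNear` and `20`. `hTwo` with `X = A₁`, `Y = A₂`: disjoint paths `p` (from `x₁` to `y₁`) and `q` (from `x₂`
to `y₂`), `x₁ ≠ x₂ ∈ A₁`, `y₁ ≠ y₂ ∈ A₂`, which have no other vertices in `A₁ ∪ A₂`. Choose `s` with `6 ≤ s ≤ k + 5` and `(|p| + |q| + s) % k = 1`, `t₁ = s / 2`, `t₂ = s - s / 2`: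
`3 ≤ t₁ ≤ t₂ ≤ (k + 6) / 2 ≤ 9 k / 10`. `hDNear` for `A₂`, `y₁`, `y₂`, `t₂`: a list `r₂`; for `A₁`, `x₂`, `x₁`, `t₁`: a list `r₁`. The cycle `p ++ r₂ ++ q.reverse ++ r₁` has
`|p| + |q| + t₁ + t₂` vertices. -/

end Pool.CMK
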