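import Pool.Agent.CMK.Defs

/-!
# CMX: the exact theorem for all large odd `k` (MP_3a51d2_co), top level statements

Overview: `/team-store/CMX_outline.md`.  Namespace `Pool.CMK` (the definitions of `CMK/Defs.lean` are used).
`ad G X X` is twice the number of edges inside `X`.
-/

set_option autoImplicit false

namespace Pool.CMK

open Finset
open scoped Classical

variable {V : Type}

/-- the outer neighbourhood of `A` -/
noncomputable def bdr [Fintype V] (G : SimpleGraph V) (A : Finset V) : Finset V :=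
  univ.filter (fun v => v ∉ A ∧ ∃ a ∈ A, G.Adj a v)

/-- fewer than `M` vertices never separate two vertices of `A` -/
def Ins [Fintype V] (G : SimpleGraph V) (A : Finset V) (M : ℕ) : Prop :=
  ∀ P Q : Finset V, Disjoint P Q → (∀ p ∈ P, ∀ q ∈ Q, ¬ G.Adj p q) → ((P ∪ Q)ᶜ).card < M →
    Disjoint A P ∨ Disjoint A Q

/-- a region: the whole graph, or a minimal set with a small boundary -/
structure Rgn [Fintype V] (G : SimpleGraph V) (k M : ℕ) (A : Finset V) : Prop where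
  ne : A.Nonempty
  bd : (bdr G A).card < 2 * M
  ins : Ins G A M
  deg : ∀ v ∈ A, k < 2 * (nbs G v univ).card
  dens : k * A.card ≤ ad G A A + 4 * M * A.card

/-- ENDL (`thm_EndL : St_EndL`).  Two ends, or no small separation.

Proof. `F` = the set of the nonempty `A` with `|bdr A| < 2 M` and `A ∪ bdr A ≠ univ`. If `F` is empty, `Ins G univ M`: let `P, Q` be as in `Ins`, both
nonempty; `bdr P ⊆ (P ∪ Q)ᶜ`, so `|bdr P| < M`, and `Q` is disjoint from `P ∪ bdr P`, so `P ∈ F`. Otherwise let `A ∈ F` and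
`B = (A ∪ bdr A)ᶜ`: `bdr B ⊆ bdr A` and `A` is disjoint from `B ∪ bdr B`, so `B ∈ F`. Let `A₁ ⊆ A`, `A₂ ⊆ B` be inclusion minimal elements of
`F`; there are no edges between them. `Ins G A₁ M`: let `P, Q` be as in `Ins`, `S' = (P ∪ Q)ᶜ`, `|S'| < M`, and suppose that `A₁` meets `P` and `Q`.
`S = bdr A₁`, `|S ∩ P| + |S ∩ Q| ≤ 2 M - 1`, so one of them, say `|S ∩ P|`, is at most `M - 1`. `A' = A₁ ∩ P` is nonempty,
`bdr A' ⊆ (S ∩ P) ∪ S'` has at most `2 M - 2` elements, `A' ∪ bdr A' ⊆ A₁ ∪ S ≠ univ`. So `A' ∈ F`, `A' ⊊ A₁` (`A₁` meets `Q`): contradiction. -/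
def St_EndL : Prop := ∀ (V : Type) [Fintype V] (G : SimpleGraph V) (M : ℕ), 1 ≤ M →
  Ins G univ M ∨ ∃ A₁ A₂ : Finset V, A₁.Nonempty ∧ A₂.Nonempty ∧ Disjoint A₁ A₂ ∧
    (∀ a ∈ A₁, ∀ b ∈ A₂, ¬ G.Adj a b) ∧ (bdr G A₁).card < 2 * M ∧ (bdr G A₂).card < 2 * M ∧
    Ins G A₁ M ∧ Ins G A₂ M

/-- TFOUR (part A).  Disjoint dense pairs of total size at least `(1 + 2 ε) k` inside a set which is not separated by few vertices. -/
def St_TFour : Prop := ∀ (ε ρ γ c : ℝ) (R : ℕ), 0 < ε → ε ≤ 1 / 10 → 0 < ρ → ρ ≤ 1 → 0 < γ →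
  256 * γ ≤ ρ → 100 * γ ≤ ε → 0 < c → ∃ M k₀ : ℕ, ∀ k ≥ k₀, Odd k → ∀ (V : Type) [Fintype V]
  (G : SimpleGraph V) (r : ℕ) (A B : Fin r → Finset V), 1 ≤ r → r ≤ R →
  (∀ j, Pr G (A j) (B j) (4 * γ) (ρ / 16) ∧ c * k ≤ ((A j).card : ℝ)) →
  (∀ i j, i ≠ j → Disjoint (A i ∪ B i) (A j ∪ B j)) →
  (1 / 2 + ε) * k ≤ ∑ j, ((A j).card : ℝ) →
  Ins G (univ.biUnion (fun j => A j ∪ B j)) M → ∃ l, CycL G l ∧ l.length % k = 1

/-- LARGE (part B).  A large region. -/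
def St_Large : Prop := ∃ C M₀ : ℕ, ∀ M ≥ M₀, ∃ k₀ : ℕ, ∀ k ≥ k₀, Odd k → ∀ (V : Type) [Fintype V]
  (G : SimpleGraph V) (A : Finset V), Rgn G k M A → C * k ≤ A.card →
  ∃ l, CycL G l ∧ l.length % k = 1

/-- MID (part C).  A region of middle size. -/
def St_Mid : Prop := ∀ (C : ℕ) (e : ℝ), 0 < e → ∃ M₀ : ℕ, ∀ M ≥ M₀, ∃ k₀ : ℕ, ∀ k ≥ k₀, Odd k →
  ∀ (V : Type) [Fintype V] (G : SimpleGraph V) (A : Finset V), Rgn G k M A →
  (1 + e) * k ≤ (A.card : ℝ) → A.card ≤ C * k → ∃ l, CycL G l ∧ l.length % k = 1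

/-- SMALLV (part D1).  The whole graph is small, hence nearly complete. -/
def St_SmallV : Prop := ∃ e : ℝ, 0 < e ∧ ∃ k₀ : ℕ, ∀ k ≥ k₀, Odd k → ∀ (V : Type) [Fintype V]
  (G : SimpleGraph V), k + 1 ≤ Fintype.card V → (Fintype.card V : ℝ) ≤ (1 + e) * k →
  k * (Fintype.card V - 1) ≤ ad G univ univ → (∀ v, k < 2 * (nbs G v univ).card) →
  ∃ l, CycL G l ∧ l.length = k + 1

/-- SMALLT (part D2).  Two small regions. -/
def St_SmallT : Prop := ∃ e : ℝ, 0 < e ∧ ∀ M : ℕ, ∃ k₀ : ℕ, ∀ k ≥ k₀, Odd k → ∀ (V : Type)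
  [Fintype V] (G : SimpleGraph V) (A₁ A₂ : Finset V), SC G 2 → Rgn G k M A₁ → Rgn G k M A₂ →
  Disjoint A₁ A₂ → (∀ a ∈ A₁, ∀ b ∈ A₂, ¬ G.Adj a b) → (A₁.card : ℝ) ≤ (1 + e) * k →
  (A₂.card : ℝ) ≤ (1 + e) * k → ∃ l, CycL G l ∧ l.length % k = 1

/-- BIG (`thm_Big (hEndL : St_EndL) (hLarge : St_Large) (hMid : St_Mid) (hSmallV : St_SmallV) (hSmallT : St_SmallT) : St_Big`).

Proof. `C, M₁` from `hLarge`; `e` = the minimum of the two `e` in `hSmallV`, `hSmallT`; `M₂` from `hMid` (`C`, `e`); `M = max M₁ M₂ + 1`; `k` large. All degrees satisfy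
`k < 2 deg` (the last assumption for `A = {v}`; `k` is odd). `hEndL` with `M`. If `Ins G univ M`: `A = univ` is a region (`bdr` is empty;
`k |V| ≤ ad + k ≤ ad + 4 M |V|`): `hLarge` if `C k ≤ |V|`, `hMid` if `(1 + e) k ≤ |V| ≤ C k`, otherwise `hSmallV` (`(k + 1) % k = 1`). If there are two ends
`A₁, A₂`: `Aᵢ` is a region: the last assumption and `ad G A Aᶜ = ad G A (bdr A) ≤ |A| |bdr A| ≤ 2 M |A|` give `dens`. If one of them satisfies
`C k ≤ |Aᵢ|` or `(1 + e) k ≤ |Aᵢ|`: `hLarge` or `hMid`; otherwise `hSmallT`. -/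
def St_Big : Prop := ∃ k₀ : ℕ, ∀ k ≥ k₀, Odd k → ∀ (V : Type) [Fintype V] (G : SimpleGraph V),
  SC G 2 → k + 1 ≤ Fintype.card V → k * (Fintype.card V - 1) ≤ ad G univ univ →
  (∀ A : Finset V, A.Nonempty → A ≠ univ → k * A.card ≤ ad G A A + 2 * ad G A Aᶜ) →
  ∃ l, CycL G l ∧ l.length % k = 1

/-- `W` is (the vertex set of) a block of `G`: a maximal connected subgraph without a cut-vertex. -/
def IsBlk (G : SimpleGraph V) (W : Set V) : Prop :=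
  Maximal (fun U : Set V => (G.induce U).Connected ∧ ∀ v ∈ U, (G.induce (U \ {v})).Preconnected) W

/-- no cycle of length `1` modulo `k` -/
def FreeM (k : ℕ) (G : SimpleGraph V) : Prop :=
  ∀ (v : V) (c : G.Walk v v), c.IsCycle → c.length % k ≠ 1

/-- FINX (part F, `thm_FinX (hBig : St_Big) : St_FinX`).  The final theorem. -/
def St_FinX : Prop := ∃ k₀ : ℕ, ∀ k ≥ k₀, Odd k → ∀ n : ℕ, k ≤ n →
  (∀ G : SimpleGraph (Fin n), FreeM k G → 2 * G.edgeSet.ncard ≤ k * (n - 1)) ∧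
  ((k - 1) ∣ (n - 1) → ∀ G : SimpleGraph (Fin n),
    (FreeM k G ∧ ∀ G' : SimpleGraph (Fin n), FreeM k G' → G'.edgeSet.ncard ≤ G.edgeSet.ncard) ↔
      (G.Connected ∧ ∀ W, IsBlk G W → Nonempty (G.induce W ≃g (⊤ : SimpleGraph (Fin k)))))

end Pool.CMK
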